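import Pool.Agent.Lib_helper3.Iso.G1
noncomputable section
namespace Iso
open MeasureTheory Real Set

/-- linear coordinates -/
def A1_lin (u v n : V) : V →ₗ[ℝ] V :=
  Matrix.toLin (EuclideanSpace.basisFun (Fin 3) ℝ).toBasis (EuclideanSpace.basisFun (Fin 3) ℝ).toBasis
    !![u 0, v 0, n 0; u 1, v 1, n 1; u 2, v 2, n 2]

theorem A1_lin_apply (u v n e : V) : A1_lin u v n e = e 0 • u + e 1 • v + e 2 • n := by
  rw [A1_lin, Matrix.toLin_apply]
  ext i
  simp only [OrthonormalBasis.coe_toBasis, EuclideanSpace.basisFun_apply, Fin.sum_univ_three,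
    PiLp.add_apply, PiLp.smul_apply, smul_eq_mul, Matrix.mulVec, dotProduct,
    OrthonormalBasis.coe_toBasis_repr_apply, EuclideanSpace.basisFun_repr]
  fin_cases i <;> simp <;> ring

theorem A1_lin_det (u v n : V) : LinearMap.det (A1_lin u v n) = det3 u v n := by
  rw [A1_lin, LinearMap.det_toLin, Matrix.det_fin_three, det3_def]
  simp
  ring

theorem A1_tri : (1 / 2 : ENNReal) ≤ volume {y : Fin 2 → ℝ | 0 < y 0 ∧ 0 < y 1 ∧ y 0 + y 1 < 1} := by
  have h1 := (volume_preserving_finTwoArrow ℝ).symm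
  have h2 : volume (regionBetween (fun _ : ℝ => (0 : ℝ)) (fun x => 1 - x) (Ioo 0 1)) = ENNReal.ofReal (1 / 2) := by
    have h3 := volume_regionBetween_eq_integral (μ := (volume : Measure ℝ)) (f := fun _ => (0:ℝ)) (g := fun x => 1 - x) (s := Ioo 0 1)
      (by
        exact (continuous_const.integrableOn_Icc (a := (0:ℝ)) (b := 1)).mono_set Ioo_subset_Icc_self)
      (by
        exact ((continuous_const.sub continuous_id).integrableOn_Icc (a := (0:ℝ)) (b := 1)).mono_set Ioo_subset_Icc_self)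
      measurableSet_Ioo (fun x hx => by simp only [mem_Ioo] at hx; linarith)
    rw [Measure.volume_eq_prod, h3]
    congr 1
    rw [← integral_Icc_eq_integral_Ioo, integral_Icc_eq_integral_Ioc, ← intervalIntegral.integral_of_le (by norm_num)]
    simp only [Pi.sub_apply, sub_zero]
    rw [intervalIntegral.integral_sub (by simp) (by simp), integral_id]
    simp
    norm_num
  have h4 : {y : Fin 2 → ℝ | 0 < y 0 ∧ 0 < y 1 ∧ y 0 + y 1 < 1} =
      (MeasurableEquiv.finTwoArrow : (Fin 2 → ℝ) ≃ᵐ ℝ × ℝ) ⁻¹'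
        (regionBetween (fun _ : ℝ => (0 : ℝ)) (fun x => 1 - x) (Ioo 0 1)) := by
    ext y
    simp only [mem_ofPred_eq, mem_preimage, regionBetween, MeasurableEquiv.finTwoArrow_apply, mem_Ioo]
    constructor
    · rintro ⟨a, b, c⟩
      exact ⟨⟨a, by linarith⟩, b, by linarith⟩
    · rintro ⟨⟨a, _⟩, b, c⟩
      exact ⟨a, b, by linarith⟩
  rw [h4, (volume_preserving_finTwoArrow ℝ).measure_preimage_equiv, h2]
  rw [ENNReal.ofReal_div_of_pos (by norm_num)]
  simp

/-- the open half prism in coordinates -/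
def A1_E : Set V := {e | 0 < e 0 ∧ 0 < e 1 ∧ e 0 + e 1 < 1 ∧ 0 < e 2}

theorem A1_E_open : IsOpen A1_E := by
  have c (i : Fin 3) : Continuous fun e : V => e i := (EuclideanSpace.proj i).continuous
  refine (isOpen_lt continuous_const (c 0)).inter ((isOpen_lt continuous_const (c 1)).inter
    ((isOpen_lt ((c 0).add (c 1)) continuous_const).inter (isOpen_lt continuous_const (c 2))))

/-- the open prism over a triangle -/
def A1_P (t : Tr) : Set V := {x : V | ∃ l m n τ : ℝ, 0 < l ∧ 0 < m ∧ 0 < n ∧ l + m + n = 1 ∧ 0 < τ ∧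
      x = l • t.1 + m • t.2.1 + n • t.2.2 + τ • nn t}

theorem A1_P_eq (t : Tr) : A1_P t = (fun z => t.1 + z) '' (A1_lin (t.2.1 - t.1) (t.2.2 - t.1) (nn t) '' A1_E) := by
  ext x
  simp only [A1_P, mem_ofPred_eq, mem_image, A1_E]
  constructor
  · rintro ⟨l, m, n, τ, hl, hm, hn, h1, hτ, rfl⟩
    refine ⟨_, ⟨!₂[m, n, τ], ⟨by simpa using hm, by simpa using hn, by simp; linarith, by simpa using hτ⟩, rfl⟩, ?_⟩
    rw [A1_lin_apply]
    have : l = 1 - m - n := by linarith
    subst this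
    simp
    module
  · rintro ⟨_, ⟨e, ⟨h0, h1, h2, h3⟩, rfl⟩, rfl⟩
    refine ⟨1 - e 0 - e 1, e 0, e 1, e 2, by linarith, h0, h1, by ring, h3, ?_⟩
    rw [A1_lin_apply]
    module

theorem A1_det {X : Finset V} {t : Tr} (ht : t ∈ T X) :
    det3 (t.2.1 - t.1) (t.2.2 - t.1) (nn t) = 2 * Fa t ∧ 0 < Fa t := by
  obtain ⟨a, b, c⟩ := t
  have hD : 0 < det3 a b c := T_pos ht
  have e1 : cr (b - a) (c - a) = cr a b + cr b c + cr c a := by
    ext i; fin_cases i <;> simp [cr] <;> ring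
  set w := cr (b - a) (c - a) with hw
  have hP : P (a, b, c) = (det3 a b c)⁻¹ • w := by rw [P, pf, e1]
  have hw0 : w ≠ 0 := by
    intro h
    exact P_ne_zero ht (by rw [hP, h, smul_zero])
  have hn : 0 < ‖w‖ := norm_pos_iff.2 hw0
  have hnn : nn (a, b, c) = ‖w‖⁻¹ • w := by
    rw [nn, hP, norm_smul, norm_inv, Real.norm_of_nonneg hD.le, smul_smul]
    congr 1
    field_simp
  have hF : Fa (a, b, c) = ‖w‖ / 2 := rfl
  refine ⟨?_, by rw [hF]; positivity⟩
  show ip (cr (b - a) (c - a)) (nn (a, b, c)) = _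
  rw [← hw, hnn, ip_smul_right, ip_self, hF]
  field_simp

theorem A1_P_open {X : Finset V} {t : Tr} (ht : t ∈ T X) : IsOpen (A1_P t) := by
  rw [A1_P_eq]
  have hd : LinearMap.det (A1_lin (t.2.1 - t.1) (t.2.2 - t.1) (nn t)) ≠ 0 := by
    rw [A1_lin_det, (A1_det ht).1]
    have := (A1_det ht).2
    positivity
  have hs : Function.Surjective (A1_lin (t.2.1 - t.1) (t.2.2 - t.1) (nn t)) :=
    (LinearEquiv.ofIsUnitDet (f := A1_lin (t.2.1 - t.1) (t.2.2 - t.1) (nn t)) (v := (EuclideanSpace.basisFun (Fin 3) ℝ).toBasis)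
      (v' := (EuclideanSpace.basisFun (Fin 3) ℝ).toBasis) (by
        rw [LinearMap.det_toMatrix]
        exact isUnit_iff_ne_zero.2 hd)).surjective
  exact (isOpenMap_add_left t.1) _ (LinearMap.isOpenMap_of_finiteDimensional _ hs _ A1_E_open)

/-- the exit time -/
theorem A1_exit {Q : Set V} (hQ : IsCompact Q) {w n : V} (hw : w ∈ Q) (hn : ‖n‖ = 1) {ε : ℝ} :
    ∃ s : ℝ, 0 ≤ s ∧ ∀ τ ∈ Ioc s (s + ε), 0 < τ ∧ w + τ • n ∈ Metric.cthickening ε Q \ Q := by
  have hcl : IsClosed {τ : ℝ | 0 ≤ τ ∧ w + τ • n ∈ Q} :=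
    isClosed_Ici.inter (hQ.isClosed.preimage (by fun_prop))
  obtain ⟨R, hR⟩ := hQ.isBounded.subset_closedBall w
  have hb : {τ : ℝ | 0 ≤ τ ∧ w + τ • n ∈ Q} ⊆ Icc 0 R := by
    rintro τ ⟨h0, h1⟩
    have := hR h1
    rw [Metric.mem_closedBall, dist_eq_norm, add_sub_cancel_left, norm_smul, hn, mul_one,
      Real.norm_of_nonneg h0] at this
    exact ⟨h0, this⟩
  have hc : IsCompact {τ : ℝ | 0 ≤ τ ∧ w + τ • n ∈ Q} := isCompact_Icc.of_isClosed_subset hcl hb
  obtain ⟨s, hs, hmax⟩ := hc.exists_isGreatest ⟨0, le_rfl, by simpa using hw⟩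
  refine ⟨s, hs.1, ?_⟩
  rintro τ ⟨h1, h2⟩
  have h0 : 0 < τ := hs.1.trans_lt h1
  refine ⟨h0, ?_, ?_⟩
  · refine Metric.mem_cthickening_of_dist_le _ _ _ _ hs.2 ?_
    rw [dist_eq_norm, add_sub_add_left_eq_sub, ← sub_smul, norm_smul, hn, mul_one,
      Real.norm_of_nonneg (by linarith)]
    linarith
  · intro h
    have := hmax (show τ ∈ {τ : ℝ | 0 ≤ τ ∧ w + τ • n ∈ Q} from ⟨h0.le, h⟩)
    linarith

/-- the volume in coordinates -/
theorem A1_fub {S : Set V} (hS : MeasurableSet S) {ε : ℝ} (hε : 0 < ε)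
    (h : ∀ y : Fin 2 → ℝ, 0 < y 0 → 0 < y 1 → y 0 + y 1 < 1 → ∃ s : ℝ, ∀ τ ∈ Ioc s (s + ε),
      (!₂[y 0, y 1, τ] : V) ∈ S) : ENNReal.ofReal (ε / 2) ≤ volume S := by
  set e1 : V ≃ᵐ (Fin 3 → ℝ) := (MeasurableEquiv.toLp 2 (Fin 3 → ℝ)).symm with he1
  set e2 := MeasurableEquiv.piFinSuccAbove (fun _ : Fin 3 => ℝ) 2 with he2
  have m1 : MeasurePreserving e1 := EuclideanSpace.volume_preserving_symm_measurableEquiv_toLp (Fin 3)
  have m2 : MeasurePreserving e2 := volume_preserving_piFinSuccAbove (fun _ : Fin 3 => ℝ) 2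
  have h1 : volume S = volume (e2.symm ⁻¹' (e1.symm ⁻¹' S)) := by
    rw [m2.symm.measure_preimage_equiv, m1.symm.measure_preimage_equiv]
  have hmem (τ : ℝ) (y : Fin 2 → ℝ) : (τ, y) ∈ e2.symm ⁻¹' (e1.symm ⁻¹' S) ↔ (!₂[y 0, y 1, τ] : V) ∈ S := by
    have : e1.symm (e2.symm (τ, y)) = !₂[y 0, y 1, τ] := by
      ext i
      fin_cases i
      · rfl
      · rfl
      · rfl
    rw [mem_preimage, mem_preimage, this]
  have hm : MeasurableSet (e2.symm ⁻¹' (e1.symm ⁻¹' S)) := e2.symm.measurable (e1.symm.measurable hS)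
  rw [h1, Measure.volume_eq_prod, Measure.prod_apply_symm hm]
  calc ENNReal.ofReal (ε / 2) = ENNReal.ofReal ε * (1 / 2) := by
        rw [ENNReal.ofReal_div_of_pos (by norm_num), ENNReal.div_eq_inv_mul, mul_comm]
        simp
    _ ≤ ENNReal.ofReal ε * volume {y : Fin 2 → ℝ | 0 < y 0 ∧ 0 < y 1 ∧ y 0 + y 1 < 1} := by
        gcongr; exact A1_tri
    _ = ∫⁻ _ in {y : Fin 2 → ℝ | 0 < y 0 ∧ 0 < y 1 ∧ y 0 + y 1 < 1}, ENNReal.ofReal ε := by
        rw [setLIntegral_const]
    _ ≤ ∫⁻ y in {y : Fin 2 → ℝ | 0 < y 0 ∧ 0 < y 1 ∧ y 0 + y 1 < 1},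
          volume ((fun x => (x, y)) ⁻¹' (e2.symm ⁻¹' (e1.symm ⁻¹' S))) := by
        refine setLIntegral_mono' ?_ ?_
        · exact ((isOpen_lt continuous_const (continuous_apply 0)).inter
            ((isOpen_lt continuous_const (continuous_apply 1)).inter
            (isOpen_lt ((continuous_apply 0).add (continuous_apply 1)) continuous_const))).measurableSet
        · rintro y ⟨h0, h1, h2⟩
          obtain ⟨s, hs⟩ := h y h0 h1 h2
          calc ENNReal.ofReal ε = volume (Ioc s (s + ε)) := by rw [Real.volume_Ioc]; congr 1; ring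
            _ ≤ _ := measure_mono fun τ hτ => (hmem τ y).2 (hs τ hτ)
    _ ≤ _ := setLIntegral_le_lintegral _ _

/-- BLOCK A1a: the prism over the face `t`, cut by a convex body `Q` containing `convexHull X`.
`prism t = {y + τ n : y in the open triangle, τ > 0}`, `n = nn t`. For `y` in the triangle the set
`{τ > 0 : y + τ n ∈ cthickening ε Q \ Q}` contains an interval of length `ε` (it starts at the exit time from `Q`).
Linear coordinates `(λ, μ, τ) ↦ a + λ(b-a) + μ(c-a) + τ n` with determinant `2 Fa t`, Fubini. -/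
theorem A1a {X : Finset V} (hX : GP X) {t : Tr} (ht : t ∈ T X) {Q : Set V} (hQ : IsCompact Q) (hc : Convex ℝ Q)
    (hsub : (X : Set V) ⊆ Q) {ε : ℝ} (hε : 0 < ε) :
    ENNReal.ofReal (Fa t * ε) ≤ volume ({x : V | ∃ l m n τ : ℝ, 0 < l ∧ 0 < m ∧ 0 < n ∧ l + m + n = 1 ∧ 0 < τ ∧
      x = l • t.1 + m • t.2.1 + n • t.2.2 + τ • nn t} ∩ (Metric.cthickening ε Q \ Q)) := by
  change _ ≤ volume (A1_P t ∩ (Metric.cthickening ε Q \ Q))
  set f := A1_lin (t.2.1 - t.1) (t.2.2 - t.1) (nn t) with hf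
  obtain ⟨hdet, hF⟩ := A1_det ht
  have hn1 : ‖nn t‖ = 1 := by
    rw [nn, norm_smul, norm_inv, norm_norm]
    exact inv_mul_cancel₀ (norm_ne_zero_iff.2 (P_ne_zero ht))
  obtain ⟨⟨ha, hb, hcc⟩, -, -⟩ := mem_T.1 ht
  set S : Set V := A1_E ∩ (fun e => t.1 + f e) ⁻¹' (Metric.cthickening ε Q \ Q) with hSdef
  have hfc : Continuous fun e => t.1 + f e := continuous_const.add (LinearMap.continuous_of_finiteDimensional f)
  have hS : MeasurableSet S := A1_E_open.measurableSet.inter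
    (hfc.measurable (Metric.isClosed_cthickening.measurableSet.diff hQ.isClosed.measurableSet))
  have hvol : ENNReal.ofReal (ε / 2) ≤ volume S := by
    refine A1_fub hS hε fun y h0 h1 h2 => ?_
    have hw : (1 - y 0 - y 1) • t.1 + y 0 • t.2.1 + y 1 • t.2.2 ∈ Q := by
      have h3 := hc.sum_mem (t := Finset.univ) (w := ![1 - y 0 - y 1, y 0, y 1]) (z := ![t.1, t.2.1, t.2.2])
        (by intro i _; fin_cases i <;> simp <;> linarith)
        (by simp [Fin.sum_univ_three]; ring)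
        (by intro i _; fin_cases i <;> simp <;> [exact hsub ha; exact hsub hb; exact hsub hcc])
      simpa [Fin.sum_univ_three] using h3
    obtain ⟨s, hs0, hs⟩ := A1_exit hQ hw hn1 (ε := ε)
    refine ⟨s, fun τ hτ => ?_⟩
    obtain ⟨g0, g1⟩ := hs τ hτ
    refine ⟨⟨by simpa using h0, by simpa using h1, by simpa using h2, by simpa using g0⟩, ?_⟩
    rw [mem_preimage]
    have : t.1 + f !₂[y 0, y 1, τ] = (1 - y 0 - y 1) • t.1 + y 0 • t.2.1 + y 1 • t.2.2 + τ • nn t := by
      rw [hf, A1_lin_apply]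
      simp
      module
    rw [this]
    exact g1
  have hsub2 : (fun z => t.1 + z) '' (f '' S) ⊆ A1_P t ∩ (Metric.cthickening ε Q \ Q) := by
    rintro _ ⟨_, ⟨e, ⟨he, he2⟩, rfl⟩, rfl⟩
    exact ⟨by rw [A1_P_eq]; exact ⟨_, ⟨e, he, rfl⟩, rfl⟩, he2⟩
  calc ENNReal.ofReal (Fa t * ε) = ENNReal.ofReal (2 * Fa t) * ENNReal.ofReal (ε / 2) := by
        rw [← ENNReal.ofReal_mul (by positivity)]; congr 1; ring
    _ ≤ ENNReal.ofReal (2 * Fa t) * volume S := by gcongr
    _ = volume (f '' S) := by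
        rw [Measure.addHaar_image_linearMap, hf, A1_lin_det, hdet, abs_of_pos (by positivity)]
    _ = volume ((fun z => t.1 + z) '' (f '' S)) := by
        rw [image_add_left, measure_preimage_add]
    _ ≤ _ := measure_mono hsub2

theorem A1_same {X : Finset V} (hX : GP X) {t t' : Tr} (ht : t ∈ T X) (ht' : t' ∈ T X) (hP : P t = P t') :
    t' = t ∨ t' = rot t ∨ t' = rot (rot t) := by
  have key : ∀ x ∈ X, ip (P t) x = 1 → x = t.1 ∨ x = t.2.1 ∨ x = t.2.2 := by
    intro x hx h1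
    by_contra hne
    push Not at hne
    have := strict hX ht hx hne.1 hne.2.1 hne.2.2
    linarith
  obtain ⟨⟨ha, hb, hc⟩, -, -⟩ := mem_T.1 ht'
  have h1 := key _ ha (by rw [hP]; exact ip_P_1 ht')
  have h2 := key _ hb (by rw [hP]; exact ip_P_2 ht')
  have h3 := key _ hc (by rw [hP]; exact ip_P_3 ht')
  have hD := T_pos ht
  have hD' := T_pos ht'
  obtain ⟨a, b, c⟩ := t
  obtain ⟨x, y, z⟩ := t'
  simp only [Dt, rot] at *
  rw [det3_def] at hD hD'
  rcases h1 with rfl | rfl | rfl <;> rcases h2 with rfl | rfl | rfl <;> rcases h3 with rfl | rfl | rfl <;>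
    first
    | (left; rfl)
    | (right; left; rfl)
    | (right; right; rfl)
    | (exfalso; linarith)

theorem A1_near {X : Finset V} {t t' : Tr} (ht : t ∈ T X) (ht' : t' ∈ T X) {x : V}
    (hx : x ∈ A1_P t) (hx' : x ∈ A1_P t') : P t = P t' := by
  have unit : ∀ s ∈ T X, ‖nn s‖ = 1 := by
    intro s hs
    rw [nn, norm_smul, norm_inv, norm_norm]
    exact inv_mul_cancel₀ (norm_ne_zero_iff.2 (P_ne_zero hs))
  have pos : ∀ s ∈ T X, 0 < ‖P s‖ := fun s hs => norm_pos_iff.2 (P_ne_zero hs)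
  obtain ⟨l, m, n, τ, hl, hm, hn, h1, hτ, rfl⟩ := hx
  obtain ⟨l', m', n', τ', hl', hm', hn', h1', hτ', he⟩ := hx'
  set y := l • t.1 + m • t.2.1 + n • t.2.2 with hy
  set y' := l' • t'.1 + m' • t'.2.1 + n' • t'.2.2 with hy'
  obtain ⟨⟨ta, tb, tc⟩, -, -⟩ := mem_T.1 ht
  obtain ⟨⟨ta', tb', tc'⟩, -, -⟩ := mem_T.1 ht'
  have e1 : ip (P t) y = 1 := by
    rw [hy, ip_add_right, ip_add_right, ip_smul_right, ip_smul_right, ip_smul_right, ip_P_1 ht, ip_P_2 ht,
      ip_P_3 ht]
    linarith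
  have e1' : ip (P t') y' = 1 := by
    rw [hy', ip_add_right, ip_add_right, ip_smul_right, ip_smul_right, ip_smul_right, ip_P_1 ht', ip_P_2 ht',
      ip_P_3 ht']
    linarith
  have e2 : ip (P t) y' ≤ 1 := by
    rw [hy', ip_add_right, ip_add_right, ip_smul_right, ip_smul_right, ip_smul_right]
    have g1 := ip_P_le ht ta'
    have g2 := ip_P_le ht tb'
    have g3 := ip_P_le ht tc'
    nlinarith
  have e2' : ip (P t') y ≤ 1 := by
    rw [hy, ip_add_right, ip_add_right, ip_smul_right, ip_smul_right, ip_smul_right]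
    have g1 := ip_P_le ht' ta
    have g2 := ip_P_le ht' tb
    have g3 := ip_P_le ht' tc
    nlinarith
  have n1 (s : Tr) (z : V) : ip (nn s) z = ‖P s‖⁻¹ * ip (P s) z := by rw [nn, ip_smul_left]
  have f1 : 0 ≤ ip (nn t) (y - y') := by
    rw [n1, ip_sub_right, e1]
    exact mul_nonneg (inv_nonneg.2 (norm_nonneg _)) (by linarith)
  have f1' : ip (nn t') (y - y') ≤ 0 := by
    rw [n1, ip_sub_right, e1']
    exact mul_nonpos_of_nonneg_of_nonpos (inv_nonneg.2 (norm_nonneg _)) (by linarith)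
  have hd : y - y' = τ' • nn t' - τ • nn t := by
    have : y + τ • nn t = y' + τ' • nn t' := he
    rw [sub_eq_sub_iff_add_eq_add, this]
    abel
  have hz : ‖y - y'‖ ^ 2 = 0 := by
    have h4 : ‖y - y'‖ ^ 2 = τ' * ip (nn t') (y - y') - τ * ip (nn t) (y - y') := by
      rw [← ip_self]
      nth_rewrite 1 [hd]
      rw [ip_sub_left, ip_smul_left, ip_smul_left]
    have h5 : τ' * ip (nn t') (y - y') ≤ 0 := mul_nonpos_of_nonneg_of_nonpos hτ'.le f1'
    have h6 : 0 ≤ τ * ip (nn t) (y - y') := mul_nonneg hτ.le f1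
    have h7 := sq_nonneg ‖y - y'‖
    linarith
  have hyy : y = y' := sub_eq_zero.1 (norm_eq_zero.1 (pow_eq_zero_iff (two_ne_zero)|>.1 hz))
  have hnn : τ • nn t = τ' • nn t' := by
    have h8 : τ' • nn t' - τ • nn t = 0 := by rw [← hd, hyy, sub_self]
    exact (sub_eq_zero.1 h8).symm
  have hττ : τ = τ' := by
    have := congrArg norm hnn
    rwa [norm_smul, norm_smul, unit t ht, unit t' ht', mul_one, mul_one, Real.norm_of_nonneg hτ.le,
      Real.norm_of_nonneg hτ'.le] at this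
  have hn : nn t = nn t' := by
    rw [← hττ] at hnn
    exact smul_right_injective V hτ.ne' hnn
  have hPn (s : Tr) (hs : s ∈ T X) : P s = ‖P s‖ • nn s := by
    rw [nn, smul_smul, mul_inv_cancel₀ (pos s hs).ne', one_smul]
  have k1 : ip (nn t) y = ‖P t‖⁻¹ := by rw [n1, e1, mul_one]
  have k2 : ip (nn t') y' = ‖P t'‖⁻¹ := by rw [n1, e1', mul_one]
  have k3 : ‖P t‖ = ‖P t'‖ := by
    rw [hn, hyy, k2] at k1
    exact (inv_injective k1).symm
  rw [hPn t ht, hPn t' ht', k3, hn]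

open Classical in
theorem A1_card {X : Finset V} (hX : GP X) (x : V) : ((T X).filter (fun t => x ∈ A1_P t)).card ≤ 3 := by
  by_cases hne : ((T X).filter (fun t => x ∈ A1_P t)).Nonempty
  · obtain ⟨t, ht⟩ := hne
    rw [Finset.mem_filter] at ht
    have : (T X).filter (fun t => x ∈ A1_P t) ⊆ {t, rot t, rot (rot t)} := by
      intro t' ht'
      rw [Finset.mem_filter] at ht'
      have := A1_same hX ht.1 ht'.1 (A1_near ht.1 ht'.1 ht.2 ht'.2)
      simpa using this
    exact (Finset.card_le_card this).trans Finset.card_le_three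
  · rw [Finset.not_nonempty_iff_eq_empty] at hne
    simp [hne]

/-- BLOCK A1: prisms of different faces are disjoint (`x = y + τ n` determines `y` as the nearest point of
`convexHull X`, and the open triangles are disjoint), so the Minkowski content of `Q` is at least `SA X`. -/
theorem A1 {X : Finset V} (hX : GP X) {Q : Set V} (hQ : IsCompact Q) (hc : Convex ℝ Q)
    (hsub : (X : Set V) ⊆ Q) {A : ℝ}
    (hA : Filter.Tendsto (fun ε : ℝ => ((volume (Metric.cthickening ε Q)).toReal - (volume Q).toReal) / ε)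
      (nhdsWithin 0 (Ioi 0)) (nhds A)) : SA X ≤ A := by
  classical
  refine ge_of_tendsto hA ?_
  filter_upwards [self_mem_nhdsWithin] with ε hε
  have hε : 0 < ε := hε
  set S := Metric.cthickening ε Q \ Q with hS
  have hSm : MeasurableSet S := Metric.isClosed_cthickening.measurableSet.diff hQ.isClosed.measurableSet
  have hfinC : volume (Metric.cthickening ε Q) ≠ ⊤ := hQ.cthickening.measure_ne_top
  have hfinQ : volume Q ≠ ⊤ := hQ.measure_ne_top
  have hfinS : volume S ≠ ⊤ := ne_top_of_le_ne_top hfinC (measure_mono sdiff_subset)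
  have h1 : ∑ t ∈ T X, ENNReal.ofReal (Fa t * ε) ≤ 3 * volume S := by
    calc ∑ t ∈ T X, ENNReal.ofReal (Fa t * ε) ≤ ∑ t ∈ T X, volume (A1_P t ∩ S) :=
          Finset.sum_le_sum fun t ht => A1a hX ht hQ hc hsub hε
      _ = ∑ t ∈ T X, ∫⁻ x in S, (A1_P t).indicator (fun _ => (1 : ENNReal)) x := by
          refine Finset.sum_congr rfl fun t ht => ?_
          rw [lintegral_indicator (A1_P_open ht).measurableSet, lintegral_one, Measure.restrict_restrict
            (A1_P_open ht).measurableSet, Measure.restrict_apply_univ]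
      _ = ∫⁻ x in S, ∑ t ∈ T X, (A1_P t).indicator (fun _ => (1 : ENNReal)) x := by
          rw [lintegral_finsetSum]
          intro t ht
          exact measurable_const.indicator (A1_P_open ht).measurableSet
      _ ≤ ∫⁻ _ in S, 3 := by
          refine lintegral_mono fun x => ?_
          have h2 : ∑ t ∈ T X, (A1_P t).indicator (fun _ => (1 : ENNReal)) x =
              (((T X).filter (fun t => x ∈ A1_P t)).card : ENNReal) := by
            simp only [indicator_apply]
            rw [Finset.sum_boole]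
          show ∑ t ∈ T X, (A1_P t).indicator (fun _ => (1 : ENNReal)) x ≤ 3
          rw [h2]
          exact_mod_cast A1_card hX x
      _ = 3 * volume S := by rw [setLIntegral_const]
  have h3 : volume S = volume (Metric.cthickening ε Q) - volume Q :=
    measure_sdiff (Metric.self_subset_cthickening Q) hQ.isClosed.measurableSet.nullMeasurableSet hfinQ
  have h4 : (∑ t ∈ T X, Fa t * ε) ≤ 3 * (volume S).toReal := by
    have h5 := ENNReal.toReal_mono (ENNReal.mul_ne_top (by norm_num) hfinS) h1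
    rw [ENNReal.toReal_mul, ENNReal.toReal_sum (fun t _ => ENNReal.ofReal_ne_top)] at h5
    simp only [ENNReal.toReal_ofNat] at h5
    refine le_trans (le_of_eq (Finset.sum_congr rfl fun t ht => ?_)) h5
    rw [ENNReal.toReal_ofReal (mul_nonneg (by have := (A1_det ht).2; linarith) hε.le)]
  rw [le_div_iff₀ hε, SA]
  rw [h3, ENNReal.toReal_sub_of_le (measure_mono (Metric.self_subset_cthickening Q)) hfinC, ← Finset.sum_mul] at h4
  linarith

end Iso

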