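import Pool.Agent.Lib_helper3.Iso.Defs
noncomputable section
namespace Iso
open MeasureTheory Real Set

/-- cylinder coordinates of the unit sphere -/
def cyl (z f : ℝ) : V := !₂[√(1 - z ^ 2) * cos f, √(1 - z ^ 2) * sin f, z]

theorem S1_meas : Measurable (fun x : V => ‖x‖⁻¹ • x) := by fun_prop

theorem S1_preimage (s : Set V) (hs : MeasurableSet s) :
    sph s = 3 * volume ((fun x : V => ‖x‖⁻¹ • x) ⁻¹' s ∩ Metric.ball (0 : V) 1) := by
  unfold sph
  rw [Measure.smul_apply, Measure.map_apply S1_meas hs, Measure.restrict_apply (S1_meas hs),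
    smul_eq_mul]

/-- BLOCK S1a: rotation invariance of the sphere measure `sph`
(Lebesgue measure and the ball are invariant and `f` commutes with `x ↦ ‖x‖⁻¹ • x`). -/
theorem S1a (f : V ≃ₗᵢ[ℝ] V) : MeasurePreserving f sph sph := by
  refine ⟨f.continuous.measurable, ?_⟩
  ext s hs
  have hfs : MeasurableSet (f ⁻¹' s) := f.continuous.measurable hs
  rw [Measure.map_apply f.continuous.measurable hs, S1_preimage _ hfs, S1_preimage _ hs]
  congr 1
  have e1 : (fun x : V => ‖x‖⁻¹ • x) ⁻¹' (f ⁻¹' s) ∩ Metric.ball (0 : V) 1 =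
      f ⁻¹' ((fun x : V => ‖x‖⁻¹ • x) ⁻¹' s ∩ Metric.ball (0 : V) 1) := by
    ext x
    simp only [Set.mem_inter_iff, Set.mem_preimage, Metric.mem_ball, dist_zero_right,
      map_smul, LinearIsometryEquiv.norm_map]
  rw [e1]
  exact f.measurePreserving.measure_preimage
    ((S1_meas hs).inter Metric.isOpen_ball.measurableSet).nullMeasurableSet

/-- BLOCK S1b -/
theorem S1b : ∀ᵐ x ∂sph, ‖x‖ = 1 := by
  have hs : MeasurableSet {x : V | ‖x‖ = 1}ᶜ :=
    (measurableSet_eq_fun measurable_norm measurable_const).compl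
  show sph {x : V | ‖x‖ = 1}ᶜ = 0
  rw [S1_preimage _ hs]
  have e1 : (fun x : V => ‖x‖⁻¹ • x) ⁻¹' {x : V | ‖x‖ = 1}ᶜ ∩ Metric.ball (0 : V) 1 ⊆ {0} := by
    intro x hx
    by_contra h
    apply hx.1
    have h0 : x ≠ 0 := h
    show ‖‖x‖⁻¹ • x‖ = 1
    rw [norm_smul, norm_inv, norm_norm, inv_mul_cancel₀ (norm_ne_zero_iff.mpr h0)]
  rw [measure_mono_null e1 (measure_singleton 0), mul_zero]

/-- BLOCK S1c: total mass 4π (volume of the unit ball is in Mathlib: `EuclideanSpace.volume_ball`...). -/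
theorem S1c : sph univ = ENNReal.ofReal (4 * π) := by
  rw [S1_preimage _ MeasurableSet.univ, Set.preimage_univ, Set.univ_inter]
  rw [EuclideanSpace.volume_ball_fin_three]
  rw [ENNReal.ofReal_one, one_pow, one_mul]
  have h3 : (3 : ENNReal) = ENNReal.ofReal 3 := by simp
  rw [h3, ← ENNReal.ofReal_mul (by norm_num)]
  congr 1
  ring

instance : IsFiniteMeasure sph := ⟨by rw [S1c]; exact ENNReal.ofReal_lt_top⟩

/-- BLOCK S1d: planes through the origin are null sets. -/
theorem S1d (n : V) (hn : n ≠ 0) : sph {x | ip n x = 0} = 0 := by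
  have hs : MeasurableSet {x : V | ip n x = 0} := by
    apply measurableSet_eq_fun _ measurable_const
    exact (continuous_const.inner continuous_id).measurable
  rw [S1_preimage _ hs]
  set W : Submodule ℝ V := LinearMap.ker (innerₛₗ ℝ n : V →ₗ[ℝ] ℝ) with hW
  have hW' : W ≠ ⊤ := by
    intro h
    have : n ∈ W := by rw [h]; trivial
    rw [hW, LinearMap.mem_ker] at this
    have h2 : inner ℝ n n = 0 := this
    rw [inner_self_eq_zero] at h2
    exact hn h2
  have e1 : (fun x : V => ‖x‖⁻¹ • x) ⁻¹' {x : V | ip n x = 0} ∩ Metric.ball (0 : V) 1 ⊆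
      (W : Set V) := by
    intro x hx
    have h1 : ip n (‖x‖⁻¹ • x) = 0 := hx.1
    by_cases h0 : x = 0
    · rw [h0]
      exact W.zero_mem
    · show inner ℝ n x = 0
      have h2 : ip n (‖x‖⁻¹ • x) = ‖x‖⁻¹ * inner ℝ n x := by
        show inner ℝ n (‖x‖⁻¹ • x) = _
        rw [inner_smul_right]
      rw [h2] at h1
      rcases mul_eq_zero.mp h1 with h | h
      · exact absurd (inv_eq_zero.mp h) (norm_ne_zero_iff.mpr h0)
      · exact h
  rw [measure_mono_null e1 (Measure.addHaar_submodule volume W hW'), mul_zero]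

end Iso
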