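import Pool.Agent.Lib_helper3.Iso.G7
import Pool.Agent.Lib_helper3.Iso.S1
noncomputable section
namespace Iso
open MeasureTheory Real Set

/-- triangle -/
theorem c3_tri (s : ℝ) (hs : 0 ≤ s) :
    volume {q : ℝ × ℝ | 0 < q.1 ∧ 0 < q.2 ∧ q.1 + q.2 < s} = ENNReal.ofReal (s ^ 2 / 2) := by
  have h1 : {q : ℝ × ℝ | 0 < q.1 ∧ 0 < q.2 ∧ q.1 + q.2 < s} =
      regionBetween (fun _ => (0 : ℝ)) (fun x => s - x) (Ioo 0 s) := by
    ext ⟨x, y⟩
    simp only [regionBetween, mem_ofPred_eq, mem_Ioo]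
    constructor
    · rintro ⟨h1, h2, h3⟩
      exact ⟨⟨h1, by linarith⟩, h2, by linarith⟩
    · rintro ⟨⟨h1, h2⟩, h3, h4⟩
      exact ⟨h1, h3, by linarith⟩
  rw [h1, Measure.volume_eq_prod, volume_regionBetween_eq_integral]
  · congr 1
    have h2 : ∫ y in Ioo 0 s, ((fun x : ℝ => s - x) - fun _ : ℝ => (0:ℝ)) y = ∫ y in (0:ℝ)..s, (s - y) := by
      rw [intervalIntegral.integral_of_le hs, ← integral_Ioc_eq_integral_Ioo]
      refine setIntegral_congr_fun measurableSet_Ioc (fun x _ => ?_)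
      simp
    rw [h2]
    rw [intervalIntegral.integral_sub (by simp) (by simp)]
    simp
    ring
  · exact integrableOn_const (by simp)
  · refine (Continuous.integrableOn_Icc (by fun_prop) : IntegrableOn (fun x : ℝ => s - x) (Icc 0 s)).mono_set Ioo_subset_Icc_self
  · exact measurableSet_Ioo
  · intro x hx
    linarith [hx.2]

/-- the standard simplex -/
def c3S : Set V := {x | 0 < x 0 ∧ 0 < x 1 ∧ 0 < x 2 ∧ x 0 + x 1 + x 2 < 1}

theorem c3S_open : IsOpen c3S := by
  have c : ∀ i : Fin 3, Continuous fun x : V => x i := fun i => by fun_prop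
  unfold c3S
  exact (isOpen_lt continuous_const (c 0)).inter ((isOpen_lt continuous_const (c 1)).inter
    ((isOpen_lt continuous_const (c 2)).inter (isOpen_lt (((c 0).add (c 1)).add (c 2)) continuous_const)))

theorem c3_volS : volume c3S = ENNReal.ofReal (1 / 6) := by
  -- to functions
  set A : Set (Fin 3 → ℝ) := {y | 0 < y 0 ∧ 0 < y 1 ∧ 0 < y 2 ∧ y 0 + y 1 + y 2 < 1} with hA
  have mA : MeasurableSet A := by
    have c : ∀ i : Fin 3, Continuous fun x : Fin 3 → ℝ => x i := fun i => by fun_prop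
    exact ((isOpen_lt continuous_const (c 0)).inter ((isOpen_lt continuous_const (c 1)).inter
      ((isOpen_lt continuous_const (c 2)).inter (isOpen_lt (((c 0).add (c 1)).add (c 2)) continuous_const)))).measurableSet
  have h1 : volume c3S = volume A := by
    rw [← (PiLp.volume_preserving_ofLp (Fin 3)).measure_preimage mA.nullMeasurableSet]
    rfl
  set B : Set (ℝ × (Fin 2 → ℝ)) := {p | 0 < p.1 ∧ 0 < p.2 0 ∧ 0 < p.2 1 ∧ p.1 + p.2 0 + p.2 1 < 1} with hB
  have mB : MeasurableSet B := by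
    have c0 : Continuous fun x : ℝ × (Fin 2 → ℝ) => x.1 := by fun_prop
    have c : ∀ i : Fin 2, Continuous fun x : ℝ × (Fin 2 → ℝ) => x.2 i := fun i => by fun_prop
    exact ((isOpen_lt continuous_const c0).inter ((isOpen_lt continuous_const (c 0)).inter
      ((isOpen_lt continuous_const (c 1)).inter (isOpen_lt ((c0.add (c 0)).add (c 1)) continuous_const)))).measurableSet
  have h2 : volume A = volume B := by
    rw [← (volume_preserving_piFinSuccAbove (fun _ : Fin 3 => ℝ) 0).measure_preimage mB.nullMeasurableSet]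
    rfl
  have h3 : ∀ p : ℝ, volume (Prod.mk p ⁻¹' B) = (Ioo (0:ℝ) 1).indicator (fun p => ENNReal.ofReal ((1 - p) ^ 2 / 2)) p := by
    intro p
    set C : Set (ℝ × ℝ) := {q | 0 < q.1 ∧ 0 < q.2 ∧ q.1 + q.2 < 1 - p} with hC
    have mC : MeasurableSet C := by
      have c0 : Continuous fun x : ℝ × ℝ => x.1 := by fun_prop
      have c1 : Continuous fun x : ℝ × ℝ => x.2 := by fun_prop
      exact ((isOpen_lt continuous_const c0).inter ((isOpen_lt continuous_const c1).inter
        (isOpen_lt (c0.add c1) continuous_const))).measurableSet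
    by_cases hp : p ∈ Ioo (0:ℝ) 1
    · rw [indicator_of_mem hp, ← c3_tri (1 - p) (by linarith [hp.2])]
      rw [← (volume_preserving_finTwoArrow ℝ).measure_preimage mC.nullMeasurableSet]
      congr 1
      ext q
      simp only [hB, hC, mem_preimage, mem_ofPred_eq, MeasurableEquiv.finTwoArrow_apply]
      constructor
      · rintro ⟨_, h2, h3, h4⟩; exact ⟨h2, h3, by linarith⟩
      · rintro ⟨h2, h3, h4⟩; exact ⟨hp.1, h2, h3, by linarith⟩
    · rw [indicator_of_notMem hp]
      have : Prod.mk p ⁻¹' B = ∅ := by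
        ext q
        simp only [hB, mem_preimage, mem_ofPred_eq, mem_empty_iff_false, iff_false]
        rintro ⟨h1, h2, h3, h4⟩
        exact hp ⟨h1, by linarith⟩
      rw [this, measure_empty]
  rw [h1, h2, Measure.volume_eq_prod, Measure.prod_apply mB]
  simp only [h3]
  rw [lintegral_indicator measurableSet_Ioo, ← ofReal_integral_eq_lintegral_ofReal]
  · congr 1
    rw [← integral_Ioc_eq_integral_Ioo, ← intervalIntegral.integral_of_le zero_le_one]
    have : ∀ x : ℝ, (1 - x) ^ 2 / 2 = (x ^ 2 - 2 * x + 1) / 2 := by intro x; ring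
    simp only [this]
    rw [intervalIntegral.integral_div, intervalIntegral.integral_add (by apply Continuous.intervalIntegrable; fun_prop) (by simp),
      intervalIntegral.integral_sub (by apply Continuous.intervalIntegrable; fun_prop) (by apply Continuous.intervalIntegrable; fun_prop), integral_pow,
      intervalIntegral.integral_const_mul, integral_id]
    simp
    norm_num
  · exact (Continuous.integrableOn_Icc (by fun_prop) : IntegrableOn (fun x : ℝ => (1 - x) ^ 2 / 2) (Icc 0 1)).mono_set Ioo_subset_Icc_self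
  · exact Filter.Eventually.of_forall (fun x => by positivity)

/-- the matrix with columns `a b c` as a linear map -/
def c3L (a b c : V) : V →ₗ[ℝ] V := Matrix.toEuclideanLin (Matrix.of ![![a 0, b 0, c 0], ![a 1, b 1, c 1], ![a 2, b 2, c 2]])

theorem c3L_det (a b c : V) : LinearMap.det (c3L a b c) = det3 a b c := by
  rw [c3L, Matrix.toEuclideanLin_eq_toLin, LinearMap.det_toLin, Matrix.det_fin_three, det3_def]
  simp
  ring

theorem c3L_apply (a b c y : V) : c3L a b c y = y 0 • a + y 1 • b + y 2 • c := by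
  ext i
  simp only [c3L, Matrix.ofLp_toEuclideanLin_apply, PiLp.add_apply, PiLp.smul_apply, smul_eq_mul]
  fin_cases i <;> simp [Matrix.mulVec, dotProduct, Fin.sum_univ_three] <;> ring

theorem c3_det_ab (a b c : V) (l m n : ℝ) : det3 a b (l • a + m • b + n • c) = n * det3 a b c := by
  simp only [det3_def, PiLp.add_apply, PiLp.smul_apply, smul_eq_mul]; ring

theorem c3_det_bc (a b c : V) (l m n : ℝ) : det3 b c (l • a + m • b + n • c) = l * det3 a b c := by
  simp only [det3_def, PiLp.add_apply, PiLp.smul_apply, smul_eq_mul]; ring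

theorem c3_det_ca (a b c : V) (l m n : ℝ) : det3 c a (l • a + m • b + n • c) = m * det3 a b c := by
  simp only [det3_def, PiLp.add_apply, PiLp.smul_apply, smul_eq_mul]; ring

/-- volume of the open tetrahedron `{αa+βb+γc : α,β,γ > 0, α+β+γ < 1}` -/
theorem vol_tet {a b c : V} (h : 0 < det3 a b c) :
    volume {x : V | 0 < det3 a b x ∧ 0 < det3 b c x ∧ 0 < det3 c a x ∧ ip (pf a b c) x < 1} =
      ENNReal.ofReal (det3 a b c / 6) := by
  have h1 : {x : V | 0 < det3 a b x ∧ 0 < det3 b c x ∧ 0 < det3 c a x ∧ ip (pf a b c) x < 1} =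
      c3L a b c '' c3S := by
    ext x
    simp only [mem_ofPred_eq, mem_image]
    constructor
    · rintro ⟨h1, h2, h3, h4⟩
      refine ⟨!₂[det3 b c x / det3 a b c, det3 c a x / det3 a b c, det3 a b x / det3 a b c], ?_, ?_⟩
      · have e : ip (pf a b c) x = det3 b c x / det3 a b c + det3 c a x / det3 a b c + det3 a b x / det3 a b c := by
          rw [pf, ip_smul_left, ip_add_left, ip_add_left]
          simp only [det3]
          field_simp
          ring
        show _ ∧ _ ∧ _ ∧ _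
        simp only [Matrix.cons_val_zero, Matrix.cons_val_one, Matrix.cons_val]
        exact ⟨by positivity, by positivity, by positivity, by rw [← e]; exact h4⟩
      · rw [c3L_apply]
        simp only [Matrix.cons_val_zero, Matrix.cons_val_one, Matrix.cons_val]
        exact (expand h.ne' x).symm
    · rintro ⟨y, ⟨h1, h2, h3, h4⟩, rfl⟩
      rw [c3L_apply, c3_det_ab, c3_det_bc, c3_det_ca]
      refine ⟨by positivity, by positivity, by positivity, ?_⟩
      rw [ip_add_right, ip_add_right, ip_smul_right, ip_smul_right, ip_smul_right,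
        ip_pf_fst h.ne', ip_pf_snd h.ne', ip_pf_trd h.ne']
      linarith
  rw [h1, Measure.addHaar_image_linearMap, c3L_det, c3_volS, abs_of_pos h,
    ← ENNReal.ofReal_mul h.le]
  congr 1; ring

theorem c3_det3_cont (a b : V) : Continuous fun x : V => det3 a b x := by
  unfold det3
  exact continuous_const.inner continuous_id

theorem c3_Cone_open (t : Tr) : IsOpen (Cone t) := by
  unfold Cone
  exact ((isOpen_lt continuous_const (c3_det3_cont _ _)).inter
    ((isOpen_lt continuous_const (c3_det3_cont _ _)).inter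
      (isOpen_lt continuous_const (c3_det3_cont _ _))))

theorem c3_det3_smul (a b x : V) (r : ℝ) : det3 a b (r • x) = r * det3 a b x := by
  simp only [det3, ip_smul_right]

theorem c3_Cone_smul (t : Tr) {r : ℝ} (hr : 0 < r) (x : V) : r • x ∈ Cone t ↔ x ∈ Cone t := by
  simp only [Cone, mem_ofPred_eq, c3_det3_smul, mul_pos_iff_of_pos_left hr]

theorem c3_Cone_zero (t : Tr) : (0 : V) ∉ Cone t := by
  intro h
  have := h.1
  simp [det3, ip] at this

/-- the sphere measure of a cone is three times the volume in the ball -/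
theorem c3_sph (t : Tr) : sph (Cone t) = 3 * volume (Metric.ball (0 : V) 1 ∩ Cone t) := by
  have hm : Measurable (fun x : V => ‖x‖⁻¹ • x) := by fun_prop
  rw [sph, Measure.smul_apply, Measure.map_apply hm (c3_Cone_open t).measurableSet,
    Measure.restrict_apply (hm (c3_Cone_open t).measurableSet), smul_eq_mul]
  congr 2
  ext x
  simp only [mem_inter_iff, mem_preimage]
  rw [and_comm]
  refine and_congr_right (fun _ => ?_)
  by_cases hx : x = 0
  · subst hx; simp [c3_Cone_zero]
  · exact c3_Cone_smul t (by positivity) x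

open Pointwise in
theorem c3_ball (t : Tr) {r : ℝ} (hr : 0 < r) : volume (Metric.ball (0 : V) r ∩ Cone t) =
    ENNReal.ofReal (r ^ 3) * volume (Metric.ball (0 : V) 1 ∩ Cone t) := by
  have h1 : Metric.ball (0 : V) r ∩ Cone t = r • (Metric.ball (0 : V) 1 ∩ Cone t) := by
    ext x
    rw [mem_smul_set_iff_inv_smul_mem₀ hr.ne']
    simp only [mem_inter_iff, mem_ball_zero_iff]
    rw [c3_Cone_smul t (by positivity), norm_smul, norm_inv, Real.norm_eq_abs, abs_of_pos hr,
      inv_mul_lt_iff₀ hr, mul_one]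
  rw [h1, Measure.addHaar_smul]
  congr 2
  rw [finrank_euclideanSpace, Fintype.card_fin, abs_of_pos (by positivity)]

/-- BLOCK C3: solid angle against volume. `sph (Cone t) = 3 vol (Cone t ∩ B)` and
`(1-δ)B ∩ Cone t ⊆ tetrahedron ⊆ (1+δ)B ∩ Cone t` up to null sets; `3 vol tetrahedron = Dt t/2`. -/
theorem C3 {X : Finset V} {δ : ℝ} (h0 : 0 ≤ δ) (h1 : δ < 1) (hX : NB X δ) {t : Tr} (ht : t ∈ T X) :
    (1 - δ) ^ 3 * (sph (Cone t)).toReal ≤ Dt t / 2 ∧ Dt t / 2 ≤ (1 + δ) ^ 3 * (sph (Cone t)).toReal := by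
  obtain ⟨a, b, c⟩ := t
  have hD : 0 < det3 a b c := T_pos ht
  set Te : Set V := {x : V | 0 < det3 a b x ∧ 0 < det3 b c x ∧ 0 < det3 c a x ∧ ip (pf a b c) x < 1} with hTe
  have hvol : volume Te = ENNReal.ofReal (det3 a b c / 6) := vol_tet hD
  set v := volume (Metric.ball (0 : V) 1 ∩ Cone (a, b, c)) with hv
  have hvf : v ≠ ⊤ := by
    refine ne_top_of_le_ne_top ?_ (measure_mono inter_subset_left)
    exact measure_ball_lt_top.ne
  have hs : (sph (Cone (a, b, c))).toReal = 3 * v.toReal := by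
    rw [c3_sph]; simp [hv]
  have hP : 0 < ‖P (a, b, c)‖ := norm_pos_iff.2 (P_ne_zero ht)
  have k1 : Metric.ball (0 : V) (1 - δ) ∩ Cone (a, b, c) ⊆ Te := by
    rintro x ⟨hx1, hx2⟩
    rw [mem_ball_zero_iff] at hx1
    refine ⟨hx2.1, hx2.2.1, hx2.2.2, ?_⟩
    have hlo := hX.lo _ ht
    calc ip (pf a b c) x ≤ ‖P (a, b, c)‖ * ‖x‖ := real_inner_le_norm _ _
      _ < ‖P (a, b, c)‖ * (1 - δ) := by gcongr
      _ ≤ 1 := by rw [mul_comm]; exact hlo
  have k2 : Te ⊆ Metric.ball (0 : V) (1 + δ) ∩ Cone (a, b, c) := by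
    rintro x ⟨g1, g2, g3, g4⟩
    refine ⟨?_, g1, g2, g3⟩
    rw [mem_ball_zero_iff]
    obtain ⟨⟨m1, m2, m3⟩, -, -⟩ := mem_T.1 ht
    have e : ip (pf a b c) x = det3 b c x / det3 a b c + det3 c a x / det3 a b c + det3 a b x / det3 a b c := by
      rw [pf, ip_smul_left, ip_add_left, ip_add_left]
      simp only [det3]
      field_simp
      ring
    have hpos : 0 < det3 b c x / det3 a b c + det3 c a x / det3 a b c + det3 a b x / det3 a b c := by positivity
    calc ‖x‖ = ‖(det3 b c x / det3 a b c) • a + (det3 c a x / det3 a b c) • b + (det3 a b x / det3 a b c) • c‖ := by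
          rw [← expand hD.ne' x]
      _ ≤ ‖(det3 b c x / det3 a b c) • a‖ + ‖(det3 c a x / det3 a b c) • b‖ + ‖(det3 a b x / det3 a b c) • c‖ :=
          norm_add₃_le
      _ = (det3 b c x / det3 a b c) * ‖a‖ + (det3 c a x / det3 a b c) * ‖b‖ + (det3 a b x / det3 a b c) * ‖c‖ := by
          rw [norm_smul, norm_smul, norm_smul, Real.norm_of_nonneg (by positivity), Real.norm_of_nonneg (by positivity),
            Real.norm_of_nonneg (by positivity)]
      _ ≤ (det3 b c x / det3 a b c) * (1 + δ) + (det3 c a x / det3 a b c) * (1 + δ) + (det3 a b x / det3 a b c) * (1 + δ) := by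
          have := hX.up _ m1; have := hX.up _ m2; have := hX.up _ m3
          simp only at *
          gcongr
      _ = ip (pf a b c) x * (1 + δ) := by rw [e]; ring
      _ < 1 * (1 + δ) := by gcongr
      _ = 1 + δ := one_mul _
  have i1 := measure_mono (μ := volume) k1
  have i2 := measure_mono (μ := volume) k2
  rw [c3_ball _ (by linarith), hvol, ← hv] at i1
  rw [c3_ball _ (by linarith), hvol, ← hv] at i2
  have j1 : (1 - δ) ^ 3 * v.toReal ≤ det3 a b c / 6 := by
    have := ENNReal.toReal_mono ENNReal.ofReal_ne_top i1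
    rwa [ENNReal.toReal_mul, ENNReal.toReal_ofReal (pow_nonneg (by linarith) 3),
      ENNReal.toReal_ofReal (by positivity)] at this
  have j2 : det3 a b c / 6 ≤ (1 + δ) ^ 3 * v.toReal := by
    have := ENNReal.toReal_mono (ENNReal.mul_ne_top ENNReal.ofReal_ne_top hvf) i2
    rwa [ENNReal.toReal_mul, ENNReal.toReal_ofReal (by positivity : (0:ℝ) ≤ (1 + δ) ^ 3),
      ENNReal.toReal_ofReal (by positivity)] at this
  rw [hs]
  show _ ≤ det3 a b c / 2 ∧ det3 a b c / 2 ≤ _
  constructor <;> nlinarith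

theorem c3_cone_bounds {X : Finset V} {δ : ℝ} (h0 : 0 ≤ δ) (hX : NB X δ) {t : Tr} (ht : t ∈ T X) {x : V}
    (hx : x ∈ Cone t) : ‖x‖ ≤ ip (P t) x * (1 + δ) := by
  obtain ⟨a, b, c⟩ := t
  have hD : 0 < det3 a b c := T_pos ht
  obtain ⟨g1, g2, g3⟩ := hx
  simp only at g1 g2 g3
  obtain ⟨⟨m1, m2, m3⟩, -, -⟩ := mem_T.1 ht
  have e : ip (pf a b c) x = det3 b c x / det3 a b c + det3 c a x / det3 a b c + det3 a b x / det3 a b c := by
    rw [pf, ip_smul_left, ip_add_left, ip_add_left]
    simp only [det3]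
    field_simp
    ring
  calc ‖x‖ = ‖(det3 b c x / det3 a b c) • a + (det3 c a x / det3 a b c) • b + (det3 a b x / det3 a b c) • c‖ := by
        rw [← expand hD.ne' x]
    _ ≤ ‖(det3 b c x / det3 a b c) • a‖ + ‖(det3 c a x / det3 a b c) • b‖ + ‖(det3 a b x / det3 a b c) • c‖ :=
        norm_add₃_le
    _ = (det3 b c x / det3 a b c) * ‖a‖ + (det3 c a x / det3 a b c) * ‖b‖ + (det3 a b x / det3 a b c) * ‖c‖ := by
        rw [norm_smul, norm_smul, norm_smul, Real.norm_of_nonneg (by positivity), Real.norm_of_nonneg (by positivity),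
          Real.norm_of_nonneg (by positivity)]
    _ ≤ (det3 b c x / det3 a b c) * (1 + δ) + (det3 c a x / det3 a b c) * (1 + δ) + (det3 a b x / det3 a b c) * (1 + δ) := by
        have := hX.up _ m1; have := hX.up _ m2; have := hX.up _ m3
        simp only at *
        gcongr
    _ = ip (pf a b c) x * (1 + δ) := by rw [e]; ring

/-- BLOCK C4: directions in the cone are close to the normal. `x = s y`, `y` in the face, `hh ≤ ‖y‖ ≤ 1+δ`,
`ip (nn t) x = hh/‖y‖ ≥ (1-δ)/(1+δ)`. -/
theorem C4 {X : Finset V} {δ : ℝ} (h0 : 0 ≤ δ) (h1 : δ ≤ 1 / 4) (hX : NB X δ) {t : Tr} (ht : t ∈ T X) {x : V}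
    (hx : x ∈ Cone t) (hx1 : ‖x‖ = 1) : ‖x - nn t‖ ≤ 2 * √δ ∧ ‖x - P t‖ ≤ 4 * √δ := by
  have hb := c3_cone_bounds h0 hX ht hx
  rw [hx1] at hb
  have hP : 0 < ‖P t‖ := norm_pos_iff.2 (P_ne_zero ht)
  have hlo := hX.lo _ ht
  have hipP : ip (P t) x ≤ ‖P t‖ := by
    have := real_inner_le_norm (P t) x
    rwa [hx1, mul_one] at this
  have hnn1 : ‖nn t‖ = 1 := by
    rw [nn, norm_smul, norm_inv, norm_norm, inv_mul_cancel₀ hP.ne']
  have hipn : ip x (nn t) = ‖P t‖⁻¹ * ip (P t) x := by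
    rw [nn, ip_smul_right, ip_comm]
  -- 1/(1+δ) ≤ ip P x
  have hk : (1 - δ) ≤ ip x (nn t) * (1 + δ) := by
    rw [hipn, mul_assoc, ← div_eq_inv_mul, le_div_iff₀ hP]
    linarith
  have hsq : ‖x - nn t‖ ^ 2 ≤ 4 * δ := by
    have e : ‖x - nn t‖ ^ 2 = 2 - 2 * ip x (nn t) := by
      rw [norm_sub_sq_real, hx1, hnn1]; ring
    have h2 : ip x (nn t) ≤ 1 := by
      have := real_inner_le_norm x (nn t)
      rwa [hx1, hnn1, mul_one] at this
    rw [e]
    nlinarith
  have hs0 : 0 ≤ √δ := Real.sqrt_nonneg _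
  have hss : √δ * √δ = δ := Real.mul_self_sqrt h0
  have c1 : ‖x - nn t‖ ≤ 2 * √δ := by
    have : ‖x - nn t‖ ^ 2 ≤ (2 * √δ) ^ 2 := by nlinarith
    exact le_of_sq_le_sq this (by positivity)
  refine ⟨c1, ?_⟩
  have hs1 : √δ ≤ 1 / 2 := by
    rw [show (1:ℝ)/2 = √(1/4) by rw [show (1:ℝ)/4 = (1/2)^2 by norm_num, Real.sqrt_sq (by norm_num)]]
    exact Real.sqrt_le_sqrt h1
  have c2 : ‖nn t - P t‖ = |1 - ‖P t‖| := by
    have e : nn t - P t = (‖P t‖⁻¹ - 1) • P t := by rw [nn, sub_smul, one_smul]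
    rw [e, norm_smul, Real.norm_eq_abs]
    nth_rewrite 2 [← abs_of_pos hP]
    rw [← abs_mul]
    congr 1
    field_simp
  have c3 : |1 - ‖P t‖| ≤ 4 / 3 * δ := by
    rw [abs_le]
    constructor
    · nlinarith
    · nlinarith
  calc ‖x - P t‖ = ‖(x - nn t) + (nn t - P t)‖ := by congr 1; abel
    _ ≤ ‖x - nn t‖ + ‖nn t - P t‖ := norm_add_le _ _
    _ ≤ 2 * √δ + 4 / 3 * δ := by rw [c2]; exact add_le_add c1 c3
    _ ≤ 4 * √δ := by nlinarith

/-- BLOCK C5: heights -/
theorem C5 {X : Finset V} {δ : ℝ} (h0 : 0 ≤ δ) (h1 : δ < 1) (hX : NB X δ) {t : Tr} (ht : t ∈ T X) :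
    1 - δ ≤ hh t ∧ hh t ≤ 1 + δ ∧ 0 < Fa t := by
  have hP : 0 < ‖P t‖ := norm_pos_iff.2 (P_ne_zero ht)
  have hlo := hX.lo _ ht
  refine ⟨?_, ?_, ?_⟩
  · rw [hh, ← one_div, le_div_iff₀ hP]; exact hlo
  · rw [hh, inv_le_comm₀ hP (by linarith), ← one_div, div_le_iff₀ (by linarith)]
    have h2 := real_inner_le_norm (P t) t.1
    have h3 : ip (P t) t.1 = 1 := ip_P_1 ht
    have h4 : inner ℝ (P t) t.1 = ip (P t) t.1 := rfl
    rw [h4, h3] at h2
    have h5 := hX.up _ (mem_T.1 ht).1.1
    nlinarith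
  · have hne : cr (t.2.1 - t.1) (t.2.2 - t.1) ≠ 0 := by
      have e : cr (t.2.1 - t.1) (t.2.2 - t.1) = Dt t • P t := by
        have hD : det3 t.1 t.2.1 t.2.2 ≠ 0 := (T_pos ht).ne'
        rw [P, pf, smul_smul, Dt, mul_inv_cancel₀ hD, one_smul]
        ext i
        fin_cases i <;> simp <;> ring
      rw [e]
      exact smul_ne_zero (T_pos ht).ne' (P_ne_zero ht)
    rw [Fa]
    have := norm_pos_iff.2 hne
    positivity

end Iso
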