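import Pool.Agent.Lib_helper3.Iso.G5
import Pool.Agent.Lib_helper3.Iso.C3
noncomputable section
namespace Iso
open MeasureTheory Real Set

/-! ### auxiliary facts (block A2, helper25) -/

theorem A2_closed (X : Finset V) : IsClosed (convexHull ℝ (X : Set V)) :=
  (Set.Finite.isCompact_convexHull (𝕜 := ℝ) X.finite_toSet).isClosed

theorem A2_zero_mem {X : Finset V} (hX : GP X) : (0 : V) ∈ convexHull ℝ (X : Set V) := by
  by_contra h0
  have hc : IsClosed (convexHull ℝ (X : Set V)) := A2_closed X
  obtain ⟨f, u, hf0, hfu⟩ := geometric_hahn_banach_point_closed (convex_convexHull ℝ (X : Set V)) hc h0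
  -- the functional `f` is an inner product
  set w : V := (InnerProductSpace.toDual ℝ V).symm f with hw
  have hfw : ∀ x, f x = ip w x := by
    intro x
    rw [hw, ip, InnerProductSpace.toDual_symm_apply]
  have hpos : ∀ x ∈ X, 0 < ip w x := by
    intro x hx
    rw [← hfw]
    have h1 := hfu x (subset_convexHull ℝ _ hx)
    rw [map_zero] at hf0
    linarith
  have hw0 : -w ≠ 0 := by
    intro h
    obtain ⟨x, hx, _⟩ := hX.pos (EuclideanSpace.single 0 1) (by simp)
    have h2 := hpos x hx
    rw [neg_eq_zero] at h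
    rw [h] at h2
    simp [ip] at h2
  obtain ⟨x, hx, hx1⟩ := hX.pos (-w) hw0
  have h2 := hpos x hx
  have h3 : ip (-w) x = -ip w x := by simp [ip]
  linarith

/-- the open tetrahedron over a face -/
def A2_tet (t : Tr) : Set V :=
  {x : V | 0 < det3 t.1 t.2.1 x ∧ 0 < det3 t.2.1 t.2.2 x ∧ 0 < det3 t.2.2 t.1 x ∧ ip (P t) x < 1}

theorem A2_tet_vol {X : Finset V} {t : Tr} (ht : t ∈ T X) :
    volume (A2_tet t) = ENNReal.ofReal (Dt t / 6) := vol_tet (T_pos ht)

theorem A2_tet_iff {t : Tr} {x : V} : x ∈ A2_tet t ↔ x ∈ Cone t ∧ ip (P t) x < 1 := by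
  simp only [A2_tet, Cone, mem_ofPred_eq]
  tauto

/-- a point of the cone of `t` with `ip (P t) x ≤ 1` is in the convex hull -/
theorem A2_cone {X : Finset V} (hX : GP X) {t : Tr} (ht : t ∈ T X) {x : V} (hx : x ∈ Cone t)
    (h1 : ip (P t) x ≤ 1) : x ∈ convexHull ℝ (X : Set V) := by
  obtain ⟨c1, c2, c3⟩ := hx
  have hd := T_pos ht
  have hd' : 0 < det3 t.1 t.2.1 t.2.2 := hd
  have hm := (mem_T.1 ht).1
  have he := expand hd'.ne' x
  set α := det3 t.2.1 t.2.2 x / det3 t.1 t.2.1 t.2.2 with hα
  set β := det3 t.2.2 t.1 x / det3 t.1 t.2.1 t.2.2 with hβ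
  set γ := det3 t.1 t.2.1 x / det3 t.1 t.2.1 t.2.2 with hγ
  have a1 : 0 ≤ α := (div_pos c2 hd').le
  have a2 : 0 ≤ β := (div_pos c3 hd').le
  have a3 : 0 ≤ γ := (div_pos c1 hd').le
  have hs : ip (P t) x = α + β + γ := by
    conv_lhs => rw [he]
    rw [ip_add_right, ip_add_right, ip_smul_right, ip_smul_right, ip_smul_right, ip_P_1 ht,
      ip_P_2 ht, ip_P_3 ht]
    ring
  have hcv := convex_convexHull ℝ (X : Set V)
  have m1 := subset_convexHull ℝ (X : Set V) hm.1
  have m2 := subset_convexHull ℝ (X : Set V) hm.2.1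
  have m3 := subset_convexHull ℝ (X : Set V) hm.2.2
  have m0 := A2_zero_mem hX
  rw [hs] at h1
  -- combination of four points
  have key := hcv.sum_mem (t := (Finset.univ : Finset (Fin 4)))
    (w := ![α, β, γ, 1 - (α + β + γ)]) (z := ![t.1, t.2.1, t.2.2, 0]) (by
      intro i _
      fin_cases i
      · exact a1
      · exact a2
      · exact a3
      · show 0 ≤ 1 - (α + β + γ)
        linarith) (by
      simp [Fin.sum_univ_four]) (by
      intro i _
      fin_cases i
      · exact m1
      · exact m2
      · exact m3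
      · exact m0)
  have h4 : (∑ i : Fin 4, ![α, β, γ, 1 - (α + β + γ)] i • ![t.1, t.2.1, t.2.2, 0] i : V) = x := by
    simp only [Fin.sum_univ_four]
    show α • t.1 + β • t.2.1 + γ • t.2.2 + (1 - (α + β + γ)) • (0 : V) = x
    rw [smul_zero, add_zero]
    exact he.symm
  rwa [h4] at key

/-- the exceptional planes -/
def A2_bad (X : Finset V) : Set V :=
  ⋃ a ∈ (X : Set V), ⋃ b ∈ (X : Set V), {x : V | cr a b ≠ 0 ∧ ip (cr a b) x = 0}

theorem A2_plane (n : V) (hn : n ≠ 0) (c : ℝ) : volume {x : V | ip n x = c} = 0 := by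
  set S : Submodule ℝ V := LinearMap.ker (innerSL ℝ n).toLinearMap with hS
  have hSt : S ≠ ⊤ := by
    intro h
    have h1 : n ∈ S := by rw [h]; trivial
    rw [hS, LinearMap.mem_ker] at h1
    have h2 : inner ℝ n n = (0 : ℝ) := h1
    exact hn (inner_self_eq_zero.1 h2)
  have h0 : volume (S : Set V) = 0 := Measure.addHaar_submodule volume S hSt
  by_cases hne : ∃ x₀ : V, ip n x₀ = c
  · obtain ⟨x₀, hx₀⟩ := hne
    have h1 : {x : V | ip n x = c} ⊆ (fun x => x + (-x₀)) ⁻¹' (S : Set V) := by
      intro x hx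
      have hx' : ip n x = c := hx
      show x + (-x₀) ∈ S
      rw [hS, LinearMap.mem_ker]
      show inner ℝ n (x + (-x₀)) = (0 : ℝ)
      have h2 : ip n (x + (-x₀)) = 0 := by
        rw [← sub_eq_add_neg, ip_sub_right, hx', hx₀, sub_self]
      exact h2
    refine measure_mono_null h1 ?_
    rw [measure_preimage_add_right]
    exact h0
  · have : {x : V | ip n x = c} = ∅ := by
      ext x
      simp only [mem_ofPred_eq, mem_empty_iff_false, iff_false]
      exact fun h => hne ⟨x, h⟩
    rw [this, measure_empty]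

theorem A2_bad_null (X : Finset V) : volume (A2_bad X) = 0 := by
  unfold A2_bad
  rw [measure_biUnion_null_iff X.countable_toSet]
  intro a _
  rw [measure_biUnion_null_iff X.countable_toSet]
  intro b _
  by_cases h : cr a b = 0
  · simp [h]
  · exact measure_mono_null (fun x hx => hx.2) (A2_plane (cr a b) h 0)

theorem A2_good {X : Finset V} (hX : GP X) {x : V} (hx0 : x ≠ 0) (hx : x ∉ A2_bad X) :
    ∃ t ∈ T X, x ∈ Cone t := by
  refine G5 hX x hx0 fun a ha b hb hab h0 => hx ?_
  simp only [A2_bad, mem_iUnion]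
  exact ⟨a, ha, b, hb, hab, h0⟩

theorem A2_hull_le {X : Finset V} {t : Tr} (ht : t ∈ T X) {x : V}
    (hx : x ∈ convexHull ℝ (X : Set V)) : ip (P t) x ≤ 1 := by
  have hc : Convex ℝ {x : V | ip (P t) x ≤ 1} := by
    intro y hy z hz a b ha hb hab
    simp only [mem_ofPred_eq] at hy hz ⊢
    rw [ip_add_right, ip_smul_right, ip_smul_right]
    nlinarith
  exact convexHull_min (fun y hy => ip_P_le ht hy) hc hx

/-- BLOCK A2b: the polytope is given by its faces. -/
theorem A2b {X : Finset V} (hX : GP X) : convexHull ℝ (X : Set V) = {x | ∀ t ∈ T X, ip (P t) x ≤ 1} := by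
  apply Subset.antisymm
  · intro x hx t ht
    exact A2_hull_le ht hx
  · intro x hx
    have hcl : IsClosed (convexHull ℝ (X : Set V)) := A2_closed X
    -- the open polytope
    set O : Set V := {x | ∀ t ∈ T X, ip (P t) x < 1} with hO
    have hOo : IsOpen O := by
      have : O = ⋂ t ∈ T X, {x | ip (P t) x < 1} := by
        ext y; simp [hO]
      rw [this]
      refine isOpen_biInter_finset fun t _ => ?_
      exact isOpen_lt (continuous_const.inner continuous_id) continuous_const
    -- generic points of O are in the hull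
    have hgen : O \ (A2_bad X ∪ {0}) ⊆ convexHull ℝ (X : Set V) := by
      intro y hy
      obtain ⟨h1, h2⟩ := hy
      rw [mem_union, not_or] at h2
      obtain ⟨t, ht, htc⟩ := A2_good hX h2.2 h2.1
      exact A2_cone hX ht htc (h1 t ht).le
    have hnull : volume (A2_bad X ∪ {(0 : V)}) = 0 :=
      measure_union_null (A2_bad_null X) (measure_singleton _)
    have hdense : Dense (A2_bad X ∪ {(0 : V)})ᶜ := by
      apply Measure.dense_of_ae (μ := (volume : Measure V))
      exact measure_eq_zero_iff_ae_notMem.1 hnull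
    have hOsub : O ⊆ convexHull ℝ (X : Set V) := by
      intro y hy
      rw [← hcl.closure_eq]
      refine closure_mono hgen ?_
      exact (hdense.open_subset_closure_inter hOo) hy
    -- scaling
    have hlim : Filter.Tendsto (fun s : ℝ => s • x) (nhdsWithin 1 (Ioo 0 1)) (nhds x) := by
      have h1 : Filter.Tendsto (fun s : ℝ => s • x) (nhds 1) (nhds ((1 : ℝ) • x)) :=
        (continuous_id.smul continuous_const).tendsto 1
      rw [one_smul] at h1
      exact h1.mono_left nhdsWithin_le_nhds
    have hne : (nhdsWithin (1 : ℝ) (Ioo 0 1)).NeBot := by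
      rw [← mem_closure_iff_nhdsWithin_neBot, closure_Ioo (by norm_num)]
      exact ⟨zero_le_one, le_rfl⟩
    refine hcl.mem_of_tendsto hlim ?_
    filter_upwards [self_mem_nhdsWithin] with s hs
    apply hOsub
    intro t ht
    rw [ip_smul_right]
    have := hx t ht
    by_cases h0 : ip (P t) x ≤ 0
    · nlinarith [hs.1, hs.2]
    · push Not at h0
      nlinarith [hs.1, hs.2]

theorem A2_ne {X : Finset V} {t : Tr} (ht : t ∈ T X) : t ≠ rot t ∧ t ≠ rot (rot t) ∧
    rot t ≠ rot (rot t) := by
  have hd := T_pos ht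
  obtain ⟨a, b, c⟩ := t
  have hd' : 0 < det3 a b c := hd
  have hab : a ≠ b := by
    rintro rfl
    rw [det3_def] at hd'
    ring_nf at hd'
    exact lt_irrefl _ hd'
  have hac : a ≠ c := by
    rintro rfl
    rw [det3_def] at hd'
    ring_nf at hd'
    exact lt_irrefl _ hd'
  have hbc : b ≠ c := by
    rintro rfl
    rw [det3_def] at hd'
    ring_nf at hd'
    exact lt_irrefl _ hd'
  simp only [rot, ne_eq, Prod.mk.injEq, not_and]
  exact ⟨fun h => absurd h hab, fun h => absurd h hac, fun h => absurd h hbc⟩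

theorem A2_tet_rot (t : Tr) : A2_tet (rot t) = A2_tet t := by
  ext x
  rw [A2_tet_iff, A2_tet_iff, Cone_rot, P_rot]

/-- BLOCK A2: volume of the polytope = sum of the tetrahedra `0abc` over the faces (G5, G5c, `vol_tet`; a point of the
cone of `t` lies in `convexHull X` iff `ip (P t) x ≤ 1`). -/
theorem A2 {X : Finset V} (hX : GP X) : (volume (convexHull ℝ (X : Set V))).toReal = VO X := by
  classical
  have hcl : IsClosed (convexHull ℝ (X : Set V)) := A2_closed X
  have hmC : MeasurableSet (convexHull ℝ (X : Set V)) := hcl.measurableSet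
  have hc : ∀ n : V, Continuous fun x : V => ip n x := fun n => continuous_const.inner continuous_id
  have hdet : ∀ a b : V, Continuous fun x : V => det3 a b x := fun a b => hc (cr a b)
  have hmT : ∀ t : Tr, MeasurableSet (A2_tet t) := by
    intro t
    have h1 : IsOpen (A2_tet t) := by
      unfold A2_tet
      exact ((isOpen_lt continuous_const (hdet _ _)).inter
        ((isOpen_lt continuous_const (hdet _ _)).inter
        ((isOpen_lt continuous_const (hdet _ _)).inter (isOpen_lt (hc _) continuous_const))))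
    exact h1.measurableSet
  -- the faces
  have hnull2 : ∀ᵐ x : V, ∀ t ∈ T X, ip (P t) x ≠ 1 := by
    rw [Filter.eventually_all_finset]
    intro t ht
    have := A2_plane (P t) (P_ne_zero ht) 1
    rw [measure_eq_zero_iff_ae_notMem] at this
    exact this
  have hnull1 : ∀ᵐ x : V, x ∉ A2_bad X := measure_eq_zero_iff_ae_notMem.1 (A2_bad_null X)
  have hnull0 : ∀ᵐ x : V, x ≠ 0 := by
    have : volume ({0} : Set V) = 0 := measure_singleton _
    rw [measure_eq_zero_iff_ae_notMem] at this
    exact this
  have key : ∑ t ∈ T X, volume (A2_tet t) = 3 * volume (convexHull ℝ (X : Set V)) := by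
    have e1 : ∀ t ∈ T X, volume (A2_tet t) = ∫⁻ x : V, (A2_tet t).indicator 1 x := by
      intro t _
      rw [lintegral_indicator_one (hmT t)]
    rw [Finset.sum_congr rfl e1, ← lintegral_finsetSum _ (fun t _ => (measurable_one.indicator (hmT t))),
      ← lintegral_indicator_one hmC, ← lintegral_const_mul _ (measurable_one.indicator hmC)]
    refine lintegral_congr_ae ?_
    filter_upwards [hnull0, hnull1, hnull2] with x h0 h1 h2
    by_cases hx : x ∈ convexHull ℝ (X : Set V)
    · rw [indicator_of_mem hx]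
      obtain ⟨t, ht, htc⟩ := A2_good hX h0 h1
      have h3 : ip (P t) x < 1 := lt_of_le_of_ne (A2_hull_le ht hx) (h2 t ht)
      have h4 : x ∈ A2_tet t := A2_tet_iff.2 ⟨htc, h3⟩
      have h5 : ∀ t' ∈ T X, (x ∈ A2_tet t' ↔ t' ∈ ({t, rot t, rot (rot t)} : Finset Tr)) := by
        intro t' ht'
        simp only [Finset.mem_insert, Finset.mem_singleton]
        constructor
        · intro h
          exact G5c hX ht ht' htc (A2_tet_iff.1 h).1
        · rintro (h | h | h)
          · rw [h]; exact h4
          · rw [h, A2_tet_rot]; exact h4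
          · rw [h, A2_tet_rot, A2_tet_rot]; exact h4
      have h6 : ∀ t' ∈ T X, (A2_tet t').indicator (1 : V → ENNReal) x =
          if t' ∈ ({t, rot t, rot (rot t)} : Finset Tr) then 1 else 0 := by
        intro t' ht'
        by_cases hc : t' ∈ ({t, rot t, rot (rot t)} : Finset Tr)
        · rw [if_pos hc, indicator_of_mem ((h5 t' ht').2 hc)]; rfl
        · rw [if_neg hc, indicator_of_notMem (fun h => hc ((h5 t' ht').1 h))]
      rw [Finset.sum_congr rfl h6, Finset.sum_ite_mem, Finset.sum_const]
      have h7 : (T X) ∩ ({t, rot t, rot (rot t)} : Finset Tr) = {t, rot t, rot (rot t)} := by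
        apply Finset.inter_eq_right.2
        intro s hs
        simp only [Finset.mem_insert, Finset.mem_singleton] at hs
        rcases hs with h | h | h
        · rw [h]; exact ht
        · rw [h]; exact rot_mem ht
        · rw [h]; exact rot_mem (rot_mem ht)
      have hne := A2_ne ht
      rw [h7, Finset.card_insert_of_notMem (by simp [hne.1, hne.2.1]),
        Finset.card_insert_of_notMem (by simp [hne.2.2]), Finset.card_singleton]
      simp
    · rw [indicator_of_notMem hx, mul_zero]
      apply Finset.sum_eq_zero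
      intro t ht
      rw [indicator_of_notMem]
      intro h
      rw [A2_tet_iff] at h
      exact hx (A2_cone hX ht h.1 h.2.le)
  have e2 : ∑ t ∈ T X, volume (A2_tet t) = ENNReal.ofReal (∑ t ∈ T X, Dt t / 6) := by
    rw [ENNReal.ofReal_sum_of_nonneg (fun t ht => by have := T_pos ht; positivity)]
    exact Finset.sum_congr rfl fun t ht => A2_tet_vol ht
  rw [e2] at key
  have h3 := congrArg ENNReal.toReal key
  rw [ENNReal.toReal_ofReal (Finset.sum_nonneg fun t ht => by have := T_pos ht; positivity),
    ENNReal.toReal_mul] at h3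
  unfold VO
  rw [← Finset.sum_div] at h3
  simp at h3
  linarith

/-- BLOCK A2c: near-ball condition from inclusions. -/
theorem A2c {X : Finset V} (hX : GP X) {δ : ℝ} (h0 : 0 ≤ δ) (h1 : δ < 1)
    (hin : Metric.closedBall 0 (1 - δ) ⊆ convexHull ℝ (X : Set V))
    (hout : convexHull ℝ (X : Set V) ⊆ Metric.closedBall 0 (1 + δ)) : NB X δ where
  gp := hX
  up x hx := by
    have h := hout (subset_convexHull ℝ _ hx)
    rwa [mem_closedBall_zero_iff] at h
  lo t ht := by
    have hn : 0 < ‖P t‖ := norm_pos_iff.2 (P_ne_zero ht)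
    have h2 : ((1 - δ) * ‖P t‖⁻¹) • P t ∈ Metric.closedBall (0 : V) (1 - δ) := by
      rw [mem_closedBall_zero_iff, norm_smul, Real.norm_of_nonneg (by
        have : 0 ≤ 1 - δ := by linarith
        positivity), mul_assoc, inv_mul_cancel₀ hn.ne', mul_one]
    have h3 := A2_hull_le ht (hin h2)
    rw [ip_smul_right, ip_self] at h3
    have h4 : (1 - δ) * ‖P t‖⁻¹ * ‖P t‖ ^ 2 = (1 - δ) * ‖P t‖ := by
      field_simp
    linarith

end Iso
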