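import Pool.Agent.Lib_helper3.Iso.Basic
noncomputable section
namespace Iso
open MeasureTheory Real Set

/-- the moment curve -/
def A3_m (t : ℝ) : V := !₂[t, t ^ 2, t ^ 3]

/-- the determinant of four points -/
def A3_D (a b c d : V) : ℝ := det3 (b - a) (c - a) (d - a)

theorem A3_vander (a b c d : ℝ) : A3_D (A3_m a) (A3_m b) (A3_m c) (A3_m d) =
    (b - a) * (c - a) * (d - a) * (c - b) * (d - b) * (d - c) := by
  simp only [A3_D, det3_def, A3_m, PiLp.sub_apply]
  simp
  ring

theorem A3_poly (k3 k2 k1 k0 : ℝ) (h : k3 ≠ 0) :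
    {s : ℝ | k3 * s ^ 3 + k2 * s ^ 2 + k1 * s + k0 = 0}.Finite := by
  obtain ⟨f, hf⟩ : ∃ f : Polynomial ℝ, f = Polynomial.C k3 * Polynomial.X ^ 3 +
      Polynomial.C k2 * Polynomial.X ^ 2 + Polynomial.C k1 * Polynomial.X + Polynomial.C k0 := ⟨_, rfl⟩
  have hf0 : f ≠ 0 := by
    intro h0
    have := congrArg (fun f => f.coeff 3) h0
    rw [hf] at this
    simp [Polynomial.coeff_X, Polynomial.coeff_C] at this
    exact h this
  refine (Polynomial.rootSet_finite f ℝ).subset ?_
  intro s hs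
  rw [Polynomial.mem_rootSet]
  refine ⟨hf0, ?_⟩
  rw [hf]
  simpa using hs

/-- along a line of configurations the determinant is a polynomial of degree 3 -/
theorem A3_finite (a b c d m n p q : V) (h : A3_D m n p q ≠ 0) :
    {s : ℝ | A3_D (a + s • m) (b + s • n) (c + s • p) (d + s • q) = 0}.Finite := by
  refine (A3_poly _ (det3 (b - a) (p - m) (q - m) + det3 (n - m) (c - a) (q - m) +
        det3 (n - m) (p - m) (d - a)) (det3 (b - a) (c - a) (q - m) + det3 (b - a) (p - m) (d - a) +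
        det3 (n - m) (c - a) (d - a)) (A3_D a b c d) h).subset ?_
  intro s hs
  rw [mem_ofPred_eq] at hs ⊢
  rw [← hs]
  simp only [A3_D, det3_def, PiLp.sub_apply, PiLp.add_apply, PiLp.smul_apply, smul_eq_mul]
  ring

/-- four points in a plane -/
theorem A3_plane {p a b c d : V} (hp : p ≠ 0) {e : ℝ} (ha : ip p a = e) (hb : ip p b = e)
    (hc : ip p c = e) (hd : ip p d = e) : A3_D a b c d = 0 := by
  by_contra h
  have e1 : ip p (b - a) = 0 := by rw [ip_sub_right, ha, hb, sub_self]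
  have e2 : ip p (c - a) = 0 := by rw [ip_sub_right, ha, hc, sub_self]
  have e3 : ip p (d - a) = 0 := by rw [ip_sub_right, ha, hd, sub_self]
  have h1 := expand h p
  have h2 : ip p p = 0 := by
    nth_rewrite 2 [h1]
    rw [ip_add_right, ip_add_right, ip_smul_right, ip_smul_right, ip_smul_right, e1, e2, e3]
    ring
  rw [ip_self] at h2
  exact hp (norm_eq_zero.1 (pow_eq_zero_iff (two_ne_zero) |>.1 h2))

/-- functionals are inner products -/
theorem A3_dual (f : StrongDual ℝ V) : ∃ u : V, ∀ x, f x = ip u x :=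
  ⟨(InnerProductSpace.toDual ℝ V).symm f, fun x => by simp [ip]⟩

theorem A3_linear (u : V) : IsLinearMap ℝ (ip u) := IsLinearMap.mk (ip_add_right u) (fun c x => ip_smul_right c u x)

/-- a linear functional on a convex hull is bounded by its values at the points -/
theorem A3_max {E : Set V} {x : V} (hx : x ∈ convexHull ℝ E) (u : V) : ∃ y ∈ E, ip u x ≤ ip u y := by
  by_contra! h
  have : convexHull ℝ E ⊆ {y | ip u y < ip u x} :=
    convexHull_min (fun y hy => h y hy) (convex_halfSpace_lt (A3_linear u) _)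
  exact lt_irrefl (ip u x) (this hx)

/-- extreme points of a polytope are exposed in the set of the extreme points -/
theorem A3_exposed {Q E : Set V} (hQ : Convex ℝ Q) (hE : E.Finite) (hEQ : E ⊆ Q) {x : V}
    (hx : x ∈ Set.extremePoints ℝ Q) : ∃ f : V, ∀ y ∈ E, y ≠ x → ip f y < ip f x := by
  have h1 := (hQ.mem_extremePoints_iff_mem_sdiff_convexHull_sdiff.1 hx).2
  have h2 : x ∉ convexHull ℝ (E \ {x}) := fun h =>
    h1 (convexHull_mono (show E \ {x} ⊆ Q \ {x} from fun y hy => ⟨hEQ hy.1, hy.2⟩) h)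
  obtain ⟨f, c, hf, hfx⟩ := geometric_hahn_banach_closed_point (convex_convexHull ℝ (E \ {x}))
    (Set.Finite.isCompact_convexHull (𝕜 := ℝ) (hE.subset sdiff_subset)).isClosed h2
  obtain ⟨u, hu⟩ := A3_dual f
  refine ⟨u, fun y hy hyx => ?_⟩
  rw [← hu, ← hu]
  exact (hf y (subset_convexHull ℝ _ ⟨hy, hyx⟩)).trans hfx

/-- BLOCK A3: perturbation to general position, from inside. `Q = convexHull S`, `closedBall 0 ρ ⊆ Q`. The extreme points
`x_1, ..., x_n` of `Q` are exposed (finite set); choose one after the other `y_i` in the open ball of radius `η` about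
`(1 - ε/2) x_i` (inside the interior of `Q`), outside the finitely many planes through three of the previous points;
for `η` small the `y_i` are still exposed in `{y_1..y_n}` and `(1-ε) Q ⊆ convexHull {y_i}`. -/
theorem A3 (S : Finset V) {ρ : ℝ} (hρ : 0 < ρ) (hin : Metric.closedBall 0 ρ ⊆ convexHull ℝ (S : Set V))
    {ε : ℝ} (h0 : 0 < ε) (h1 : ε < 1) : ∃ X : Finset V,
      X.card = (Set.extremePoints ℝ (convexHull ℝ (S : Set V))).ncard ∧ GP X ∧
      (X : Set V) ⊆ convexHull ℝ (S : Set V) ∧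
      ∀ x ∈ convexHull ℝ (S : Set V), (1 - ε) • x ∈ convexHull ℝ (X : Set V) := by
  classical
  set Q : Set V := convexHull ℝ (S : Set V) with hQdef
  have hQc : Convex ℝ Q := convex_convexHull ℝ _
  have hQk : IsCompact Q := S.finite_toSet.isCompact_convexHull (𝕜 := ℝ)
  have hfin : (Set.extremePoints ℝ Q).Finite := S.finite_toSet.subset extremePoints_convexHull_subset
  obtain ⟨E, hE⟩ : ∃ E : Finset V, (E : Set V) = Set.extremePoints ℝ Q := ⟨hfin.toFinset, hfin.coe_toFinset⟩
  have hEQ : (E : Set V) ⊆ Q := by rw [hE]; exact extremePoints_subset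
  have hEn : E.card = (Set.extremePoints ℝ Q).ncard := by rw [← hE, Set.ncard_coe_finset]
  have hull : convexHull ℝ (E : Set V) = Q := by
    have h2 := closure_convexHull_extremePoints hQk hQc
    rw [← hE] at h2
    rwa [(E.finite_toSet.isCompact_convexHull (𝕜 := ℝ)).isClosed.closure_eq] at h2
  -- exposing functionals with a gap
  have hexp : ∀ x ∈ E, ∃ f : V, ∀ y ∈ E, y ≠ x → ip f y < ip f x := by
    intro x hx
    have hx' : x ∈ Set.extremePoints ℝ Q := by rw [← hE]; exact hx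
    obtain ⟨f, hf⟩ := A3_exposed hQc E.finite_toSet hEQ hx'
    exact ⟨f, fun y hy => hf y hy⟩
  choose! f hf using hexp
  -- parameters
  obtain ⟨τ, hτ⟩ : ∃ τ : V → ℝ, ∀ x ∈ E, ∀ y ∈ E, τ x = τ y → x = y := by
    refine ⟨fun x => if h : x ∈ E then ((E.equivFin ⟨x, h⟩ : ℕ) : ℝ) else 0, ?_⟩
    intro x hx y hy h
    simp only [dif_pos hx, dif_pos hy, Nat.cast_inj] at h
    have := E.equivFin.injective (Fin.ext h)
    simpa using this
  let y : ℝ → V → V := fun s x => (1 - ε / 2) • x + s • A3_m (τ x)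
  have hy : ∀ s x (u : V), ip u (y s x) = (1 - ε / 2) * ip u x + s * ip u (A3_m (τ x)) := by
    intro s x u
    rw [ip_add_right, ip_smul_right, ip_smul_right]
  obtain ⟨K, hK0, hK⟩ : ∃ K : ℝ, 0 < K ∧ ∀ x ∈ E, ‖A3_m (τ x)‖ ≤ K := by
    refine ⟨1 + ∑ x ∈ E, ‖A3_m (τ x)‖, by positivity, fun x hx => ?_⟩
    have := Finset.single_le_sum (f := fun x => ‖A3_m (τ x)‖) (fun x _ => norm_nonneg _) hx
    linarith
  -- all good parameters
  have hgood : ∃ s : ℝ, 0 < s ∧ s * K ≤ ε / 2 * ρ ∧
      (∀ x ∈ E, ∀ z ∈ E, z ≠ x → ip (f x) (y s z) < ip (f x) (y s x)) ∧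
      ∀ a ∈ E, ∀ b ∈ E, ∀ c ∈ E, ∀ d ∈ E, a ≠ b → a ≠ c → a ≠ d → b ≠ c → b ≠ d → c ≠ d →
        A3_D (y s a) (y s b) (y s c) (y s d) ≠ 0 := by
    have e1 : ∀ᶠ s : ℝ in nhdsWithin 0 (Ioi 0), s * K ≤ ε / 2 * ρ := by
      have h2 : Filter.Tendsto (fun s : ℝ => s * K) (nhds 0) (nhds (0 * K)) := by
        exact (continuous_id.mul continuous_const).tendsto 0
      rw [zero_mul] at h2
      exact ((h2.eventually (gt_mem_nhds (by positivity : 0 < ε / 2 * ρ))).filter_mono
        nhdsWithin_le_nhds).mono fun s hs => le_of_lt hs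
    have e2 : ∀ᶠ s : ℝ in nhdsWithin 0 (Ioi 0), ∀ x ∈ E, ∀ z ∈ E, z ≠ x →
        ip (f x) (y s z) < ip (f x) (y s x) := by
      rw [Filter.eventually_all_finset]
      intro x hx
      rw [Filter.eventually_all_finset]
      intro z hz
      by_cases hzx : z = x
      · exact Filter.Eventually.of_forall fun s h => (h hzx).elim
      · have h2 : Filter.Tendsto (fun s : ℝ => ip (f x) (y s x) - ip (f x) (y s z)) (nhds 0)
            (nhds ((1 - ε / 2) * (ip (f x) x - ip (f x) z))) := by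
          have hc : Continuous fun s : ℝ => ip (f x) (y s x) - ip (f x) (y s z) := by
            simp only [hy]; fun_prop
          have := hc.tendsto 0
          simp only [hy] at this ⊢
          convert this using 2
          ring
        have hpos : 0 < (1 - ε / 2) * (ip (f x) x - ip (f x) z) :=
          mul_pos (by linarith) (by linarith [hf x hx z hz hzx])
        exact ((h2.eventually (lt_mem_nhds hpos)).filter_mono nhdsWithin_le_nhds).mono
          fun s hs _ => by linarith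
    have e3 : ∀ᶠ s : ℝ in nhdsWithin 0 (Ioi 0), ∀ a ∈ E, ∀ b ∈ E, ∀ c ∈ E, ∀ d ∈ E,
        a ≠ b → a ≠ c → a ≠ d → b ≠ c → b ≠ d → c ≠ d →
        A3_D (y s a) (y s b) (y s c) (y s d) ≠ 0 := by
      rw [Filter.eventually_all_finset]
      intro a ha
      rw [Filter.eventually_all_finset]
      intro b hb
      rw [Filter.eventually_all_finset]
      intro c hc
      rw [Filter.eventually_all_finset]
      intro d hd
      by_cases hdist : a ≠ b ∧ a ≠ c ∧ a ≠ d ∧ b ≠ c ∧ b ≠ d ∧ c ≠ d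
      · obtain ⟨i1, i2, i3, i4, i5, i6⟩ := hdist
        have hV : A3_D (A3_m (τ a)) (A3_m (τ b)) (A3_m (τ c)) (A3_m (τ d)) ≠ 0 := by
          rw [A3_vander]
          have j : ∀ x ∈ E, ∀ z ∈ E, x ≠ z → τ z - τ x ≠ 0 := fun x hx z hz hxz h =>
            hxz (hτ x hx z hz (by linarith))
          exact mul_ne_zero (mul_ne_zero (mul_ne_zero (mul_ne_zero (mul_ne_zero
            (j a ha b hb i1) (j a ha c hc i2)) (j a ha d hd i3)) (j b hb c hc i4))
            (j b hb d hd i5)) (j c hc d hd i6)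
        have hF := A3_finite ((1 - ε / 2) • a) ((1 - ε / 2) • b) ((1 - ε / 2) • c) ((1 - ε / 2) • d)
          _ _ _ _ hV
        have h2 : ∀ᶠ s : ℝ in nhdsWithin 0 (Ioi 0),
            s ∉ {s : ℝ | A3_D ((1 - ε / 2) • a + s • A3_m (τ a)) ((1 - ε / 2) • b + s • A3_m (τ b))
              ((1 - ε / 2) • c + s • A3_m (τ c)) ((1 - ε / 2) • d + s • A3_m (τ d)) = 0} := by
          have h3 : ∀ᶠ s : ℝ in nhdsWithin 0 {0}ᶜ, s ∉ {s : ℝ | A3_D ((1 - ε / 2) • a + s • A3_m (τ a))
              ((1 - ε / 2) • b + s • A3_m (τ b)) ((1 - ε / 2) • c + s • A3_m (τ c))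
              ((1 - ε / 2) • d + s • A3_m (τ d)) = 0} := by
            have h4 := hF.isClosed.isOpen_compl
            by_cases h5 : (0 : ℝ) ∈ {s : ℝ | A3_D ((1 - ε / 2) • a + s • A3_m (τ a))
              ((1 - ε / 2) • b + s • A3_m (τ b)) ((1 - ε / 2) • c + s • A3_m (τ c))
              ((1 - ε / 2) • d + s • A3_m (τ d)) = 0}
            · have h6 := (hF.subset (sdiff_subset (t := {(0 : ℝ)}))).isClosed.isOpen_compl
              have h7 : ({s : ℝ | A3_D ((1 - ε / 2) • a + s • A3_m (τ a))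
                ((1 - ε / 2) • b + s • A3_m (τ b)) ((1 - ε / 2) • c + s • A3_m (τ c))
                ((1 - ε / 2) • d + s • A3_m (τ d)) = 0} \ {0})ᶜ ∈ nhds (0 : ℝ) :=
                h6.mem_nhds (by simp)
              filter_upwards [nhdsWithin_le_nhds h7, self_mem_nhdsWithin] with s hs hs' hs''
              exact hs ⟨hs'', hs'⟩
            · exact nhdsWithin_le_nhds (h4.mem_nhds h5)
          exact h3.filter_mono (nhdsWithin_mono _ fun s hs => by
            simp only [mem_compl_iff, mem_singleton_iff]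
            exact ne_of_gt hs)
        exact h2.mono fun s hs _ _ _ _ _ _ => hs
      · exact Filter.Eventually.of_forall fun s i1 i2 i3 i4 i5 i6 =>
          (hdist ⟨i1, i2, i3, i4, i5, i6⟩).elim
    obtain ⟨s, ⟨⟨h2, h3⟩, h4⟩, h5⟩ := (((e1.and e2).and e3).and self_mem_nhdsWithin).exists
    exact ⟨s, h5, h2, h3, h4⟩
  obtain ⟨s, hs0, hsK, hs1, hs2⟩ := hgood
  have hyinj : ∀ x ∈ E, ∀ z ∈ E, y s x = y s z → x = z := by
    intro x hx z hz h
    by_contra hne
    have := hs1 x hx z hz (fun h' => hne h'.symm)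
    rw [h] at this
    exact lt_irrefl _ this
  -- the maximum of a functional
  have hmax : ∀ u : V, ∃ x ∈ E, ρ * ‖u‖ ≤ ip u x ∧ ∀ z ∈ Q, ip u z ≤ ip u x := by
    intro u
    have hne : E.Nonempty := by
      by_contra hn
      rw [Finset.not_nonempty_iff_eq_empty] at hn
      rw [hn] at hull
      have h2 : (0 : V) ∈ Q := hin (by simp [hρ.le])
      rw [← hull] at h2
      simp at h2
    obtain ⟨x, hx, hx'⟩ := Finset.exists_max_image E (ip u) hne
    have h2 : ∀ z ∈ Q, ip u z ≤ ip u x := by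
      intro z hz
      rw [← hull] at hz
      obtain ⟨w, hw, hzw⟩ := A3_max hz u
      exact hzw.trans (hx' w hw)
    refine ⟨x, hx, ?_, h2⟩
    rcases eq_or_ne u 0 with rfl | hu
    · have := h2 0 (hin (by simp [hρ.le]))
      simpa [ip] using this
    · have h3 : 0 < ‖u‖ := norm_pos_iff.2 hu
      have h4 := h2 ((ρ / ‖u‖) • u) (hin (by
        rw [mem_closedBall_zero_iff, norm_smul, Real.norm_of_nonneg (by positivity)]
        field_simp
        exact le_rfl))
      rw [ip_smul_right, ip_self] at h4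
      have h5 : ρ / ‖u‖ * ‖u‖ ^ 2 = ρ * ‖u‖ := by field_simp
      linarith
  have hmax' : ∀ u : V, ∃ x ∈ E, ∀ z ∈ Q, (1 - ε) * ip u z ≤ ip u (y s x) ∧
      (1 - ε) * (ρ * ‖u‖) ≤ ip u (y s x) := by
    intro u
    obtain ⟨x, hx, h2, h3⟩ := hmax u
    refine ⟨x, hx, fun z hz => ?_⟩
    have h4 : -(‖u‖ * K) ≤ ip u (A3_m (τ x)) := by
      have h5 := abs_le.1 (abs_real_inner_le_norm u (A3_m (τ x)))
      have h6 := mul_le_mul_of_nonneg_left (hK x hx) (norm_nonneg u)
      linarith [h5.1]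
    have h5 : (1 - ε) * ip u x ≤ ip u (y s x) := by
      rw [hy]
      have h6 : -(s * (‖u‖ * K)) ≤ s * ip u (A3_m (τ x)) := by
        have := mul_le_mul_of_nonneg_left h4 hs0.le
        linarith
      have h7 : s * (‖u‖ * K) ≤ ε / 2 * (ρ * ‖u‖) := by
        have := mul_le_mul_of_nonneg_right hsK (norm_nonneg u)
        nlinarith
      have h8 : ε / 2 * (ρ * ‖u‖) ≤ ε / 2 * ip u x := mul_le_mul_of_nonneg_left h2 (by linarith)
      nlinarith
    exact ⟨(mul_le_mul_of_nonneg_left (h3 z hz) (by linarith)).trans h5,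
      (mul_le_mul_of_nonneg_left h2 (by linarith)).trans h5⟩
  have h0Q : (0 : V) ∈ Q := hin (by simp [hρ.le])
  refine ⟨E.image (y s), ?_, ⟨?_, ?_, ?_⟩, ?_, ?_⟩
  · rw [Finset.card_image_of_injOn (fun x hx z hz h => hyinj x hx z hz h), hEn]
  · intro u hu
    obtain ⟨x, hx, h2⟩ := hmax' u
    refine ⟨y s x, Finset.mem_image_of_mem _ hx, lt_of_lt_of_le ?_ (h2 0 h0Q).2⟩
    have := norm_pos_iff.2 hu
    have h3 : 0 < 1 - ε := by linarith
    positivity
  · intro x' hx'
    obtain ⟨x, hx, rfl⟩ := Finset.mem_image.1 hx'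
    refine ⟨f x, fun z' hz' hne => ?_⟩
    obtain ⟨z, hz, rfl⟩ := Finset.mem_image.1 hz'
    exact hs1 x hx z hz fun h => hne (by rw [h])
  · intro p hp c
    by_contra! hcon
    set F : Finset V := (E.image (y s)).filter (fun x => ip p x = c) with hF
    have hFc : 3 < F.card := by
      have : {x ∈ ((E.image (y s) : Finset V) : Set V) | ip p x = c} = (F : Set V) := by
        ext x; simp [hF]
      rwa [this, Set.ncard_coe_finset] at hcon
    obtain ⟨a', ha'⟩ : F.Nonempty := Finset.card_pos.1 (by omega)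
    have h2 : 2 < (F.erase a').card := by rw [Finset.card_erase_of_mem ha']; omega
    obtain ⟨b', hb', c', hc', d', hd', n1, n2, n3⟩ := Finset.two_lt_card.1 h2
    have hFm : ∀ x' ∈ F, ∃ x ∈ E, y s x = x' ∧ ip p x' = c := by
      intro x' hx'
      rw [hF, Finset.mem_filter, Finset.mem_image] at hx'
      obtain ⟨⟨x, hx, hx2⟩, hx3⟩ := hx'
      exact ⟨x, hx, hx2, hx3⟩
    obtain ⟨a, ha, ea, pa⟩ := hFm a' ha'
    obtain ⟨b, hb, eb, pb⟩ := hFm b' (Finset.mem_of_mem_erase hb')
    obtain ⟨c₁, hc, ec, pc⟩ := hFm c' (Finset.mem_of_mem_erase hc')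
    obtain ⟨d, hd, ed, pd⟩ := hFm d' (Finset.mem_of_mem_erase hd')
    have m1 := Finset.ne_of_mem_erase hb'
    have m2 := Finset.ne_of_mem_erase hc'
    have m3 := Finset.ne_of_mem_erase hd'
    refine hs2 a ha b hb c₁ hc d hd ?_ ?_ ?_ ?_ ?_ ?_ ?_
    · rintro rfl; exact m1 (eb.symm.trans ea)
    · rintro rfl; exact m2 (ec.symm.trans ea)
    · rintro rfl; exact m3 (ed.symm.trans ea)
    · rintro rfl; exact n1 (eb.symm.trans ec)
    · rintro rfl; exact n2 (eb.symm.trans ed)
    · rintro rfl; exact n3 (ec.symm.trans ed)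
    · rw [ea, eb, ec, ed]
      exact A3_plane hp pa pb pc pd
  · intro x' hx'
    obtain ⟨x, hx, rfl⟩ := Finset.mem_image.1 (Finset.mem_coe.1 hx')
    have h2 : y s x = (1 - ε / 2) • x + (ε / 2) • ((s / (ε / 2)) • A3_m (τ x)) := by
      simp only [y]
      rw [smul_smul]
      congr 2
      field_simp
    rw [h2]
    refine hQc (hEQ hx) (hin ?_) (by linarith) (by linarith) (by ring)
    rw [mem_closedBall_zero_iff, norm_smul, Real.norm_of_nonneg (by positivity)]
    calc s / (ε / 2) * ‖A3_m (τ x)‖ ≤ s / (ε / 2) * K :=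
          mul_le_mul_of_nonneg_left (hK x hx) (by positivity)
      _ = s * K / (ε / 2) := by ring
      _ ≤ ρ := by rw [div_le_iff₀ (by positivity)]; linarith
  · intro x hx
    by_contra hcon
    obtain ⟨g, c, hg, hgx⟩ := geometric_hahn_banach_closed_point
      (convex_convexHull ℝ ((E.image (y s) : Finset V) : Set V))
      ((E.image (y s)).finite_toSet.isCompact_convexHull (𝕜 := ℝ)).isClosed hcon
    obtain ⟨u, hu⟩ := A3_dual g
    obtain ⟨z, hz, h2⟩ := hmax' u
    have h3 := (h2 x hx).1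
    have h4 := hg (y s z) (subset_convexHull ℝ _ (Finset.mem_coe.2 (Finset.mem_image_of_mem _ hz)))
    rw [hu] at h4 hgx
    rw [ip_smul_right] at hgx
    linarith

end Iso
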