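import Pool.Agent.Lib_helper3.Iso.Defs
/-! first API: rotations of triples (done) -/
noncomputable section
namespace Iso
open MeasureTheory Real Set

theorem det3_rot (a b c : V) : det3 b c a = det3 a b c := by
  rw [det3_def, det3_def]; ring

theorem det3_swap (a b c : V) : det3 b a c = - det3 a b c := by
  rw [det3_def, det3_def]; ring

theorem pf_rot (a b c : V) : pf b c a = pf a b c := by
  simp only [pf, det3_rot]; congr 1; abel

@[simp] theorem P_rot (t : Tr) : P (rot t) = P t := pf_rot _ _ _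
@[simp] theorem Dt_rot (t : Tr) : Dt (rot t) = Dt t := det3_rot _ _ _
@[simp] theorem hh_rot (t : Tr) : hh (rot t) = hh t := by simp [hh]
@[simp] theorem nn_rot (t : Tr) : nn (rot t) = nn t := by simp [nn]
@[simp] theorem rot3 (t : Tr) : rot (rot (rot t)) = t := rfl

theorem rot_mem {X : Finset V} {t : Tr} (h : t ∈ T X) : rot t ∈ T X := by
  rw [mem_T] at h ⊢
  obtain ⟨⟨h1, h2, h3⟩, h4, h5⟩ := h
  exact ⟨⟨h2, h3, h1⟩, by rwa [Dt_rot], by rwa [P_rot]⟩

theorem rot_mem_iff {X : Finset V} {t : Tr} : rot t ∈ T X ↔ t ∈ T X :=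
  ⟨fun h => by have := rot_mem (rot_mem h); rwa [rot3] at this, rot_mem⟩

theorem Cone_rot (t : Tr) : Cone (rot t) = Cone t := by
  ext x; simp only [Cone, rot, mem_ofPred_eq]; tauto

theorem ip_add_left (x y z : V) : ip (x + y) z = ip x z + ip y z := inner_add_left _ _ _
theorem ip_add_right (x y z : V) : ip x (y + z) = ip x y + ip x z := inner_add_right _ _ _
theorem ip_sub_left (x y z : V) : ip (x - y) z = ip x z - ip y z := inner_sub_left _ _ _
theorem ip_sub_right (x y z : V) : ip x (y - z) = ip x y - ip x z := inner_sub_right _ _ _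
theorem ip_smul_left (r : ℝ) (x y : V) : ip (r • x) y = r * ip x y := by simp [ip, inner_smul_left]
theorem ip_smul_right (r : ℝ) (x y : V) : ip x (r • y) = r * ip x y := by simp [ip, inner_smul_right]
theorem ip_comm (x y : V) : ip x y = ip y x := real_inner_comm _ _

theorem ip_self (x : V) : ip x x = ‖x‖ ^ 2 := real_inner_self_eq_norm_sq x

theorem norm_sq_eq (x : V) : ‖x‖ ^ 2 = x 0 ^ 2 + x 1 ^ 2 + x 2 ^ 2 := by
  rw [← ip_self, ip_def]; ring

theorem norm_cr_sq (x y : V) : ‖cr x y‖ ^ 2 = ‖x‖ ^ 2 * ‖y‖ ^ 2 - ip x y ^ 2 := by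
  rw [norm_sq_eq, norm_sq_eq, norm_sq_eq, ip_def]; simp; ring

theorem ip_pf_fst {a b c : V} (h : det3 a b c ≠ 0) : ip (pf a b c) a = 1 := by
  rw [pf, ip_smul_left, ip_add_left, ip_add_left]
  rw [inv_mul_eq_one₀ h]
  simp only [ip_def, det3_def, cr_zero, cr_one, cr_two]; ring

theorem ip_pf_snd {a b c : V} (h : det3 a b c ≠ 0) : ip (pf a b c) b = 1 := by
  rw [← pf_rot]; exact ip_pf_fst (by rwa [det3_rot])

theorem ip_pf_trd {a b c : V} (h : det3 a b c ≠ 0) : ip (pf a b c) c = 1 := by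
  rw [← pf_rot, ← pf_rot]; exact ip_pf_fst (by rwa [det3_rot, det3_rot])

theorem T_pos {X : Finset V} {t : Tr} (h : t ∈ T X) : 0 < Dt t := (mem_T.1 h).2.1

theorem ip_P_1 {X : Finset V} {t : Tr} (h : t ∈ T X) : ip (P t) t.1 = 1 := ip_pf_fst (T_pos h).ne'
theorem ip_P_2 {X : Finset V} {t : Tr} (h : t ∈ T X) : ip (P t) t.2.1 = 1 := ip_pf_snd (T_pos h).ne'
theorem ip_P_3 {X : Finset V} {t : Tr} (h : t ∈ T X) : ip (P t) t.2.2 = 1 := ip_pf_trd (T_pos h).ne'
theorem ip_P_le {X : Finset V} {t : Tr} (h : t ∈ T X) {x : V} (hx : x ∈ X) : ip (P t) x ≤ 1 :=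
  (mem_T.1 h).2.2 x hx

theorem P_ne_zero {X : Finset V} {t : Tr} (h : t ∈ T X) : P t ≠ 0 := by
  intro h0; have := ip_P_1 h; rw [h0] at this; simp [ip] at this

/-- uniqueness of the functional -/
theorem P_unique {X : Finset V} {t : Tr} (h : t ∈ T X) {p : V} (h1 : ip p t.1 = 1) (h2 : ip p t.2.1 = 1)
    (h3 : ip p t.2.2 = 1) : p = P t := by
  obtain ⟨a, b, c⟩ := t
  have hd : det3 a b c ≠ 0 := (T_pos h).ne'
  have g1 := ip_P_1 h; have g2 := ip_P_2 h; have g3 := ip_P_3 h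
  simp only at h1 h2 h3 g1 g2 g3
  set q := P (a, b, c)
  have e1 : ip (p - q) a = 0 := by rw [ip_sub_left]; linarith
  have e2 : ip (p - q) b = 0 := by rw [ip_sub_left]; linarith
  have e3 : ip (p - q) c = 0 := by rw [ip_sub_left]; linarith
  have key : ∀ i, det3 a b c * (p - q) i = 0 := by
    rw [ip_def] at e1 e2 e3
    have c0 : det3 a b c * (p - q) 0 = cr b c 0 * ((p-q) 0 * a 0 + (p-q) 1 * a 1 + (p-q) 2 * a 2)
        + cr c a 0 * ((p-q) 0 * b 0 + (p-q) 1 * b 1 + (p-q) 2 * b 2)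
        + cr a b 0 * ((p-q) 0 * c 0 + (p-q) 1 * c 1 + (p-q) 2 * c 2) := by
      rw [det3_def]; simp only [cr_zero]; ring
    have c1 : det3 a b c * (p - q) 1 = cr b c 1 * ((p-q) 0 * a 0 + (p-q) 1 * a 1 + (p-q) 2 * a 2)
        + cr c a 1 * ((p-q) 0 * b 0 + (p-q) 1 * b 1 + (p-q) 2 * b 2)
        + cr a b 1 * ((p-q) 0 * c 0 + (p-q) 1 * c 1 + (p-q) 2 * c 2) := by
      rw [det3_def]; simp only [cr_one]; ring
    have c2 : det3 a b c * (p - q) 2 = cr b c 2 * ((p-q) 0 * a 0 + (p-q) 1 * a 1 + (p-q) 2 * a 2)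
        + cr c a 2 * ((p-q) 0 * b 0 + (p-q) 1 * b 1 + (p-q) 2 * b 2)
        + cr a b 2 * ((p-q) 0 * c 0 + (p-q) 1 * c 1 + (p-q) 2 * c 2) := by
      rw [det3_def]; simp only [cr_two]; ring
    intro i; fin_cases i
    · show det3 a b c * (p - q) 0 = 0
      rw [c0, e1, e2, e3]; ring
    · show det3 a b c * (p - q) 1 = 0
      rw [c1, e1, e2, e3]; ring
    · show det3 a b c * (p - q) 2 = 0
      rw [c2, e1, e2, e3]; ring
  have hz : p - q = 0 := by
    ext i
    have := key i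
    simpa [hd] using this
  exact sub_eq_zero.1 hz

/-- coordinates in the basis `a, b, c` -/
theorem expand {a b c : V} (h : det3 a b c ≠ 0) (x : V) :
    x = (det3 b c x / det3 a b c) • a + (det3 c a x / det3 a b c) • b + (det3 a b x / det3 a b c) • c := by
  ext i
  simp only [PiLp.add_apply, PiLp.smul_apply, smul_eq_mul]
  have : det3 a b c * x i = det3 b c x * a i + det3 c a x * b i + det3 a b x * c i := by
    fin_cases i <;> simp only [det3_def] <;> simp <;> ring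
  field_simp
  linarith

end Iso
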