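import Pool.Agent.Lib_helper23.LV.Br
import Pool.Agent.Lib_helper3.Iso.Basic
noncomputable section
namespace Iso
open MeasureTheory Real Set Pointwise Topology

/-- BLOCK B6: stability, normalised volume (from the quantitative near-ball theorem `LV.B7`). -/
theorem B6 (δ : ℝ) (hδ : 0 < δ) : ∃ η > 0, ∀ K : Set V, IsCompact K → Convex ℝ K → (interior K).Nonempty →
    (volume K).toReal = 4 * π / 3 → ∀ A : ℝ,
    Filter.Tendsto (fun ε : ℝ => ((volume (Metric.cthickening ε K)).toReal - (volume K).toReal) / ε)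
      (𝓝[>] 0) (𝓝 A) → A ≤ 4 * π + η →
    ∃ x0, Metric.closedBall x0 (1 - δ) ⊆ K ∧ K ⊆ Metric.closedBall x0 (1 + δ) :=
  Pool.Agent.LV.Br δ hδ

end Iso
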