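import Pool.Agent.Lib_helper3.Iso.G5
import Pool.Agent.Lib_helper3.Iso.S1
noncomputable section
namespace Iso
open MeasureTheory Real Set

theorem c1_det3_ip (a b x : V) : det3 a b x = ip (cr a b) x := rfl

theorem c1_det3_cont (a b : V) : Continuous fun x : V => det3 a b x := by
  unfold det3
  exact continuous_const.inner continuous_id

theorem c1_Cone_open (t : Tr) : IsOpen (Cone t) := by
  unfold Cone
  exact ((isOpen_lt continuous_const (c1_det3_cont _ _)).inter
    ((isOpen_lt continuous_const (c1_det3_cont _ _)).inter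
      (isOpen_lt continuous_const (c1_det3_cont _ _))))

/-- BLOCK C1: almost every direction lies in a cone (S1d, G5). -/
theorem C1 {X : Finset V} (hX : GP X) : ∀ᵐ x ∂sph, ∃ t ∈ T X, x ∈ Cone t := by
  have h1 : ∀ᵐ x ∂sph, ∀ a ∈ X, ∀ b ∈ X, cr a b ≠ 0 → det3 a b x ≠ 0 := by
    have : ∀ a ∈ X, ∀ᵐ x ∂sph, ∀ b ∈ X, cr a b ≠ 0 → det3 a b x ≠ 0 := by
      intro a ha
      refine (Finset.eventually_all X).2 ?_
      intro b hb
      by_cases hc : cr a b = 0
      · exact Filter.Eventually.of_forall (fun x h => absurd hc h)
      · have := S1d (cr a b) hc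
        have h2 : ∀ᵐ x ∂sph, ¬ (ip (cr a b) x = 0) := by
          rw [ae_iff]; simpa using this
        filter_upwards [h2] with x hx _
        exact hx
    exact (Finset.eventually_all X).2 this
  filter_upwards [h1, S1b] with x hx hx1
  have hx0 : x ≠ 0 := by
    intro h; rw [h, norm_zero] at hx1; exact zero_ne_one hx1
  exact G5 hX x hx0 hx

theorem c1_rot_ne {t : Tr} (h : 0 < Dt t) : rot t ≠ t := by
  obtain ⟨a, b, c⟩ := t
  intro he
  simp only [rot, Prod.mk.injEq] at he
  obtain ⟨e1, e2, e3⟩ := he
  subst e1
  simp only [Dt, det3_def] at h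
  nlinarith

theorem c1_filter {X : Finset V} (hX : GP X) {t : Tr} (ht : t ∈ T X) {x : V} (hx : x ∈ Cone t) [DecidablePred fun t' : Tr => x ∈ Cone t'] :
    ((T X).filter (fun t' => x ∈ Cone t')).card = 3 := by
  classical
  have h1 : (T X).filter (fun t' => x ∈ Cone t') = {t, rot t, rot (rot t)} := by
    ext s
    simp only [Finset.mem_filter, Finset.mem_insert, Finset.mem_singleton]
    constructor
    · rintro ⟨hs, hxs⟩
      exact G5c hX ht hs hx hxs
    · rintro (h | h | h)
      · subst h; exact ⟨ht, hx⟩
      · subst h; exact ⟨rot_mem ht, by rw [Cone_rot]; exact hx⟩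
      · subst h; exact ⟨rot_mem (rot_mem ht), by rw [Cone_rot, Cone_rot]; exact hx⟩
  have hp := T_pos ht
  have n1 : rot t ≠ t := c1_rot_ne hp
  have n2 : rot (rot t) ≠ rot t := c1_rot_ne (T_pos (rot_mem ht))
  have n3 : rot (rot t) ≠ t := by
    have := c1_rot_ne (T_pos (rot_mem (rot_mem ht)))
    rw [rot3] at this
    exact this.symm
  rw [h1, Finset.card_insert_of_notMem, Finset.card_insert_of_notMem, Finset.card_singleton]
  · simpa using n2.symm
  · simp only [Finset.mem_insert, Finset.mem_singleton, not_or]
    exact ⟨n1.symm, n3.symm⟩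

/-- C2b: integrals over the sphere, face by face. -/
theorem C2b {X : Finset V} (hX : GP X) (f : V → ℝ) (hf : Measurable f) (C : ℝ) (hC : ∀ x, |f x| ≤ C) :
    ∑ t ∈ T X, ∫ x in Cone t, f x ∂sph = 3 * ∫ x, f x ∂sph := by
  classical
  have hint : Integrable f sph := by
    refine Integrable.of_bound hf.aestronglyMeasurable C ?_
    exact Filter.Eventually.of_forall (fun x => by rw [Real.norm_eq_abs]; exact hC x)
  have h1 : ∀ t ∈ T X, ∫ x in Cone t, f x ∂sph = ∫ x, (Cone t).indicator f x ∂sph := by
    intro t _
    rw [integral_indicator (c1_Cone_open t).measurableSet]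
  rw [Finset.sum_congr rfl h1, ← integral_finsetSum]
  · rw [← integral_const_mul]
    refine integral_congr_ae ?_
    filter_upwards [C1 hX] with x hx
    obtain ⟨t, ht, hxt⟩ := hx
    have := c1_filter hX ht hxt
    simp only [Set.indicator_apply]
    rw [← Finset.sum_filter, Finset.sum_const, this]
    simp
  · intro t _
    exact hint.indicator (c1_Cone_open t).measurableSet

/-- BLOCK C2: the cones of the faces tile the sphere (each face is listed three times). -/
theorem C2 {X : Finset V} (hX : GP X) : ∑ t ∈ T X, (sph (Cone t)).toReal = 12 * π := by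
  have h := C2b hX (fun _ => 1) measurable_const 1 (by simp)
  simp only [integral_const, smul_eq_mul, mul_one, Measure.real] at h
  simp only [Measure.restrict_apply MeasurableSet.univ, univ_inter] at h
  rw [h, S1c, ENNReal.toReal_ofReal (by positivity)]
  ring

/-- measurability of `sf` -/
theorem sf_meas (X : Finset V) (s : Tr → ℝ) : Measurable (sf X s) := by
  classical
  unfold sf
  refine Measurable.div_const ?_ 3
  refine Finset.measurable_sum _ ?_
  intro t _
  exact Measurable.ite (c1_Cone_open t).measurableSet measurable_const measurable_const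

end Iso
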