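import Pool.Agent.Lib_helper3.Iso.G4
noncomputable section
namespace Iso
open MeasureTheory Real Set

/-- `|a|² ⟨x,y⟩ - ⟨a,x⟩⟨a,y⟩` -/
def D1_I (a x y : V) : ℝ := ip a a * ip x y - ip a x * ip a y

/-- the complex number `conj y(x) * y(y)` of two vectors projected along `a` -/
def D1_w (a x y : V) : ℂ := ⟨D1_I a x y, ‖a‖ * det3 a x y⟩

theorem D1_id1 (a b x y : V) : D1_I a b x * D1_I a b y + ip a a * (det3 a b x * det3 a b y) =
    D1_I a b b * D1_I a x y := by
  simp only [D1_I, ip_def, det3_def]; ring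

theorem D1_id2 (a b x y : V) : D1_I a b x * det3 a b y - det3 a b x * D1_I a b y =
    D1_I a b b * det3 a x y := by
  simp only [D1_I, ip_def, det3_def]; ring

theorem D1_key (a b x y : V) : (starRingEnd ℂ) (D1_w a b x) * D1_w a b y =
    (D1_I a b b : ℂ) * D1_w a x y := by
  have h1 := D1_id1 a b x y
  have h2 := D1_id2 a b x y
  rw [ip_self] at h1
  apply Complex.ext
  · simp [D1_w]
    linear_combination h1
  · simp [D1_w]
    linear_combination ‖a‖ * h2

theorem D1_normSq (a x y : V) : ‖D1_w a x y‖ ^ 2 = D1_I a x x * D1_I a y y := by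
  have h := D1_id1 a x y y
  rw [← Complex.normSq_eq_norm_sq, Complex.normSq_apply]
  rw [ip_self] at h
  simp only [D1_w]
  linear_combination h

theorem D1_Ixy (a x y : V) : D1_I a x y = ‖a‖ ^ 2 * (‖x‖ * ‖y‖) *
    (cos (InnerProductGeometry.angle x y) -
      cos (InnerProductGeometry.angle a x) * cos (InnerProductGeometry.angle a y)) := by
  have h1 := InnerProductGeometry.cos_angle_mul_norm_mul_norm x y
  have h2 := InnerProductGeometry.cos_angle_mul_norm_mul_norm a x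
  have h3 := InnerProductGeometry.cos_angle_mul_norm_mul_norm a y
  rw [D1_I, ip_self]
  simp only [ip]
  rw [← h1, ← h2, ← h3]
  ring

theorem D1_Ixx (a x : V) : D1_I a x x = (‖a‖ * ‖x‖ * sin (InnerProductGeometry.angle a x)) ^ 2 := by
  have h2 := InnerProductGeometry.cos_angle_mul_norm_mul_norm a x
  rw [D1_I, ip_self, ip_self]
  simp only [ip]
  rw [← h2]
  have h3 := Real.sin_sq_add_cos_sq (InnerProductGeometry.angle a x)
  linear_combination - (‖a‖ * ‖x‖) ^ 2 * h3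

theorem D1_cos : cos (2 * π / 5) < 31 / 100 := by
  have h1 : cos (2 * π / 5) = 2 * cos (π / 5) ^ 2 - 1 := by
    rw [← Real.cos_two_mul]; congr 1; ring
  rw [h1, Real.cos_pi_div_five]
  have h5 : √5 ^ 2 = 5 := Real.sq_sqrt (by norm_num)
  have h6 : √5 < 2.237 := by
    rw [Real.sqrt_lt' (by norm_num)]; norm_num
  nlinarith

theorem D1_trig {l α β γ : ℝ} (h0 : 0 < l) (h1 : l ≤ 1 / 10)
    (ha1 : 19 / 20 * l ≤ α) (ha2 : α ≤ 21 / 20 * l) (hb1 : 19 / 20 * l ≤ β) (hb2 : β ≤ 21 / 20 * l)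
    (hg1 : 19 / 20 * l ≤ γ) (hg2 : γ ≤ 21 / 20 * l) :
    31 / 100 * (sin α * sin β) < cos γ - cos α * cos β := by
  have e1 : cos γ ≥ 1 - γ ^ 2 / 2 := Real.one_sub_sq_div_two_le_cos
  have e2 : cos (α - β) ≤ 1 := Real.cos_le_one _
  have e3 : cos (α + β) ≤ cos (19 / 10 * l) := by
    apply Real.cos_le_cos_of_nonneg_of_le_pi (by positivity)
    · have := Real.pi_gt_three; linarith
    · linarith
  have e4 := (abs_le.1 (Real.cos_bound (x := 19 / 10 * l) (by rw [abs_of_pos (by positivity)]; linarith))).2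
  rw [abs_of_pos (by positivity : 0 < 19 / 10 * l)] at e4
  have p1 := Real.cos_add α β
  have p2 := Real.cos_sub α β
  have hγ : γ ^ 2 ≤ (21 / 20 * l) ^ 2 := by
    have : 0 ≤ γ := by linarith
    gcongr
  have hl2 : l ^ 4 ≤ 1 / 100 * l ^ 2 := by
    have : l ^ 2 ≤ 1 / 100 := by nlinarith
    nlinarith [sq_nonneg l]
  have hl3 : 0 < l ^ 2 := by positivity
  nlinarith

theorem D1_arg {a x y : V} (hd : 0 < det3 a x y) {l : ℝ} (h0 : 0 < l) (h1 : l ≤ 1 / 10)
    (ha1 : 19 / 20 * l ≤ InnerProductGeometry.angle a x) (ha2 : InnerProductGeometry.angle a x ≤ 21 / 20 * l)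
    (hb1 : 19 / 20 * l ≤ InnerProductGeometry.angle a y) (hb2 : InnerProductGeometry.angle a y ≤ 21 / 20 * l)
    (hg1 : 19 / 20 * l ≤ InnerProductGeometry.angle x y) (hg2 : InnerProductGeometry.angle x y ≤ 21 / 20 * l) :
    0 < D1_I a x x ∧ 0 < Complex.arg (D1_w a x y) ∧ Complex.arg (D1_w a x y) < 2 * π / 5 := by
  have ha : a ≠ 0 := by rintro rfl; simp [det3_def] at hd
  have hx : x ≠ 0 := by rintro rfl; simp [det3_def] at hd
  have hy : y ≠ 0 := by rintro rfl; simp [det3_def] at hd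
  have na : 0 < ‖a‖ := norm_pos_iff.2 ha
  have nx : 0 < ‖x‖ := norm_pos_iff.2 hx
  have ny : 0 < ‖y‖ := norm_pos_iff.2 hy
  have hpi := Real.pi_gt_three
  have sx : 0 < sin (InnerProductGeometry.angle a x) := Real.sin_pos_of_pos_of_lt_pi (by linarith) (by linarith)
  have sy : 0 < sin (InnerProductGeometry.angle a y) := Real.sin_pos_of_pos_of_lt_pi (by linarith) (by linarith)
  have tr := D1_trig h0 h1 ha1 ha2 hb1 hb2 hg1 hg2
  have him : 0 < (D1_w a x y).im := mul_pos na hd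
  have hne : D1_w a x y ≠ 0 := by intro h; rw [h] at him; simp at him
  have hn : ‖D1_w a x y‖ = ‖a‖ ^ 2 * (‖x‖ * ‖y‖) *
      (sin (InnerProductGeometry.angle a x) * sin (InnerProductGeometry.angle a y)) := by
    rw [← sq_eq_sq₀ (norm_nonneg _) (by positivity), D1_normSq, D1_Ixx, D1_Ixx]
    ring
  have hre : (D1_w a x y).re = ‖a‖ ^ 2 * (‖x‖ * ‖y‖) *
    (cos (InnerProductGeometry.angle x y) -
      cos (InnerProductGeometry.angle a x) * cos (InnerProductGeometry.angle a y)) := D1_Ixy a x y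
  have h2 : 0 < Complex.arg (D1_w a x y) := by
    rcases lt_or_eq_of_le (Complex.arg_nonneg_iff.2 him.le) with h | h
    · exact h
    · have := Complex.arg_eq_zero_iff.1 h.symm
      linarith [this.2]
  refine ⟨by rw [D1_Ixx]; positivity, h2, ?_⟩
  by_contra hcon
  push Not at hcon
  have h3 : cos (Complex.arg (D1_w a x y)) ≤ cos (2 * π / 5) :=
    Real.cos_le_cos_of_nonneg_of_le_pi (by positivity) (Complex.arg_le_pi _) hcon
  rw [Complex.cos_arg hne, hn, hre] at h3
  have hc := D1_cos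
  have hK : 0 < ‖a‖ ^ 2 * (‖x‖ * ‖y‖) := by positivity
  rw [mul_div_mul_left _ _ hK.ne'] at h3
  rw [div_le_iff₀ (by positivity)] at h3
  nlinarith [mul_pos sx sy]

/-- the next face around the vertex -/
def D1_s (X : Finset V) (t : Tr) : Tr := twin X (rot (rot t))

theorem D1_s_mem {X : Finset V} (hX : GP X) {t : Tr} (h : t ∈ T X) : D1_s X t ∈ T X :=
  twin_mem hX (rot_mem (rot_mem h))

theorem D1_s_1 {X : Finset V} (hX : GP X) {t : Tr} (h : t ∈ T X) : (D1_s X t).1 = t.1 :=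
  twin_1 hX (rot_mem (rot_mem h))

theorem D1_s_2 {X : Finset V} (hX : GP X) {t : Tr} (h : t ∈ T X) : (D1_s X t).2.1 = t.2.2 :=
  twin_2 hX (rot_mem (rot_mem h))

theorem D1_s_inj {X : Finset V} (hX : GP X) {t t' : Tr} (h : t ∈ T X) (h' : t' ∈ T X)
    (e : D1_s X t = D1_s X t') : t = t' := by
  have e1 : rot (rot t) = rot (rot t') := by
    rw [← twin_twin hX (rot_mem (rot_mem h)), ← twin_twin hX (rot_mem (rot_mem h'))]
    exact congrArg _ e
  have := congrArg rot e1
  simpa using this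

open Classical in
/-- BLOCK D1: a vertex at which all faces are nearly equilateral has degree at least 6. Project along `a` to the plane
`a^⊥ ≅ ℂ` (oriented so that `det3 a y z > 0` means `z` is to the left of `y`); `y(x)` = image of `x`. The map
`t ↦ twin (rot (rot t))` is a permutation of `{t ∈ T X | t.1 = a}` (`(a,b,c) ↦ (a,c,_)`), so the product of
`y(c)/y(b)` over these `t` is 1; each factor has argument in `(0, 2π/5)`: `cos = (cos γ - cos β cos β')/(sin β sin β')`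
with the three spherical sides in `[19/20 l, 21/20 l]`, `> cos (2π/5) = .309`. The sum of the arguments is a positive
multiple of 2π (G4: the set is not empty), so there are more than 5 factors. -/
theorem D1 {X : Finset V} (hX : GP X) {a : V} (ha : a ∈ X) {l : ℝ} (h0 : 0 < l) (h1 : l ≤ 1 / 10)
    (h : ∀ t ∈ T X, t.1 = a → (19 / 20 * l ≤ La t ∧ La t ≤ 21 / 20 * l) ∧
      (19 / 20 * l ≤ La (rot t) ∧ La (rot t) ≤ 21 / 20 * l) ∧
      (19 / 20 * l ≤ La (rot (rot t)) ∧ La (rot (rot t)) ≤ 21 / 20 * l)) :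
    6 ≤ ((T X).filter (fun t => t.1 = a)).card := by
  set F := (T X).filter (fun t => t.1 = a) with hF
  obtain ⟨t0, ht0, ht0a⟩ := G4 hX ha
  have hF0 : t0 ∈ F := by rw [hF, Finset.mem_filter]; exact ⟨ht0, ht0a⟩
  have hloc : ∀ t ∈ F, 0 < D1_I a t.2.1 t.2.1 ∧ 0 < Complex.arg (D1_w a t.2.1 t.2.2) ∧
      Complex.arg (D1_w a t.2.1 t.2.2) < 2 * π / 5 := by
    intro t ht
    rw [hF, Finset.mem_filter] at ht
    obtain ⟨ht, hta⟩ := ht
    obtain ⟨⟨b1, b2⟩, ⟨b3, b4⟩, ⟨b5, b6⟩⟩ := h t ht hta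
    have hd := T_pos ht
    obtain ⟨x, y, z⟩ := t
    simp only at hta
    subst hta
    simp only [La, rot] at b1 b2 b3 b4 b5 b6
    rw [InnerProductGeometry.angle_comm z] at b5 b6
    exact D1_arg hd h0 h1 b1 b2 b5 b6 b3 b4
  -- the permutation
  have hperm : ∀ g : V → ℂ, ∏ t ∈ F, g t.2.2 = ∏ t ∈ F, g t.2.1 := by
    intro g
    have hmaps : ∀ t ∈ F, D1_s X t ∈ F := by
      intro t ht
      rw [hF, Finset.mem_filter] at ht ⊢
      exact ⟨D1_s_mem hX ht.1, by rw [D1_s_1 hX ht.1, ht.2]⟩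
    have hinj : ∀ t ∈ F, ∀ t' ∈ F, D1_s X t = D1_s X t' → t = t' := by
      intro t ht t' ht'
      rw [hF, Finset.mem_filter] at ht ht'
      exact D1_s_inj hX ht.1 ht'.1
    have himg : F.image (D1_s X) = F := by
      apply Finset.eq_of_subset_of_card_le
      · intro s hs
        obtain ⟨t, ht, rfl⟩ := Finset.mem_image.1 hs
        exact hmaps t ht
      · rw [Finset.card_image_of_injOn (fun t ht t' ht' => hinj t ht t' ht')]
    calc ∏ t ∈ F, g t.2.2 = ∏ t ∈ F, g (D1_s X t).2.1 := by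
          refine Finset.prod_congr rfl fun t ht => ?_
          rw [hF, Finset.mem_filter] at ht
          rw [D1_s_2 hX ht.1]
      _ = ∏ t ∈ F.image (D1_s X), g t.2.1 := by
          rw [Finset.prod_image (fun t ht t' ht' => hinj t ht t' ht')]
      _ = _ := by rw [himg]
  -- product of the w
  set b := t0.2.1 with hb
  have hbb : 0 < D1_I a b b := (hloc t0 hF0).1
  have hprod : (∏ t ∈ F, (D1_I a b b : ℂ)) * ∏ t ∈ F, D1_w a t.2.1 t.2.2 =
      ∏ t ∈ F, ((D1_I a b b * D1_I a t.2.1 t.2.1 : ℝ) : ℂ) := by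
    rw [← Finset.prod_mul_distrib]
    calc ∏ t ∈ F, ((D1_I a b b : ℂ) * D1_w a t.2.1 t.2.2) =
        ∏ t ∈ F, ((starRingEnd ℂ) (D1_w a b t.2.1) * D1_w a b t.2.2) := by
          refine Finset.prod_congr rfl fun t ht => ?_
          rw [D1_key]
      _ = (∏ t ∈ F, (starRingEnd ℂ) (D1_w a b t.2.1)) * ∏ t ∈ F, D1_w a b t.2.2 := by
          rw [Finset.prod_mul_distrib]
      _ = (∏ t ∈ F, (starRingEnd ℂ) (D1_w a b t.2.1)) * ∏ t ∈ F, D1_w a b t.2.1 := by
          rw [hperm (fun x => D1_w a b x)]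
      _ = ∏ t ∈ F, ((starRingEnd ℂ) (D1_w a b t.2.1) * D1_w a b t.2.1) := by
          rw [Finset.prod_mul_distrib]
      _ = _ := by
          refine Finset.prod_congr rfl fun t ht => ?_
          rw [mul_comm, Complex.mul_conj, Complex.normSq_eq_norm_sq, D1_normSq]
  have hpos : 0 < ∏ t ∈ F, (D1_I a b b * D1_I a t.2.1 t.2.1) :=
    Finset.prod_pos fun t ht => mul_pos hbb (hloc t ht).1
  have hC : 0 < ∏ t ∈ F, D1_I a b b := Finset.prod_pos fun t ht => hbb
  obtain ⟨R, hR0, hR⟩ : ∃ R : ℝ, 0 < R ∧ ∏ t ∈ F, D1_w a t.2.1 t.2.2 = R := by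
    refine ⟨(∏ t ∈ F, (D1_I a b b * D1_I a t.2.1 t.2.1)) / ∏ t ∈ F, D1_I a b b, div_pos hpos hC, ?_⟩
    rw [← Complex.ofReal_prod, ← Complex.ofReal_prod] at hprod
    rw [Complex.ofReal_div, ← hprod]
    have : ((∏ t ∈ F, D1_I a b b : ℝ) : ℂ) ≠ 0 := by exact_mod_cast hC.ne'
    field_simp
  -- sum of the arguments
  set S := ∑ t ∈ F, Complex.arg (D1_w a t.2.1 t.2.2) with hS
  have hexp : ∏ t ∈ F, D1_w a t.2.1 t.2.2 =
      ((∏ t ∈ F, ‖D1_w a t.2.1 t.2.2‖ : ℝ) : ℂ) * Complex.exp (S * Complex.I) := by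
    rw [hS, Complex.ofReal_sum, Finset.sum_mul, Complex.exp_sum, Complex.ofReal_prod,
      ← Finset.prod_mul_distrib]
    refine Finset.prod_congr rfl fun t ht => ?_
    rw [Complex.norm_mul_exp_arg_mul_I]
  have hnorm : ∏ t ∈ F, ‖D1_w a t.2.1 t.2.2‖ = R := by
    rw [← norm_prod, hR, Complex.norm_real, Real.norm_eq_abs, abs_of_pos hR0]
  rw [hR, hnorm] at hexp
  have hone : Complex.exp (S * Complex.I) = 1 := by
    have hR1 : (R : ℂ) ≠ 0 := by exact_mod_cast hR0.ne'
    have : (R : ℂ) * Complex.exp (S * Complex.I) = R * 1 := by rw [← hexp, mul_one]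
    exact mul_left_cancel₀ hR1 this
  obtain ⟨k, hk⟩ := Complex.exp_eq_one_iff.1 hone
  have hk' : S = k * (2 * π) := by
    have h2 : ((S : ℝ) : ℂ) * Complex.I = ((k * (2 * π) : ℝ) : ℂ) * Complex.I := by
      rw [hk]; push_cast; ring
    exact_mod_cast mul_right_cancel₀ Complex.I_ne_zero h2
  have hSpos : 0 < S := Finset.sum_pos (fun t ht => (hloc t ht).2.1) ⟨t0, hF0⟩
  have hSlt : S < F.card * (2 * π / 5) := by
    have := Finset.sum_lt_sum_of_nonempty (s := F) ⟨t0, hF0⟩ (fun t ht => (hloc t ht).2.2)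
    rwa [Finset.sum_const, nsmul_eq_mul] at this
  have hpi := Real.pi_pos
  have hk1 : (1 : ℤ) ≤ k := by
    have : 0 < (k : ℝ) := by
      rw [hk'] at hSpos
      by_contra hc
      push Not at hc
      nlinarith
    exact_mod_cast this
  have hk2 : (1 : ℝ) ≤ k := by exact_mod_cast hk1
  have h5 : (5 : ℝ) < F.card := by
    have : 2 * π ≤ S := by rw [hk']; nlinarith
    have h6 : 2 * π < F.card * (2 * π / 5) := lt_of_le_of_lt this hSlt
    by_contra hc
    push Not at hc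
    nlinarith
  have : 5 < F.card := by exact_mod_cast h5
  omega

end Iso
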