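import Pool.Agent.Lib_helper3.Iso.G1
noncomputable section
namespace Iso
open MeasureTheory Real Set

/-- a linear form injective on `X` -/
theorem G3_level (X : Finset V) : ∃ l : V, l ≠ 0 ∧ ∀ x ∈ X, ∀ y ∈ X, ip l x = ip l y → x = y := by
  classical
  obtain ⟨u, hu⟩ : ∃ u : V, u ≠ 0 := exists_ne 0
  -- the nonzero differences and one more vector
  let ι := Option {p : V × V // p ∈ X ×ˢ X ∧ p.1 ≠ p.2}
  have hfin : Finite {p : V × V // p ∈ X ×ˢ X ∧ p.1 ≠ p.2} :=
    Finite.of_injective (fun p => (⟨p.1, p.2.1⟩ : {p : V × V // p ∈ X ×ˢ X}))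
      (fun p q h => Subtype.ext (congrArg (fun z => z.1) h))
  have hfin' : Finite ι := by infer_instance
  let v : ι → V := fun o => o.elim u (fun p => p.1.1 - p.1.2)
  have hv : ∀ i, v i ≠ 0 := by
    rintro (_ | p)
    · exact hu
    · exact sub_ne_zero.2 p.2.2
  obtain ⟨f, hf⟩ := Module.exists_dual_forall_apply_ne_zero (K := ℝ) v hv
  let F : V →L[ℝ] ℝ := LinearMap.toContinuousLinearMap f
  obtain ⟨l, hl⟩ : ∃ l : V, ∀ x, ip l x = f x :=
    ⟨(InnerProductSpace.toDual ℝ V).symm F, fun x => InnerProductSpace.toDual_symm_apply⟩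
  refine ⟨l, ?_, ?_⟩
  · rintro rfl
    have := hf none
    rw [← hl] at this
    simp [ip] at this
  · intro x hx y hy hxy
    by_contra hne
    have := hf (some ⟨(x, y), Finset.mem_product.2 ⟨hx, hy⟩, hne⟩)
    apply this
    show f (x - y) = 0
    rw [← hl, ip_sub_right, hxy, sub_self]

/-- `x` is strictly between -/
def G3_mid (l : V) (t : Tr) : Prop :=
  (ip l t.2.1 < ip l t.1 ∧ ip l t.1 < ip l t.2.2) ∨ (ip l t.2.2 < ip l t.1 ∧ ip l t.1 < ip l t.2.1)

/-- the point of the opposite edge at the level of the middle vertex -/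
theorem G3_point {l : V} {t : Tr} (h : G3_mid l t) : ∃ m : ℝ, 0 < m ∧ m < 1 ∧
    (1 - m) * ip l t.2.1 + m * ip l t.2.2 = ip l t.1 := by
  set a := ip l t.1
  set b := ip l t.2.1
  set c := ip l t.2.2
  have hne : c - b ≠ 0 := by
    rcases h with ⟨h1, h2⟩ | ⟨h1, h2⟩
    · exact (sub_pos.2 (h1.trans h2)).ne'
    · exact (sub_neg.2 (h1.trans h2)).ne
  refine ⟨(a - b) / (c - b), ?_, ?_, ?_⟩
  · rcases h with ⟨h1, h2⟩ | ⟨h1, h2⟩
    · exact div_pos (by linarith) (by linarith)
    · exact div_pos_of_neg_of_neg (by linarith) (by linarith)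
  · rcases h with ⟨h1, h2⟩ | ⟨h1, h2⟩
    · rw [div_lt_one (by linarith)]; linarith
    · rw [div_lt_one_of_neg (by linarith)]; linarith
  · field_simp
    ring

/-- two faces with the same first vertex, the same middle vertex: strict inequality -/
theorem G3_neg {X : Finset V} (hX : GP X) {t s : Tr} (ht : t ∈ T X) (hs : s ∈ T X) (h1 : s.1 = t.1)
    (hne : s ≠ t) {m : ℝ} (hm0 : 0 < m) (hm1 : m < 1) :
    ip (P s) ((1 - m) • t.2.1 + m • t.2.2 - t.1) < 0 := by
  have hd : 0 < det3 t.1 t.2.1 t.2.2 := T_pos ht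
  have hd' : 0 < det3 s.1 s.2.1 s.2.2 := T_pos hs
  have hm := (mem_T.1 ht).1
  have e1 : ip (P s) t.1 = 1 := by rw [← h1]; exact ip_P_1 hs
  have k2 := ip_P_le hs hm.2.1
  have k3 := ip_P_le hs hm.2.2
  rw [ip_sub_right, ip_add_right, ip_smul_right, ip_smul_right, e1]
  by_contra hcon
  push Not at hcon
  have q2 : ip (P s) t.2.1 = 1 := by
    by_contra hne
    have : ip (P s) t.2.1 < 1 := lt_of_le_of_ne k2 hne
    nlinarith
  have q3 : ip (P s) t.2.2 = 1 := by
    by_contra hne
    have : ip (P s) t.2.2 < 1 := lt_of_le_of_ne k3 hne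
    nlinarith
  have v : ∀ y ∈ X, ip (P s) y = 1 → y = s.1 ∨ y = s.2.1 ∨ y = s.2.2 := by
    intro y hy hy1
    by_contra hc
    push Not at hc
    have := strict hX hs hy hc.1 hc.2.1 hc.2.2
    linarith
  have n12 := G1_ne12 hd.ne'
  have n13 := G1_ne13 hd.ne'
  have n23 := G1_ne23 hd.ne'
  have w2 := v _ hm.2.1 q2
  have w3 := v _ hm.2.2 q3
  rw [h1] at w2 w3
  have w2' : t.2.1 = s.2.1 ∨ t.2.1 = s.2.2 := by
    rcases w2 with h | h | h
    · exact absurd h.symm n12
    · exact Or.inl h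
    · exact Or.inr h
  have w3' : t.2.2 = s.2.1 ∨ t.2.2 = s.2.2 := by
    rcases w3 with h | h | h
    · exact absurd h.symm n13
    · exact Or.inl h
    · exact Or.inr h
  rcases w2' with h2 | h2 <;> rcases w3' with h3 | h3
  · exact n23 (h2.trans h3.symm)
  · exact hne (Prod.ext h1 (Prod.ext h2.symm h3.symm))
  · rw [h1, ← h2, ← h3] at hd'
    have e : det3 t.1 t.2.2 t.2.1 = - det3 t.1 t.2.1 t.2.2 := by
      rw [det3_def, det3_def]; ring
    linarith
  · exact n23 (h2.trans h3.symm)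

/-- three vectors in the plane `l⊥` are dependent -/
theorem G3_dep {l : V} (hl : l ≠ 0) {d : Fin 3 → V} (hd : ∀ i, ip l (d i) = 0) :
    ∃ g : Fin 3 → ℝ, ∑ i, g i • d i = 0 ∧ ∃ i, g i ≠ 0 := by
  rw [← Fintype.not_linearIndependent_iff]
  intro h
  have hspan : Submodule.span ℝ (Set.range d) = ⊤ :=
    h.span_eq_top_of_card_eq_finrank (by simp)
  have hmem : l ∈ Submodule.span ℝ (Set.range d) := by rw [hspan]; trivial
  have hall : ∀ x ∈ Submodule.span ℝ (Set.range d), ip l x = 0 := by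
    intro x hx
    induction hx using Submodule.span_induction with
    | mem x hx => obtain ⟨i, rfl⟩ := hx; exact hd i
    | zero => simp [ip]
    | add x y _ _ hx hy => rw [ip_add_right, hx, hy, add_zero]
    | smul a x _ hx => rw [ip_smul_right, hx, mul_zero]
  have h0 := hall l hmem
  rw [ip_self] at h0
  exact hl (norm_eq_zero.1 (pow_eq_zero_iff (two_ne_zero) |>.1 h0))

/-- the sign argument -/
theorem G3_sign {c : Fin 3 → ℝ} {A : Fin 3 → Fin 3 → ℝ} (h0 : ∀ i, A i i = 0)
    (hneg : ∀ i j, i ≠ j → A i j < 0) (hsum : ∀ i, ∑ j, c j * A i j = 0) : ∀ i, c i = 0 := by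
  have s0 := hsum 0
  have s1 := hsum 1
  have s2 := hsum 2
  rw [Fin.sum_univ_three] at s0 s1 s2
  rw [h0 0] at s0
  rw [h0 1] at s1
  rw [h0 2] at s2
  have a01 := hneg 0 1 (by decide)
  have a02 := hneg 0 2 (by decide)
  have a10 := hneg 1 0 (by decide)
  have a12 := hneg 1 2 (by decide)
  have a20 := hneg 2 0 (by decide)
  have a21 := hneg 2 1 (by decide)
  -- c1 A01 + c2 A02 = 0, c0 A10 + c2 A12 = 0, c0 A20 + c1 A21 = 0
  have key : c 0 = 0 ∧ c 1 = 0 ∧ c 2 = 0 := by
    rcases lt_trichotomy (c 0) 0 with h | h | h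
    · have p2 : 0 < c 2 := by
        by_contra hc; push Not at hc
        have := mul_pos_of_neg_of_neg h a10
        have := mul_nonneg_of_nonpos_of_nonpos hc a12.le
        linarith
      have p1 : 0 < c 1 := by
        by_contra hc; push Not at hc
        have := mul_pos_of_neg_of_neg h a20
        have := mul_nonneg_of_nonpos_of_nonpos hc a21.le
        linarith
      have := mul_neg_of_pos_of_neg p1 a01
      have := mul_neg_of_pos_of_neg p2 a02
      linarith
    · rw [h, zero_mul, zero_add] at s1 s2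
      refine ⟨h, ?_, ?_⟩
      · have : c 1 * A 2 1 = 0 := by linarith
        exact (mul_eq_zero.1 this).resolve_right a21.ne
      · have : c 2 * A 1 2 = 0 := by linarith
        exact (mul_eq_zero.1 this).resolve_right a12.ne
    · have p2 : c 2 < 0 := by
        by_contra hc; push Not at hc
        have := mul_neg_of_pos_of_neg h a10
        have := mul_nonpos_of_nonneg_of_nonpos hc a12.le
        linarith
      have p1 : c 1 < 0 := by
        by_contra hc; push Not at hc
        have := mul_neg_of_pos_of_neg h a20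
        have := mul_nonpos_of_nonneg_of_nonpos hc a21.le
        linarith
      have := mul_pos_of_neg_of_neg p1 a01
      have := mul_pos_of_neg_of_neg p2 a02
      linarith
  intro i
  fin_cases i
  · exact key.1
  · exact key.2.1
  · exact key.2.2

/-- there are at most two faces with a given middle vertex -/
theorem G3_two {X : Finset V} (hX : GP X) {l : V} (hl : l ≠ 0) {x : V} {t : Fin 3 → Tr}
    (ht : ∀ i, t i ∈ T X) (hx : ∀ i, (t i).1 = x) (hmid : ∀ i, G3_mid l (t i))
    (hinj : Function.Injective t) : False := by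
  choose m hm0 hm1 hm using fun i => G3_point (hmid i)
  set d : Fin 3 → V := fun i => (1 - m i) • (t i).2.1 + m i • (t i).2.2 - (t i).1 with hd
  have hld : ∀ i, ip l (d i) = 0 := by
    intro i
    rw [hd]
    simp only
    rw [ip_sub_right, ip_add_right, ip_smul_right, ip_smul_right, hm i, sub_self]
  obtain ⟨g, hg, i, hi⟩ := G3_dep hl hld
  have hA := G3_sign (c := g) (A := fun i j => ip (P (t i)) (d j)) ?_ ?_ ?_
  · exact hi (hA i)
  · intro j
    show ip (P (t j)) ((1 - m j) • (t j).2.1 + m j • (t j).2.2 - (t j).1) = 0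
    rw [ip_sub_right, ip_add_right, ip_smul_right, ip_smul_right, ip_P_1 (ht j), ip_P_2 (ht j),
      ip_P_3 (ht j)]
    ring
  · intro j k hjk
    exact G3_neg hX (ht k) (ht j) ((hx j).trans (hx k).symm) (fun h => hjk (hinj h)) (hm0 k) (hm1 k)
  · intro j
    have h1 : ip (P (t j)) (∑ k, g k • d k) = 0 := by rw [hg]; simp [ip]
    rw [Fin.sum_univ_three, ip_add_right, ip_add_right, ip_smul_right, ip_smul_right,
      ip_smul_right] at h1
    rw [Fin.sum_univ_three]
    exact h1

theorem G3_inj {α : Type*} {a b c : α} (hab : a ≠ b) (hac : a ≠ c) (hbc : b ≠ c) :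
    Function.Injective (![a, b, c] : Fin 3 → α) := by
  intro i j hij
  fin_cases i <;> fin_cases j
  · rfl
  · exact absurd hij hab
  · exact absurd hij hac
  · exact absurd hij hab.symm
  · rfl
  · exact absurd hij hbc
  · exact absurd hij hac.symm
  · exact absurd hij hbc.symm
  · rfl

open Classical in
theorem G3_one (P Q R : Prop) (h : (P ∧ ¬Q ∧ ¬R) ∨ (¬P ∧ Q ∧ ¬R) ∨ (¬P ∧ ¬Q ∧ R)) :
    (if P then (1 : ℝ) else 0) + (if Q then 1 else 0) + (if R then 1 else 0) = 1 := by
  rcases h with ⟨h1, h2, h3⟩ | ⟨h1, h2, h3⟩ | ⟨h1, h2, h3⟩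
  · rw [if_pos h1, if_neg h2, if_neg h3]; ring
  · rw [if_neg h1, if_pos h2, if_neg h3]; ring
  · rw [if_neg h1, if_neg h2, if_pos h3]; ring

theorem G3_real {a b c : ℝ} (n12 : a ≠ b) (n13 : a ≠ c) (n23 : b ≠ c) :
    (((b < a ∧ a < c) ∨ (c < a ∧ a < b)) ∧ ¬((c < b ∧ b < a) ∨ (a < b ∧ b < c)) ∧
      ¬((a < c ∧ c < b) ∨ (b < c ∧ c < a))) ∨
    (¬((b < a ∧ a < c) ∨ (c < a ∧ a < b)) ∧ ((c < b ∧ b < a) ∨ (a < b ∧ b < c)) ∧
      ¬((a < c ∧ c < b) ∨ (b < c ∧ c < a))) ∨
    (¬((b < a ∧ a < c) ∨ (c < a ∧ a < b)) ∧ ¬((c < b ∧ b < a) ∨ (a < b ∧ b < c)) ∧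
      ((a < c ∧ c < b) ∨ (b < c ∧ c < a))) := by
  rcases lt_or_gt_of_ne n12 with h1 | h1 <;> rcases lt_or_gt_of_ne n13 with h2 | h2 <;>
      rcases lt_or_gt_of_ne n23 with h3 | h3
  · have := not_lt.2 h1.le; have := not_lt.2 h2.le; have := not_lt.2 h3.le; tauto
  · have := not_lt.2 h1.le; have := not_lt.2 h2.le; have := not_lt.2 h3.le; tauto
  · exact absurd (h1.trans h3) (not_lt.2 h2.le)
  · have := not_lt.2 h1.le; have := not_lt.2 h2.le; have := not_lt.2 h3.le; tauto
  · have := not_lt.2 h1.le; have := not_lt.2 h2.le; have := not_lt.2 h3.le; tauto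
  · exact absurd (h3.trans h1) (not_lt.2 h2.le)
  · have := not_lt.2 h1.le; have := not_lt.2 h2.le; have := not_lt.2 h3.le; tauto
  · have := not_lt.2 h1.le; have := not_lt.2 h2.le; have := not_lt.2 h3.le; tauto

theorem G3_order {l : V} {t : Tr} (n12 : ip l t.1 ≠ ip l t.2.1) (n13 : ip l t.1 ≠ ip l t.2.2)
    (n23 : ip l t.2.1 ≠ ip l t.2.2) :
    (G3_mid l t ∧ ¬G3_mid l (rot t) ∧ ¬G3_mid l (rot (rot t))) ∨
    (¬G3_mid l t ∧ G3_mid l (rot t) ∧ ¬G3_mid l (rot (rot t))) ∨
    (¬G3_mid l t ∧ ¬G3_mid l (rot t) ∧ G3_mid l (rot (rot t))) :=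
  G3_real n12 n13 n23

open Classical in
/-- BLOCK G3: number of faces. Choose `l : V` with `x ↦ ip l x` injective on `X`. Every face has a unique middle
vertex; `T X` is 3 times the number of `t ∈ T X` whose first vertex is the middle one. For fixed `x ∈ X` at most two
faces have `x` as middle vertex: let `x + d_i` be the point of the opposite edge of face `i` at level `ip l x`, `d_i ≠ 0`,
`ip l d_i = 0`, `ip p_i d_i = 0`, `ip p_j d_i < 0` for `j ≠ i` (`strict`); three such vectors in a plane satisfy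
`c1 d1 + c2 d2 + c3 d3 = 0`, and applying `p_1, p_2, p_3` the `c`'s have pairwise opposite signs or vanish: contradiction.
The top and bottom vertices are never middle vertices. So `F ≤ 2 (|X| - 2)`. -/
theorem G3_aux {X : Finset V} (hX : GP X) : (T X).card + 12 ≤ 6 * X.card := by
  obtain ⟨l, hl0, hl⟩ := G3_level X
  set M := (T X).filter (fun t => G3_mid l t) with hM
  -- exactly one of the three rotations has the middle vertex first
  have hone : ∀ t ∈ T X, (if G3_mid l t then (1 : ℝ) else 0) + (if G3_mid l (rot t) then 1 else 0) +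
      (if G3_mid l (rot (rot t)) then 1 else 0) = 1 := by
    intro t ht
    have hd : 0 < det3 t.1 t.2.1 t.2.2 := T_pos ht
    have hm := (mem_T.1 ht).1
    have n12 : ip l t.1 ≠ ip l t.2.1 := fun h => G1_ne12 hd.ne' (hl _ hm.1 _ hm.2.1 h)
    have n13 : ip l t.1 ≠ ip l t.2.2 := fun h => G1_ne13 hd.ne' (hl _ hm.1 _ hm.2.2 h)
    have n23 : ip l t.2.1 ≠ ip l t.2.2 := fun h => G1_ne23 hd.ne' (hl _ hm.2.1 _ hm.2.2 h)
    refine G3_one _ _ _ ?_
    exact G3_order n12 n13 n23
  have hcardR : ((T X).card : ℝ) = 3 * (M.card : ℝ) := by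
    have h1 : ∑ t ∈ T X, ((if G3_mid l t then (1 : ℝ) else 0) + (if G3_mid l (rot t) then 1 else 0) +
        (if G3_mid l (rot (rot t)) then 1 else 0)) = (T X).card := by
      rw [Finset.sum_congr rfl hone]; simp
    have h2 : ∑ t ∈ T X, (if G3_mid l t then (1 : ℝ) else 0) = M.card := by
      rw [hM, Finset.sum_boole]
    have h3 := sum_rot X (fun t => if G3_mid l t then (1 : ℝ) else 0)
    have h4 := sum_rot X (fun t => if G3_mid l (rot t) then (1 : ℝ) else 0)
    rw [Finset.sum_add_distrib, Finset.sum_add_distrib] at h1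
    rw [h4, h3, h2] at h1
    linarith
  have hcard : (T X).card = 3 * M.card := by exact_mod_cast hcardR
  -- the fibres
  have hne : X.Nonempty := by
    obtain ⟨u, hu⟩ : ∃ u : V, u ≠ 0 := exists_ne 0
    obtain ⟨x, hx, -⟩ := hX.pos u hu
    exact ⟨x, hx⟩
  obtain ⟨top, htop, htop'⟩ := Finset.exists_max_image X (fun x => ip l x) hne
  obtain ⟨bot, hbot, hbot'⟩ := Finset.exists_min_image X (fun x => ip l x) hne
  have htb : top ≠ bot := by
    intro h
    obtain ⟨x, hx, hx'⟩ := hX.pos l hl0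
    obtain ⟨y, hy, hy'⟩ := hX.pos (-l) (neg_ne_zero.2 hl0)
    rw [show -l = (-1 : ℝ) • l by simp, ip_smul_left] at hy'
    have h1 := htop' x hx
    have h2 := hbot' y hy
    rw [h] at h1
    linarith
  have hfib : ∀ x ∈ (X.erase top).erase bot, (M.filter (fun t => t.1 = x)).card ≤ 2 := by
    intro x _
    by_contra hcon
    push Not at hcon
    obtain ⟨a, b, c, ha, hb, hc, hab, hac, hbc⟩ := Finset.two_lt_card_iff.1 hcon
    have hmem : ∀ s ∈ M.filter (fun t => t.1 = x), s ∈ T X ∧ G3_mid l s ∧ s.1 = x := by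
      intro s hs
      rw [Finset.mem_filter, hM, Finset.mem_filter] at hs
      exact ⟨hs.1.1, hs.1.2, hs.2⟩
    have hall : ∀ i : Fin 3, (![a, b, c] : Fin 3 → Tr) i ∈ M.filter (fun t => t.1 = x) := by
      intro i
      fin_cases i
      · exact ha
      · exact hb
      · exact hc
    refine G3_two hX hl0 (t := ![a, b, c]) (x := x) (fun i => (hmem _ (hall i)).1)
      (fun i => (hmem _ (hall i)).2.2) (fun i => (hmem _ (hall i)).2.1) ?_
    exact G3_inj hab hac hbc
  have hmaps : ∀ t ∈ M, t.1 ∈ (X.erase top).erase bot := by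
    intro t ht
    rw [hM, Finset.mem_filter] at ht
    obtain ⟨ht1, ht2⟩ := ht
    have hm := (mem_T.1 ht1).1
    have htt := htop' _ hm.2.1
    have htt' := htop' _ hm.2.2
    have hbb := hbot' _ hm.2.1
    have hbb' := hbot' _ hm.2.2
    rw [Finset.mem_erase, Finset.mem_erase]
    refine ⟨?_, ?_, hm.1⟩
    · rintro h
      rcases ht2 with ⟨h1, h2⟩ | ⟨h1, h2⟩ <;> rw [h] at h1 h2 <;> linarith
    · rintro h
      rcases ht2 with ⟨h1, h2⟩ | ⟨h1, h2⟩ <;> rw [h] at h1 h2 <;> linarith
  have hM2 : M.card ≤ 2 * ((X.erase top).erase bot).card :=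
    Finset.card_le_mul_card_image_of_maps_to hmaps 2 hfib
  have hX2 : ((X.erase top).erase bot).card + 2 = X.card := by
    rw [Finset.card_erase_of_mem (Finset.mem_erase.2 ⟨htb.symm, hbot⟩), Finset.card_erase_of_mem htop]
    have : 2 ≤ X.card := Finset.one_lt_card.2 ⟨top, htop, bot, hbot, htb⟩
    omega
  omega

/-- BLOCK G3: number of faces. Choose `l : V` with `x ↦ ip l x` injective on `X`. Every face has a unique middle
vertex; `T X` is 3 times the number of `t ∈ T X` whose first vertex is the middle one. For fixed `x ∈ X` at most two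
faces have `x` as middle vertex: let `x + d_i` be the point of the opposite edge of face `i` at level `ip l x`, `d_i ≠ 0`,
`ip l d_i = 0`, `ip p_i d_i = 0`, `ip p_j d_i < 0` for `j ≠ i` (`strict`); three such vectors in a plane satisfy
`c1 d1 + c2 d2 + c3 d3 = 0`, and applying `p_1, p_2, p_3` the `c`'s have pairwise opposite signs or vanish: contradiction.
The top and bottom vertices are never middle vertices. So `F ≤ 2 (|X| - 2)`. -/
theorem G3 {X : Finset V} (hX : GP X) : (T X).card + 12 ≤ 6 * X.card := G3_aux hX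

end Iso
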