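import Pool.Agent.Lib_helper3.Iso.N2
import Pool.Agent.Lib_helper3.Iso.D1
import Pool.Agent.Lib_helper3.Iso.G3
noncomputable section
namespace Iso
open MeasureTheory Real Set

theorem D2_arctan_le {x : ℝ} (hx : 0 ≤ x) : arctan x ≤ x := by
  have h := Convex.image_sub_le_mul_sub_of_deriv_le (convex_Ici (0:ℝ)) (f := arctan)
    continuous_arctan.continuousOn differentiable_arctan.differentiableOn (C := 1)
    (fun y _ => by
      rw [Real.deriv_arctan]
      rw [div_le_one (by positivity)]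
      nlinarith [sq_nonneg y]) 0 (by simp) x hx hx
  rw [arctan_zero] at h
  linarith

theorem D2_arctan_ge {x : ℝ} (hx : 0 ≤ x) (hx1 : x ≤ 1 / 10) : 99 / 100 * x ≤ arctan x := by
  have h := Convex.mul_sub_le_image_sub_of_le_deriv (convex_Icc (0:ℝ) (1 / 10)) (f := arctan)
    continuous_arctan.continuousOn differentiable_arctan.differentiableOn (C := 99 / 100)
    (fun y hy => by
      rw [interior_Icc] at hy
      rw [Real.deriv_arctan, le_div_iff₀ (by positivity)]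
      nlinarith [hy.1, hy.2]) 0 ⟨le_rfl, by norm_num⟩ x ⟨hx, hx1⟩ hx
  rw [arctan_zero] at h
  linarith

/-- real core of the argument -/
theorem D2_core {a b p q S s : ℝ} (ha : 0 < a) (hb : 0 < b) (hs : 0 < s)
    (h1 : 99 / 100 * (2 * (a * b)) ≤ S) (h2 : S ≤ 2 * (a * b))
    (h3 : a * b * (p ^ 2 + q ^ 2 + (b - √3 * a) ^ 2) + (S - s ^ 2) ^ 2 ≤ 1 / 10000 * s ^ 4) :
    91 / 100 * s ≤ b ∧ b ≤ 95 / 100 * s ∧ |q| ≤ 2 / 100 * s ∧ 99 / 100 * s ^ 2 ≤ S := by
  have hab : 0 < a * b := mul_pos ha hb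
  have r1 : (1732 / 1000 : ℝ) ≤ √3 := Real.le_sqrt_of_sq_le (by norm_num)
  have r2 : √3 ≤ (17321 / 10000 : ℝ) := Real.sqrt_le_iff.2 ⟨by norm_num, by norm_num⟩
  have hs2 : 0 < s ^ 2 := by positivity
  have e1 : (S - s ^ 2) ^ 2 ≤ (1 / 100 * s ^ 2) ^ 2 := by
    have : 0 ≤ a * b * (p ^ 2 + q ^ 2 + (b - √3 * a) ^ 2) := by positivity
    nlinarith
  have e2 : |S - s ^ 2| ≤ 1 / 100 * s ^ 2 := abs_le_of_sq_le_sq e1 (by positivity)
  obtain ⟨e3, e4⟩ := abs_le.1 e2
  have f1 : 495 / 1000 * s ^ 2 ≤ a * b := by linarith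
  have f2 : a * b ≤ 5102 / 10000 * s ^ 2 := by linarith
  have e5 : a * b * (p ^ 2 + q ^ 2 + (b - √3 * a) ^ 2) ≤ 1 / 10000 * s ^ 4 := by
    nlinarith [sq_nonneg (S - s ^ 2)]
  have e6 : p ^ 2 + q ^ 2 + (b - √3 * a) ^ 2 ≤ (15 / 1000 * s) ^ 2 := by
    by_contra hn
    rw [not_le] at hn
    have g1 : 495 / 1000 * s ^ 2 * (15 / 1000 * s) ^ 2 <
        a * b * (p ^ 2 + q ^ 2 + (b - √3 * a) ^ 2) := by
      have g2 : 0 < p ^ 2 + q ^ 2 + (b - √3 * a) ^ 2 := lt_of_le_of_lt (by positivity) hn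
      calc 495 / 1000 * s ^ 2 * (15 / 1000 * s) ^ 2 <
          495 / 1000 * s ^ 2 * (p ^ 2 + q ^ 2 + (b - √3 * a) ^ 2) :=
            mul_lt_mul_of_pos_left hn (by positivity)
        _ ≤ a * b * (p ^ 2 + q ^ 2 + (b - √3 * a) ^ 2) :=
            mul_le_mul_of_nonneg_right f1 g2.le
    have g3 : 495 / 1000 * s ^ 2 * (15 / 1000 * s) ^ 2 = 495 * 225 / 1000000000 * s ^ 4 := by ring
    rw [g3] at g1
    have g4 : 0 < s ^ 4 := by positivity
    nlinarith
  have e7 : |q| ≤ 15 / 1000 * s := abs_le_of_sq_le_sq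
    (by nlinarith [sq_nonneg p, sq_nonneg (b - √3 * a)]) (by positivity)
  have e8 : |b - √3 * a| ≤ 15 / 1000 * s := abs_le_of_sq_le_sq
    (by nlinarith [sq_nonneg p, sq_nonneg q]) (by positivity)
  obtain ⟨e9, e10⟩ := abs_le.1 e8
  have k1 : 857 / 1000 * s ^ 2 ≤ √3 * (a * b) := by nlinarith
  have k2 : √3 * (a * b) ≤ 884 / 1000 * s ^ 2 := by nlinarith
  have k3 : b ^ 2 = √3 * (a * b) + b * (b - √3 * a) := by ring
  refine ⟨?_, ?_, ?_, by linarith⟩
  · by_contra hn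
    rw [not_le] at hn
    have g1 : b ^ 2 + 15 / 1000 * s * b < (91 / 100 * s) ^ 2 + 15 / 1000 * s * (91 / 100 * s) := by
      nlinarith
    have g2 : -(15 / 1000 * s * b) ≤ b * (b - √3 * a) := by nlinarith
    nlinarith
  · by_contra hn
    rw [not_le] at hn
    have g1 : 95 / 100 * s * (95 / 100 * s - 15 / 1000 * s) < b * (b - 15 / 1000 * s) := by
      nlinarith
    have g2 : b * (b - √3 * a) ≤ b * (15 / 1000 * s) := by nlinarith
    nlinarith
  · linarith

/-- BLOCK D2: the defect. Let `n = (T X).card`, `m = 8π/n` (mean of `ks`). If the sum were `< c/n²`, every term would be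
`< c/n² = c m²/(64π²)`: so `|ks - m| ≤ ε m`, and (K1, K1b: `ks ≈ 2 kT kU`) `kT kU ≈ m/2`,
`kp² + kq² + (kU-√3kT)² ≤ ε m`, hence `kU ≈ √(√3 m/2)`, and `La = 2(arctan u1 + arctan u2) ≈ 2 kU` lies in
`[19/20 l, 21/20 l]` with `l = √(2√3 m)` for all darts; `m` is small because `ks ≤ 2 kT kU ≤ 8δ`. By D1 every vertex
has degree `≥ 6`, so `(T X).card ≥ 6 |X|` (every `x ∈ X` is a first vertex), contradiction to G3. -/
theorem D2 : ∃ δ > 0, ∃ c > 0, δ ≤ 1 / 100 ∧ ∀ X : Finset V, NB X δ →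
    c / ((T X).card : ℝ) ^ 2 ≤ ∑ t ∈ T X, (kT X t * kU t *
      (kp X t ^ 2 + kq t ^ 2 + (kU t - √3 * kT X t) ^ 2) + (ks X t - 8 * π / (T X).card) ^ 2) := by
  classical
  refine ⟨1 / 10000, by norm_num, 64 * π ^ 2 / 10000, by positivity, by norm_num, ?_⟩
  intro X hX
  have hgp := hX.gp
  by_contra hn
  rw [not_le] at hn
  -- the number of faces is positive
  have hsum := N2' (by norm_num) (by norm_num) hX
  have hn0 : 0 < (T X).card := by
    rcases Nat.eq_zero_or_pos (T X).card with h | h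
    · rw [Finset.card_eq_zero.1 h, Finset.sum_empty] at hsum
      have := Real.pi_pos
      linarith
    · exact h
  have hnR : (0:ℝ) < ((T X).card : ℝ) := by exact_mod_cast hn0
  have hm0 : 0 < 8 * π / ((T X).card : ℝ) := by positivity
  obtain ⟨s, hs, hs2⟩ : ∃ s : ℝ, 0 < s ∧ s ^ 2 = 8 * π / ((T X).card : ℝ) :=
    ⟨√(8 * π / ((T X).card : ℝ)), Real.sqrt_pos.2 hm0, Real.sq_sqrt hm0.le⟩
  have hc : 64 * π ^ 2 / 10000 / ((T X).card : ℝ) ^ 2 = 1 / 10000 * s ^ 4 := by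
    have : s ^ 4 = (s ^ 2) ^ 2 := by ring
    rw [this, hs2]
    field_simp
    ring
  rw [hc, ← hs2] at hn
  -- bounds for one dart
  have hta : ∀ t ∈ T X, |ta t| ≤ 1 / 100 := fun t ht =>
    abs_le_of_sq_le_sq ((G7a (by norm_num) (by norm_num) hX ht).trans (by norm_num)) (by norm_num)
  have hu : ∀ t ∈ T X, |u1 t| ≤ 1 / 100 ∧ |u2 t| ≤ 1 / 100 := fun t ht => by
    obtain ⟨h1, h2⟩ := G7b (by norm_num) (by norm_num) hX ht
    exact ⟨abs_le_of_sq_le_sq (h1.trans (by norm_num)) (by norm_num),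
      abs_le_of_sq_le_sq (h2.trans (by norm_num)) (by norm_num)⟩
  have hU : ∀ t ∈ T X, 0 < kU t := fun t ht =>
    (G7d hgp ht ((hu t ht).1.trans_lt (by norm_num)) ((hu t ht).2.trans_lt (by norm_num))).1
  have hT : ∀ t ∈ T X, 0 < kT X t := fun t ht =>
    (G7e hgp ht ((hta t ht).trans_lt (by norm_num))
      ((hta _ (twin_mem hgp ht)).trans_lt (by norm_num))).1
  have hks : ∀ t ∈ T X, 99 / 100 * (2 * (kT X t * kU t)) ≤ ks X t ∧
      ks X t ≤ 2 * (kT X t * kU t) := by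
    intro t ht
    have a1 : |ta t| ≤ 1 / 10 := (hta t ht).trans (by norm_num)
    have a2 : |ta (twin X t)| ≤ 1 / 10 := (hta _ (twin_mem hgp ht)).trans (by norm_num)
    have a3 : |u1 t| ≤ 1 / 10 := (hu t ht).1.trans (by norm_num)
    have a4 : |u2 t| ≤ 1 / 10 := (hu t ht).2.trans (by norm_num)
    rw [ks_eq hgp ht]
    refine ⟨K1b a1 a2 a3 a4 (hT t ht).le (hU t ht).le, ?_⟩
    refine (K1 a1 a2 a3 a4 (hT t ht).le (hU t ht).le).trans ?_
    have h1 := hT t ht
    have h2 := hU t ht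
    simp only [kT, kU] at h1 h2 ⊢
    have h3 : 0 ≤ (ta t + ta (twin X t)) * (u1 t + u2 t) / 4 := by positivity
    have h4 := D2_arctan_le h3
    linarith
  have hnonneg : ∀ t ∈ T X, 0 ≤ kT X t * kU t *
      (kp X t ^ 2 + kq t ^ 2 + (kU t - √3 * kT X t) ^ 2) + (ks X t - s ^ 2) ^ 2 := by
    intro t ht
    have h1 := hT t ht
    have h2 := hU t ht
    positivity
  have hcore : ∀ t ∈ T X, 91 / 100 * s ≤ kU t ∧ kU t ≤ 95 / 100 * s ∧ |kq t| ≤ 2 / 100 * s ∧
      99 / 100 * s ^ 2 ≤ ks X t := by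
    intro t ht
    refine D2_core (p := kp X t) (hT t ht) (hU t ht) hs (hks t ht).1 (hks t ht).2 ?_
    have h1 := Finset.single_le_sum hnonneg ht
    linarith
  -- `s` is small
  have hs3 : s ^ 2 ≤ 1 / 1000 := by
    obtain ⟨t, ht⟩ := Finset.card_pos.1 hn0
    have h1 := (hcore t ht).2.2.2
    have h2 := (hks t ht).2
    have h3 : kT X t ≤ 2 / 100 := by
      have b1 := (abs_le.1 (hta t ht)).2
      have b2 := (abs_le.1 (hta _ (twin_mem hgp ht))).2
      simp only [kT]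
      linarith
    have h4 : kU t ≤ 2 / 100 := by
      have b1 := (abs_le.1 (hu t ht).1).2
      have b2 := (abs_le.1 (hu t ht).2).2
      simp only [kU]
      linarith
    have h5 : kT X t * kU t ≤ 2 / 100 * (2 / 100) :=
      mul_le_mul h3 h4 (hU t ht).le (by norm_num)
    nlinarith
  have hs4 : s ≤ 1 / 30 := by
    by_contra h
    rw [not_le] at h
    nlinarith
  -- the lengths
  have hLa : ∀ t ∈ T X, 19 / 20 * (186 / 100 * s) ≤ La t ∧ La t ≤ 21 / 20 * (186 / 100 * s) := by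
    intro t ht
    obtain ⟨c1, c2, c3, -⟩ := hcore t ht
    obtain ⟨-, d2, d3⟩ := G7d hgp ht ((hu t ht).1.trans_lt (by norm_num))
      ((hu t ht).2.trans_lt (by norm_num))
    obtain ⟨c4, c5⟩ := abs_le.1 c3
    have v1 : 0 ≤ u1 t := by
      have : u1 t = kU t / 2 - kq t := by simp only [kU, kq]; ring
      rw [this]
      linarith
    have v2 : 0 ≤ u2 t := by
      have : u2 t = kU t / 2 + kq t := by simp only [kU, kq]; ring
      rw [this]
      linarith
    have w1 := D2_arctan_ge v1 ((abs_le.1 (hu t ht).1).2.trans (by norm_num))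
    have w2 := D2_arctan_ge v2 ((abs_le.1 (hu t ht).2).2.trans (by norm_num))
    constructor
    · rw [d2]
      have : kU t = u1 t + u2 t := rfl
      nlinarith
    · linarith
  -- every vertex has degree at least 6
  have hdeg : ∀ a ∈ X, 6 ≤ ((T X).filter (fun t => t.1 = a)).card := by
    intro a ha
    refine D1 hgp ha (l := 186 / 100 * s) (by positivity) (by linarith) ?_
    intro t ht _
    exact ⟨hLa t ht, hLa _ (rot_mem ht), hLa _ (rot_mem (rot_mem ht))⟩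
  have hcard : (T X).card = ∑ a ∈ X, ((T X).filter (fun t => t.1 = a)).card := by
    refine Finset.card_eq_sum_card_fiberwise (f := fun t : Tr => t.1) ?_
    intro t ht
    exact (mem_T.1 (Finset.mem_coe.1 ht)).1.1
  have h6 : 6 * X.card ≤ (T X).card := by
    rw [hcard]
    calc 6 * X.card = ∑ _a ∈ X, 6 := by rw [Finset.sum_const, smul_eq_mul, mul_comm]
      _ ≤ _ := Finset.sum_le_sum hdeg
  have h7 := G3 hgp
  omega

end Iso
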