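import Mathlib

/-!
# MP_6a769f_gt, polyhedra with many vertices: definitions and first API
-/

noncomputable section

namespace Iso

open MeasureTheory Real Set

/-- Euclidean 3-space. -/
abbrev V := EuclideanSpace ℝ (Fin 3)

/-- a flag / dart: an ordered triple of points. -/
abbrev Tr := V × V × V

/-- inner product. -/
abbrev ip (x y : V) : ℝ := inner ℝ x y

theorem ip_def (x y : V) : ip x y = x 0 * y 0 + x 1 * y 1 + x 2 * y 2 := by
  simp only [ip, PiLp.inner_apply, Fin.sum_univ_three]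
  simp [mul_comm]

/-- cross product. -/
def cr (x y : V) : V := !₂[x 1 * y 2 - x 2 * y 1, x 2 * y 0 - x 0 * y 2, x 0 * y 1 - x 1 * y 0]

@[simp] theorem cr_zero (x y : V) : cr x y 0 = x 1 * y 2 - x 2 * y 1 := by simp [cr]
@[simp] theorem cr_one (x y : V) : cr x y 1 = x 2 * y 0 - x 0 * y 2 := by simp [cr]
@[simp] theorem cr_two (x y : V) : cr x y 2 = x 0 * y 1 - x 1 * y 0 := by simp [cr]

/-- determinant of three vectors. -/
def det3 (a b c : V) : ℝ := ip (cr a b) c

theorem det3_def (a b c : V) : det3 a b c =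
    (a 1 * b 2 - a 2 * b 1) * c 0 + (a 2 * b 0 - a 0 * b 2) * c 1 + (a 0 * b 1 - a 1 * b 0) * c 2 := by
  rw [det3, ip_def]; simp

/-- the functional `p` with `p.a = p.b = p.c = 1`. -/
def pf (a b c : V) : V := (det3 a b c)⁻¹ • (cr a b + cr b c + cr c a)

/-- the functional of a triple -/
def P (t : Tr) : V := pf t.1 t.2.1 t.2.2

/-- determinant of a triple -/
def Dt (t : Tr) : ℝ := det3 t.1 t.2.1 t.2.2

/-- rotation of a triple -/
def rot (t : Tr) : Tr := (t.2.1, t.2.2, t.1)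

open Classical in
/-- the oriented faces of the convex hull of `X` (each face is listed three times, once for each of
its darts). -/
def T (X : Finset V) : Finset Tr :=
  (X ×ˢ X ×ˢ X).filter (fun t => 0 < Dt t ∧ ∀ x ∈ X, ip (P t) x ≤ 1)

theorem mem_T {X : Finset V} {t : Tr} : t ∈ T X ↔
    (t.1 ∈ X ∧ t.2.1 ∈ X ∧ t.2.2 ∈ X) ∧ 0 < Dt t ∧ ∀ x ∈ X, ip (P t) x ≤ 1 := by
  simp [T]

/-- simplicial polytopes in general position with the origin inside -/
structure GP (X : Finset V) : Prop where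
  pos : ∀ u : V, u ≠ 0 → ∃ x ∈ X, 0 < ip u x
  ext : ∀ x ∈ X, ∃ f : V, ∀ y ∈ X, y ≠ x → ip f y < ip f x
  gen : ∀ p : V, p ≠ 0 → ∀ c : ℝ, {x ∈ (X : Set V) | ip p x = c}.ncard ≤ 3

open Classical in
/-- the dart on the other side of the edge `t.1 → t.2.1`. -/
def twin (X : Finset V) (t : Tr) : Tr :=
  if h : ∃ d, ((t.2.1, t.1, d) : Tr) ∈ T X then (t.2.1, t.1, h.choose) else t

/-- height of the face plane -/
def hh (t : Tr) : ℝ := ‖P t‖⁻¹

/-- unit normal of the face -/
def nn (t : Tr) : V := ‖P t‖⁻¹ • P t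

/-- area of the triangle -/
def Fa (t : Tr) : ℝ := ‖cr (t.2.1 - t.1) (t.2.2 - t.1)‖ / 2

/-- distance of the origin from the line `ab` -/
def rr (a b : V) : ℝ := ‖cr a b‖ / ‖b - a‖

/-- unit normal of the plane `0ab` -/
def nu (a b : V) : V := ‖cr a b‖⁻¹ • cr a b

/-- `tan (β/2)` where `β` is the angle from the foot of the edge `ab` to `b` -/
def uu (a b : V) : ℝ := ip b (b - a) / (‖b - a‖ * (rr a b + ‖b‖))

/-- `tan (α/2)` where `α` is the angle from the foot of the edge `ab` to the normal of the left face -/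
def ta (t : Tr) : ℝ :=
  rr t.1 t.2.1 * ip (P t) (nu t.1 t.2.1) / (1 + rr t.1 t.2.1 * ‖P t‖)

/-- `u` of the first end point of the dart -/
def u1 (t : Tr) : ℝ := uu t.2.1 t.1

/-- `u` of the second end point of the dart -/
def u2 (t : Tr) : ℝ := uu t.1 t.2.1

/-- half kite: solid angle -/
def sg (t : Tr) : ℝ := 2 * arctan (ta t * u1 t) + 2 * arctan (ta t * u2 t)

/-- half kite: area function -/
def gg (t : Tr) : ℝ := ta t * (1 + ta t ^ 2) / (1 - ta t ^ 2) ^ 2 *
  (2 * u1 t / (1 - u1 t ^ 2) + 2 * u2 t / (1 - u2 t ^ 2))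

/-- spherical length of the edge -/
def La (t : Tr) : ℝ := InnerProductGeometry.angle t.1 t.2.1

/-- jump of the functional -/
def ka (X : Finset V) (t : Tr) : ℝ := ‖P t - P (twin X t)‖

/-- kite parameters -/
def kT (X : Finset V) (t : Tr) : ℝ := ta t + ta (twin X t)
def kU (t : Tr) : ℝ := u1 t + u2 t
def kp (X : Finset V) (t : Tr) : ℝ := (ta (twin X t) - ta t) / 2
def kq (t : Tr) : ℝ := (u2 t - u1 t) / 2

/-- solid angle of the kite -/
def ks (X : Finset V) (t : Tr) : ℝ := sg t + sg (twin X t)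

/-- area function of the regular kite with solid angle `s` -/
def Greg (s : ℝ) : ℝ := 2 * √3 * (3 / 4 / cos (π / 6 + s / 4) ^ 2 - 1)

/-- one ninth of the right side of the conjecture -/
def Cv (v : ℕ) : ℝ := 3 * √3 / 2 * ((v : ℝ) - 2) *
  (3 * tan (π * (v : ℝ) / (6 * ((v : ℝ) - 2))) ^ 2 - 1)

/-- near the unit ball -/
structure NB (X : Finset V) (δ : ℝ) : Prop where
  gp : GP X
  up : ∀ x ∈ X, ‖x‖ ≤ 1 + δ
  lo : ∀ t ∈ T X, (1 - δ) * ‖P t‖ ≤ 1

/-- surface area (combinatorial) -/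
def SA (X : Finset V) : ℝ := (∑ t ∈ T X, Fa t) / 3

/-- volume (combinatorial) -/
def VO (X : Finset V) : ℝ := (∑ t ∈ T X, Dt t) / 18

/-- open cone over a face -/
def Cone (t : Tr) : Set V := {x | 0 < det3 t.1 t.2.1 x ∧ 0 < det3 t.2.1 t.2.2 x ∧ 0 < det3 t.2.2 t.1 x}

/-- open wall (plane sector) over an edge -/
def Wall (a b : V) : Set V := {x | ∃ l m : ℝ, 0 < l ∧ 0 < m ∧ x = l • a + m • b}

/-- the measure of the unit sphere -/
def sph : Measure V := (3 : ENNReal) • (volume.restrict (Metric.ball (0 : V) 1)).map (fun x => ‖x‖⁻¹ • x)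

/-- the kernel `K_N` -/
def kN (N : ℕ) (u v : V) : ℝ := ((N : ℝ) + 1) / (4 * π) * ((1 + ip u v) / 2) ^ N

open Classical in
/-- the function on space which is `s t` on the cone of `t` -/
def sf (X : Finset V) (s : Tr → ℝ) (x : V) : ℝ := (∑ t ∈ T X, if x ∈ Cone t then s t else 0) / 3

end Iso
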