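import Pool.Agent.Lib_helper3.Iso.G1
noncomputable section
namespace Iso
open MeasureTheory Real Set

theorem G2_cr_ne {a b c : V} (h : det3 a b c ≠ 0) : cr a b ≠ 0 := by
  intro h0; apply h; rw [det3, h0]; simp [ip]

/-- a vector orthogonal to `a` and `b` is a multiple of `cr a b` -/
theorem G2_parallel {a b r : V} (hn : cr a b ≠ 0) (h1 : ip r a = 0) (h2 : ip r b = 0) :
    r = (ip r (cr a b) / ‖cr a b‖ ^ 2) • cr a b := by
  have hN : ‖cr a b‖ ^ 2 ≠ 0 := by
    have := norm_pos_iff.2 hn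
    positivity
  have key : ∀ i, ‖cr a b‖ ^ 2 * r i = ip r (cr a b) * cr a b i := by
    rw [ip_def] at h1 h2
    intro i
    rw [norm_sq_eq, ip_def]
    fin_cases i
    · show ((cr a b) 0 ^ 2 + (cr a b) 1 ^ 2 + (cr a b) 2 ^ 2) * r 0 =
        (r 0 * (cr a b) 0 + r 1 * (cr a b) 1 + r 2 * (cr a b) 2) * (cr a b) 0
      simp only [cr_zero, cr_one, cr_two]
      linear_combination (-((a 2 * b 0 - a 0 * b 2) * b 2 - (a 0 * b 1 - a 1 * b 0) * b 1)) * h1 -
        ((a 0 * b 1 - a 1 * b 0) * a 1 - (a 2 * b 0 - a 0 * b 2) * a 2) * h2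
    · show ((cr a b) 0 ^ 2 + (cr a b) 1 ^ 2 + (cr a b) 2 ^ 2) * r 1 =
        (r 0 * (cr a b) 0 + r 1 * (cr a b) 1 + r 2 * (cr a b) 2) * (cr a b) 1
      simp only [cr_zero, cr_one, cr_two]
      linear_combination (-((a 0 * b 1 - a 1 * b 0) * b 0 - (a 1 * b 2 - a 2 * b 1) * b 2)) * h1 -
        ((a 1 * b 2 - a 2 * b 1) * a 2 - (a 0 * b 1 - a 1 * b 0) * a 0) * h2
    · show ((cr a b) 0 ^ 2 + (cr a b) 1 ^ 2 + (cr a b) 2 ^ 2) * r 2 =
        (r 0 * (cr a b) 0 + r 1 * (cr a b) 1 + r 2 * (cr a b) 2) * (cr a b) 2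
      simp only [cr_zero, cr_one, cr_two]
      linear_combination (-((a 1 * b 2 - a 2 * b 1) * b 1 - (a 2 * b 0 - a 0 * b 2) * b 0)) * h1 -
        ((a 2 * b 0 - a 0 * b 2) * a 0 - (a 1 * b 2 - a 2 * b 1) * a 1) * h2
  ext i
  rw [PiLp.smul_apply, smul_eq_mul, div_mul_eq_mul_div, eq_div_iff hN, mul_comm]
  exact key i

/-- BLOCK G2: the two functionals at an edge. `P t - P t'` is orthogonal to `a` and `b`, hence a multiple of
`nu a b`; the multiple is positive because `ip (P t') c < 1 = ip (P t) c` and `ip (nu a b) c > 0` (`strict`; `c` is not the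
third vertex of `t'` since the orientations differ). -/
theorem G2 {X : Finset V} (hX : GP X) {t : Tr} (ht : t ∈ T X) :
    P t - P (twin X t) = ka X t • nu t.1 t.2.1 ∧ 0 < ka X t := by
  have ht' := twin_mem hX ht
  have hd : 0 < det3 t.1 t.2.1 t.2.2 := T_pos ht
  have hn := G2_cr_ne hd.ne'
  have e1 : ip (P t - P (twin X t)) t.1 = 0 := by
    have h := ip_P_2 ht'
    rw [twin_2 hX ht] at h
    rw [ip_sub_left, ip_P_1 ht, h, sub_self]
  have e2 : ip (P t - P (twin X t)) t.2.1 = 0 := by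
    have h := ip_P_1 ht'
    rw [twin_1 hX ht] at h
    rw [ip_sub_left, ip_P_2 ht, h, sub_self]
  have hpar := G2_parallel hn e1 e2
  set s := ip (P t - P (twin X t)) (cr t.1 t.2.1) / ‖cr t.1 t.2.1‖ ^ 2 with hs
  have hc : ip (P (twin X t)) t.2.2 < 1 := by
    refine strict hX ht' (mem_T.1 ht).1.2.2 ?_ ?_ ?_
    · rw [twin_1 hX ht]; exact (G1_ne23 hd.ne').symm
    · rw [twin_2 hX ht]; exact (G1_ne13 hd.ne').symm
    · intro h
      have h1 := T_pos ht'
      rw [Dt, twin_1 hX ht, twin_2 hX ht, ← h, det3_swap] at h1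
      linarith
  have h3 : 0 < ip (P t - P (twin X t)) t.2.2 := by
    rw [ip_sub_left, ip_P_3 ht]; linarith
  rw [hpar, ip_smul_left] at h3
  have hs0 : 0 < s := (pos_iff_pos_of_mul_pos h3).2 hd
  have hN : 0 < ‖cr t.1 t.2.1‖ := norm_pos_iff.2 hn
  have hk : ka X t = s * ‖cr t.1 t.2.1‖ := by
    rw [ka, hpar, norm_smul, Real.norm_of_nonneg hs0.le]
  refine ⟨?_, by rw [hk]; positivity⟩
  rw [hk, nu, smul_smul, mul_assoc, mul_inv_cancel₀ hN.ne', mul_one]
  exact hpar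

theorem ka_twin {X : Finset V} (hX : GP X) {t : Tr} (ht : t ∈ T X) : ka X (twin X t) = ka X t := by
  rw [ka, ka, twin_twin hX ht, norm_sub_rev]

/-- the third vertex of the twin is on the other side -/
theorem twin_side {X : Finset V} (hX : GP X) {t : Tr} (ht : t ∈ T X) :
    det3 t.1 t.2.1 (twin X t).2.2 < 0 := by
  have h := T_pos (twin_mem hX ht)
  rw [Dt, twin_1 hX ht, twin_2 hX ht, det3_swap] at h
  linarith

end Iso
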