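import Pool.Agent.Lib_helper3.Iso.G1
noncomputable section
namespace Iso
open MeasureTheory Real Set

theorem G4_exists_ne : ∃ u : V, u ≠ 0 :=
  exists_ne 0

/-- a nonzero vector orthogonal to a given one -/
theorem G4_exists_perp (a : V) : ∃ w : V, w ≠ 0 ∧ ip w a = 0 := by
  by_cases h : a 0 = 0 ∧ a 1 = 0
  · refine ⟨!₂[1, 0, 0], ?_, ?_⟩
    · intro h0
      have := congrArg (fun v : V => v 0) h0
      simp at this
    · rw [ip_def]; simp [h.1]
  · refine ⟨!₂[a 1, -a 0, 0], ?_, ?_⟩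
    · intro h0
      have h1 := congrArg (fun v : V => v 0) h0
      have h2 := congrArg (fun v : V => v 1) h0
      simp at h1 h2
      exact h ⟨h2, h1⟩
    · rw [ip_def]; simp; ring

/-- BLOCK G4: every point of `X` is a vertex of a face. (Start with the exposing functional `f` of `a`, normalised
`ip f a = 1` (`ip f a > 0` by `pos`), rotate it until it touches a second point `b` - the functionals with value 1 at `a` -
then rotate about `ab` (as in `twin_exists`) until it touches a third point.) -/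
theorem G4 {X : Finset V} (hX : GP X) {a : V} (ha : a ∈ X) : ∃ t ∈ T X, t.1 = a := by
  obtain ⟨f, hf⟩ := hX.ext a ha
  have hf0 : f ≠ 0 := by
    rintro rfl
    obtain ⟨u, hu⟩ := G4_exists_ne
    obtain ⟨x, hx, hx'⟩ := hX.pos u hu
    obtain ⟨y, hy, hy'⟩ := hX.pos (-u) (neg_ne_zero.2 hu)
    have hxa : x = a := by
      by_contra hne
      have := hf x hx hne
      simp [ip] at this
    have hya : y = a := by
      by_contra hne
      have := hf y hy hne
      simp [ip] at this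
    rw [hxa] at hx'
    rw [hya, show -u = (-1 : ℝ) • u by simp, ip_smul_left] at hy'
    linarith
  have hfa : 0 < ip f a := by
    obtain ⟨x, hx, hx'⟩ := hX.pos f hf0
    by_cases hxa : x = a
    · rwa [← hxa]
    · exact hx'.trans (hf x hx hxa)
  -- normalisation
  have hg1 : ip ((ip f a)⁻¹ • f) a = 1 := by
    rw [ip_smul_left, inv_mul_cancel₀ hfa.ne']
  have hg2 : ∀ x ∈ X, ip ((ip f a)⁻¹ • f) x ≤ 1 := by
    intro x hx
    by_cases hxa : x = a
    · rw [hxa, hg1]
    · rw [ip_smul_left, inv_mul_le_iff₀ hfa, mul_one]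
      exact (hf x hx hxa).le
  -- the second point
  obtain ⟨w, hw0, hwa⟩ := G4_exists_perp a
  obtain ⟨b, hb, hwb, s, -, hs1, hs2⟩ := G1_push hX hw0 hg2
  have hsa : ip ((ip f a)⁻¹ • f + s • w) a = 1 := by
    rw [ip_add_left, hg1, ip_smul_left, hwa, mul_zero, add_zero]
  have hn : cr a b ≠ 0 := by
    intro h0
    have h1 : ‖cr a b‖ ^ 2 = 0 := by rw [h0]; simp
    have hexp : ‖cr a b‖ ^ 2 = ‖a‖ ^ 2 * ‖b‖ ^ 2 - ip a b ^ 2 := norm_cr_sq a b
    have ha0 : a ≠ 0 := by
      rintro rfl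
      simp [ip] at hfa
    have hna : 0 < ‖a‖ ^ 2 := by have := norm_pos_iff.2 ha0; positivity
    -- `‖a‖² b = (a·b) a`
    have h2 : ‖‖a‖ ^ 2 • b - ip a b • a‖ ^ 2 = 0 := by
      have e : ‖‖a‖ ^ 2 • b - ip a b • a‖ ^ 2 = ‖a‖ ^ 2 * (‖a‖ ^ 2 * ‖b‖ ^ 2 - ip a b ^ 2) := by
        rw [← ip_self (‖a‖ ^ 2 • b - ip a b • a), ip_sub_left, ip_sub_right, ip_sub_right,
          ip_smul_left, ip_smul_left, ip_smul_left, ip_smul_left, ip_smul_right, ip_smul_right,
          ip_smul_right, ip_smul_right, ip_self a, ip_self b, ip_comm b a]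
        ring
      rw [e, ← hexp, h1, mul_zero]
    have h3 : ‖a‖ ^ 2 • b = ip a b • a := by
      have := pow_eq_zero_iff (two_ne_zero) |>.1 h2
      exact sub_eq_zero.1 (norm_eq_zero.1 this)
    have h4 := congrArg (fun v => ip w v) h3
    simp only [ip_smul_right, hwa, mul_zero] at h4
    have : 0 < ‖a‖ ^ 2 * ip w b := mul_pos hna hwb
    linarith
  obtain ⟨c, hc⟩ := G1_face hX ha hb hs2 hsa hs1 hn
  exact ⟨_, hc, rfl⟩

end Iso
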