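import Pool.Agent.Lib_helper3.Iso.G1
import Pool.Agent.Lib_helper3.Iso.G2
import Pool.Agent.Lib_helper3.Iso.G4
noncomputable section
namespace Iso
open MeasureTheory Real Set

/-- at a face maximising `ip (P t) x` the point `x` is on the positive side of the first edge -/
theorem G5_side {X : Finset V} (hX : GP X) {x : V}
    (h : ∀ a ∈ X, ∀ b ∈ X, cr a b ≠ 0 → det3 a b x ≠ 0) {t : Tr} (ht : t ∈ T X)
    (hmax : ∀ t' ∈ T X, ip (P t') x ≤ ip (P t) x) : 0 < det3 t.1 t.2.1 x := by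
  have hm := (mem_T.1 ht).1
  have hd : 0 < det3 t.1 t.2.1 t.2.2 := T_pos ht
  have hn := G2_cr_ne hd.ne'
  refine lt_of_le_of_ne ?_ (h _ hm.1 _ hm.2.1 hn).symm
  have h1 := hmax _ (twin_mem hX ht)
  obtain ⟨e, hk⟩ := G2 hX ht
  have h2 : ip (P t - P (twin X t)) x = ka X t * (‖cr t.1 t.2.1‖⁻¹ * det3 t.1 t.2.1 x) := by
    rw [e, ip_smul_left, nu, ip_smul_left, det3]
  rw [ip_sub_left] at h2
  have h3 : 0 ≤ ka X t * (‖cr t.1 t.2.1‖⁻¹ * det3 t.1 t.2.1 x) := by linarith
  have hN : 0 < ‖cr t.1 t.2.1‖⁻¹ := inv_pos.2 (norm_pos_iff.2 hn)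
  exact nonneg_of_mul_nonneg_right (nonneg_of_mul_nonneg_right h3 hk) hN

/-- BLOCK G5: the cones cover. Let `x ≠ 0`, `λ` maximal with `λ x ∈ convexHull X` (compact, `0` interior by `pos`),
`p` a supporting functional at `y = λ x`, `ip p y = 1`; `y` is a convex combination of points with `ip p _ = 1`, at most
three by `gen`; by hypothesis exactly three with positive coefficients (if `y` is a multiple of `a ∈ X` take `c ∈ X` with
`cr a c ≠ 0`); orient them. -/
theorem G5 {X : Finset V} (hX : GP X) (x : V) (hx : x ≠ 0)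
    (h : ∀ a ∈ X, ∀ b ∈ X, cr a b ≠ 0 → det3 a b x ≠ 0) : ∃ t ∈ T X, x ∈ Cone t := by
  obtain ⟨a, ha, -⟩ := hX.pos x hx
  obtain ⟨t₀, ht₀, -⟩ := G4 hX ha
  obtain ⟨t, ht, hmax⟩ := Finset.exists_max_image (T X) (fun t => ip (P t) x) ⟨t₀, ht₀⟩
  refine ⟨t, ht, G5_side hX h ht hmax, ?_, ?_⟩
  · have h2 := G5_side hX h (rot_mem ht) (fun t' ht' => by rw [P_rot]; exact hmax t' ht')
    exact h2
  · have h2 := G5_side hX h (rot_mem (rot_mem ht))
      (fun t' ht' => by rw [P_rot, P_rot]; exact hmax t' ht')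
    exact h2

theorem G5_odd1 (a b c : V) : det3 b a c = - det3 a b c := det3_swap a b c

theorem G5_odd2 (a b c : V) : det3 a c b = - det3 a b c := by
  rw [det3_def, det3_def]; ring

theorem G5_odd3 (a b c : V) : det3 c b a = - det3 a b c := by
  rw [det3_def, det3_def]; ring

/-- BLOCK G5b: separation. `x = αa + βb + γc` with positive coefficients; `ip (P t') x ≤ α+β+γ = ip (P t) x` with equality
only if `ip (P t')` is 1 at `a, b, c`, then `P t' = P t`, and by `strict` the vertex sets and the orientation agree. -/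
theorem G5b {X : Finset V} (hX : GP X) {t t' : Tr} (ht : t ∈ T X) (ht' : t' ∈ T X) {x : V} (hx : x ∈ Cone t)
    (h1 : t' ≠ t) (h2 : t' ≠ rot t) (h3 : t' ≠ rot (rot t)) : ip (P t') x < ip (P t) x := by
  have hm := (mem_T.1 ht).1
  have hd : 0 < det3 t.1 t.2.1 t.2.2 := T_pos ht
  obtain ⟨c1, c2, c3⟩ := hx
  have e := G1_expand_ip hd.ne' (P t) x
  have e' := G1_expand_ip hd.ne' (P t') x
  rw [ip_P_1 ht, ip_P_2 ht, ip_P_3 ht] at e
  have k1 := ip_P_le ht' hm.1
  have k2 := ip_P_le ht' hm.2.1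
  have k3 := ip_P_le ht' hm.2.2
  have p1 : 0 < det3 t.2.1 t.2.2 x / det3 t.1 t.2.1 t.2.2 := div_pos c2 hd
  have p2 : 0 < det3 t.2.2 t.1 x / det3 t.1 t.2.1 t.2.2 := div_pos c3 hd
  have p3 : 0 < det3 t.1 t.2.1 x / det3 t.1 t.2.1 t.2.2 := div_pos c1 hd
  by_contra hcon
  push Not at hcon
  rw [e, e'] at hcon
  set A := det3 t.2.1 t.2.2 x / det3 t.1 t.2.1 t.2.2
  set B := det3 t.2.2 t.1 x / det3 t.1 t.2.1 t.2.2
  set C := det3 t.1 t.2.1 x / det3 t.1 t.2.1 t.2.2
  have q1 : ip (P t') t.1 = 1 := by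
    by_contra hne
    have : ip (P t') t.1 < 1 := lt_of_le_of_ne k1 hne
    nlinarith
  have q2 : ip (P t') t.2.1 = 1 := by
    by_contra hne
    have : ip (P t') t.2.1 < 1 := lt_of_le_of_ne k2 hne
    nlinarith
  have q3 : ip (P t') t.2.2 = 1 := by
    by_contra hne
    have : ip (P t') t.2.2 < 1 := lt_of_le_of_ne k3 hne
    nlinarith
  have v : ∀ y ∈ X, ip (P t') y = 1 → y = t'.1 ∨ y = t'.2.1 ∨ y = t'.2.2 := by
    intro y hy hy1
    by_contra hc
    push Not at hc
    have := strict hX ht' hy hc.1 hc.2.1 hc.2.2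
    linarith
  have n12 := G1_ne12 hd.ne'
  have n13 := G1_ne13 hd.ne'
  have n23 := G1_ne23 hd.ne'
  have hd' : 0 < det3 t'.1 t'.2.1 t'.2.2 := T_pos ht'
  obtain ⟨a, b, c⟩ := t
  obtain ⟨a', b', c'⟩ := t'
  simp only at *
  have w1 := v a hm.1 q1
  have w2 := v b hm.2.1 q2
  have w3 := v c hm.2.2 q3
  have o1 := G5_odd1 a' b' c'
  have o2 := G5_odd2 a' b' c'
  have o3 := G5_odd3 a' b' c'
  clear v q1 q2 q3 k1 k2 k3 p1 p2 p3 hcon e e' c1 c2 c3 hm ht ht'
  rcases w1 with rfl | rfl | rfl <;> rcases w2 with rfl | rfl | rfl <;>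
    rcases w3 with rfl | rfl | rfl
  all_goals first
    | exact n12 rfl
    | exact n13 rfl
    | exact n23 rfl
    | exact h1 rfl
    | exact h2 rfl
    | exact h3 rfl
    | linarith only [hd, hd', o1]
    | linarith only [hd, hd', o2]
    | linarith only [hd, hd', o3]

/-- consequence: `x` lies in exactly three cones -/
theorem G5c {X : Finset V} (hX : GP X) {t t' : Tr} (ht : t ∈ T X) (ht' : t' ∈ T X) {x : V} (hx : x ∈ Cone t)
    (hx' : x ∈ Cone t') : t' = t ∨ t' = rot t ∨ t' = rot (rot t) := by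
  by_contra hc
  push Not at hc
  have e1 := G5b hX ht ht' hx hc.1 hc.2.1 hc.2.2
  have e2 := G5b hX ht' ht hx' (fun h => hc.1 h.symm) (fun h => hc.2.2 (by rw [h, rot3]))
    (fun h => hc.2.1 (by rw [h, rot3]))
  linarith

/-- BLOCK G5d: the value of `sf` on a cone. -/
theorem G5d {X : Finset V} (hX : GP X) (s : Tr → ℝ) (hs : ∀ t ∈ T X, s (rot t) = s t) {t : Tr} (ht : t ∈ T X)
    {x : V} (hx : x ∈ Cone t) : sf X s x = s t := by
  classical
  have hd : 0 < det3 t.1 t.2.1 t.2.2 := T_pos ht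
  have n12 := G1_ne12 hd.ne'
  have n13 := G1_ne13 hd.ne'
  have n23 := G1_ne23 hd.ne'
  have h01 : t ≠ rot t := fun h => n12 (congrArg Prod.fst h)
  have h02 : t ≠ rot (rot t) := fun h => n13 (congrArg Prod.fst h)
  have h12 : rot t ≠ rot (rot t) := fun h => n23 (congrArg Prod.fst h)
  have hsum : (∑ t' ∈ T X, if x ∈ Cone t' then s t' else 0) =
      ∑ t' ∈ ({t, rot t, rot (rot t)} : Finset Tr), if x ∈ Cone t' then s t' else 0 := by
    symm
    refine Finset.sum_subset ?_ ?_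
    · intro t' ht'
      simp only [Finset.mem_insert, Finset.mem_singleton] at ht'
      rcases ht' with rfl | rfl | rfl
      · exact ht
      · exact rot_mem ht
      · exact rot_mem (rot_mem ht)
    · intro t' ht' hnot
      rw [if_neg]
      intro hx'
      apply hnot
      simp only [Finset.mem_insert, Finset.mem_singleton]
      exact G5c hX ht ht' hx hx'
  rw [sf, hsum, Finset.sum_insert (by simp [h01, h02]), Finset.sum_insert (by simp [h12]),
    Finset.sum_singleton]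
  simp only [Cone_rot, if_pos hx]
  rw [hs _ (rot_mem ht), hs _ ht]
  ring

end Iso
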