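import Pool.Agent.Lib_helper3.Iso.S3
noncomputable section
namespace Iso
open MeasureTheory Real Set

/-- the open segment from `u` to `v` meets the open wall over `ab` -/
def meets (a b u v : V) : Prop := ∃ τ : ℝ, 0 < τ ∧ τ < 1 ∧ u + τ • (v - u) ∈ Wall a b

/-- the plane with normal `n` separates `u` and `v` -/
def sep (n u v : V) : Prop := ip n u * ip n v < 0

theorem S8a_arcsin : ∫⁻ z in Ioo (-1 : ℝ) 1, ENNReal.ofReal (1 / √(1 - z ^ 2)) =
    ENNReal.ofReal π := by
  have hcont : ContinuousOn arcsin (Icc (-1 : ℝ) 1) := continuous_arcsin.continuousOn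
  have hder : ∀ x ∈ Ioo (-1 : ℝ) 1, HasDerivAt arcsin (1 / √(1 - x ^ 2)) x := fun x hx =>
    hasDerivAt_arcsin hx.1.ne' hx.2.ne
  have hpos : ∀ x ∈ Ioo (-1 : ℝ) 1, 0 ≤ 1 / √(1 - x ^ 2) := fun x _ => by positivity
  have hint : IntegrableOn (fun x : ℝ => 1 / √(1 - x ^ 2)) (Ioc (-1 : ℝ) 1) :=
    intervalIntegral.integrableOn_deriv_of_nonneg hcont hder hpos
  have hI := intervalIntegral.integral_eq_sub_of_hasDerivAt_of_le (by norm_num) hcont hder
    ((intervalIntegrable_iff_integrableOn_Ioc_of_le (by norm_num)).mpr hint)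
  rw [intervalIntegral.integral_of_le (by norm_num), integral_Ioc_eq_integral_Ioo] at hI
  have hI2 : IntegrableOn (fun x : ℝ => 1 / √(1 - x ^ 2)) (Ioo (-1 : ℝ) 1) :=
    hint.mono_set Ioo_subset_Ioc_self
  rw [← ofReal_integral_eq_lintegral_ofReal hI2, hI]
  · congr 1
    rw [arcsin_one, arcsin_neg_one]
    ring
  · filter_upwards with x
    show (0:ℝ) ≤ 1 / √(1 - x ^ 2)
    positivity

theorem S8a_key (m c : ℝ) (hm : 0 < m) (hc : 0 < c) (x : ℝ) (h1 : arctan (c / m) ≤ x)
    (h2 : x ≤ π / 2) : c * cos x ≤ m * sin x := by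
  set θ := arctan (c / m) with hθ
  have h3 : 0 < θ := by
    rw [hθ]
    exact arctan_pos.mpr (div_pos hc hm)
  have h4 : θ < π / 2 := arctan_lt_pi_div_two _
  have hcos : 0 < cos θ := cos_arctan_pos _
  have htan : tan θ = c / m := tan_arctan _
  have h5 : m * sin θ = c * cos θ := by
    rw [tan_eq_sin_div_cos, div_eq_div_iff hcos.ne' hm.ne'] at htan
    linarith
  have hpi := pi_pos
  have h6 : cos x ≤ cos θ := cos_le_cos_of_nonneg_of_le_pi h3.le (by linarith) h1
  have h7 : sin θ ≤ sin x := sin_le_sin_of_le_of_le_pi_div_two (by linarith) h2 h1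
  calc c * cos x ≤ c * cos θ := mul_le_mul_of_nonneg_left h6 hc.le
    _ = m * sin θ := h5.symm
    _ ≤ m * sin x := mul_le_mul_of_nonneg_left h7 hm.le

theorem S8a_sub (m c : ℝ) (hm : 0 < m) (hc : 0 < c) (f : ℝ) (h1 : -π < f) (h2 : f < π)
    (h : m * |sin f| < c * |cos f|) :
    f ∈ Ioc (-arctan (c / m)) (arctan (c / m)) ∨ f ∈ Ioc (π - arctan (c / m)) π ∨
      f ∈ Ioc (-π) (-π + arctan (c / m)) := by
  set θ := arctan (c / m) with hθ
  have h3 : 0 < θ := by
    rw [hθ]
    exact arctan_pos.mpr (div_pos hc hm)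
  have h4 : θ < π / 2 := arctan_lt_pi_div_two _
  -- no x in [θ, π-θ] with |x| = |f|
  have hno : ∀ y : ℝ, θ ≤ y → y ≤ π - θ → |sin y| = |sin f| → |cos y| = |cos f| → False := by
    intro y hy1 hy2 hs hco
    rw [← hs, ← hco] at h
    rcases le_total y (π / 2) with hy | hy
    · have h5 := S8a_key m c hm hc y hy1 hy
      have h6 : 0 ≤ cos y := cos_nonneg_of_mem_Icc ⟨by linarith, hy⟩
      rw [abs_of_nonneg h6] at h
      have := mul_le_mul_of_nonneg_left (le_abs_self (sin y)) hm.le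
      linarith
    · have h5 := S8a_key m c hm hc (π - y) (by linarith) (by linarith)
      rw [cos_pi_sub, sin_pi_sub] at h5
      have h6 : cos y ≤ 0 := cos_nonpos_of_pi_div_two_le_of_le hy (by linarith)
      rw [abs_of_nonpos h6] at h
      have := mul_le_mul_of_nonneg_left (le_abs_self (sin y)) hm.le
      linarith
  by_cases hA : f ≤ -π + θ
  · exact Or.inr (Or.inr ⟨h1, hA⟩)
  · by_cases hB : π - θ < f
    · exact Or.inr (Or.inl ⟨hB, h2.le⟩)
    · left
      push Not at hA hB
      refine ⟨?_, ?_⟩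
      · by_contra hC
        push Not at hC
        apply hno (-f) (by linarith) (by linarith)
        · rw [sin_neg, abs_neg]
        · rw [cos_neg]
      · by_contra hC
        push Not at hC
        exact hno f hC.le hB rfl rfl

theorem S8a_tan (a b c : ℝ) (hab : a ≤ b) (hc : 0 < c) (hcos : ∀ x ∈ Icc a b, cos x ≠ 0) :
    ∫⁻ f in Ioc a b, ENNReal.ofReal (1 / (c * |cos f|)) ≤
      ENNReal.ofReal ((tan b - tan a) / c) := by
  have hder : ∀ x ∈ Icc a b, HasDerivAt (fun x => tan x / c) (1 / cos x ^ 2 / c) x :=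
    fun x hx => (hasDerivAt_tan (hcos x hx)).div_const c
  have hcontd : ContinuousOn (fun x => 1 / cos x ^ 2 / c) (Icc a b) := by
    apply ContinuousOn.div_const
    apply continuousOn_const.div (continuous_cos.continuousOn.pow 2)
    intro x hx
    exact pow_ne_zero 2 (hcos x hx)
  have hI : ∫ x in a..b, 1 / cos x ^ 2 / c = tan b / c - tan a / c := by
    apply intervalIntegral.integral_eq_sub_of_hasDerivAt
    · intro x hx
      rw [uIcc_of_le hab] at hx
      exact hder x hx
    · rw [intervalIntegrable_iff_integrableOn_Icc_of_le hab]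
      exact hcontd.integrableOn_Icc
  have hint : IntegrableOn (fun x => 1 / cos x ^ 2 / c) (Ioc a b) :=
    (hcontd.integrableOn_Icc).mono_set Ioc_subset_Icc_self
  calc ∫⁻ f in Ioc a b, ENNReal.ofReal (1 / (c * |cos f|))
      ≤ ∫⁻ f in Ioc a b, ENNReal.ofReal (1 / cos f ^ 2 / c) := by
        apply setLIntegral_mono' measurableSet_Ioc
        intro x hx
        apply ENNReal.ofReal_le_ofReal
        have h1 : cos x ≠ 0 := hcos x (Ioc_subset_Icc_self hx)
        have h2 : 0 < |cos x| := abs_pos.mpr h1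
        have h3 : |cos x| ≤ 1 := abs_cos_le_one x
        rw [← sq_abs (cos x), div_div]
        apply one_div_le_one_div_of_le (by positivity)
        have : |cos x| ^ 2 ≤ |cos x| := by
          rw [pow_two]
          exact mul_le_of_le_one_left h2.le h3
        nlinarith
    _ = ENNReal.ofReal ((tan b - tan a) / c) := by
        rw [← ofReal_integral_eq_lintegral_ofReal hint, ← intervalIntegral.integral_of_le hab, hI]
        · congr 1
          ring
        · filter_upwards with x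
          show (0:ℝ) ≤ 1 / cos x ^ 2 / c
          positivity

theorem S8a_angle (m c : ℝ) (hm : 0 < m) (hc : 0 < c) :
    ∫⁻ f in Ioo (-π) π, {f : ℝ | m * |sin f| < c * |cos f|}.indicator
      (fun f => ENNReal.ofReal (1 / (c * |cos f|))) f ≤ ENNReal.ofReal (4 / m) := by
  set θ := arctan (c / m) with hθ
  have h3 : 0 < θ := by
    rw [hθ]
    exact arctan_pos.mpr (div_pos hc hm)
  have h4 : θ < π / 2 := arctan_lt_pi_div_two _
  have hpi := pi_pos
  have htan : tan θ = c / m := tan_arctan _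
  have hmeas : MeasurableSet {f : ℝ | m * |sin f| < c * |cos f|} := by
    apply measurableSet_lt
    · exact (continuous_const.mul (continuous_sin.abs)).measurable
    · exact (continuous_const.mul (continuous_cos.abs)).measurable
  set k : ℝ → ENNReal := fun f => ENNReal.ofReal (1 / (c * |cos f|)) with hk
  have hsub : {f : ℝ | m * |sin f| < c * |cos f|} ∩ Ioo (-π) π ⊆
      Ioc (-θ) θ ∪ (Ioc (π - θ) π ∪ Ioc (-π) (-π + θ)) := by
    intro f hf
    exact S8a_sub m c hm hc f hf.2.1 hf.2.2 hf.1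
  have hp : 0 ≤ c / m := (div_pos hc hm).le
  have e1 : ∫⁻ f in Ioc (-θ) θ, k f ≤ ENNReal.ofReal (2 / m) := by
    refine (S8a_tan (-θ) θ c (by linarith) hc ?_).trans ?_
    · intro x hx
      exact (cos_pos_of_mem_Ioo ⟨by linarith [hx.1], by linarith [hx.2]⟩).ne'
    · apply ENNReal.ofReal_le_ofReal
      rw [tan_neg, htan]
      apply le_of_eq
      field_simp
      ring
  have e2 : ∫⁻ f in Ioc (π - θ) π, k f ≤ ENNReal.ofReal (1 / m) := by
    refine (S8a_tan (π - θ) π c (by linarith) hc ?_).trans ?_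
    · intro x hx
      exact (cos_neg_of_pi_div_two_lt_of_lt (by linarith [hx.1]) (by linarith [hx.2])).ne
    · apply ENNReal.ofReal_le_ofReal
      rw [tan_pi_sub, tan_pi, htan]
      apply le_of_eq
      field_simp
      ring
  have e3 : ∫⁻ f in Ioc (-π) (-π + θ), k f ≤ ENNReal.ofReal (1 / m) := by
    refine (S8a_tan (-π) (-π + θ) c (by linarith) hc ?_).trans ?_
    · intro x hx
      rw [← cos_neg]
      exact (cos_neg_of_pi_div_two_lt_of_lt (by linarith [hx.2]) (by linarith [hx.1])).ne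
    · apply ENNReal.ofReal_le_ofReal
      have h5 : -π + θ = -(π - θ) := by ring
      rw [h5, tan_neg, tan_pi_sub, tan_neg, tan_pi, htan]
      apply le_of_eq
      field_simp
      ring
  rw [lintegral_indicator hmeas, Measure.restrict_restrict hmeas]
  calc ∫⁻ f in {f : ℝ | m * |sin f| < c * |cos f|} ∩ Ioo (-π) π, k f
      ≤ ∫⁻ f in Ioc (-θ) θ ∪ (Ioc (π - θ) π ∪ Ioc (-π) (-π + θ)), k f :=
        lintegral_mono_set hsub
    _ ≤ (∫⁻ f in Ioc (-θ) θ, k f) + ∫⁻ f in Ioc (π - θ) π ∪ Ioc (-π) (-π + θ), k f :=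
        lintegral_union_le k _ _
    _ ≤ (∫⁻ f in Ioc (-θ) θ, k f) + ((∫⁻ f in Ioc (π - θ) π, k f) +
          ∫⁻ f in Ioc (-π) (-π + θ), k f) := add_le_add le_rfl (lintegral_union_le k _ _)
    _ ≤ ENNReal.ofReal (2 / m) + (ENNReal.ofReal (1 / m) + ENNReal.ofReal (1 / m)) :=
        add_le_add e1 (add_le_add e2 e3)
    _ = ENNReal.ofReal (4 / m) := by
        rw [← ENNReal.ofReal_add (by positivity) (by positivity),
          ← ENNReal.ofReal_add (by positivity) (by positivity)]
        congr 1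
        ring

/-- BLOCK S8a: for unit vectors `u ≠ ±v` the integral over all normals separating `u` and `v`.
Let `c = v - u`, `m = u + v`, `ĉ, m̂` unit vectors (`ip c m = 0`), `b = ĉ × m̂`; rotate (S1a) so that
`(ĉ, m̂, b)` is the standard basis; S2: `n = (√(1-z²) cos f, √(1-z²) sin f, z)`; separation is
`|ip n m| < |ip n c|`, i.e. `|tan f| < τ := |c|/|m|`; the integrand is `1/(|c| √(1-z²) |cos f|)`;
`∫ dz/√(1-z²) = π`, `∫_{|tan f| < τ} df/|cos f| ≤ 4 τ` (`sec ≤ sec²`). -/
theorem S8a (u v : V) (hu : ‖u‖ = 1) (hv : ‖v‖ = 1) (h1 : u ≠ v) (h2 : u ≠ -v) :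
    ∫⁻ n in {n | sep n u v}, ENNReal.ofReal (1 / |ip n (v - u)|) ∂sph ≤
      ENNReal.ofReal (4 * π / ‖u + v‖) := by
  set c : V := v - u with hc
  set m : V := u + v with hm
  have hc0 : c ≠ 0 := sub_ne_zero.mpr (Ne.symm h1)
  have hm0 : m ≠ 0 := fun h => h2 (eq_neg_of_add_eq_zero_left h)
  have hcn : 0 < ‖c‖ := norm_pos_iff.mpr hc0
  have hmn : 0 < ‖m‖ := norm_pos_iff.mpr hm0
  have hcm : inner ℝ c m = 0 := by
    rw [hc, hm, inner_sub_left, inner_add_right, inner_add_right, real_inner_self_eq_norm_sq,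
      real_inner_self_eq_norm_sq, hu, hv, real_inner_comm u v]
    ring
  -- the orthonormal basis
  have hon : Orthonormal ℝ (Set.domRestrict ({0, 1} : Set (Fin 3))
      (![‖c‖⁻¹ • c, ‖m‖⁻¹ • m, 0] : Fin 3 → V)) := by
    rw [orthonormal_iff_ite]
    rintro ⟨i, hi⟩ ⟨j, hj⟩
    have hi' : i = 0 ∨ i = 1 := hi
    have hj' : j = 0 ∨ j = 1 := hj
    have hcc : inner ℝ (‖c‖⁻¹ • c) (‖c‖⁻¹ • c) = (1:ℝ) := by
      rw [real_inner_self_eq_norm_sq, norm_smul, norm_inv, norm_norm,
        inv_mul_cancel₀ hcn.ne', one_pow]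
    have hmm : inner ℝ (‖m‖⁻¹ • m) (‖m‖⁻¹ • m) = (1:ℝ) := by
      rw [real_inner_self_eq_norm_sq, norm_smul, norm_inv, norm_norm,
        inv_mul_cancel₀ hmn.ne', one_pow]
    have hcm' : inner ℝ (‖c‖⁻¹ • c) (‖m‖⁻¹ • m) = (0:ℝ) := by
      rw [inner_smul_left, inner_smul_right, hcm]
      simp
    rcases hi' with rfl | rfl <;> rcases hj' with rfl | rfl
    · rw [if_pos rfl]
      exact hcc
    · rw [if_neg (by simp)]
      exact hcm'
    · rw [if_neg (by simp)]
      have := hcm'
      rw [real_inner_comm] at this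
      exact this
    · rw [if_pos rfl]
      exact hmm
  obtain ⟨b, hb⟩ := hon.exists_orthonormalBasis_extension_of_card_eq (by simp)
  have hb0 : b 0 = ‖c‖⁻¹ • c := hb 0 (by simp)
  have hb1 : b 1 = ‖m‖⁻¹ • m := hb 1 (by simp)
  set F : V ≃ₗᵢ[ℝ] V := b.repr.symm with hF
  have hFi : ∀ (n : V) (i : Fin 3), inner ℝ (b i) (F n) = n i := by
    intro n i
    rw [← b.repr_apply_apply, hF, LinearIsometryEquiv.apply_symm_apply]
  have hFc : ∀ n : V, ip (F n) c = ‖c‖ * n 0 := by
    intro n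
    have h5 : c = ‖c‖ • b 0 := by
      rw [hb0, smul_smul, mul_inv_cancel₀ hcn.ne', one_smul]
    show inner ℝ (F n) c = ‖c‖ * n 0
    rw [← hFi n 0, real_inner_comm]
    conv_lhs => rw [h5]
    rw [inner_smul_left]
    rfl
  have hFm : ∀ n : V, ip (F n) m = ‖m‖ * n 1 := by
    intro n
    have h5 : m = ‖m‖ • b 1 := by
      rw [hb1, smul_smul, mul_inv_cancel₀ hmn.ne', one_smul]
    show inner ℝ (F n) m = ‖m‖ * n 1
    rw [← hFi n 1, real_inner_comm]
    conv_lhs => rw [h5]
    rw [inner_smul_left]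
    rfl
  have hsep : ∀ n : V, sep n u v ↔ |ip n m| < |ip n c| := by
    intro n
    have h5 : ip n m = ip n u + ip n v := inner_add_right _ _ _
    have h6 : ip n c = ip n v - ip n u := inner_sub_right _ _ _
    rw [h5, h6, ← sq_lt_sq]
    show ip n u * ip n v < 0 ↔ _
    constructor <;> intro h7 <;> nlinarith
  have hmeasS : MeasurableSet {n : V | sep n u v} := by
    apply measurableSet_lt _ measurable_const
    exact ((continuous_id.inner continuous_const).mul
      (continuous_id.inner continuous_const)).measurable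
  set g : V → ENNReal := {n : V | sep n u v}.indicator
    (fun n => ENNReal.ofReal (1 / |ip n c|)) with hg
  have hgm : Measurable g := by
    apply Measurable.indicator _ hmeasS
    apply Measurable.ennreal_ofReal
    exact measurable_const.div (continuous_id.inner continuous_const).abs.measurable
  rw [← lintegral_indicator hmeasS, ← (S1a F).lintegral_comp hgm,
    S2 (fun n => g (F n)) (hgm.comp F.continuous.measurable)]
  set k : ℝ → ENNReal := {f : ℝ | ‖m‖ * |sin f| < ‖c‖ * |cos f|}.indicator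
      (fun f => ENNReal.ofReal (1 / (‖c‖ * |cos f|))) with hk
  have hgk : ∀ z ∈ Ioo (-1 : ℝ) 1, ∀ f : ℝ, g (F (cyl z f)) =
      ENNReal.ofReal (1 / √(1 - z ^ 2)) * k f := by
    intro z hz f
    have hρ : 0 < √(1 - z ^ 2) := by
      apply Real.sqrt_pos.mpr
      nlinarith [hz.1, hz.2]
    have e0 : (cyl z f) 0 = √(1 - z ^ 2) * cos f := rfl
    have e1 : (cyl z f) 1 = √(1 - z ^ 2) * sin f := rfl
    have e2 : |ip (F (cyl z f)) c| = √(1 - z ^ 2) * (‖c‖ * |cos f|) := by
      rw [hFc, e0, abs_mul, abs_mul, abs_of_pos hcn, abs_of_pos hρ]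
      ring
    have e3 : |ip (F (cyl z f)) m| = √(1 - z ^ 2) * (‖m‖ * |sin f|) := by
      rw [hFm, e1, abs_mul, abs_mul, abs_of_pos hmn, abs_of_pos hρ]
      ring
    have e4 : (F (cyl z f)) ∈ {n : V | sep n u v} ↔
        f ∈ {f : ℝ | ‖m‖ * |sin f| < ‖c‖ * |cos f|} := by
      show sep (F (cyl z f)) u v ↔ ‖m‖ * |sin f| < ‖c‖ * |cos f|
      rw [hsep, e2, e3]
      exact mul_lt_mul_iff_right₀ hρ
    by_cases h7 : f ∈ {f : ℝ | ‖m‖ * |sin f| < ‖c‖ * |cos f|}
    · rw [hg, hk, Set.indicator_of_mem h7, Set.indicator_of_mem (e4.mpr h7), e2,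
        ← ENNReal.ofReal_mul (by positivity)]
      congr 1
      rw [one_div_mul_one_div]
    · rw [hg, hk, Set.indicator_of_notMem h7, Set.indicator_of_notMem (fun h => h7 (e4.mp h)),
        mul_zero]
  have hkm : Measurable k := by
    apply Measurable.indicator
    · apply Measurable.ennreal_ofReal
      exact measurable_const.div (continuous_const.mul continuous_cos.abs).measurable
    · apply measurableSet_lt
      · exact (continuous_const.mul (continuous_sin.abs)).measurable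
      · exact (continuous_const.mul (continuous_cos.abs)).measurable
  calc ∫⁻ z in Ioo (-1 : ℝ) 1, ∫⁻ f in Ioo (-π) π, (fun n => g (F n)) (cyl z f)
      = ∫⁻ z in Ioo (-1 : ℝ) 1, ENNReal.ofReal (1 / √(1 - z ^ 2)) *
          ∫⁻ f in Ioo (-π) π, k f := by
        apply setLIntegral_congr_fun measurableSet_Ioo
        intro z hz
        show ∫⁻ f in Ioo (-π) π, g (F (cyl z f)) =
          ENNReal.ofReal (1 / √(1 - z ^ 2)) * ∫⁻ f in Ioo (-π) π, k f
        rw [← lintegral_const_mul _ hkm]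
        apply lintegral_congr
        intro f
        exact hgk z hz f
    _ ≤ ∫⁻ z in Ioo (-1 : ℝ) 1, ENNReal.ofReal (1 / √(1 - z ^ 2)) *
          ENNReal.ofReal (4 / ‖m‖) := by
        apply lintegral_mono
        intro z
        show ENNReal.ofReal (1 / √(1 - z ^ 2)) * _ ≤ ENNReal.ofReal (1 / √(1 - z ^ 2)) * _
        gcongr
        exact S8a_angle ‖m‖ ‖c‖ hmn hcn
    _ = ENNReal.ofReal (4 * π / ‖m‖) := by
        rw [lintegral_mul_const _ (by fun_prop), S8a_arcsin,
          ← ENNReal.ofReal_mul (by positivity)]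
        congr 1
        ring

/-! ### auxiliary facts for S8b -/

theorem S8b_ip_map (f : V ≃ₗᵢ[ℝ] V) (x y : V) : ip (f x) (f y) = ip x y := f.inner_map_map x y

theorem S8b_ip_le {u v : V} (hu : ‖u‖ = 1) (hv : ‖v‖ = 1) : -1 ≤ ip u v ∧ ip u v ≤ 1 :=
  ⟨neg_one_le_real_inner_of_norm_eq_one hu hv, real_inner_le_one_of_norm_eq_one hu hv⟩

theorem S8b_kN_nonneg (N : ℕ) {u v : V} (hu : ‖u‖ = 1) (hv : ‖v‖ = 1) : 0 ≤ kN N u v := by
  unfold kN
  have h : 0 ≤ 1 + ip u v := by linarith [(S8b_ip_le hu hv).1]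
  have := Real.pi_pos
  positivity

/-- the integrand -/
def S8b_F (N : ℕ) (ε : ℝ) (n u v : V) : ℝ :=
  kN N u v * (‖v - u‖ ^ 2 + ε * ‖v - u‖) / |ip n (v - u)|

theorem S8b_F_meas (N : ℕ) (ε : ℝ) : Measurable (fun z : V × V × V => S8b_F N ε z.1 z.2.1 z.2.2) := by
  unfold S8b_F kN ip
  refine Measurable.div (Continuous.measurable (by fun_prop)) (Continuous.measurable (by fun_prop))

theorem S8b_F_meas' (N : ℕ) (ε : ℝ) {α : Type*} [MeasurableSpace α] {a b c : α → V}
    (ha : Measurable a) (hb : Measurable b) (hc : Measurable c) :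
    Measurable (fun x => S8b_F N ε (a x) (b x) (c x)) := by
  have h : Measurable (fun x => ((a x, b x, c x) : V × V × V)) := ha.prodMk (hb.prodMk hc)
  have h2 := (S8b_F_meas N ε).comp h
  rw [Function.comp_def] at h2
  exact h2

theorem S8b_sep_meas : MeasurableSet {z : V × V × V | sep z.1 z.2.1 z.2.2} := by
  unfold sep ip
  exact measurableSet_lt (Continuous.measurable (by fun_prop)) measurable_const

open Classical in
/-- the integrand with the indicator -/
def S8b_H (N : ℕ) (ε : ℝ) (n u v : V) : ENNReal :=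
  if sep n u v then ENNReal.ofReal (S8b_F N ε n u v) else 0

theorem S8b_H_meas (N : ℕ) (ε : ℝ) : Measurable (fun z : V × V × V => S8b_H N ε z.1 z.2.1 z.2.2) := by
  unfold S8b_H
  exact Measurable.ite S8b_sep_meas (ENNReal.measurable_ofReal.comp (S8b_F_meas N ε)) measurable_const

theorem S8b_H_meas' (N : ℕ) (ε : ℝ) {α : Type*} [MeasurableSpace α] {a b c : α → V}
    (ha : Measurable a) (hb : Measurable b) (hc : Measurable c) :
    Measurable (fun x => S8b_H N ε (a x) (b x) (c x)) := by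
  have h : Measurable (fun x => ((a x, b x, c x) : V × V × V)) := ha.prodMk (hb.prodMk hc)
  exact (S8b_H_meas N ε).comp h

theorem S8b_H_map (N : ℕ) (ε : ℝ) (f : V ≃ₗᵢ[ℝ] V) (n u v : V) :
    S8b_H N ε (f n) (f u) (f v) = S8b_H N ε n u v := by
  have h1 : sep (f n) (f u) (f v) ↔ sep n u v := by
    unfold sep
    rw [S8b_ip_map, S8b_ip_map]
  have h2 : S8b_F N ε (f n) (f u) (f v) = S8b_F N ε n u v := by
    unfold S8b_F kN
    rw [S8b_ip_map, ← map_sub, S8b_ip_map, f.norm_map]
  unfold S8b_H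
  by_cases h : sep n u v
  · rw [if_pos h, if_pos (h1.mpr h), h2]
  · rw [if_neg h, if_neg (fun h' => h (h1.mp h'))]

theorem S8b_sepv_meas (n u : V) : MeasurableSet {v | sep n u v} := by
  unfold sep ip
  exact measurableSet_lt (Continuous.measurable (by fun_prop)) measurable_const

theorem S8b_I (N : ℕ) (ε : ℝ) (n u : V) :
    ∫⁻ v in {v | sep n u v}, ENNReal.ofReal (S8b_F N ε n u v) ∂sph = ∫⁻ v, S8b_H N ε n u v ∂sph := by
  rw [← lintegral_indicator (S8b_sepv_meas n u)]
  refine lintegral_congr fun v => ?_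
  unfold S8b_H
  by_cases h : sep n u v
  · rw [if_pos h, Set.indicator_of_mem]
    exact h
  · rw [if_neg h, Set.indicator_of_notMem]
    exact h

theorem S8b_rot (N : ℕ) (ε : ℝ) (f : V ≃ₗᵢ[ℝ] V) (n : V) :
    ∫⁻ u, ∫⁻ v, S8b_H N ε (f n) u v ∂sph ∂sph = ∫⁻ u, ∫⁻ v, S8b_H N ε n u v ∂sph ∂sph := by
  have h1 : ∀ u, ∫⁻ v, S8b_H N ε (f n) u (f v) ∂sph = ∫⁻ v, S8b_H N ε (f n) u v ∂sph := by
    intro u
    have hm : Measurable (fun v => S8b_H N ε (f n) u v) :=
      S8b_H_meas' N ε measurable_const measurable_const measurable_id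
    exact (S1a f).lintegral_comp hm
  have h2 : ∫⁻ u, (∫⁻ v, S8b_H N ε (f n) (f u) v ∂sph) ∂sph =
      ∫⁻ u, ∫⁻ v, S8b_H N ε (f n) u v ∂sph ∂sph := by
    have hm2 : Measurable (fun u => ∫⁻ v, S8b_H N ε (f n) u v ∂sph) := by
      have : Measurable (fun z : V × V => S8b_H N ε (f n) z.1 z.2) :=
        S8b_H_meas' N ε measurable_const measurable_fst measurable_snd
      exact this.lintegral_prod_right'
    exact (S1a f).lintegral_comp hm2
  rw [← h2]
  refine lintegral_congr fun u => ?_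
  rw [← h1]
  exact lintegral_congr fun v => S8b_H_map N ε f n u v

theorem S8b_const (N : ℕ) (ε : ℝ) (n n' : V) (hn : ‖n‖ = 1) (hn' : ‖n'‖ = 1) :
    ∫⁻ u, ∫⁻ v, S8b_H N ε n u v ∂sph ∂sph = ∫⁻ u, ∫⁻ v, S8b_H N ε n' u v ∂sph ∂sph := by
  obtain ⟨f, hf⟩ := exists_isom n hn
  obtain ⟨g, hg⟩ := exists_isom n' hn'
  rw [← hf, ← hg, S8b_rot, S8b_rot]

theorem S8b_avg (N : ℕ) (ε : ℝ) (n : V) (hn : ‖n‖ = 1) :
    ENNReal.ofReal (4 * π) * ∫⁻ u, ∫⁻ v, S8b_H N ε n u v ∂sph ∂sph =
      ∫⁻ u, ∫⁻ v, ∫⁻ m, S8b_H N ε m u v ∂sph ∂sph ∂sph := by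
  have h1 : ∫⁻ m, (∫⁻ u, ∫⁻ v, S8b_H N ε m u v ∂sph ∂sph) ∂sph =
      ENNReal.ofReal (4 * π) * ∫⁻ u, ∫⁻ v, S8b_H N ε n u v ∂sph ∂sph := by
    rw [← S1c]
    have h2 : ∫⁻ m, (∫⁻ u, ∫⁻ v, S8b_H N ε m u v ∂sph ∂sph) ∂sph =
        ∫⁻ m, (∫⁻ u, ∫⁻ v, S8b_H N ε n u v ∂sph ∂sph) ∂sph := by
      refine lintegral_congr_ae ?_
      filter_upwards [S1b] with m hm
      exact S8b_const N ε m n hm hn
    rw [h2, lintegral_const, mul_comm]
  rw [← h1]
  have hm1 : Measurable (fun z : V × V => ∫⁻ v, S8b_H N ε z.1 z.2 v ∂sph) := by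
    have : Measurable (fun z : (V × V) × V => S8b_H N ε z.1.1 z.1.2 z.2) :=
      S8b_H_meas' N ε (measurable_fst.comp measurable_fst) (measurable_snd.comp measurable_fst)
        measurable_snd
    exact this.lintegral_prod_right'
  rw [lintegral_lintegral_swap hm1.aemeasurable]
  refine lintegral_congr fun u => ?_
  have hm2 : Measurable (fun z : V × V => S8b_H N ε z.1 u z.2) :=
    S8b_H_meas' N ε measurable_fst measurable_const measurable_snd
  exact lintegral_lintegral_swap hm2.aemeasurable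

theorem S8b_inner (N : ℕ) (ε : ℝ) (hε : 0 ≤ ε) {u v : V} (hu : ‖u‖ = 1) (hv : ‖v‖ = 1)
    (h1 : ip v u ≠ 1) (h2 : ip v u ≠ -1) :
    ∫⁻ m, S8b_H N ε m u v ∂sph ≤
      ENNReal.ofReal (kN N u v * (‖v - u‖ ^ 2 + ε * ‖v - u‖) * (4 * π / ‖u + v‖)) := by
  have hK : 0 ≤ kN N u v * (‖v - u‖ ^ 2 + ε * ‖v - u‖) := by
    have := S8b_kN_nonneg N hu hv
    positivity
  have h3 : ∫⁻ m, S8b_H N ε m u v ∂sph =
      ∫⁻ m in {m | sep m u v}, ENNReal.ofReal (kN N u v * (‖v - u‖ ^ 2 + ε * ‖v - u‖)) *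
        ENNReal.ofReal (1 / |ip m (v - u)|) ∂sph := by
    have hs : MeasurableSet {m | sep m u v} := by
      unfold sep ip
      exact measurableSet_lt (Continuous.measurable (by fun_prop)) measurable_const
    rw [← lintegral_indicator hs]
    refine lintegral_congr fun m => ?_
    unfold S8b_H
    by_cases h : sep m u v
    · rw [if_pos h, Set.indicator_of_mem (show m ∈ {m | sep m u v} from h),
        ← ENNReal.ofReal_mul hK]
      unfold S8b_F
      congr 1
      ring
    · rw [if_neg h, Set.indicator_of_notMem]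
      exact h
  rw [h3, lintegral_const_mul', ENNReal.ofReal_mul hK]
  · refine mul_le_mul_right (S8a u v hu hv ?_ ?_) _
    · rintro rfl
      apply h1
      rw [ip, real_inner_self_eq_norm_sq, hu]
      norm_num
    · rintro rfl
      apply h2
      rw [ip, inner_neg_right, real_inner_self_eq_norm_sq, hv]
      norm_num
  · exact ENNReal.ofReal_ne_top


/-- the one dimensional integral -/
theorem S8b_one (N : ℕ) (ε : ℝ) (hε : 0 ≤ ε) :
    ∫⁻ z in Ioo (-1 : ℝ) 1, ENNReal.ofReal (((N : ℝ) + 1) / (4 * π) * ((1 + z) / 2) ^ N *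
      ((2 - 2 * z) + ε * √(2 - 2 * z)) * (4 * π / √(2 + 2 * z))) ≤
    ENNReal.ofReal (((N : ℝ) + 1) * (4 / ((N + 1 / 2) * (N + 3 / 2)) + 2 * ε / (N + 1 / 2))) := by
  set s : ℝ := (N : ℝ) - 1 / 2 with hs
  have hN : (0 : ℝ) ≤ N := Nat.cast_nonneg N
  have hs1 : -1 < s := by rw [hs]; linarith
  let J : ℝ → ℝ := fun y => 2 * ((N : ℝ) + 1) * ((2 + ε) * y ^ s - 2 * y ^ (s + 1))
  have him : Ioo (-1 : ℝ) 1 = (fun y : ℝ => 2 * y - 1) '' Ioo (0 : ℝ) 1 := by
    ext z
    constructor
    · intro hz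
      exact ⟨(z + 1) / 2, ⟨by linarith [hz.1], by linarith [hz.2]⟩, by ring⟩
    · rintro ⟨y, hy, rfl⟩
      exact ⟨by simp only; linarith [hy.1], by simp only; linarith [hy.2]⟩
  have hinj : InjOn (fun y : ℝ => 2 * y - 1) (Ioo (0 : ℝ) 1) := by
    intro x _ y _ h
    simp only at h
    linarith
  have hder : ∀ y ∈ Ioo (0 : ℝ) 1, HasDerivWithinAt (fun y : ℝ => 2 * y - 1) 2 (Ioo (0 : ℝ) 1) y := by
    intro y _
    have h := ((hasDerivAt_id y).const_mul (2 : ℝ)).sub_const (1 : ℝ)
    simp only [mul_one] at h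
    exact h.hasDerivWithinAt
  rw [him, lintegral_image_eq_lintegral_abs_deriv_mul measurableSet_Ioo hder hinj]
  have hle : ∀ y ∈ Ioo (0 : ℝ) 1, ENNReal.ofReal |(2 : ℝ)| *
      ENNReal.ofReal (((N : ℝ) + 1) / (4 * π) * ((1 + (2 * y - 1)) / 2) ^ N *
      ((2 - 2 * (2 * y - 1)) + ε * √(2 - 2 * (2 * y - 1))) * (4 * π / √(2 + 2 * (2 * y - 1)))) ≤
      ENNReal.ofReal (J y) := by
    intro y hy
    have hy0 : 0 < y := hy.1
    rw [← ENNReal.ofReal_mul (abs_nonneg _)]
    apply ENNReal.ofReal_le_ofReal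
    rw [abs_of_pos (by norm_num : (0:ℝ) < 2)]
    have e1 : (1 + (2 * y - 1)) / 2 = y := by ring
    have e2 : √(2 + 2 * (2 * y - 1)) = 2 * √y := by
      rw [show (2 + 2 * (2 * y - 1) : ℝ) = 2 ^ 2 * y by ring, Real.sqrt_mul (by positivity),
        Real.sqrt_sq (by norm_num)]
    have e3 : √(2 - 2 * (2 * y - 1)) ≤ 2 := by
      rw [show (2 - 2 * (2 * y - 1) : ℝ) = 2 ^ 2 * (1 - y) by ring, Real.sqrt_mul (by positivity),
        Real.sqrt_sq (by norm_num)]
      have : √(1 - y) ≤ 1 := Real.sqrt_le_one.mpr (by linarith)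
      linarith
    have hsq : 0 < √y := Real.sqrt_pos.mpr hy0
    have e4 : y ^ s = y ^ N / √y := by
      rw [hs, Real.rpow_sub hy0, Real.rpow_natCast, Real.sqrt_eq_rpow]
    have e5 : y ^ (s + 1) = y ^ N / √y * y := by
      rw [Real.rpow_add hy0, Real.rpow_one, e4]
    rw [e1, e2]
    simp only [J, e4, e5]
    have hpi := Real.pi_pos
    have e6 : ((N : ℝ) + 1) / (4 * π) * y ^ N * ((2 - 2 * (2 * y - 1)) + ε * √(2 - 2 * (2 * y - 1))) *
        (4 * π / (2 * √y)) = ((N : ℝ) + 1) * (y ^ N / √y) *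
          (((2 - 2 * (2 * y - 1)) + ε * √(2 - 2 * (2 * y - 1))) / 2) := by
      field_simp
    rw [e6]
    have hyN : 0 ≤ ((N : ℝ) + 1) * (y ^ N / √y) := by positivity
    have e7 : ((2 - 2 * (2 * y - 1)) + ε * √(2 - 2 * (2 * y - 1))) / 2 ≤ 2 * (1 - y) + ε := by
      nlinarith [mul_le_mul_of_nonneg_left e3 hε]
    have e8 := mul_le_mul_of_nonneg_left e7 hyN
    nlinarith
  refine le_trans (setLIntegral_mono_ae' measurableSet_Ioo (Filter.Eventually.of_forall hle)) ?_
  -- the integral of `J`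
  have hi1 : IntervalIntegrable (fun y : ℝ => y ^ s) volume 0 1 :=
    intervalIntegral.intervalIntegrable_rpow' hs1
  have hi2 : IntervalIntegrable (fun y : ℝ => y ^ (s + 1)) volume 0 1 :=
    intervalIntegral.intervalIntegrable_rpow' (by linarith)
  have hJ : IntervalIntegrable J volume 0 1 :=
    ((hi1.const_mul (2 + ε)).sub (hi2.const_mul 2)).const_mul _
  have hJv : ∫ y in (0:ℝ)..1, J y = 2 * ((N : ℝ) + 1) * ((2 + ε) * (1 / (s + 1)) - 2 * (1 / (s + 2))) := by
    simp only [J]
    rw [intervalIntegral.integral_const_mul, intervalIntegral.integral_sub (hi1.const_mul _)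
      (hi2.const_mul _), intervalIntegral.integral_const_mul, intervalIntegral.integral_const_mul,
      integral_rpow (Or.inl hs1), integral_rpow (Or.inl (by linarith))]
    rw [Real.one_rpow, Real.one_rpow, Real.zero_rpow (by linarith), Real.zero_rpow (by linarith)]
    ring_nf
  have hJ0 : ∀ y ∈ Ioo (0 : ℝ) 1, 0 ≤ J y := by
    intro y hy
    have hy0 : 0 < y := hy.1
    simp only [J]
    have h1 : y ^ (s + 1) ≤ y ^ s := by
      rw [Real.rpow_add hy0, Real.rpow_one]
      have : 0 < y ^ s := Real.rpow_pos_of_pos hy0 s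
      nlinarith [hy.2]
    have h2 : 0 < y ^ s := Real.rpow_pos_of_pos hy0 s
    have h3 : 0 ≤ (2 + ε) * y ^ s - 2 * y ^ (s + 1) := by nlinarith
    positivity
  have hJi : IntegrableOn J (Ioo 0 1) volume := by
    rw [intervalIntegrable_iff_integrableOn_Ioo_of_le (by norm_num)] at hJ
    exact hJ
  rw [← ofReal_integral_eq_lintegral_ofReal hJi
    ((ae_restrict_iff' measurableSet_Ioo).mpr (Filter.Eventually.of_forall hJ0))]
  apply ENNReal.ofReal_le_ofReal
  rw [← integral_Ioc_eq_integral_Ioo, ← intervalIntegral.integral_of_le (by norm_num), hJv]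
  have e1 : s + 1 = N + 1 / 2 := by rw [hs]; ring
  have e2 : s + 2 = N + 3 / 2 := by rw [hs]; ring
  rw [e1, e2]
  apply le_of_eq
  have h1 : (N : ℝ) + 1 / 2 ≠ 0 := by positivity
  have h2 : (N : ℝ) + 3 / 2 ≠ 0 := by positivity
  field_simp
  ring

theorem S8b_v (N : ℕ) (ε : ℝ) (hε : 0 ≤ ε) {u : V} (hu : ‖u‖ = 1) :
    ∫⁻ v, ENNReal.ofReal (kN N u v * (‖v - u‖ ^ 2 + ε * ‖v - u‖) * (4 * π / ‖u + v‖)) ∂sph ≤
      ENNReal.ofReal (2 * π * (((N : ℝ) + 1) *
        (4 / ((N + 1 / 2) * (N + 3 / 2)) + 2 * ε / (N + 1 / 2)))) := by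
  let g : ℝ → ENNReal := fun z => ENNReal.ofReal (((N : ℝ) + 1) / (4 * π) * ((1 + z) / 2) ^ N *
      ((2 - 2 * z) + ε * √(2 - 2 * z)) * (4 * π / √(2 + 2 * z)))
  have hg : Measurable g := by
    refine ENNReal.measurable_ofReal.comp ?_
    refine Measurable.mul (Continuous.measurable (by fun_prop)) ?_
    exact Measurable.div measurable_const (Continuous.measurable (by fun_prop))
  have h1 : ∫⁻ v, ENNReal.ofReal (kN N u v * (‖v - u‖ ^ 2 + ε * ‖v - u‖) * (4 * π / ‖u + v‖)) ∂sph =
      ∫⁻ v, g (ip v u) ∂sph := by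
    refine lintegral_congr_ae ?_
    filter_upwards [S1b] with v hv
    have e0 : ip u v = ip v u := real_inner_comm _ _
    have e1 : ‖v - u‖ ^ 2 = 2 - 2 * ip v u := by
      rw [@norm_sub_sq_real V, hu, hv]
      show 1 ^ 2 - 2 * ip v u + 1 ^ 2 = _
      ring
    have e2 : ‖u + v‖ ^ 2 = 2 + 2 * ip v u := by
      rw [@norm_add_sq_real V, hu, hv]
      show 1 ^ 2 + 2 * ip u v + 1 ^ 2 = _
      rw [e0]
      ring
    have e3 : ‖v - u‖ = √(2 - 2 * ip v u) := by
      rw [← e1, Real.sqrt_sq (norm_nonneg _)]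
    have e4 : ‖u + v‖ = √(2 + 2 * ip v u) := by
      rw [← e2, Real.sqrt_sq (norm_nonneg _)]
    simp only [g]
    rw [e1, e4, e3, kN, e0]
  have h2 : (0 : ℝ) ≤ 2 * π := by positivity
  rw [h1, S3 u hu g hg, ENNReal.ofReal_mul (p := 2 * π) h2]
  exact mul_le_mul_right (S8b_one N ε hε) _

/-- BLOCK S8b: for every unit normal `n` (by rotation invariance the left side does not depend on `n`, so it
equals its average over `n`; Tonelli and S8a; then S3: with `x = ip u v`, `‖v-u‖² = 2(1-x)`, `‖u+v‖² = 2(1+x)`,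
`y = (1+x)/2`, `(1/4π)·∫∫ kN (‖v-u‖²+ε‖v-u‖)·4π/‖u+v‖ ≤ 4π (N+1) ∫_0^1 y^N (2(1-y)+ε) y^(-1/2) dy`). -/
theorem S8b (N : ℕ) (n : V) (hn : ‖n‖ = 1) (ε : ℝ) (hε : 0 ≤ ε) :
    ∫⁻ u, ∫⁻ v in {v | sep n u v}, ENNReal.ofReal (kN N u v * (‖v - u‖ ^ 2 + ε * ‖v - u‖) / |ip n (v - u)|)
      ∂sph ∂sph ≤ ENNReal.ofReal (4 * π * (2 * (N + 1) / ((N + 1 / 2) * (N + 3 / 2)) + 2 * ε)) := by
  have hpi := Real.pi_pos
  have h1 : ∫⁻ u, ∫⁻ v in {v | sep n u v},
      ENNReal.ofReal (kN N u v * (‖v - u‖ ^ 2 + ε * ‖v - u‖) / |ip n (v - u)|) ∂sph ∂sph =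
      ∫⁻ u, ∫⁻ v, S8b_H N ε n u v ∂sph ∂sph :=
    lintegral_congr fun u => S8b_I N ε n u
  rw [h1]
  set c : ℝ := 2 * π * (((N : ℝ) + 1) *
        (4 / ((N + 1 / 2) * (N + 3 / 2)) + 2 * ε / (N + 1 / 2))) with hc
  have h2 : ENNReal.ofReal (4 * π) * ∫⁻ u, ∫⁻ v, S8b_H N ε n u v ∂sph ∂sph ≤
      ENNReal.ofReal (4 * π) * ENNReal.ofReal c := by
    rw [S8b_avg N ε n hn]
    calc ∫⁻ u, ∫⁻ v, ∫⁻ m, S8b_H N ε m u v ∂sph ∂sph ∂sph
        ≤ ∫⁻ u, ENNReal.ofReal c ∂sph := by
          refine lintegral_mono_ae ?_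
          filter_upwards [S1b] with u hu
          refine le_trans ?_ (S8b_v N ε hε hu)
          refine lintegral_mono_ae ?_
          have hne : ∀ᵐ v ∂sph, ip v u ≠ 1 ∧ ip v u ≠ -1 := by
            have hz : sph {v | ¬ (ip v u ≠ 1 ∧ ip v u ≠ -1)} = 0 := by
              have hms : MeasurableSet ({1, -1} : Set ℝ) := (Set.toFinite _).measurableSet
              have h3 := S3 u hu (({1, -1} : Set ℝ).indicator (fun _ => (1 : ENNReal)))
                (measurable_const.indicator hms)
              have h4 : ∫⁻ z in Ioo (-1 : ℝ) 1, (({1, -1} : Set ℝ).indicator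
                  (fun _ => (1 : ENNReal))) z = 0 := by
                rw [setLIntegral_eq_zero_iff measurableSet_Ioo (measurable_const.indicator hms)]
                refine Filter.Eventually.of_forall fun z hz => ?_
                rw [Set.indicator_of_notMem]
                rintro (h | h)
                · linarith [hz.2]
                · rw [Set.mem_singleton_iff] at h
                  linarith [hz.1]
              rw [h4, mul_zero] at h3
              have h5 : {v : V | ¬ (ip v u ≠ 1 ∧ ip v u ≠ -1)} =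
                  (fun v => ip v u) ⁻¹' ({1, -1} : Set ℝ) := by
                ext v
                simp only [Set.mem_ofPred_eq, Set.mem_preimage, Set.mem_insert_iff,
                  Set.mem_singleton_iff]
                tauto
              have hipm : Measurable (fun v : V => ip v u) := by
                unfold ip
                exact Continuous.measurable (by fun_prop)
              rw [h5]
              have h6 : ∫⁻ v, (({1, -1} : Set ℝ).indicator (fun _ => (1 : ENNReal))) (ip v u) ∂sph =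
                  sph ((fun v => ip v u) ⁻¹' ({1, -1} : Set ℝ)) := by
                have h7 : (fun v => (({1, -1} : Set ℝ).indicator (fun _ => (1 : ENNReal))) (ip v u)) =
                    ((fun v => ip v u) ⁻¹' ({1, -1} : Set ℝ)).indicator (fun _ => (1 : ENNReal)) := by
                  funext v
                  rfl
                rw [h7, lintegral_indicator (hipm hms)]
                simp
              rw [← h6, h3]
            exact hz
          filter_upwards [S1b, hne] with v hv hne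
          exact S8b_inner N ε hε hu hv hne.1 hne.2
      _ = ENNReal.ofReal (4 * π) * ENNReal.ofReal c := by
          rw [lintegral_const, S1c, mul_comm]
  have h4 : ENNReal.ofReal (4 * π) ≠ 0 := by
    rw [Ne, ENNReal.ofReal_eq_zero, not_le]
    positivity
  have h3 := (ENNReal.mul_le_mul_iff_right h4 ENNReal.ofReal_ne_top).mp h2
  refine le_trans h3 (ENNReal.ofReal_le_ofReal ?_)
  rw [hc]
  have hN : (0 : ℝ) ≤ N := Nat.cast_nonneg N
  have e1 : 2 * π * (((N : ℝ) + 1) * (4 / ((N + 1 / 2) * (N + 3 / 2)) + 2 * ε / (N + 1 / 2))) =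
      4 * π * (2 * (N + 1) / ((N + 1 / 2) * (N + 3 / 2)) + ε * ((N + 1) / (N + 1 / 2))) := by
    have h1 : (N : ℝ) + 1 / 2 ≠ 0 := by positivity
    have h2 : (N : ℝ) + 3 / 2 ≠ 0 := by positivity
    field_simp
    ring
  rw [e1]
  have e2 : ((N : ℝ) + 1) / (N + 1 / 2) ≤ 2 := by
    rw [div_le_iff₀ (by positivity)]
    linarith
  have e3 := mul_le_mul_of_nonneg_left e2 hε
  have e4 : 0 < 4 * π := by positivity
  apply mul_le_mul_of_nonneg_left _ e4.le
  linarith

/-! ### block S8c -/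

/-- the sector condition -/
def S8c_W (α X Y : ℝ) : Prop := 0 < Y ∧ 0 < X * sin α - Y * cos α

theorem S8c_period (α : ℝ) (h0 : 0 < α) (h1 : α < π) (φ : ℝ) :
    volume {t : ℝ | t ∈ Ioo (-π) π ∧ 0 < sin (φ + t) ∧ 0 < sin (α - (φ + t))} ≤
      ENNReal.ofReal α := by
  set A : Set ℝ := {x : ℝ | 0 < sin x ∧ 0 < sin (α - x)} with hA
  have hAm : MeasurableSet A := by
    apply MeasurableSet.inter
    · exact measurableSet_lt measurable_const continuous_sin.measurable
    · exact measurableSet_lt measurable_const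
        (continuous_sin.comp (continuous_const.sub continuous_id)).measurable
  have hpi := pi_pos
  have hT : (0:ℝ) < 2 * π := by positivity
  have hper : ∀ (g : AddSubgroup.zmultiples (2 * π)) (x : ℝ),
      A.indicator (fun _ => (1 : ENNReal)) (g +ᵥ x) = A.indicator (fun _ => (1 : ENNReal)) x := by
    rintro ⟨g, hg⟩ x
    obtain ⟨k, hk⟩ := AddSubgroup.mem_zmultiples_iff.mp hg
    have e1 : sin (g + x) = sin x := by
      rw [← hk, zsmul_eq_mul, add_comm]
      exact sin_add_int_mul_two_pi x k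
    have e2 : sin (α - (g + x)) = sin (α - x) := by
      have : α - (g + x) = (α - x) - k * (2 * π) := by
        rw [← hk, zsmul_eq_mul]
        ring
      rw [this]
      exact sin_sub_int_mul_two_pi (α - x) k
    have e3 : (g + x ∈ A) ↔ x ∈ A := by
      show (0 < sin (g + x) ∧ 0 < sin (α - (g + x))) ↔ _
      rw [e1, e2]
      exact Iff.rfl
    show A.indicator (fun _ => (1 : ENNReal)) (g + x) = _
    by_cases h : x ∈ A
    · rw [Set.indicator_of_mem h, Set.indicator_of_mem (e3.mpr h)]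
    · rw [Set.indicator_of_notMem h, Set.indicator_of_notMem (fun h' => h (e3.mp h'))]
  have hF := (isAddFundamentalDomain_Ioc hT (φ - π) volume).setLIntegral_eq
    (isAddFundamentalDomain_Ioc hT (-π) volume) _ hper
  have e4 : ∫⁻ x in Ioc (φ - π) (φ - π + 2 * π), A.indicator (fun _ => (1 : ENNReal)) x =
      volume (A ∩ Ioc (φ - π) (φ - π + 2 * π)) := by
    rw [lintegral_indicator hAm, Measure.restrict_restrict hAm, setLIntegral_one]
  have e5 : ∫⁻ x in Ioc (-π) (-π + 2 * π), A.indicator (fun _ => (1 : ENNReal)) x =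
      volume (A ∩ Ioc (-π) (-π + 2 * π)) := by
    rw [lintegral_indicator hAm, Measure.restrict_restrict hAm, setLIntegral_one]
  rw [e4, e5] at hF
  have e6 : A ∩ Ioc (-π) (-π + 2 * π) ⊆ Ioo 0 α := by
    rintro x ⟨⟨hx1, hx2⟩, hx3, hx4⟩
    have hx5 : 0 < x := by
      by_contra h
      push Not at h
      have := sin_nonpos_of_nonpos_of_neg_pi_le h hx3.le
      linarith
    refine ⟨hx5, ?_⟩
    by_contra h
    push Not at h
    have := sin_nonpos_of_nonpos_of_neg_pi_le (x := α - x) (by linarith) (by linarith)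
    linarith
  have e7 : volume (A ∩ Ioc (φ - π) (φ - π + 2 * π)) ≤ ENNReal.ofReal α := by
    rw [hF]
    refine (measure_mono e6).trans ?_
    rw [Real.volume_Ioo, sub_zero]
  have e8 : {t : ℝ | t ∈ Ioo (-π) π ∧ 0 < sin (φ + t) ∧ 0 < sin (α - (φ + t))} ⊆
      (fun t => φ + t) ⁻¹' (A ∩ Ioc (φ - π) (φ - π + 2 * π)) := by
    rintro t ⟨ht, h5, h6⟩
    refine ⟨⟨h5, h6⟩, ?_, ?_⟩
    · show φ - π < φ + t
      linarith [ht.1]
    · show φ + t ≤ φ - π + 2 * π
      linarith [ht.2]
  refine (measure_mono e8).trans ?_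
  rw [measure_preimage_add]
  exact e7

theorem S8c_vol (α : ℝ) (h0 : 0 < α) (h1 : α < π) (X Y : ℝ) :
    volume {t : ℝ | t ∈ Ioo (-π) π ∧
      S8c_W α (cos t * X - sin t * Y) (sin t * X + cos t * Y)} ≤ ENNReal.ofReal α := by
  set z : ℂ := ⟨X, Y⟩ with hz
  have hX : X = ‖z‖ * cos (Complex.arg z) := (Complex.norm_mul_cos_arg z).symm
  have hY : Y = ‖z‖ * sin (Complex.arg z) := (Complex.norm_mul_sin_arg z).symm
  refine le_trans (measure_mono ?_) (S8c_period α h0 h1 (Complex.arg z))
  rintro t ⟨ht, h2, h3⟩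
  have e1 : sin t * X + cos t * Y = ‖z‖ * sin (Complex.arg z + t) := by
    rw [sin_add]
    conv_lhs => rw [hX, hY]
    ring
  have e2 : (cos t * X - sin t * Y) * sin α - (sin t * X + cos t * Y) * cos α =
      ‖z‖ * sin (α - (Complex.arg z + t)) := by
    rw [e1, sin_sub, cos_add, sin_add]
    conv_lhs => rw [hX, hY]
    ring
  rw [e1] at h2
  rw [e2] at h3
  exact ⟨ht, pos_of_mul_pos_right h2 (norm_nonneg _), pos_of_mul_pos_right h3 (norm_nonneg _)⟩

/-- rotation about the third coordinate axis -/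
def S8c_rotLin (t : ℝ) : V →ₗ[ℝ] V where
  toFun x := !₂[cos t * x 0 - sin t * x 1, sin t * x 0 + cos t * x 1, x 2]
  map_add' x y := by
    ext i
    fin_cases i <;> simp <;> ring
  map_smul' r x := by
    ext i
    fin_cases i <;> simp <;> ring

def S8c_rot (t : ℝ) : V ≃ₗᵢ[ℝ] V :=
  LinearIsometry.toLinearIsometryEquiv
    { S8c_rotLin t with
      norm_map' := by
        intro x
        rw [EuclideanSpace.norm_eq, EuclideanSpace.norm_eq]
        congr 1
        simp only [Fin.sum_univ_three, Real.norm_eq_abs, sq_abs]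
        show (cos t * x 0 - sin t * x 1) ^ 2 + (sin t * x 0 + cos t * x 1) ^ 2 + x 2 ^ 2 = _
        have := sin_sq_add_cos_sq t
        have e1 : (cos t * x 0 - sin t * x 1) ^ 2 + (sin t * x 0 + cos t * x 1) ^ 2 + x 2 ^ 2 =
          (sin t ^ 2 + cos t ^ 2) * (x 0 ^ 2 + x 1 ^ 2) + x 2 ^ 2 := by ring
        rw [e1, this]
        ring } rfl

theorem S8c_rot_apply (t : ℝ) (x : V) :
    S8c_rot t x = !₂[cos t * x 0 - sin t * x 1, sin t * x 0 + cos t * x 1, x 2] := rfl

/-- BLOCK S8c: fraction of the circle. `R f` = rotation by the angle `f` about the axis `nu a b`; if the segment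
`uv` meets the plane of `a, b` in a point `y ≠ 0` then `{f ∈ (-π,π) : R f y ∈ Wall a b}` has measure `angle a b`. Averaging
`∫∫ g(u,v) 1[meets a b u v]` over `R f` (S1a, `g` invariant under rotations about `n = nu a b`) gives the factor
`angle a b/(2π)`. -/
theorem S8c (a b : V) (hab : cr a b ≠ 0) (g : V → V → ENNReal) (hg : Measurable (fun z : V × V => g z.1 z.2))
    (hinv : ∀ f : V ≃ₗᵢ[ℝ] V, f (nu a b) = nu a b → ∀ u v, g (f u) (f v) = g u v) :
    ∫⁻ u, ∫⁻ v in {v | meets a b u v}, g u v ∂sph ∂sph ≤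
      ENNReal.ofReal (InnerProductGeometry.angle a b / (2 * π)) *
        ∫⁻ u, ∫⁻ v in {v | sep (nu a b) u v}, g u v ∂sph ∂sph := by
  set n : V := nu a b with hn
  set α : ℝ := InnerProductGeometry.angle a b with hα
  have hpi := pi_pos
  -- basic facts
  have hcr : 0 < ‖cr a b‖ := norm_pos_iff.mpr hab
  have ha0 : a ≠ 0 := by
    intro h
    apply hab
    rw [h]
    ext i
    fin_cases i <;> simp [cr]
  have hb0 : b ≠ 0 := by
    intro h
    apply hab
    rw [h]
    ext i
    fin_cases i <;> simp [cr]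
  have han : 0 < ‖a‖ := norm_pos_iff.mpr ha0
  have hbn : 0 < ‖b‖ := norm_pos_iff.mpr hb0
  have hacr : inner ℝ a (cr a b) = 0 := by
    have := ip_def a (cr a b)
    show ip a (cr a b) = 0
    rw [this]
    simp
    ring
  have hbcr : inner ℝ b (cr a b) = 0 := by
    have := ip_def b (cr a b)
    show ip b (cr a b) = 0
    rw [this]
    simp
    ring
  -- component of b orthogonal to a
  set a' : V := ‖a‖⁻¹ • a with ha'
  set w : V := b - (inner ℝ a' b) • a' with hw
  have haa : inner ℝ a' a' = (1:ℝ) := by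
    rw [real_inner_self_eq_norm_sq, ha', norm_smul, norm_inv, norm_norm,
      inv_mul_cancel₀ han.ne', one_pow]
  have haw : inner ℝ a' w = (0:ℝ) := by
    rw [hw, inner_sub_right, inner_smul_right, haa]
    ring
  have haeq : a = ‖a‖ • a' := by
    rw [ha', smul_smul, mul_inv_cancel₀ han.ne', one_smul]
  have hw0 : w ≠ 0 := by
    intro h
    apply hab
    have h2 : b = (inner ℝ a' b * ‖a‖⁻¹) • a := by
      have : b = (inner ℝ a' b) • a' := sub_eq_zero.mp (hw ▸ h)
      conv_lhs => rw [this]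
      rw [ha', smul_smul]
    rw [h2]
    ext i
    fin_cases i <;> simp [cr] <;> ring
  have hwn : 0 < ‖w‖ := norm_pos_iff.mpr hw0
  have hab' : inner ℝ a' b = ‖b‖ * cos α := by
    rw [hα, InnerProductGeometry.cos_angle, ha', inner_smul_left]
    simp only [conj_trivial]
    field_simp
  have hwb : inner ℝ w b = ‖w‖ ^ 2 := by
    have : b = w + (inner ℝ a' b) • a' := by rw [hw]; simp
    rw [← real_inner_self_eq_norm_sq]
    conv_lhs => rw [this]
    rw [inner_add_right, inner_smul_right, real_inner_comm a' w, haw]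
    ring
  have hwsq : ‖w‖ ^ 2 = (‖b‖ * sin α) ^ 2 := by
    rw [← hwb, hw, inner_sub_left, inner_smul_left, real_inner_self_eq_norm_sq, hab']
    simp only [conj_trivial]
    have := sin_sq_add_cos_sq α
    have e1 : (‖b‖ * sin α) ^ 2 = ‖b‖ ^ 2 * (1 - cos α ^ 2) := by
      have : sin α ^ 2 = 1 - cos α ^ 2 := by linarith
      rw [mul_pow, this]
    rw [e1]
    ring
  have hsin0 : 0 ≤ sin α :=
    sin_nonneg_of_nonneg_of_le_pi (InnerProductGeometry.angle_nonneg _ _)
      (InnerProductGeometry.angle_le_pi _ _)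
  have hwb2 : ‖w‖ = ‖b‖ * sin α :=
    (pow_left_inj₀ hwn.le (mul_nonneg hbn.le hsin0) two_ne_zero).mp hwsq
  have hsin : 0 < sin α := by
    rcases hsin0.lt_or_eq with h | h
    · exact h
    · rw [← h, mul_zero] at hwb2
      exact absurd hwb2 hwn.ne'
  have hα0 : 0 < α := by
    rcases (InnerProductGeometry.angle_nonneg a b).lt_or_eq with h | h
    · exact h
    · exfalso
      rw [hα, ← h, sin_zero] at hsin
      exact lt_irrefl _ hsin
  have hα1 : α < π := by
    rcases (InnerProductGeometry.angle_le_pi a b).lt_or_eq with h | h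
    · exact h
    · exfalso
      rw [hα, h, sin_pi] at hsin
      exact lt_irrefl _ hsin
  -- orthonormal basis
  have hnn : inner ℝ n n = (1:ℝ) := by
    rw [real_inner_self_eq_norm_sq, hn, nu, norm_smul, norm_inv, norm_norm,
      inv_mul_cancel₀ hcr.ne', one_pow]
  have han' : inner ℝ a' n = (0:ℝ) := by
    rw [ha', hn, nu, inner_smul_left, inner_smul_right, hacr]
    simp
  have hwcr : inner ℝ w n = (0:ℝ) := by
    rw [hw, inner_sub_left, inner_smul_left, han', hn, nu, inner_smul_right, hbcr]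
    simp
  have hww : inner ℝ (‖w‖⁻¹ • w) (‖w‖⁻¹ • w) = (1:ℝ) := by
    rw [real_inner_self_eq_norm_sq, norm_smul, norm_inv, norm_norm,
      inv_mul_cancel₀ hwn.ne', one_pow]
  have hon : Orthonormal ℝ (Set.domRestrict ({0, 1, 2} : Set (Fin 3))
      (![a', ‖w‖⁻¹ • w, n] : Fin 3 → V)) := by
    rw [orthonormal_iff_ite]
    have h01 : inner ℝ a' (‖w‖⁻¹ • w) = (0:ℝ) := by rw [inner_smul_right, haw, mul_zero]
    have h12 : inner ℝ (‖w‖⁻¹ • w) n = (0:ℝ) := by rw [inner_smul_left, hwcr, mul_zero]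
    rintro ⟨i, hi⟩ ⟨j, hj⟩
    have hi' : i = 0 ∨ i = 1 ∨ i = 2 := hi
    have hj' : j = 0 ∨ j = 1 ∨ j = 2 := hj
    rcases hi' with rfl | rfl | rfl <;> rcases hj' with rfl | rfl | rfl
    · rw [if_pos rfl]
      exact haa
    · rw [if_neg (by simp)]
      exact h01
    · rw [if_neg (by simp)]
      exact han'
    · rw [if_neg (by simp)]
      have := h01
      rw [real_inner_comm] at this
      exact this
    · rw [if_pos rfl]
      exact hww
    · rw [if_neg (by simp)]
      exact h12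
    · rw [if_neg (by simp)]
      have := han'
      rw [real_inner_comm] at this
      exact this
    · rw [if_neg (by simp)]
      have := h12
      rw [real_inner_comm] at this
      exact this
    · rw [if_pos rfl]
      exact hnn
  obtain ⟨B, hB⟩ := hon.exists_orthonormalBasis_extension_of_card_eq (by simp)
  have hB0 : B 0 = a' := hB 0 (by simp)
  have hB1 : B 1 = ‖w‖⁻¹ • w := hB 1 (by simp)
  have hB2 : B 2 = n := hB 2 (by simp)
  set E : V ≃ₗᵢ[ℝ] V := B.repr with hE
  have hE2 : ∀ x : V, E x 2 = ip n x := by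
    intro x
    rw [hE, B.repr_apply_apply, hB2]
  have hEa : E a 0 = ‖a‖ ∧ E a 1 = 0 ∧ E a 2 = 0 := by
    refine ⟨?_, ?_, ?_⟩
    · rw [hE, B.repr_apply_apply, hB0]
      conv_lhs => rw [haeq]
      rw [inner_smul_right, haa, mul_one]
    · rw [hE, B.repr_apply_apply, hB1]
      conv_lhs => rw [haeq]
      rw [inner_smul_right, inner_smul_left, real_inner_comm, haw]
      simp
    · rw [hE, B.repr_apply_apply, hB2]
      conv_lhs => rw [haeq]
      rw [inner_smul_right, real_inner_comm, han', mul_zero]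
  have hEb : E b 0 = ‖b‖ * cos α ∧ E b 1 = ‖b‖ * sin α ∧ E b 2 = 0 := by
    refine ⟨?_, ?_, ?_⟩
    · rw [hE, B.repr_apply_apply, hB0, hab']
    · rw [hE, B.repr_apply_apply, hB1, inner_smul_left, hwb]
      simp only [conj_trivial]
      rw [← hwb2]
      field_simp
    · rw [hE, B.repr_apply_apply, hB2, hn, nu, inner_smul_left, real_inner_comm, hbcr]
      simp
  -- rotations
  set R : ℝ → (V ≃ₗᵢ[ℝ] V) := fun t => (E.trans (S8c_rot t)).trans E.symm with hR
  have hER : ∀ (t : ℝ) (x : V), E (R t x) = S8c_rot t (E x) := by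
    intro t x
    show E (E.symm (S8c_rot t (E x))) = _
    rw [LinearIsometryEquiv.apply_symm_apply]
  have hRn : ∀ t : ℝ, R t n = n := by
    intro t
    apply E.injective
    rw [hER, S8c_rot_apply]
    have h0 : E n 0 = 0 := by
      rw [hE, B.repr_apply_apply, hB0, han']
    have h1 : E n 1 = 0 := by
      rw [hE, B.repr_apply_apply, hB1, inner_smul_left, hwcr, mul_zero]
    ext i
    fin_cases i
    · simp [h0, h1]
    · simp [h0, h1]
    · simp
  -- the auxiliary vector
  set q : V × V → V := fun z => |E z.1 2| • z.2 + |E z.2 2| • z.1 with hq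
  have hEqi : ∀ (z : V × V) (i : Fin 3), E (q z) i = |E z.1 2| * E z.2 i + |E z.2 2| * E z.1 i := by
    intro z i
    rw [hq]
    simp
  set M : Set (V × V) := {z | E z.1 2 * E z.2 2 < 0 ∧ S8c_W α (E (q z) 0) (E (q z) 1)} with hM
  have hEc : ∀ i : Fin 3, Continuous (fun x : V => E x i) := by
    intro i
    have h1 : Continuous (fun x : V => E x) := E.continuous
    exact (EuclideanSpace.proj i : V →L[ℝ] ℝ).continuous.comp h1
  have hqc : ∀ i : Fin 3, Continuous (fun z : V × V => E (q z) i) := by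
    intro i
    have : (fun z : V × V => E (q z) i) =
        fun z => |E z.1 2| * E z.2 i + |E z.2 2| * E z.1 i := by
      funext z
      exact hEqi z i
    rw [this]
    have h1 := (hEc 2).comp (continuous_fst (X := V) (Y := V))
    have h2 := (hEc 2).comp (continuous_snd (X := V) (Y := V))
    have h3 := (hEc i).comp (continuous_fst (X := V) (Y := V))
    have h4 := (hEc i).comp (continuous_snd (X := V) (Y := V))
    exact (h1.abs.mul h4).add (h2.abs.mul h3)
  have hprodc : Continuous (fun z : V × V => E z.1 2 * E z.2 2) :=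
    ((hEc 2).comp continuous_fst).mul ((hEc 2).comp continuous_snd)
  have hMm : MeasurableSet M := by
    apply MeasurableSet.inter
    · exact measurableSet_lt hprodc.measurable measurable_const
    · apply MeasurableSet.inter
      · exact measurableSet_lt measurable_const (hqc 1).measurable
      · exact measurableSet_lt measurable_const
          (((hqc 0).mul continuous_const).sub ((hqc 1).mul continuous_const)).measurable
  set Sp : Set (V × V) := {z | sep n z.1 z.2} with hSp
  have hSpE : Sp = {z : V × V | E z.1 2 * E z.2 2 < 0} := by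
    ext z
    show ip n z.1 * ip n z.2 < 0 ↔ E z.1 2 * E z.2 2 < 0
    rw [hE2, hE2]
  have hSpm : MeasurableSet Sp := by
    rw [hSpE]
    exact measurableSet_lt hprodc.measurable measurable_const
  -- meets implies M
  have hmeets : ∀ u v : V, ip n u ≠ 0 → meets a b u v → (u, v) ∈ M := by
    rintro u v hu ⟨τ, hτ0, hτ1, l, m, hl, hm, hp⟩
    rw [← hE2] at hu
    have hp2 : ∀ i : Fin 3, E u i + τ * (E v i - E u i) = l * E a i + m * E b i := by
      intro i
      have := congrArg (fun x : V => E x i) hp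
      simpa using this
    have h2 := hp2 2
    rw [hEa.2.2, hEb.2.2] at h2
    have h3 : E v 2 = -((1 - τ) / τ) * E u 2 := by
      field_simp
      linarith
    have h4 : E u 2 * E v 2 < 0 := by
      rw [h3]
      have h5 : 0 < (1 - τ) / τ := div_pos (by linarith) hτ0
      have h6 : 0 < E u 2 ^ 2 := by positivity
      have h7 := mul_pos h5 h6
      have h8 : E u 2 * (-((1 - τ) / τ) * E u 2) = -((1 - τ) / τ * E u 2 ^ 2) := by ring
      rw [h8]
      linarith
    have h9 : |E v 2| = (1 - τ) / τ * |E u 2| := by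
      rw [h3, abs_mul, abs_neg, abs_of_pos (div_pos (by linarith) hτ0)]
    have h10 : ∀ i : Fin 3, E (q (u, v)) i = |E u 2| / τ * (l * E a i + m * E b i) := by
      intro i
      rw [hEqi, ← hp2 i]
      show |E u 2| * E v i + |E v 2| * E u i = _
      rw [h9]
      field_simp
      ring
    have h11 : 0 < |E u 2| / τ := div_pos (abs_pos.mpr hu) hτ0
    refine ⟨h4, ?_, ?_⟩
    · show 0 < E (q (u, v)) 1
      rw [h10, hEa.2.1, hEb.2.1]
      apply mul_pos h11
      have := mul_pos hm (mul_pos hbn hsin)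
      linarith
    · show 0 < E (q (u, v)) 0 * sin α - E (q (u, v)) 1 * cos α
      rw [h10, h10, hEa.2.1, hEb.2.1, hEa.1, hEb.1]
      have h12 : |E u 2| / τ * (l * ‖a‖ + m * (‖b‖ * cos α)) * sin α -
          |E u 2| / τ * (l * 0 + m * (‖b‖ * sin α)) * cos α =
          |E u 2| / τ * (l * ‖a‖ * sin α) := by ring
      rw [h12]
      positivity
  -- the integral over M
  set G : V × V → ENNReal := fun z => g z.1 z.2 with hG
  set J : ENNReal := ∫⁻ z, M.indicator G z ∂(sph.prod sph) with hJ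
  have hGM : Measurable (M.indicator G) := hg.indicator hMm
  have hLJ : ∫⁻ u, ∫⁻ v in {v | meets a b u v}, g u v ∂sph ∂sph ≤ J := by
    rw [hJ, lintegral_prod _ hGM.aemeasurable]
    apply lintegral_mono_ae
    have hae : ∀ᵐ u ∂sph, ip n u ≠ 0 := by
      have hn0 : n ≠ 0 := by
        intro h
        rw [h, inner_zero_left] at hnn
        exact zero_ne_one hnn
      have := S1d n hn0
      rw [ae_iff]
      simpa using this
    filter_upwards [hae] with u hu
    have hMu : MeasurableSet {v : V | (u, v) ∈ M} := measurable_prodMk_left hMm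
    calc ∫⁻ v in {v | meets a b u v}, g u v ∂sph
        ≤ ∫⁻ v in {v | (u, v) ∈ M}, g u v ∂sph := lintegral_mono_set (hmeets u · hu)
      _ = ∫⁻ v, M.indicator G (u, v) ∂sph := by
          rw [← lintegral_indicator hMu]
          apply lintegral_congr
          intro v
          by_cases h : (u, v) ∈ M
          · rw [Set.indicator_of_mem h, Set.indicator_of_mem (show v ∈ {v | (u, v) ∈ M} from h)]
          · rw [Set.indicator_of_notMem h,
              Set.indicator_of_notMem (show v ∉ {v | (u, v) ∈ M} from h)]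
  -- the rotated set
  set Mt : Set (ℝ × (V × V)) := {p | E p.2.1 2 * E p.2.2 2 < 0 ∧
    S8c_W α (cos p.1 * E (q p.2) 0 - sin p.1 * E (q p.2) 1)
      (sin p.1 * E (q p.2) 0 + cos p.1 * E (q p.2) 1)} with hMt
  have hMR : ∀ (t : ℝ) (z : V × V), Prod.map (R t) (R t) z ∈ M ↔ (t, z) ∈ Mt := by
    intro t z
    have h2 : ∀ x : V, E (R t x) 2 = E x 2 := by
      intro x
      rw [hER, S8c_rot_apply]
      rfl
    have hqR : q (Prod.map (R t) (R t) z) = R t (q z) := by
      show |E (R t z.1) 2| • R t z.2 + |E (R t z.2) 2| • R t z.1 =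
        R t (|E z.1 2| • z.2 + |E z.2 2| • z.1)
      rw [h2, h2, map_add, map_smul, map_smul]
    show (E (R t z.1) 2 * E (R t z.2) 2 < 0 ∧ S8c_W α (E (q (Prod.map (R t) (R t) z)) 0)
      (E (q (Prod.map (R t) (R t) z)) 1)) ↔ (E z.1 2 * E z.2 2 < 0 ∧
      S8c_W α (cos t * E (q z) 0 - sin t * E (q z) 1) (sin t * E (q z) 0 + cos t * E (q z) 1))
    rw [hqR, h2, h2, hER, S8c_rot_apply]
    exact Iff.rfl
  have hMtm : MeasurableSet Mt := by
    have c0 : Continuous (fun p : ℝ × (V × V) => E (q p.2) 0) := (hqc 0).comp continuous_snd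
    have c1 : Continuous (fun p : ℝ × (V × V) => E (q p.2) 1) := (hqc 1).comp continuous_snd
    have cc : Continuous (fun p : ℝ × (V × V) => cos p.1) := continuous_cos.comp continuous_fst
    have cs : Continuous (fun p : ℝ × (V × V) => sin p.1) := continuous_sin.comp continuous_fst
    apply MeasurableSet.inter
    · exact measurableSet_lt (hprodc.comp continuous_snd).measurable measurable_const
    · apply MeasurableSet.inter
      · exact measurableSet_lt measurable_const ((cs.mul c0).add (cc.mul c1)).measurable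
      · exact measurableSet_lt measurable_const
          ((((cc.mul c0).sub (cs.mul c1)).mul continuous_const).sub
            (((cs.mul c0).add (cc.mul c1)).mul continuous_const)).measurable
  have hJt : ∀ t : ℝ, J = ∫⁻ z, Mt.indicator (fun p => G p.2) (t, z) ∂(sph.prod sph) := by
    intro t
    have hmp : MeasurePreserving (Prod.map (R t) (R t)) (sph.prod sph) (sph.prod sph) :=
      (S1a (R t)).prod (S1a (R t))
    rw [hJ, ← hmp.lintegral_comp hGM]
    apply lintegral_congr
    intro z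
    have hGz : G (Prod.map (R t) (R t) z) = G z := hinv (R t) (hRn t) z.1 z.2
    by_cases h : (t, z) ∈ Mt
    · rw [Set.indicator_of_mem h, Set.indicator_of_mem ((hMR t z).mpr h), hGz]
    · rw [Set.indicator_of_notMem h, Set.indicator_of_notMem (fun h' => h ((hMR t z).mp h'))]
  have hav : ENNReal.ofReal (2 * π) * J =
      ∫⁻ t in Ioo (-π) π, ∫⁻ z, Mt.indicator (fun p => G p.2) (t, z) ∂(sph.prod sph) := by
    have e1 : ∫⁻ t in Ioo (-π) π, ∫⁻ z, Mt.indicator (fun p => G p.2) (t, z) ∂(sph.prod sph) =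
        ∫⁻ _t in Ioo (-π) π, J := lintegral_congr (fun t => (hJt t).symm)
    rw [e1, setLIntegral_const, Real.volume_Ioo, mul_comm]
    congr 2
    ring
  have hGMt : Measurable (Mt.indicator (fun p => G p.2)) :=
    (hg.comp measurable_snd).indicator hMtm
  have hswap : ∫⁻ t in Ioo (-π) π, ∫⁻ z, Mt.indicator (fun p => G p.2) (t, z) ∂(sph.prod sph) =
      ∫⁻ z, (∫⁻ t in Ioo (-π) π, Mt.indicator (fun p => G p.2) (t, z)) ∂(sph.prod sph) :=
    lintegral_lintegral_swap (μ := volume.restrict (Ioo (-π) π)) (ν := sph.prod sph)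
      (f := fun (t : ℝ) (z : V × V) => Mt.indicator (fun p => G p.2) (t, z))
      (hGMt.aemeasurable)
  rw [hswap] at hav
  have hK : ∫⁻ u, ∫⁻ v in {v | sep n u v}, g u v ∂sph ∂sph =
      ∫⁻ z, Sp.indicator G z ∂(sph.prod sph) := by
    rw [lintegral_prod _ (hg.indicator hSpm).aemeasurable]
    apply lintegral_congr
    intro u
    have hSu : MeasurableSet {v : V | sep n u v} := measurable_prodMk_left hSpm
    rw [← lintegral_indicator hSu]
    rfl
  have hbound : ENNReal.ofReal (2 * π) * J ≤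
      ENNReal.ofReal α * ∫⁻ z, Sp.indicator G z ∂(sph.prod sph) := by
    rw [hav, ← lintegral_const_mul _ (hg.indicator hSpm)]
    apply lintegral_mono
    intro z
    show ∫⁻ t in Ioo (-π) π, Mt.indicator (fun p => G p.2) (t, z) ≤
      ENNReal.ofReal α * Sp.indicator G z
    by_cases h : z ∈ Sp
    · rw [Set.indicator_of_mem h]
      have hTm : MeasurableSet {t : ℝ | (t, z) ∈ Mt} := measurable_prodMk_right hMtm
      have e1 : ∫⁻ t in Ioo (-π) π, Mt.indicator (fun p => G p.2) (t, z) =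
          ∫⁻ t in Ioo (-π) π, {t : ℝ | (t, z) ∈ Mt}.indicator (fun _ => G z) t := rfl
      rw [e1, lintegral_indicator hTm, Measure.restrict_restrict hTm, setLIntegral_const,
        mul_comm]
      gcongr
      refine le_trans (measure_mono ?_) (S8c_vol α hα0 hα1 (E (q z) 0) (E (q z) 1))
      rintro t ⟨ht1, ht2⟩
      exact ⟨ht2, ht1.2⟩
    · rw [Set.indicator_of_notMem h, mul_zero]
      have e1 : ∀ t : ℝ, Mt.indicator (fun p => G p.2) (t, z) = 0 := by
        intro t
        apply Set.indicator_of_notMem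
        intro h'
        apply h
        rw [hSpE]
        exact h'.1
      simp [e1]
  rw [hK]
  refine hLJ.trans ?_
  have h2π : ENNReal.ofReal (2 * π) ≠ 0 := by
    rw [ne_eq, ENNReal.ofReal_eq_zero, not_le]
    positivity
  rw [ENNReal.ofReal_div_of_pos (by positivity), ← ENNReal.mul_div_right_comm,
    ENNReal.le_div_iff_mul_le (Or.inl h2π) (Or.inl ENNReal.ofReal_ne_top), mul_comm]
  exact hbound

theorem S8_nu_norm {a b : V} (hab : cr a b ≠ 0) : ‖nu a b‖ = 1 := by
  unfold nu
  rw [norm_smul, norm_inv, norm_norm, inv_mul_cancel₀ (norm_ne_zero_iff.mpr hab)]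

/-- BLOCK S8: from S8b, S8c. -/
theorem S8 (N : ℕ) (a b : V) (hab : cr a b ≠ 0) (ε : ℝ) (hε : 0 ≤ ε) :
    ∫⁻ u, ∫⁻ v in {v | meets a b u v},
      ENNReal.ofReal (kN N u v * (‖v - u‖ ^ 2 + ε * ‖v - u‖) / |ip (nu a b) (v - u)|) ∂sph ∂sph ≤
      ENNReal.ofReal (InnerProductGeometry.angle a b *
        (4 * (N + 1) / ((N + 1 / 2) * (N + 3 / 2)) + 4 * ε)) := by
  have hpi := Real.pi_pos
  have hm0 : Measurable (fun z : V × V => S8b_F N ε (nu a b) z.1 z.2) :=
    S8b_F_meas' N ε measurable_const measurable_fst measurable_snd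
  have hm : Measurable (fun z : V × V => ENNReal.ofReal (S8b_F N ε (nu a b) z.1 z.2)) :=
    hm0.ennreal_ofReal
  have hinv : ∀ f : V ≃ₗᵢ[ℝ] V, f (nu a b) = nu a b → ∀ u v,
      ENNReal.ofReal (S8b_F N ε (nu a b) (f u) (f v)) = ENNReal.ofReal (S8b_F N ε (nu a b) u v) := by
    intro f hf u v
    congr 1
    nth_rewrite 1 [← hf]
    unfold S8b_F kN
    rw [S8b_ip_map, ← map_sub, S8b_ip_map, f.norm_map]
  have h1 := S8c a b hab (fun u v => ENNReal.ofReal (S8b_F N ε (nu a b) u v)) hm hinv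
  have h2 := S8b N (nu a b) (S8_nu_norm hab) ε hε
  have hang : 0 ≤ InnerProductGeometry.angle a b := InnerProductGeometry.angle_nonneg a b
  calc ∫⁻ u, ∫⁻ v in {v | meets a b u v},
      ENNReal.ofReal (kN N u v * (‖v - u‖ ^ 2 + ε * ‖v - u‖) / |ip (nu a b) (v - u)|) ∂sph ∂sph
      ≤ ENNReal.ofReal (InnerProductGeometry.angle a b / (2 * π)) *
        ∫⁻ u, ∫⁻ v in {v | sep (nu a b) u v}, ENNReal.ofReal (S8b_F N ε (nu a b) u v) ∂sph ∂sph := h1
    _ ≤ ENNReal.ofReal (InnerProductGeometry.angle a b / (2 * π)) *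
        ENNReal.ofReal (4 * π * (2 * (N + 1) / ((N + 1 / 2) * (N + 3 / 2)) + 2 * ε)) :=
        mul_le_mul_right h2 _
    _ = ENNReal.ofReal (InnerProductGeometry.angle a b *
        (4 * (N + 1) / ((N + 1 / 2) * (N + 3 / 2)) + 4 * ε)) := by
        rw [← ENNReal.ofReal_mul (by positivity)]
        congr 1
        field_simp

end Iso
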