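import Pool.Agent.Lib_helper3.Iso.G2
import Pool.Agent.Lib_helper3.Iso.G5
import Pool.Agent.Lib_helper3.Iso.S8
noncomputable section
namespace Iso
open MeasureTheory Real Set

/-- generic position of a segment with respect to `X` -/
structure Gen (X : Finset V) (u v : V) : Prop where
  u0 : u ≠ 0
  v0 : v ≠ 0
  pu : ∀ a ∈ X, ∀ b ∈ X, cr a b ≠ 0 → det3 a b u ≠ 0
  pv : ∀ a ∈ X, ∀ b ∈ X, cr a b ≠ 0 → det3 a b v ≠ 0
  par : ∀ a ∈ X, ∀ b ∈ X, cr a b ≠ 0 → det3 a b (v - u) ≠ 0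
  ray : ∀ a ∈ X, ∀ τ : ℝ, ∀ l : ℝ, u + τ • (v - u) ≠ l • a
  zero : ∀ τ : ℝ, u + τ • (v - u) ≠ 0

theorem E1_det (a b u d : V) (τ : ℝ) : det3 a b (u + τ • d) = det3 a b u + τ * det3 a b d := by
  simp only [det3, ip_add_right, ip_smul_right]

theorem E1_det_wall (a b : V) (l m : ℝ) : det3 a b (l • a + m • b) = 0 := by
  rw [det3_def]; simp; ring

/-- a wall does not meet the interior of a cone -/
theorem E1_wall {X : Finset V} (hX : GP X) {t r : Tr} (ht : t ∈ T X) (hr : r ∈ T X) {y : V}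
    (hy : y ∈ Cone t) : y ∉ Wall r.1 r.2.1 := by
  rintro ⟨l, m, hl, hm, rfl⟩
  have h1 : ip (P t) (l • r.1 + m • r.2.1) ≤ ip (P r) (l • r.1 + m • r.2.1) := by
    rw [ip_add_right, ip_add_right, ip_smul_right, ip_smul_right, ip_smul_right, ip_smul_right,
      ip_P_1 hr, ip_P_2 hr]
    have e1 := ip_P_le ht (mem_T.1 hr).1.1
    have e2 := ip_P_le ht (mem_T.1 hr).1.2.1
    nlinarith
  have h3 : r = t ∨ r = rot t ∨ r = rot (rot t) := by
    by_contra hc
    push Not at hc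
    have := G5b hX ht hr hy hc.1 hc.2.1 hc.2.2
    linarith
  have h4 : Cone r = Cone t := by
    rcases h3 with h | h | h
    · rw [h]
    · rw [h, Cone_rot]
    · rw [h, Cone_rot, Cone_rot]
  rw [← h4] at hy
  have := hy.1
  rw [E1_det_wall] at this
  exact lt_irrefl _ this

theorem E1_twin_eq {X : Finset V} (hX : GP X) {r t : Tr} (hr : r ∈ T X) (ht : t ∈ T X)
    (h1 : r.1 = t.2.1) (h2 : r.2.1 = t.1) : r = twin X t := by
  have e1 := twin_1 hX ht
  have e2 := twin_2 hX ht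
  have h3 := twin_mem hX ht
  generalize twin X t = w at *
  obtain ⟨a, b, c⟩ := r
  obtain ⟨a', b', c'⟩ := w
  simp only at h1 h2 e1 e2
  subst h1 h2 e1 e2
  rw [third_unique hX hr h3]

/-- two walls which share a point -/
theorem E1_same {X : Finset V} (hX : GP X) {t r : Tr} (ht : t ∈ T X) (hr : r ∈ T X) {y : V}
    (hy : y ∈ Wall t.1 t.2.1) (hy' : y ∈ Wall r.1 r.2.1) (hr0 : ∀ a ∈ X, ∀ l : ℝ, y ≠ l • a) :
    r = t ∨ r = twin X t := by
  obtain ⟨l, m, hl, hm, e⟩ := hy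
  obtain ⟨l', m', hl', hm', e'⟩ := hy'
  have v1 : ip (P t) y = l + m := by
    rw [e, ip_add_right, ip_smul_right, ip_smul_right, ip_P_1 ht, ip_P_2 ht]; ring
  have v2 : ip (P r) y = l' + m' := by
    rw [e', ip_add_right, ip_smul_right, ip_smul_right, ip_P_1 hr, ip_P_2 hr]; ring
  have v3 : ip (P t) y = l' * ip (P t) r.1 + m' * ip (P t) r.2.1 := by
    rw [e', ip_add_right, ip_smul_right, ip_smul_right]
  have v4 : ip (P r) y = l * ip (P r) t.1 + m * ip (P r) t.2.1 := by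
    rw [e, ip_add_right, ip_smul_right, ip_smul_right]
  have b1 := ip_P_le ht (mem_T.1 hr).1.1
  have b2 := ip_P_le ht (mem_T.1 hr).1.2.1
  have b3 := ip_P_le hr (mem_T.1 ht).1.1
  have b4 := ip_P_le hr (mem_T.1 ht).1.2.1
  have q1 : 0 ≤ l * (1 - ip (P r) t.1) := mul_nonneg hl.le (by linarith)
  have q2 : 0 ≤ m * (1 - ip (P r) t.2.1) := mul_nonneg hm.le (by linarith)
  have q3 : 0 ≤ l' * (1 - ip (P t) r.1) := mul_nonneg hl'.le (by linarith)
  have q4 : 0 ≤ m' * (1 - ip (P t) r.2.1) := mul_nonneg hm'.le (by linarith)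
  have z1 : l * (1 - ip (P r) t.1) = 0 := by nlinarith
  have z2 : m * (1 - ip (P r) t.2.1) = 0 := by nlinarith
  have w1 : ip (P r) t.1 = 1 := by
    have := (mul_eq_zero.1 z1).resolve_left hl.ne'; linarith
  have w2 : ip (P r) t.2.1 = 1 := by
    have := (mul_eq_zero.1 z2).resolve_left hm.ne'; linarith
  have s1 : t.1 = r.1 ∨ t.1 = r.2.1 ∨ t.1 = r.2.2 := by
    by_contra hc
    push Not at hc
    have := strict hX hr (mem_T.1 ht).1.1 hc.1 hc.2.1 hc.2.2
    linarith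
  have s2 : t.2.1 = r.1 ∨ t.2.1 = r.2.1 ∨ t.2.1 = r.2.2 := by
    by_contra hc
    push Not at hc
    have := strict hX hr (mem_T.1 ht).1.2.1 hc.1 hc.2.1 hc.2.2
    linarith
  have hDr : 0 < Dt r := T_pos hr
  obtain ⟨a, b, c⟩ := r
  simp only at *
  -- the third vertex does not occur
  have hc0 : det3 a b y = 0 := by rw [e']; exact E1_det_wall _ _ _ _
  have hDr' : 0 < det3 a b c := hDr
  have hcc : ∀ l1 m1 : ℝ, 0 < m1 → ∀ x ∈ ({a, b, c} : Set V), y = l1 • x + m1 • c → False := by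
    intro l1 m1 hm1 x hx hy1
    have : det3 a b y = l1 * det3 a b x + m1 * det3 a b c := by
      rw [hy1]; simp only [det3, ip_add_right, ip_smul_right]
    rcases hx with rfl | rfl | rfl
    · have e0 : det3 x b x = 0 := by rw [det3_def]; ring
      rw [e0] at this; nlinarith
    · have e0 : det3 a x x = 0 := by rw [det3_def]; ring
      rw [e0] at this; nlinarith
    · have h9 : y = (l1 + m1) • x := by rw [hy1]; module
      exact hr0 x (mem_T.1 hr).1.2.2 _ h9
  have hne : t.1 ≠ t.2.1 := by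
    intro h
    have h9 : y = (l + m) • t.1 := by rw [e, ← h]; module
    exact hr0 _ (mem_T.1 ht).1.1 _ h9
  have n1 : t.1 ≠ c := by
    intro h
    have hy1 : y = m • t.2.1 + l • c := by rw [e, h]; module
    exact hcc m l hl t.2.1 (by simpa using s2) hy1
  have n2 : t.2.1 ≠ c := by
    intro h
    have hy1 : y = l • t.1 + m • c := by rw [e, h]
    exact hcc l m hm t.1 (by simpa using s1) hy1
  obtain ⟨a', b', c'⟩ := t
  simp only at *
  rcases s1 with s1 | s1 | s1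
  · rcases s2 with s2 | s2 | s2
    · exact absurd (s1.trans s2.symm) hne
    · left
      subst s1 s2
      rw [third_unique hX hr ht]
    · exact absurd s2 n2
  · rcases s2 with s2 | s2 | s2
    · right
      exact E1_twin_eq hX hr ht s2.symm s1.symm
    · exact absurd (s1.trans s2.symm) hne
    · exact absurd s2 n2
  · exact absurd s1 n1

/-- the walls met after the parameter `σ` -/
def E1_met (t : Tr) (u d : V) (σ : ℝ) : Prop := ∃ τ : ℝ, σ < τ ∧ τ < 1 ∧ u + τ • d ∈ Wall t.1 t.2.1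

/-- the first exit from a cone -/
theorem E1_exit {X : Finset V} {t : Tr} (ht : t ∈ T X) {u d : V} {σ : ℝ} (hσ : σ < 1)
    (h0 : u + σ • d ∈ Cone t) (h1 : u + (1 : ℝ) • d ∉ Cone t)
    (hp : ∀ a ∈ X, ∀ b ∈ X, cr a b ≠ 0 → det3 a b (u + (1 : ℝ) • d) ≠ 0)
    (hr : ∀ a ∈ X, ∀ τ : ℝ, ∀ l : ℝ, u + τ • d ≠ l • a) :
    ∃ t' ∈ T X, (t' = t ∨ t' = rot t ∨ t' = rot (rot t)) ∧ ∃ τ, σ < τ ∧ τ < 1 ∧
      det3 t'.1 t'.2.1 (u + τ • d) = 0 ∧ 0 < det3 t'.2.1 t'.2.2 (u + τ • d) ∧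
      0 < det3 t'.2.2 t'.1 (u + τ • d) := by
  obtain ⟨a, b, c⟩ := t
  have hD : 0 < det3 a b c := T_pos ht
  obtain ⟨⟨ha, hb, hc⟩, -⟩ := mem_T.1 ht
  simp only at ha hb hc
  have cab : cr a b ≠ 0 := by
    intro h; rw [det3, h] at hD; simp [ip] at hD
  have cbc : cr b c ≠ 0 := by
    intro h; rw [← det3_rot, det3, h] at hD; simp [ip] at hD
  have cca : cr c a ≠ 0 := by
    intro h; rw [← det3_rot, ← det3_rot, det3, h] at hD; simp [ip] at hD
  obtain ⟨p1, p2, p3⟩ := h0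
  simp only at p1 p2 p3
  set F : ℝ → ℝ := fun τ => min (det3 a b (u + τ • d))
    (min (det3 b c (u + τ • d)) (det3 c a (u + τ • d))) with hF
  have hc1 : Continuous F := by
    simp only [hF, E1_det]
    fun_prop
  have F0 : 0 < F σ := lt_min p1 (lt_min p2 p3)
  have F1 : F 1 < 0 := by
    by_contra hcon
    push Not at hcon
    have g1 : 0 ≤ det3 a b (u + (1 : ℝ) • d) := hcon.trans (min_le_left _ _)
    have g2 : 0 ≤ det3 b c (u + (1 : ℝ) • d) :=
      hcon.trans ((min_le_right _ _).trans (min_le_left _ _))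
    have g3 : 0 ≤ det3 c a (u + (1 : ℝ) • d) :=
      hcon.trans ((min_le_right _ _).trans (min_le_right _ _))
    exact h1 ⟨lt_of_le_of_ne g1 (hp a ha b hb cab).symm, lt_of_le_of_ne g2 (hp b hb c hc cbc).symm,
      lt_of_le_of_ne g3 (hp c hc a ha cca).symm⟩
  obtain ⟨τ, hτ, hτ0⟩ := intermediate_value_Icc' hσ.le hc1.continuousOn ⟨F1.le, F0.le⟩
  have t1 : σ < τ := by
    rcases hτ.1.eq_or_lt with h | h
    · rw [← h] at hτ0; linarith
    · exact h
  have t2 : τ < 1 := by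
    rcases hτ.2.eq_or_lt with h | h
    · rw [h] at hτ0; linarith
    · exact h
  have g1 : 0 ≤ det3 a b (u + τ • d) := hτ0 ▸ min_le_left _ _
  have g2 : 0 ≤ det3 b c (u + τ • d) := hτ0 ▸ (min_le_right _ _).trans (min_le_left _ _)
  have g3 : 0 ≤ det3 c a (u + τ • d) := hτ0 ▸ (min_le_right _ _).trans (min_le_right _ _)
  have hex := expand hD.ne' (u + τ • d)
  have n12 : ¬ (det3 a b (u + τ • d) = 0 ∧ det3 b c (u + τ • d) = 0) := by
    rintro ⟨h1, h2⟩
    rw [h1, h2] at hex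
    exact hr b hb τ (det3 c a (u + τ • d) / det3 a b c) (hex.trans (by simp))
  have n23 : ¬ (det3 b c (u + τ • d) = 0 ∧ det3 c a (u + τ • d) = 0) := by
    rintro ⟨h1, h2⟩
    rw [h1, h2] at hex
    exact hr c hc τ (det3 a b (u + τ • d) / det3 a b c) (hex.trans (by simp))
  have n13 : ¬ (det3 a b (u + τ • d) = 0 ∧ det3 c a (u + τ • d) = 0) := by
    rintro ⟨h1, h2⟩
    rw [h1, h2] at hex
    exact hr a ha τ (det3 b c (u + τ • d) / det3 a b c) (hex.trans (by simp))
  by_cases z1 : det3 a b (u + τ • d) = 0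
  · exact ⟨(a, b, c), ht, Or.inl rfl, τ, t1, t2, z1,
      lt_of_le_of_ne g2 fun h => n12 ⟨z1, h.symm⟩, lt_of_le_of_ne g3 fun h => n13 ⟨z1, h.symm⟩⟩
  by_cases z2 : det3 b c (u + τ • d) = 0
  · exact ⟨(b, c, a), rot_mem ht, Or.inr (Or.inl rfl), τ, t1, t2, z2,
      lt_of_le_of_ne g3 fun h => n23 ⟨z2, h.symm⟩, lt_of_le_of_ne g1 fun h => z1 h.symm⟩
  have z3 : det3 c a (u + τ • d) = 0 := by
    by_contra z3
    have : 0 < F τ := lt_min (lt_of_le_of_ne g1 (Ne.symm z1))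
      (lt_min (lt_of_le_of_ne g2 (Ne.symm z2)) (lt_of_le_of_ne g3 (Ne.symm z3)))
    rw [hτ0] at this
    exact lt_irrefl _ this
  exact ⟨(c, a, b), rot_mem (rot_mem ht), Or.inr (Or.inr rfl), τ, t1, t2, z3,
      lt_of_le_of_ne g1 (Ne.symm z1), lt_of_le_of_ne g2 (Ne.symm z2)⟩

theorem E1_aff {A B x y z : ℝ} (h1 : 0 < A + x * B) (h2 : 0 < A + y * B) (hx : x ≤ z) (hy : z ≤ y) :
    0 < A + z * B := by
  rcases le_total 0 B with h | h
  · have := mul_le_mul_of_nonneg_right hx h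
    linarith
  · have := mul_le_mul_of_nonpos_right hy h
    linarith

theorem E1_Wall_symm (a b : V) : Wall a b = Wall b a := by
  ext x
  constructor
  · rintro ⟨l, m, hl, hm, h⟩
    exact ⟨m, l, hm, hl, by rw [h, add_comm]⟩
  · rintro ⟨l, m, hl, hm, h⟩
    exact ⟨m, l, hm, hl, by rw [h, add_comm]⟩

theorem E1_nu_symm (a b : V) : nu b a = - nu a b := by
  have h : cr b a = - cr a b := by
    ext i
    fin_cases i <;> simp [cr] <;> ring
  rw [nu, nu, h, norm_neg, smul_neg]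

theorem E1_rots {X : Finset V} {s : Tr → ℝ} (hs : ∀ t ∈ T X, s (rot t) = s t) {t r : Tr}
    (ht : t ∈ T X) (h : r = t ∨ r = rot t ∨ r = rot (rot t)) :
    s r = s t ∧ P r = P t ∧ Cone r = Cone t := by
  rcases h with h | h | h
  · subst h; exact ⟨rfl, rfl, rfl⟩
  · subst h; exact ⟨hs t ht, P_rot t, Cone_rot t⟩
  · subst h
    exact ⟨(hs _ (rot_mem ht)).trans (hs t ht), (P_rot _).trans (P_rot t),
      (Cone_rot _).trans (Cone_rot t)⟩

/-- the geometry of one crossing -/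
theorem E1_step {X : Finset V} (hX : GP X) {t : Tr} (ht : t ∈ T X) {u d : V} {σ τ : ℝ}
    (hστ : σ < τ) (hτ : τ < 1) (h0 : u + σ • d ∈ Cone t)
    (z1 : det3 t.1 t.2.1 (u + τ • d) = 0) (z2 : 0 < det3 t.2.1 t.2.2 (u + τ • d))
    (z3 : 0 < det3 t.2.2 t.1 (u + τ • d)) :
    det3 t.1 t.2.1 d < 0 ∧ u + τ • d ∈ Wall t.1 t.2.1 ∧
    (∀ ρ, σ ≤ ρ → ρ < τ → u + ρ • d ∈ Cone t) ∧
    ∃ σ', τ < σ' ∧ σ' < 1 ∧ ∀ ρ, τ < ρ → ρ ≤ σ' → u + ρ • d ∈ Cone (twin X t) := by
  have hw := twin_mem hX ht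
  have hw1 := twin_1 hX ht
  have hw2 := twin_2 hX ht
  have hDw := T_pos hw
  generalize twin X t = w at *
  obtain ⟨a, b, c⟩ := t
  obtain ⟨b', a', c'⟩ := w
  simp only at hw1 hw2 z1 z2 z3
  subst hw1 hw2
  have hD : 0 < det3 a' b' c := T_pos ht
  have hDw' : 0 < det3 b' a' c' := hDw
  have p1 := h0.1
  have p2 := h0.2.1
  have p3 := h0.2.2
  simp only [E1_det] at p1 p2 p3 z1 z2 z3
  have hd : det3 a' b' d < 0 := by
    have : (τ - σ) * det3 a' b' d < 0 := by linarith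
    by_contra hcon
    push Not at hcon
    have := mul_nonneg (sub_pos.2 hστ).le hcon
    linarith
  have hwall : ∃ l m : ℝ, 0 < l ∧ 0 < m ∧ u + τ • d = l • a' + m • b' := by
    have hex := expand hD.ne' (u + τ • d)
    rw [show det3 a' b' (u + τ • d) = 0 by rw [E1_det]; exact z1] at hex
    refine ⟨det3 b' c (u + τ • d) / det3 a' b' c, det3 c a' (u + τ • d) / det3 a' b' c, ?_, ?_,
      hex.trans (by simp)⟩
    · exact div_pos (by rw [E1_det]; exact z2) hD
    · exact div_pos (by rw [E1_det]; exact z3) hD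
  refine ⟨hd, hwall, ?_, ?_⟩
  · intro ρ h1 h2
    refine ⟨?_, ?_, ?_⟩
    · show 0 < det3 a' b' (u + ρ • d)
      rw [E1_det]
      nlinarith
    · show 0 < det3 b' c (u + ρ • d)
      rw [E1_det]
      exact E1_aff p2 z2 h1 h2.le
    · show 0 < det3 c a' (u + ρ • d)
      rw [E1_det]
      exact E1_aff p3 z3 h1 h2.le
  · obtain ⟨l, m, hl, hm, e⟩ := hwall
    have g2 : 0 < det3 a' c' (u + τ • d) := by
      rw [e]
      have : det3 a' c' (l • a' + m • b') = m * det3 b' a' c' := by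
        simp only [det3_def, PiLp.add_apply, PiLp.smul_apply, smul_eq_mul]; ring
      rw [this]; positivity
    have g3 : 0 < det3 c' b' (u + τ • d) := by
      rw [e]
      have : det3 c' b' (l • a' + m • b') = l * det3 b' a' c' := by
        simp only [det3_def, PiLp.add_apply, PiLp.smul_apply, smul_eq_mul]; ring
      rw [this]; positivity
    rw [E1_det] at g2 g3
    have c2 : Continuous fun ρ : ℝ => det3 a' c' u + ρ * det3 a' c' d := by fun_prop
    have c3 : Continuous fun ρ : ℝ => det3 c' b' u + ρ * det3 c' b' d := by fun_prop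
    have ev2 : ∀ᶠ ρ in nhdsWithin τ (Ioi τ), 0 < det3 a' c' u + ρ * det3 a' c' d :=
      (c2.continuousAt.eventually (lt_mem_nhds g2)).filter_mono nhdsWithin_le_nhds
    have ev3 : ∀ᶠ ρ in nhdsWithin τ (Ioi τ), 0 < det3 c' b' u + ρ * det3 c' b' d :=
      (c3.continuousAt.eventually (lt_mem_nhds g3)).filter_mono nhdsWithin_le_nhds
    have ev4 : ∀ᶠ ρ in nhdsWithin τ (Ioi τ), ρ ∈ Ioo τ 1 := Ioo_mem_nhdsGT hτ
    obtain ⟨σ', k2, k3, k4⟩ := (ev2.and (ev3.and ev4)).exists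
    refine ⟨σ', k4.1, k4.2, ?_⟩
    intro ρ h1 h2
    refine ⟨?_, ?_, ?_⟩
    · show 0 < det3 b' a' (u + ρ • d)
      rw [det3_swap, E1_det]
      nlinarith
    · show 0 < det3 a' c' (u + ρ • d)
      rw [E1_det]
      exact E1_aff g2 k2 h1.le h2
    · show 0 < det3 c' b' (u + ρ • d)
      rw [E1_det]
      exact E1_aff g3 k3 h1.le h2

open Classical in
/-- splitting off the first wall -/
theorem E1_split {X : Finset V} (hX : GP X) {t : Tr} (ht : t ∈ T X) {u d : V} {σ τ σ' : ℝ}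
    (hστ : σ < τ) (hτ : τ < σ') (hσ' : σ' < 1)
    (hr : ∀ a ∈ X, ∀ τ : ℝ, ∀ l : ℝ, u + τ • d ≠ l • a)
    (hd : det3 t.1 t.2.1 d < 0) (hw : u + τ • d ∈ Wall t.1 t.2.1)
    (h1 : ∀ ρ, σ ≤ ρ → ρ < τ → u + ρ • d ∈ Cone t)
    (h2 : ∀ ρ, τ < ρ → ρ ≤ σ' → u + ρ • d ∈ Cone (twin X t)) (f : Tr → ℝ)
    (hf : f (twin X t) = f t) :
    (∑ r ∈ T X, if E1_met r u d σ then f r else 0) =
      (∑ r ∈ T X, if E1_met r u d σ' then f r else 0) + 2 * f t := by
  have htw := twin_mem hX ht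
  have hne : t ≠ twin X t := by
    intro h
    have e := twin_1 hX ht
    rw [← h] at e
    have hD := T_pos ht
    have : Dt t = det3 t.1 t.2.1 t.2.2 := rfl
    rw [this, ← e, det3_def] at hD
    nlinarith
  have m1 : ∀ r : Tr, (r = t ∨ r = twin X t) → E1_met r u d σ ∧ ¬ E1_met r u d σ' := by
    intro r h
    have hW : Wall r.1 r.2.1 = Wall t.1 t.2.1 := by
      rcases h with h | h
      · rw [h]
      · rw [h, twin_1 hX ht, twin_2 hX ht, E1_Wall_symm]
    refine ⟨⟨τ, hστ, hτ.trans hσ', by rw [hW]; exact hw⟩, ?_⟩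
    rintro ⟨ρ, q1, q2, q3⟩
    rw [hW] at q3
    obtain ⟨l, m, -, -, e⟩ := q3
    obtain ⟨l', m', -, -, e'⟩ := hw
    have k1 : det3 t.1 t.2.1 (u + ρ • d) = 0 := by rw [e]; exact E1_det_wall _ _ _ _
    have k2 : det3 t.1 t.2.1 (u + τ • d) = 0 := by rw [e']; exact E1_det_wall _ _ _ _
    rw [E1_det] at k1 k2
    nlinarith
  have m2 : ∀ r ∈ T X, r ≠ t → r ≠ twin X t → (E1_met r u d σ ↔ E1_met r u d σ') := by
    intro r hrT n1 n2
    constructor
    · rintro ⟨ρ, q1, q2, q3⟩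
      refine ⟨ρ, ?_, q2, q3⟩
      by_contra hcon
      push Not at hcon
      rcases lt_trichotomy ρ τ with h | h | h
      · exact E1_wall hX ht hrT (h1 ρ q1.le h) q3
      · subst h
        rcases E1_same hX ht hrT hw q3 (fun a ha l => hr a ha ρ l) with h | h
        · exact n1 h
        · exact n2 h
      · exact E1_wall hX htw hrT (h2 ρ h hcon) q3
    · rintro ⟨ρ, q1, q2, q3⟩
      exact ⟨ρ, (hστ.trans hτ).trans q1, q2, q3⟩
  have hpt : ∀ r ∈ T X, (if E1_met r u d σ then f r else 0) =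
      (if E1_met r u d σ' then f r else 0) + ((if r = t then f r else 0) +
        (if r = twin X t then f r else 0)) := by
    intro r hrT
    by_cases c1 : r = t
    · have := m1 r (Or.inl c1)
      rw [if_pos this.1, if_neg this.2, if_pos c1, if_neg (fun h => hne (c1.symm.trans h))]
      ring
    by_cases c2 : r = twin X t
    · have := m1 r (Or.inr c2)
      rw [if_pos this.1, if_neg this.2, if_neg c1, if_pos c2]
      ring
    have := m2 r hrT c1 c2
    rw [if_neg c1, if_neg c2]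
    by_cases c3 : E1_met r u d σ
    · rw [if_pos c3, if_pos (this.1 c3)]; ring
    · rw [if_neg c3, if_neg (fun h => c3 (this.2 h))]; ring
  rw [Finset.sum_congr rfl hpt, Finset.sum_add_distrib, Finset.sum_add_distrib,
    Finset.sum_ite_eq' (T X) t, Finset.sum_ite_eq' (T X) (twin X t), if_pos ht, if_pos htw, hf]
  ring

open Classical in
/-- the induction -/
theorem E1_main {X : Finset V} (hX : GP X) (s : Tr → ℝ) (hs : ∀ t ∈ T X, s (rot t) = s t) {u d : V}
    (hp : ∀ a ∈ X, ∀ b ∈ X, cr a b ≠ 0 → det3 a b (u + (1 : ℝ) • d) ≠ 0)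
    (hr : ∀ a ∈ X, ∀ τ : ℝ, ∀ l : ℝ, u + τ • d ≠ l • a) {t1 : Tr} (h1 : t1 ∈ T X)
    (hv : u + (1 : ℝ) • d ∈ Cone t1) :
    ∀ n : ℕ, ∀ t0 ∈ T X, ∀ σ : ℝ, σ < 1 → u + σ • d ∈ Cone t0 →
      ((T X).filter (fun t => ip (P t0) d < ip (P t) d)).card = n →
      |s t1 - s t0| ≤ (∑ t ∈ T X, if E1_met t u d σ then |s t - s (twin X t)| else 0) / 2 ∧
      (∑ t ∈ T X, if E1_met t u d σ then ka X t * |ip (nu t.1 t.2.1) d| else 0) / 2 =
        ip (P t1 - P t0) d := by
  intro n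
  induction n using Nat.strong_induction_on with
  | _ n ih =>
    intro t0 h0 σ hσ hu hn
    by_cases hin : u + (1 : ℝ) • d ∈ Cone t0
    · have hrot := G5c hX h0 h1 hin hv
      obtain ⟨e1, e2, -⟩ := E1_rots hs h0 hrot
      have hnone : ∀ r ∈ T X, ¬ E1_met r u d σ := by
        rintro r hrT ⟨ρ, q1, q2, q3⟩
        refine E1_wall hX h0 hrT ?_ q3
        obtain ⟨p1, p2, p3⟩ := hu
        obtain ⟨p4, p5, p6⟩ := hin
        rw [E1_det] at p1 p2 p3 p4 p5 p6
        refine ⟨?_, ?_, ?_⟩ <;> rw [E1_det]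
        · exact E1_aff p1 p4 q1.le q2.le
        · exact E1_aff p2 p5 q1.le q2.le
        · exact E1_aff p3 p6 q1.le q2.le
      have hz : ∀ f : Tr → ℝ, (∑ t ∈ T X, if E1_met t u d σ then f t else 0) = 0 := by
        intro f
        exact Finset.sum_eq_zero fun r hrT => if_neg (hnone r hrT)
      rw [hz, hz, e1, e2]
      simp [ip]
    · obtain ⟨t, ht, hrot, τ, k1, k2, z1, z2, z3⟩ := E1_exit h0 hσ hu hin hp hr
      obtain ⟨e1, e2, e3⟩ := E1_rots hs h0 hrot
      have hu' : u + σ • d ∈ Cone t := by rw [e3]; exact hu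
      obtain ⟨hd, hw, hb, σ', k3, k4, ha⟩ := E1_step hX ht k1 k2 hu' z1 z2 z3
      have htw := twin_mem hX ht
      obtain ⟨g1, g2⟩ := G2 hX ht
      have hnu : ip (nu t.1 t.2.1) d < 0 := by
        have hD : 0 < Dt t := T_pos ht
        have hcr : cr t.1 t.2.1 ≠ 0 := by
          intro h
          have : Dt t = det3 t.1 t.2.1 t.2.2 := rfl
          rw [this, det3, h] at hD
          simp [ip] at hD
        rw [nu, ip_smul_left]
        exact mul_neg_of_pos_of_neg (inv_pos.2 (norm_pos_iff.2 hcr)) hd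
      have hP : ip (P t) d - ip (P (twin X t)) d = ka X t * ip (nu t.1 t.2.1) d := by
        rw [← ip_sub_left, g1, ip_smul_left]
      have hlt : ip (P t0) d < ip (P (twin X t)) d := by
        rw [← e2]
        have := mul_neg_of_pos_of_neg g2 hnu
        linarith
      have hcard : ((T X).filter (fun r => ip (P (twin X t)) d < ip (P r) d)).card < n := by
        rw [← hn]
        apply Finset.card_lt_card
        refine ⟨?_, ?_⟩
        · intro r hr1
          rw [Finset.mem_filter] at hr1 ⊢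
          exact ⟨hr1.1, hlt.trans hr1.2⟩
        · intro hsub
          have : twin X t ∈ (T X).filter (fun r => ip (P t0) d < ip (P r) d) :=
            Finset.mem_filter.2 ⟨htw, hlt⟩
          exact lt_irrefl _ (Finset.mem_filter.1 (hsub this)).2
      obtain ⟨i1, i2⟩ := ih _ hcard (twin X t) htw σ' k4 (ha σ' k3 le_rfl) rfl
      rw [E1_split hX ht k1 k3 k4 hr hd hw hb ha (fun t => |s t - s (twin X t)|)
          (by simp only [twin_twin hX ht]; exact abs_sub_comm _ _),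
        E1_split hX ht k1 k3 k4 hr hd hw hb ha (fun t => ka X t * |ip (nu t.1 t.2.1) d|)
          (by simp only [ka_twin hX ht, twin_1 hX ht, twin_2 hX ht]
              rw [E1_nu_symm t.1 t.2.1]
              simp [ip, inner_neg_left])]
      constructor
      · have tri : |s t1 - s t0| ≤ |s t1 - s (twin X t)| + |s t - s (twin X t)| := by
          rw [← e1]
          calc |s t1 - s t| = |(s t1 - s (twin X t)) - (s t - s (twin X t))| := by ring_nf
            _ ≤ _ := abs_sub _ _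
        linarith
      · rw [abs_of_neg hnu]
        rw [ip_sub_left] at i2 ⊢
        rw [← e2]
        linarith

open Classical in
/-- BLOCK E1: crossing the cones along a segment. Induction on the number of faces `t` with
`ip (P t) (v-u) > ip (P t0) (v-u)`. If `v ∉ Cone t0` let `τ*` be the last parameter with `u + τ(v-u)` in the closed cone
of `t0`; by genericity this point lies in exactly one open wall `Wall t.1 t.2.1`, `t ∈ {t0, rot t0, rot (rot t0)}`, the
segment crosses it transversally into `Cone (twin X t)`, and `ip (P (twin X t) - P t) (v-u) = ka X t * |ip ν (v-u)| > 0`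
(G2). Take a point `u'` of the segment just behind and apply the induction hypothesis to `(u', v)`; the walls met by
`(u', v)` are met by `(u, v)`, and the plane of the wall crossed is not met again. -/
theorem E1 {X : Finset V} (hX : GP X) (s : Tr → ℝ) (hs : ∀ t ∈ T X, s (rot t) = s t) {u v : V}
    (hg : Gen X u v) {t0 t1 : Tr} (h0 : t0 ∈ T X) (h1 : t1 ∈ T X) (hu : u ∈ Cone t0) (hv : v ∈ Cone t1) :
    |s t1 - s t0| ≤ (∑ t ∈ T X, if meets t.1 t.2.1 u v then |s t - s (twin X t)| else 0) / 2 ∧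
    (∑ t ∈ T X, if meets t.1 t.2.1 u v then ka X t * |ip (nu t.1 t.2.1) (v - u)| else 0) / 2 ≤
      ip (P t1 - P t0) (v - u) := by
  have e0 : u + (0 : ℝ) • (v - u) = u := by simp
  have e1 : u + (1 : ℝ) • (v - u) = v := by simp
  have h := E1_main hX s hs (u := u) (d := v - u) (by rw [e1]; exact hg.pv) hg.ray h1
    (by rw [e1]; exact hv) _ t0 h0 0 zero_lt_one (by rw [e0]; exact hu) rfl
  exact ⟨h.1, h.2.le⟩

open Classical in
/-- BLOCK E1b: Cauchy-Schwarz. -/
theorem E1b {X : Finset V} (hX : GP X) (s : Tr → ℝ) (hs : ∀ t ∈ T X, s (rot t) = s t) {u v : V}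
    (hg : Gen X u v) {t0 t1 : Tr} (h0 : t0 ∈ T X) (h1 : t1 ∈ T X) (hu : u ∈ Cone t0) (hv : v ∈ Cone t1) :
    (s t1 - s t0) ^ 2 ≤ ip (P t1 - P t0) (v - u) *
      ((∑ t ∈ T X, if meets t.1 t.2.1 u v then
        (s t - s (twin X t)) ^ 2 / (ka X t * |ip (nu t.1 t.2.1) (v - u)|) else 0) / 2) := by
  obtain ⟨k1, k2⟩ := E1 hX s hs hg h0 h1 hu hv
  rw [← Finset.sum_filter] at k1 k2 ⊢
  set A := (T X).filter (fun t => meets t.1 t.2.1 u v) with hA
  have hpos : ∀ t ∈ A, 0 < ka X t * |ip (nu t.1 t.2.1) (v - u)| := by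
    intro t ht
    have htT : t ∈ T X := (Finset.mem_filter.1 ht).1
    have hD : 0 < Dt t := T_pos htT
    have hcr : cr t.1 t.2.1 ≠ 0 := by
      intro h
      have : Dt t = det3 t.1 t.2.1 t.2.2 := rfl
      rw [this, det3, h] at hD
      simp [ip] at hD
    have hne := hg.par t.1 (mem_T.1 htT).1.1 t.2.1 (mem_T.1 htT).1.2.1 hcr
    refine mul_pos (G2 hX htT).2 (abs_pos.2 ?_)
    rw [nu, ip_smul_left]
    exact mul_ne_zero (inv_ne_zero (norm_ne_zero_iff.2 hcr)) hne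
  have hcs := Finset.sq_sum_div_le_sum_sq_div A (fun t => |s t - s (twin X t)|) hpos
  simp only [sq_abs] at hcs
  set S1 := ∑ t ∈ A, |s t - s (twin X t)| with hS1
  set S2 := ∑ t ∈ A, ka X t * |ip (nu t.1 t.2.1) (v - u)| with hS2
  set S3 := ∑ t ∈ A, (s t - s (twin X t)) ^ 2 / (ka X t * |ip (nu t.1 t.2.1) (v - u)|) with hS3
  have p1 : 0 ≤ S1 := Finset.sum_nonneg fun t _ => abs_nonneg _
  have p3 : 0 ≤ S3 := Finset.sum_nonneg fun t ht => div_nonneg (sq_nonneg _) (hpos t ht).le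
  have p2 : 0 ≤ S2 := Finset.sum_nonneg fun t ht => (hpos t ht).le
  have q : S1 ^ 2 ≤ S2 * S3 := by
    rcases A.eq_empty_or_nonempty with h | h
    · rw [hS1, hS2, h]; simp
    · have : 0 < S2 := Finset.sum_pos hpos h
      rw [div_le_iff₀ this] at hcs
      linarith
  have r1 : (s t1 - s t0) ^ 2 ≤ (S1 / 2) ^ 2 := by
    rw [← sq_abs]
    exact pow_le_pow_left₀ (abs_nonneg _) k1 2
  calc (s t1 - s t0) ^ 2 ≤ (S1 / 2) ^ 2 := r1
    _ = S1 ^ 2 / 4 := by ring
    _ ≤ S2 * S3 / 4 := by linarith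
    _ = (S2 / 2) * (S3 / 2) := by ring
    _ ≤ ip (P t1 - P t0) (v - u) * (S3 / 2) := mul_le_mul_of_nonneg_right k2 (by linarith)

end Iso
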