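import Pool.Agent.Lib_helper3.Iso.E1
import Pool.Agent.Lib_helper3.Iso.C1
import Pool.Agent.Lib_helper3.Iso.C3
noncomputable section
namespace Iso
open MeasureTheory Real Set

/-- the origin is not a vertex -/
theorem E2_zero_notMem {X : Finset V} (hX : GP X) : (0 : V) ∉ X := by
  intro h0
  obtain ⟨f, hf⟩ := hX.ext 0 h0
  have hne : ∃ u : V, u ≠ 0 := ⟨!₂[1, 0, 0], fun h => by
    have := congrArg (fun x : V => x 0) h
    simp at this⟩
  obtain ⟨u, hu⟩ := hne
  obtain ⟨x, hx, hx0⟩ := hX.pos u hu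
  have hxne : x ≠ 0 := by
    rintro rfl
    simp [ip] at hx0
  have h1 := hf x hx hxne
  by_cases hf0 : f = 0
  · rw [hf0] at h1
    simp [ip] at h1
  · obtain ⟨y, hy, hy0⟩ := hX.pos f hf0
    have hyne : y ≠ 0 := by
      rintro rfl
      simp [ip] at hy0
    have h2 := hf y hy hyne
    simp [ip] at h2 hy0
    linarith

/-- there is a vertex -/
theorem E2_nonempty {X : Finset V} (hX : GP X) : ∃ a, a ∈ X := by
  have hne : ∃ u : V, u ≠ 0 := ⟨!₂[1, 0, 0], fun h => by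
    have := congrArg (fun x : V => x 0) h
    simp at this⟩
  obtain ⟨u, hu⟩ := hne
  obtain ⟨x, hx, hx0⟩ := hX.pos u hu
  exact ⟨x, hx⟩

/-- almost every direction avoids a plane -/
theorem E2_plane (n : V) (hn : n ≠ 0) : ∀ᵐ v ∂sph, ip n v ≠ 0 := by
  rw [ae_iff]
  simpa using S1d n hn

/-- almost every direction avoids a line -/
theorem E2_line (a : V) (ha : a ≠ 0) : ∀ᵐ u ∂sph, cr u a ≠ 0 := by
  obtain ⟨n, hn, hna⟩ : ∃ n : V, n ≠ 0 ∧ ip n a = 0 := by
    by_cases h : a 0 = 0 ∧ a 1 = 0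
    · refine ⟨!₂[1, 0, 0], fun h => ?_, ?_⟩
      · have := congrArg (fun x : V => x 0) h
        simp at this
      · rw [ip_def]
        simp [h.1]
    · refine ⟨!₂[-a 1, a 0, 0], fun h' => ?_, ?_⟩
      · have h0 := congrArg (fun x : V => x 0) h'
        have h1 := congrArg (fun x : V => x 1) h'
        simp at h0 h1
        exact h ⟨h1, h0⟩
      · rw [ip_def]
        simp
        ring
  filter_upwards [E2_plane n hn, S1b] with u hu hu1 hcr
  -- `u` is a multiple of `a`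
  have h1 : ∀ i, ‖a‖ ^ 2 * u i = ip u a * a i := by
    have e0 := congrArg (fun x : V => x 0) hcr
    have e1 := congrArg (fun x : V => x 1) hcr
    have e2 := congrArg (fun x : V => x 2) hcr
    simp at e0 e1 e2
    intro i
    rw [norm_sq_eq, ip_def]
    fin_cases i
    · simp
      linear_combination (a 1) * e2 + (-a 2) * e1
    · simp
      linear_combination (-a 0) * e2 + (a 2) * e0
    · simp
      linear_combination (a 0) * e1 + (-a 1) * e0
  have h2 : ‖a‖ ^ 2 * ip n u = ip u a * ip n a := by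
    rw [ip_def n u, ip_def n a]
    linear_combination (n 0) * h1 0 + (n 1) * h1 1 + (n 2) * h1 2
  rw [hna, mul_zero] at h2
  have h3 : ‖a‖ ^ 2 ≠ 0 := pow_ne_zero 2 (norm_ne_zero_iff.2 ha)
  exact hu ((mul_eq_zero.1 h2).resolve_left h3)

/-- almost every direction avoids a circle -/
theorem E2_circle (n : V) (hn : n ≠ 0) (c : ℝ) : ∀ᵐ v ∂sph, ip n v ≠ c := by
  have hn' : ‖n‖ ≠ 0 := norm_ne_zero_iff.2 hn
  have h1 : ‖(‖n‖⁻¹ • n : V)‖ = 1 := by
    rw [norm_smul, norm_inv, norm_norm, inv_mul_cancel₀ hn']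
  have hm : Measurable (Set.indicator {‖n‖⁻¹ * c} (fun _ : ℝ => (1 : ENNReal))) :=
    measurable_const.indicator (measurableSet_singleton _)
  have h2 := S3 (‖n‖⁻¹ • n) h1 _ hm
  have h3 : ∫⁻ z in Ioo (-1 : ℝ) 1, Set.indicator {‖n‖⁻¹ * c} (fun _ : ℝ => (1 : ENNReal)) z = 0 := by
    rw [lintegral_indicator (measurableSet_singleton _), setLIntegral_one]
    exact le_antisymm ((Measure.restrict_apply_le _ _).trans (by simp)) (by positivity)
  rw [h3, mul_zero, lintegral_eq_zero_iff (by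
    apply hm.comp
    unfold ip
    fun_prop)] at h2
  filter_upwards [h2] with v hv hc
  have h4 : ip v (‖n‖⁻¹ • n) = ‖n‖⁻¹ * c := by
    rw [ip_smul_right, ip_comm, hc]
  have h5 : Set.indicator {‖n‖⁻¹ * c} (fun _ : ℝ => (1 : ENNReal)) (ip v (‖n‖⁻¹ • n)) = 0 := hv
  rw [h4, Set.indicator_of_mem (by simp)] at h5
  exact one_ne_zero h5

/-- BLOCK E2a: almost all pairs are generic (the exceptional sets are null sets of `sph × sph`: for fixed `u` outside
finitely many planes, `v` avoids finitely many planes (`pv`; `ray`, `zero`: `det3 u a v = 0`) and, for `par`, the sets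
`{v : ip n v = ip n u}`, `n = cr a b`, null by S3-type formula (S3: the law of `ip v n̂` has a density)). -/
theorem E2a {X : Finset V} (hX : GP X) : ∀ᵐ u ∂sph, ∀ᵐ v ∂sph, Gen X u v := by
  have hP : ∀ᵐ u ∂sph, ∀ a ∈ X, ∀ b ∈ X, cr a b ≠ 0 → ip (cr a b) u ≠ 0 := by
    rw [Filter.eventually_all_finset]
    intro a _
    rw [Filter.eventually_all_finset]
    intro b _
    by_cases h : cr a b = 0
    · exact Filter.Eventually.of_forall fun u h' => absurd h h'
    · filter_upwards [E2_plane _ h] with u hu _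
      exact hu
  have hL : ∀ᵐ u ∂sph, ∀ a ∈ X, cr u a ≠ 0 := by
    rw [Filter.eventually_all_finset]
    intro a ha
    exact E2_line a (fun h => E2_zero_notMem hX (h ▸ ha))
  filter_upwards [S1b, hP, hL] with u hu1 hu2 hu3
  have hC : ∀ᵐ v ∂sph, ∀ a ∈ X, ∀ b ∈ X, cr a b ≠ 0 → ip (cr a b) v ≠ ip (cr a b) u := by
    rw [Filter.eventually_all_finset]
    intro a _
    rw [Filter.eventually_all_finset]
    intro b _
    by_cases h : cr a b = 0
    · exact Filter.Eventually.of_forall fun u h' => absurd h h'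
    · filter_upwards [E2_circle _ h (ip (cr a b) u)] with v hv _
      exact hv
  have hD : ∀ᵐ v ∂sph, ∀ a ∈ X, ip (cr u a) v ≠ 0 := by
    rw [Filter.eventually_all_finset]
    intro a ha
    exact E2_plane _ (hu3 a ha)
  filter_upwards [S1b, hP, hC, hD] with v hv1 hv2 hv3 hv4
  have hu0 : u ≠ 0 := by
    rintro rfl
    simp at hu1
  have hv0 : v ≠ 0 := by
    rintro rfl
    simp at hv1
  have key : ∀ a ∈ X, ∀ τ : ℝ, ∀ l : ℝ, u + τ • (v - u) ≠ l • a := by
    intro a ha τ l h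
    have h1 : ip (cr u a) (u + τ • (v - u)) = ip (cr u a) (l • a) := by rw [h]
    have h2 : ip (cr u a) u = 0 := by
      rw [ip_def]
      simp
      ring
    have h3 : ip (cr u a) a = 0 := by
      rw [ip_def]
      simp
      ring
    rw [ip_add_right, ip_smul_right, ip_sub_right, ip_smul_right, h2, h3] at h1
    have h4 : τ * ip (cr u a) v = 0 := by linarith
    rcases mul_eq_zero.1 h4 with h5 | h5
    · rw [h5, zero_smul, add_zero] at h
      apply hu3 a ha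
      rw [h]
      ext i
      fin_cases i <;> simp <;> ring
    · exact hv4 a ha h5
  refine ⟨hu0, hv0, hu2, hv2, ?_, key, ?_⟩
  · intro a ha b hb hab h
    rw [det3, ip_sub_right] at h
    exact hv3 a ha b hb hab (by linarith)
  · intro τ h
    obtain ⟨a, ha⟩ := E2_nonempty hX
    exact key a ha τ 0 (by rw [zero_smul]; exact h)

/-- the pairs whose segment meets a wall form a measurable set -/
theorem E2_meets_meas (a b : V) : MeasurableSet {z : V × V | meets a b z.1 z.2} := by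
  have hcl : ∀ k : ℕ, IsClosed (Prod.fst '' {x : (V × V) × (Icc ((1 : ℝ) / (k + 2)) (1 - 1 / (k + 2)) ×
      Icc ((1 : ℝ) / (k + 2)) (k + 2) × Icc ((1 : ℝ) / (k + 2)) (k + 2)) |
      x.1.1 + (x.2.1 : ℝ) • (x.1.2 - x.1.1) = (x.2.2.1 : ℝ) • a + (x.2.2.2 : ℝ) • b}) := by
    intro k
    apply isClosedMap_fst_of_compactSpace
    exact isClosed_eq (by fun_prop) (by fun_prop)
  have hU : {z : V × V | meets a b z.1 z.2} = ⋃ k : ℕ, (Prod.fst '' {x : (V × V) ×
      (Icc ((1 : ℝ) / (k + 2)) (1 - 1 / (k + 2)) ×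
      Icc ((1 : ℝ) / (k + 2)) (k + 2) × Icc ((1 : ℝ) / (k + 2)) (k + 2)) |
      x.1.1 + (x.2.1 : ℝ) • (x.1.2 - x.1.1) = (x.2.2.1 : ℝ) • a + (x.2.2.2 : ℝ) • b}) := by
    ext z
    constructor
    · rintro ⟨τ, h0, h1, l, m, hl, hm, h⟩
      obtain ⟨k, hk⟩ := exists_nat_gt (max (max (1 / τ) (1 / (1 - τ))) (max (max (1 / l) l) (max (1 / m) m)))
      simp only [max_lt_iff] at hk
      have hk2 : (0 : ℝ) < (k : ℝ) + 2 := by positivity
      have inv_le : ∀ x : ℝ, 0 < x → 1 / x < k → 1 / ((k : ℝ) + 2) ≤ x := by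
        intro x hx hxk
        rw [div_lt_iff₀ hx] at hxk
        rw [div_le_iff₀ hk2]
        nlinarith
      have e1 := inv_le τ h0 hk.1.1
      have e2 := inv_le (1 - τ) (by linarith) hk.1.2
      have e3 := inv_le l hl hk.2.1.1
      have e4 := inv_le m hm hk.2.2.1
      rw [Set.mem_iUnion]
      exact ⟨k, ⟨z, ⟨⟨τ, e1, by linarith⟩, ⟨l, e3, by linarith [hk.2.1.2]⟩,
        ⟨m, e4, by linarith [hk.2.2.2]⟩⟩⟩, h, rfl⟩
    · intro hz
      rw [Set.mem_iUnion] at hz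
      obtain ⟨k, ⟨z', ⟨⟨τ, t0, t1⟩, ⟨l, l0, l1⟩, ⟨m, m0, m1⟩⟩⟩, h, rfl⟩ := hz
      have hk2 : (0 : ℝ) < 1 / ((k : ℝ) + 2) := by positivity
      exact ⟨τ, by linarith, by linarith, l, m, by linarith, by linarith, h⟩
  rw [hU]
  exact MeasurableSet.iUnion fun k => (hcl k).measurableSet

/-- the integrand of S8 is measurable -/
theorem E2_meas (N : ℕ) (n : V) (ε : ℝ) : Measurable (fun z : V × V =>
    ENNReal.ofReal (kN N z.1 z.2 * (‖z.2 - z.1‖ ^ 2 + ε * ‖z.2 - z.1‖) / |ip n (z.2 - z.1)|)) := by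
  unfold kN ip
  fun_prop

/-- the kernel is nonnegative on the sphere -/
theorem E2_kN_nonneg (N : ℕ) {u v : V} (hu : ‖u‖ = 1) (hv : ‖v‖ = 1) : 0 ≤ kN N u v := by
  have h1 : |ip u v| ≤ ‖u‖ * ‖v‖ := abs_real_inner_le_norm u v
  rw [hu, hv, mul_one, abs_le] at h1
  unfold kN
  have h2 : 0 ≤ (1 + ip u v) / 2 := by linarith [h1.1]
  positivity

open Classical in
/-- the pointwise inequality -/
theorem E2_pt {X : Finset V} {δ : ℝ} (h0 : 0 ≤ δ) (h1 : δ ≤ 1 / 4) (hX : NB X δ) (s : Tr → ℝ)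
    (hs : ∀ t ∈ T X, s (rot t) = s t) (N : ℕ) {u v : V} (hg : Gen X u v) {t0 t1 : Tr} (ht0 : t0 ∈ T X)
    (ht1 : t1 ∈ T X) (hu : u ∈ Cone t0) (hv : v ∈ Cone t1) (hu1 : ‖u‖ = 1) (hv1 : ‖v‖ = 1) :
    kN N u v * (sf X s u - sf X s v) ^ 2 ≤ ∑ t ∈ T X, if meets t.1 t.2.1 u v then
      (s t - s (twin X t)) ^ 2 / (2 * ka X t) *
        (kN N u v * (‖v - u‖ ^ 2 + (8 * √δ) * ‖v - u‖) / |ip (nu t.1 t.2.1) (v - u)|) else 0 := by
  have hGP := hX.gp
  have hk := E2_kN_nonneg N hu1 hv1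
  have e1 := E1b hGP s hs hg ht0 ht1 hu hv
  have e2 := (C4 h0 h1 hX ht0 hu hu1).2
  have e3 := (C4 h0 h1 hX ht1 hv hv1).2
  have e4 : ip (P t1 - P t0) (v - u) ≤ ‖v - u‖ ^ 2 + (8 * √δ) * ‖v - u‖ := by
    have h2 : P t1 - P t0 = (v - u) - (v - P t1) + (u - P t0) := by abel
    rw [h2, ip_add_left, ip_sub_left, ip_self]
    have h3 : |ip (v - P t1) (v - u)| ≤ ‖v - P t1‖ * ‖v - u‖ := abs_real_inner_le_norm _ _
    have h4 : |ip (u - P t0) (v - u)| ≤ ‖u - P t0‖ * ‖v - u‖ := abs_real_inner_le_norm _ _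
    have h5 := abs_le.1 h3
    have h6 := abs_le.1 h4
    nlinarith [norm_nonneg (v - u), h5.1, h6.2, mul_le_mul_of_nonneg_right e2 (norm_nonneg (v - u)),
      mul_le_mul_of_nonneg_right e3 (norm_nonneg (v - u))]
  have hS : 0 ≤ (∑ t ∈ T X, if meets t.1 t.2.1 u v then
      (s t - s (twin X t)) ^ 2 / (ka X t * |ip (nu t.1 t.2.1) (v - u)|) else 0) / 2 := by
    refine div_nonneg (Finset.sum_nonneg fun t _ => ?_) zero_le_two
    have hkt : 0 ≤ ka X t := norm_nonneg _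
    split_ifs
    · exact div_nonneg (sq_nonneg _) (mul_nonneg hkt (abs_nonneg _))
    · exact le_rfl
  rw [G5d hGP s hs ht0 hu, G5d hGP s hs ht1 hv]
  have e5 : (s t0 - s t1) ^ 2 ≤ (‖v - u‖ ^ 2 + (8 * √δ) * ‖v - u‖) *
      ((∑ t ∈ T X, if meets t.1 t.2.1 u v then
      (s t - s (twin X t)) ^ 2 / (ka X t * |ip (nu t.1 t.2.1) (v - u)|) else 0) / 2) := by
    calc (s t0 - s t1) ^ 2 = (s t1 - s t0) ^ 2 := by ring
      _ ≤ _ := e1.trans (mul_le_mul_of_nonneg_right e4 hS)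
  refine (mul_le_mul_of_nonneg_left e5 hk).trans (le_of_eq ?_)
  rw [Finset.sum_div, Finset.mul_sum, Finset.mul_sum]
  refine Finset.sum_congr rfl fun t _ => ?_
  split_ifs <;> ring

/-- BLOCK E2: the pair form of a function constant on the faces. E1b, `‖x - P t‖ ≤ 4√δ` on the cones (C4), so
`ip (P t1 - P t0) (v-u) ≤ ‖v-u‖² + 8√δ ‖v-u‖`; integrate against `kN N` and use S8 for every dart. -/
theorem E2 {X : Finset V} {δ : ℝ} (h0 : 0 ≤ δ) (h1 : δ ≤ 1 / 4) (hX : NB X δ) (s : Tr → ℝ)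
    (hs : ∀ t ∈ T X, s (rot t) = s t) (N : ℕ) :
    ∫ u, ∫ v, kN N u v * (sf X s u - sf X s v) ^ 2 ∂sph ∂sph ≤
      (4 * (N + 1) / ((N + 1 / 2) * (N + 3 / 2)) + 32 * √δ) *
        ((∑ t ∈ T X, La t / ka X t * (s t - s (twin X t)) ^ 2) / 2) := by
  classical
  have hGP := hX.gp
  obtain ⟨h, hh⟩ : ∃ h : Tr → V × V → ENNReal, h = fun t z =>
    ENNReal.ofReal (kN N z.1 z.2 * (‖z.2 - z.1‖ ^ 2 + (8 * √δ) * ‖z.2 - z.1‖) /
      |ip (nu t.1 t.2.1) (z.2 - z.1)|) := ⟨_, rfl⟩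
  have hm : ∀ t, Measurable (h t) := by
    intro t
    rw [hh]
    exact E2_meas N _ _
  have hM : ∀ t : Tr, MeasurableSet {z : V × V | meets t.1 t.2.1 z.1 z.2} := fun t =>
    E2_meets_meas t.1 t.2.1
  have hmi : ∀ t : Tr, Measurable ({z : V × V | meets t.1 t.2.1 z.1 z.2}.indicator (h t)) := fun t =>
    (hm t).indicator (hM t)
  have hC0 : (0 : ℝ) ≤ 4 * (N + 1) / ((N + 1 / 2) * (N + 3 / 2)) + 32 * √δ := by positivity
  have hka : ∀ t, 0 ≤ ka X t := fun t => norm_nonneg _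
  have hLa : ∀ t, 0 ≤ La t := fun t => InnerProductGeometry.angle_nonneg _ _
  have hR : (0 : ℝ) ≤ (4 * (N + 1) / ((N + 1 / 2) * (N + 3 / 2)) + 32 * √δ) *
        ((∑ t ∈ T X, La t / ka X t * (s t - s (twin X t)) ^ 2) / 2) := by
    apply mul_nonneg hC0 (div_nonneg (Finset.sum_nonneg _) zero_le_two)
    intro t _
    exact mul_nonneg (div_nonneg (hLa t) (hka t)) (sq_nonneg _)
  rw [← ENNReal.ofReal_le_ofReal_iff hR]
  have step1 : ENNReal.ofReal (∫ u, ∫ v, kN N u v * (sf X s u - sf X s v) ^ 2 ∂sph ∂sph) ≤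
      ∫⁻ u, ∫⁻ v, ‖kN N u v * (sf X s u - sf X s v) ^ 2‖ₑ ∂sph ∂sph := by
    refine (Real.ofReal_le_enorm _).trans ((enorm_integral_le_lintegral_enorm _).trans ?_)
    exact lintegral_mono fun u => enorm_integral_le_lintegral_enorm _
  have step2 : ∫⁻ u, ∫⁻ v, ‖kN N u v * (sf X s u - sf X s v) ^ 2‖ₑ ∂sph ∂sph ≤
      ∫⁻ u, ∫⁻ v, ∑ t ∈ T X, ENNReal.ofReal ((s t - s (twin X t)) ^ 2 / (2 * ka X t)) *
        {z : V × V | meets t.1 t.2.1 z.1 z.2}.indicator (h t) (u, v) ∂sph ∂sph := by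
    apply lintegral_mono_ae
    filter_upwards [S1b, C1 hGP, E2a hGP] with u hu1 ⟨t0, ht0, hu⟩ hgu
    apply lintegral_mono_ae
    filter_upwards [S1b, C1 hGP, hgu] with v hv1 ⟨t1, ht1, hv⟩ hg
    have hk := E2_kN_nonneg N hu1 hv1
    rw [Real.enorm_eq_ofReal (mul_nonneg hk (sq_nonneg _))]
    refine (ENNReal.ofReal_le_ofReal (E2_pt h0 h1 hX s hs N hg ht0 ht1 hu hv hu1 hv1)).trans
      (le_of_eq ?_)
    rw [ENNReal.ofReal_sum_of_nonneg]
    · refine Finset.sum_congr rfl fun t _ => ?_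
      by_cases hmt : meets t.1 t.2.1 u v
      · rw [if_pos hmt, Set.indicator_of_mem (by exact hmt), hh,
          ENNReal.ofReal_mul (div_nonneg (sq_nonneg _) (mul_nonneg zero_le_two (hka t)))]
      · rw [if_neg hmt, Set.indicator_of_notMem (by exact hmt), ENNReal.ofReal_zero, mul_zero]
    · intro t _
      split_ifs
      · have := hka t
        positivity
      · exact le_rfl
  have step3 : ∫⁻ u, ∫⁻ v, ∑ t ∈ T X, ENNReal.ofReal ((s t - s (twin X t)) ^ 2 / (2 * ka X t)) *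
        {z : V × V | meets t.1 t.2.1 z.1 z.2}.indicator (h t) (u, v) ∂sph ∂sph =
      ∑ t ∈ T X, ENNReal.ofReal ((s t - s (twin X t)) ^ 2 / (2 * ka X t)) *
        ∫⁻ u, ∫⁻ v in {v | meets t.1 t.2.1 u v}, h t (u, v) ∂sph ∂sph := by
    have hin : ∀ t : Tr, ∀ u : V, Measurable (fun v =>
        {z : V × V | meets t.1 t.2.1 z.1 z.2}.indicator (h t) (u, v)) := fun t u =>
      (hmi t).comp measurable_prodMk_left
    have e1 : ∀ u : V, ∫⁻ v, ∑ t ∈ T X, ENNReal.ofReal ((s t - s (twin X t)) ^ 2 / (2 * ka X t)) *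
        {z : V × V | meets t.1 t.2.1 z.1 z.2}.indicator (h t) (u, v) ∂sph =
        ∑ t ∈ T X, ENNReal.ofReal ((s t - s (twin X t)) ^ 2 / (2 * ka X t)) *
        ∫⁻ v, {z : V × V | meets t.1 t.2.1 z.1 z.2}.indicator (h t) (u, v) ∂sph := by
      intro u
      rw [lintegral_finsetSum _ (fun t _ => (hin t u).const_mul _)]
      exact Finset.sum_congr rfl fun t _ => lintegral_const_mul _ (hin t u)
    have hout : ∀ t : Tr, Measurable (fun u => ∫⁻ v,
        {z : V × V | meets t.1 t.2.1 z.1 z.2}.indicator (h t) (u, v) ∂sph) := fun t =>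
      (hmi t).lintegral_prod_right'
    rw [lintegral_congr e1, lintegral_finsetSum _ (fun t _ => (hout t).const_mul _)]
    refine Finset.sum_congr rfl fun t _ => ?_
    rw [lintegral_const_mul _ (hout t)]
    congr 1
    refine lintegral_congr fun u => ?_
    have hMu : MeasurableSet {v : V | meets t.1 t.2.1 u v} := measurable_prodMk_left (hM t)
    rw [← lintegral_indicator hMu]
    rfl
  have step4 : ∑ t ∈ T X, ENNReal.ofReal ((s t - s (twin X t)) ^ 2 / (2 * ka X t)) *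
        ∫⁻ u, ∫⁻ v in {v | meets t.1 t.2.1 u v}, h t (u, v) ∂sph ∂sph ≤
      ∑ t ∈ T X, ENNReal.ofReal ((s t - s (twin X t)) ^ 2 / (2 * ka X t)) *
        ENNReal.ofReal (La t * (4 * (N + 1) / ((N + 1 / 2) * (N + 3 / 2)) + 4 * (8 * √δ))) := by
    refine Finset.sum_le_sum fun t ht => mul_le_mul_right ?_ _
    have hab : cr t.1 t.2.1 ≠ 0 := by
      intro h
      have := T_pos ht
      rw [Dt, det3, h] at this
      simp [ip] at this
    have := S8 N t.1 t.2.1 hab (8 * √δ) (by positivity)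
    rw [hh]
    exact this
  refine step1.trans (step2.trans (step3.le.trans (step4.trans (le_of_eq ?_))))
  rw [← Finset.sum_congr rfl fun t _ => ENNReal.ofReal_mul (div_nonneg (sq_nonneg
    (s t - s (twin X t))) (mul_nonneg zero_le_two (hka t)) : (0 : ℝ) ≤ (s t - s (twin X t)) ^ 2 / (2 * ka X t)),
    ← ENNReal.ofReal_sum_of_nonneg]
  · congr 1
    rw [Finset.sum_div, Finset.mul_sum]
    refine Finset.sum_congr rfl fun t _ => ?_
    ring
  · intro t _
    have := hka t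
    have := hLa t
    positivity

end Iso
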