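import Pool.Agent.Lib_helper3.Iso.S6
noncomputable section
namespace Iso
open MeasureTheory Real Set

/-- normalisation -/
def S7_n (x : V) : V := ‖x‖⁻¹ • x

theorem S7_n_le (x : V) : ‖S7_n x‖ ≤ 1 := by
  rw [S7_n, norm_smul, norm_inv, norm_norm]
  rcases eq_or_ne x 0 with rfl | h
  · simp
  · rw [inv_mul_cancel₀ (norm_ne_zero_iff.2 h)]

theorem S7_n_eq {x : V} (h : ‖x‖ = 1) : S7_n x = x := by
  rw [S7_n, h, inv_one, one_smul]

theorem S7_n_meas : Measurable S7_n := (measurable_norm.inv).smul measurable_id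

theorem S7_int {f : V → ℝ} (hf : Measurable f) (C : ℝ) (h : ∀ x, ‖x‖ = 1 → |f x| ≤ C) :
    Integrable f sph := by
  refine Integrable.of_bound hf.aestronglyMeasurable C ?_
  filter_upwards [S1b] with x hx
  exact h x hx

theorem S7_ip_le {x : V} (hx : ‖x‖ = 1) (a : V) : |ip x a| ≤ ‖a‖ := by
  have := abs_real_inner_le_norm x a
  rwa [hx, one_mul] at this

theorem S7_ip_meas (a : V) : Measurable fun x : V => ip x a := by
  have : Continuous fun x : V => ip x a := by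
    show Continuous fun x : V => inner ℝ x a
    fun_prop
  exact this.measurable

theorem S7_ip_int (a : V) : Integrable (fun x : V => ip x a) sph :=
  S7_int (S7_ip_meas a) ‖a‖ fun _ hx => S7_ip_le hx a

theorem S7_ip2_int (a b : V) : Integrable (fun x : V => ip x a * ip x b) sph :=
  S7_int ((S7_ip_meas a).mul (S7_ip_meas b)) (‖a‖ * ‖b‖) fun _ hx => by
    rw [abs_mul]
    exact mul_le_mul (S7_ip_le hx a) (S7_ip_le hx b) (abs_nonneg _) (norm_nonneg _)

theorem S7_add3 {α : Type*} [MeasurableSpace α] {μ : Measure α} {f g h : α → ℝ}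
    (hf : Integrable f μ) (hg : Integrable g μ) (hh : Integrable h μ) :
    ∫ x, (f x + g x + h x) ∂μ = ∫ x, f x ∂μ + ∫ x, g x ∂μ + ∫ x, h x ∂μ := by
  have hfg : Integrable (fun x => f x + g x) μ := hf.add hg
  rw [integral_add hfg hh, integral_add hf hg]

theorem S7_sub3 {α : Type*} [MeasurableSpace α] {μ : Measure α} {f g h : α → ℝ}
    (hf : Integrable f μ) (hg : Integrable g μ) (hh : Integrable h μ) :
    ∫ x, (f x - g x + h x) ∂μ = ∫ x, f x ∂μ - ∫ x, g x ∂μ + ∫ x, h x ∂μ := by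
  have hfg : Integrable (fun x => f x - g x) μ := hf.sub hg
  rw [integral_add hfg hh, integral_sub hf hg]

theorem S7_add4 {α : Type*} [MeasurableSpace α] {μ : Measure α} {f g h k : α → ℝ}
    (hf : Integrable f μ) (hg : Integrable g μ) (hh : Integrable h μ) (hk : Integrable k μ) :
    ∫ x, (f x + g x + h x + k x) ∂μ =
      ∫ x, f x ∂μ + ∫ x, g x ∂μ + ∫ x, h x ∂μ + ∫ x, k x ∂μ := by
  have hfg : Integrable (fun x => f x + g x + h x) μ := (hf.add hg).add hh
  rw [integral_add hfg hk, S7_add3 hf hg hh]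

theorem S7_ip2 (a b : V) : ∫ x, ip x a * ip x b ∂sph = 4 * π / 3 * ip a b := by
  have h1 := S3c (a + b)
  have h2 := S3c (a - b)
  have e1 : ∀ x, ip x (a + b) ^ 2 = ip x a * ip x a + 2 * (ip x a * ip x b) + ip x b * ip x b := by
    intro x
    have : ip x (a + b) = ip x a + ip x b := inner_add_right _ _ _
    rw [this]; ring
  have e2 : ∀ x, ip x (a - b) ^ 2 = ip x a * ip x a - 2 * (ip x a * ip x b) + ip x b * ip x b := by
    intro x
    have : ip x (a - b) = ip x a - ip x b := inner_sub_right _ _ _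
    rw [this]; ring
  simp_rw [e1] at h1
  simp_rw [e2] at h2
  rw [S7_add3 (S7_ip2_int a a) ((S7_ip2_int a b).const_mul 2) (S7_ip2_int b b),
    integral_const_mul] at h1
  rw [S7_sub3 (S7_ip2_int a a) ((S7_ip2_int a b).const_mul 2) (S7_ip2_int b b),
    integral_const_mul] at h2
  have e3 : ‖a + b‖ ^ 2 = ‖a‖ ^ 2 + 2 * ip a b + ‖b‖ ^ 2 := norm_add_sq_real a b
  have e4 : ‖a - b‖ ^ 2 = ‖a‖ ^ 2 - 2 * ip a b + ‖b‖ ^ 2 := norm_sub_sq_real a b
  rw [e3] at h1
  rw [e4] at h2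
  linarith

theorem S7_kN_meas (N : ℕ) : Measurable fun z : V × V => kN N z.1 z.2 := by
  have : Continuous fun z : V × V => kN N z.1 z.2 := by
    show Continuous fun z : V × V => ((N : ℝ) + 1) / (4 * π) * ((1 + inner ℝ z.1 z.2) / 2) ^ N
    fun_prop
  exact this.measurable

theorem S7_kN_le (N : ℕ) {u v : V} (hu : ‖u‖ = 1) (hv : ‖v‖ = 1) :
    |kN N u v| ≤ ((N : ℝ) + 1) / (4 * π) := by
  have h1 : |ip u v| ≤ 1 := by
    have := S7_ip_le hu v
    rwa [hv] at this
  rw [abs_le] at h1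
  rw [kN, abs_mul, abs_of_nonneg (by positivity : (0 : ℝ) ≤ ((N : ℝ) + 1) / (4 * π))]
  refine mul_le_of_le_one_right (by positivity) ?_
  rw [abs_pow]
  refine pow_le_one₀ (abs_nonneg _) ?_
  rw [abs_le]
  constructor <;> linarith [h1.1, h1.2]

theorem S7_kN_symm (N : ℕ) (u v : V) : kN N u v = kN N v u := by
  rw [kN, kN]
  have : ip u v = ip v u := real_inner_comm _ _
  rw [this]

theorem S7_int2 (N : ℕ) {f g : V → ℝ} (hf : Measurable f) (hg : Measurable g) (C D : ℝ)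
    (hC : ∀ x, ‖x‖ = 1 → |f x| ≤ C) (hD : ∀ x, ‖x‖ = 1 → |g x| ≤ D) :
    Integrable (fun z : V × V => kN N z.1 z.2 * (f z.1 * g z.2)) (sph.prod sph) := by
  refine Integrable.of_bound ((S7_kN_meas N).mul ((hf.comp measurable_fst).mul
    (hg.comp measurable_snd))).aestronglyMeasurable (((N : ℝ) + 1) / (4 * π) * (C * D)) ?_
  have h1 : ∀ᵐ z ∂(sph.prod sph), ‖z.1‖ = 1 :=
    (Measure.quasiMeasurePreserving_fst (μ := sph) (ν := sph)).ae S1b
  have h2 : ∀ᵐ z ∂(sph.prod sph), ‖z.2‖ = 1 :=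
    (Measure.quasiMeasurePreserving_snd (μ := sph) (ν := sph)).ae S1b
  filter_upwards [h1, h2] with z hz1 hz2
  rw [Real.norm_eq_abs, abs_mul, abs_mul]
  have := hC _ hz1
  exact mul_le_mul (S7_kN_le N hz1 hz2) (mul_le_mul (hC _ hz1) (hD _ hz2) (abs_nonneg _)
    ((abs_nonneg _).trans this)) (by positivity) (by positivity)

/-- the bilinear form of the kernel -/
def S7_B (N : ℕ) (f g : V → ℝ) : ℝ := ∫ z : V × V, kN N z.1 z.2 * (f z.1 * g z.2) ∂(sph.prod sph)

theorem S7_B_eq (N : ℕ) {f g : V → ℝ} (hf : Measurable f) (hg : Measurable g) (C D : ℝ)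
    (hC : ∀ x, ‖x‖ = 1 → |f x| ≤ C) (hD : ∀ x, ‖x‖ = 1 → |g x| ≤ D) :
    S7_B N f g = ∫ u, ∫ v, kN N u v * (f u * g v) ∂sph ∂sph :=
  integral_prod _ (S7_int2 N hf hg C D hC hD)

theorem S7_B_symm (N : ℕ) (f g : V → ℝ) : S7_B N f g = S7_B N g f := by
  rw [S7_B, S7_B, ← integral_prod_swap]
  refine integral_congr_ae (Filter.Eventually.of_forall fun z => ?_)
  show kN N z.2 z.1 * (f z.2 * g z.1) = kN N z.1 z.2 * (g z.1 * f z.2)
  rw [S7_kN_symm, mul_comm (f z.2)]

theorem S7_kN_meas1 (N : ℕ) (u : V) : Measurable fun v : V => kN N u v := by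
  have : Continuous fun v : V => kN N u v := by
    show Continuous fun v : V => ((N : ℝ) + 1) / (4 * π) * ((1 + inner ℝ u v) / 2) ^ N
    fun_prop
  exact this.measurable

theorem S7_kN_int (N : ℕ) {u : V} (hu : ‖u‖ = 1) : Integrable (fun v : V => kN N u v) sph :=
  S7_int (S7_kN_meas1 N u) _ fun _ hv => S7_kN_le N hu hv

theorem S7_kNip_int (N : ℕ) (b : V) {u : V} (hu : ‖u‖ = 1) :
    Integrable (fun v : V => kN N u v * ip v b) sph :=
  S7_int ((S7_kN_meas1 N u).mul (S7_ip_meas b)) (((N : ℝ) + 1) / (4 * π) * ‖b‖) fun v hv => by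
    rw [abs_mul]
    exact mul_le_mul (S7_kN_le N hu hv) (S7_ip_le hv b) (abs_nonneg _) (by positivity)

theorem S7_lin_pt (N : ℕ) (d c : ℝ) (b : V) {u : V} (hu : ‖u‖ = 1) :
    ∫ v, kN N u v * (d * (c + ip v b)) ∂sph = d * (c + (N : ℝ) / (N + 2) * ip u b) := by
  have e1 : ∫ v, kN N u v * (d * (c + ip v b)) ∂sph =
      ∫ v, (d * c * kN N u v + d * (kN N u v * ip v b)) ∂sph := by
    congr 1
    funext v
    ring
  rw [e1, integral_add ((S7_kN_int N hu).const_mul _) ((S7_kNip_int N b hu).const_mul _),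
    integral_const_mul, integral_const_mul, S3e N u hu, S3f N u b hu]
  ring

theorem S7_B_lin (N : ℕ) {f : V → ℝ} (hf : Measurable f) (C : ℝ)
    (hC : ∀ x, ‖x‖ = 1 → |f x| ≤ C) (c : ℝ) (b : V) :
    S7_B N f (fun x => c + ip x b) = ∫ u, f u * (c + (N : ℝ) / (N + 2) * ip u b) ∂sph := by
  have hg : Measurable fun x : V => c + ip x b := (S7_ip_meas b).const_add c
  have hD : ∀ x : V, ‖x‖ = 1 → |c + ip x b| ≤ |c| + ‖b‖ := fun x hx =>
    (abs_add_le _ _).trans (add_le_add le_rfl (S7_ip_le hx b))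
  rw [S7_B_eq N hf hg C (|c| + ‖b‖) hC hD]
  refine integral_congr_ae ?_
  filter_upwards [S1b] with u hu
  exact S7_lin_pt N (f u) c b hu

/-- BLOCK S7: lower bound for the pair form of a general bounded function. Let `c0 = (1/4π) ∫ s`,
`b = (3/4π) ∫ s(x) x`, `l x = c0 + ip x b`, `s0 = s - l`; `s0` satisfies the hypotheses of S6. The pair form is
`2 (∫ s^2 - Q s)` (`Q` the quadratic form of the kernel, S3e); `Q s = Q s0 + Q l` because the kernel maps `l` to
`c0 + N/(N+2) ip u b` (S3e, S3f); `Q l <= ∫ l^2` . Finally `∫ s0^2 = ∫ s^2 - (∫ s)^2/4π - (3/4π)|∫ s x|^2`. -/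
theorem S7 (N : ℕ) (s : V → ℝ) (hs : Measurable s) (C : ℝ) (hC : ∀ x, |s x| ≤ C) :
    12 * ((N : ℝ) + 1) / ((N + 2) * (N + 3)) *
      (∫ x, s x ^ 2 ∂sph - (∫ x, s x ∂sph) ^ 2 / (4 * π) - 3 / (4 * π) * ‖∫ x, s x • x ∂sph‖ ^ 2) ≤
      ∫ u, ∫ v, kN N u v * (s u - s v) ^ 2 ∂sph ∂sph := by
  have hpi : (0 : ℝ) < π := pi_pos
  set I0 : ℝ := ∫ x, s x ∂sph with hI0
  set m : V := ∫ x, s x • x ∂sph with hm
  set c0 : ℝ := I0 / (4 * π) with hc0
  set b : V := (3 / (4 * π)) • m with hb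
  set l : V → ℝ := fun x => c0 + ip (S7_n x) b with hl
  set l1 : V → ℝ := fun x => c0 + ip x b with hl1
  have hll : ∀ x, ‖x‖ = 1 → l x = l1 x := fun x hx => by
    show c0 + ip (S7_n x) b = c0 + ip x b
    rw [S7_n_eq hx]
  have hlm : Measurable l := ((S7_ip_meas b).comp S7_n_meas).const_add c0
  have hl1m : Measurable l1 := (S7_ip_meas b).const_add c0
  have hlb : ∀ x, |l x| ≤ |c0| + ‖b‖ := fun x => by
    refine (abs_add_le _ _).trans (add_le_add le_rfl ?_)
    have h1 := abs_real_inner_le_norm (S7_n x) b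
    exact h1.trans (mul_le_of_le_one_left (norm_nonneg _) (S7_n_le x))
  have hl1b : ∀ x, ‖x‖ = 1 → |l1 x| ≤ |c0| + ‖b‖ := fun x hx => by
    rw [← hll x hx]; exact hlb x
  set s0 : V → ℝ := fun x => s x - l x with hs0
  have hs0m : Measurable s0 := hs.sub hlm
  have hs0b : ∀ x, |s0 x| ≤ C + (|c0| + ‖b‖) := fun x =>
    (abs_sub _ _).trans (add_le_add (hC x) (hlb x))
  have hsi : Integrable s sph := S7_int hs C fun x _ => hC x
  have hl1i : Integrable l1 sph := S7_int hl1m _ hl1b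
  have hvi : Integrable (fun x => s x • x) sph := by
    refine Integrable.of_bound (hs.smul measurable_id).aestronglyMeasurable C ?_
    filter_upwards [S1b] with x hx
    rw [norm_smul, hx, mul_one]
    exact hC x
  have hmass : sph.real univ = 4 * π := by
    rw [Measure.real, S1c, ENNReal.toReal_ofReal (by positivity)]
  have hconst : ∀ c : ℝ, ∫ _x : V, c ∂sph = 4 * π * c := fun c => by
    rw [integral_const, hmass, smul_eq_mul]
  have hsl : ∫ x, s0 x ∂sph = ∫ x, (s x - l1 x) ∂sph := by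
    refine integral_congr_ae ?_
    filter_upwards [S1b] with x hx
    show s x - l x = s x - l1 x
    rw [hll x hx]
  have hl1int : ∫ x, l1 x ∂sph = I0 := by
    show ∫ x, (c0 + ip x b) ∂sph = I0
    rw [integral_add (integrable_const _) (S7_ip_int b), hconst, S3d, hc0]
    field_simp
    ring
  have h0 : ∫ x, s0 x ∂sph = 0 := by
    rw [hsl, integral_sub hsi hl1i, hl1int]
    ring
  have hip : ∀ a : V, ∫ x, s x * ip x a ∂sph = ip m a := by
    intro a
    have h2 : ∫ x, inner ℝ a (s x • x) ∂sph = inner ℝ a m := integral_inner hvi a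
    have h3 : ∫ x, s x * ip x a ∂sph = ∫ x, inner ℝ a (s x • x) ∂sph := by
      congr 1
      funext x
      rw [real_inner_smul_right]
      congr 1
      exact real_inner_comm _ _
    rw [h3, h2]
    exact real_inner_comm _ _
  have hsip : ∀ a : V, Integrable (fun x => s x * ip x a) sph := fun a =>
    S7_int (hs.mul (S7_ip_meas a)) (C * ‖a‖) fun x hx => by
      rw [abs_mul]
      exact mul_le_mul (hC x) (S7_ip_le hx a) (abs_nonneg _) ((abs_nonneg _).trans (hC x))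
  have hbm : ∀ a : V, 4 * π / 3 * ip b a = ip m a := fun a => by
    have : ip b a = 3 / (4 * π) * ip m a := by
      show inner ℝ ((3 / (4 * π)) • m) a = _
      rw [real_inner_smul_left]
    rw [this]
    field_simp
  have hl1ip : ∀ a : V, ∫ x, l1 x * ip x a ∂sph = ip m a := by
    intro a
    have e : ∀ x, l1 x * ip x a = c0 * ip x a + ip x b * ip x a := fun x => by
      show (c0 + ip x b) * ip x a = _
      ring
    simp_rw [e]
    rw [integral_add ((S7_ip_int a).const_mul c0) (S7_ip2_int b a), integral_const_mul, S3d,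
      S7_ip2, mul_zero, zero_add, hbm]
  have hl1ipi : ∀ a : V, Integrable (fun x => l1 x * ip x a) sph := fun a =>
    S7_int (hl1m.mul (S7_ip_meas a)) ((|c0| + ‖b‖) * ‖a‖) fun x hx => by
      rw [abs_mul]
      exact mul_le_mul (hl1b x hx) (S7_ip_le hx a) (abs_nonneg _) (by positivity)
  have h1 : ∀ a : V, ∫ x, s0 x * ip x a ∂sph = 0 := by
    intro a
    have e : ∫ x, s0 x * ip x a ∂sph = ∫ x, (s x * ip x a - l1 x * ip x a) ∂sph := by
      refine integral_congr_ae ?_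
      filter_upwards [S1b] with x hx
      show (s x - l x) * ip x a = _
      rw [hll x hx]
      ring
    rw [e, integral_sub (hsip a) (hl1ipi a), hip, hl1ip, sub_self]
  -- the spectral inequality
  have hS6 := S6 N s0 hs0m _ hs0b h0 h1
  rw [← S7_B_eq N hs0m hs0m _ _ (fun x _ => hs0b x) (fun x _ => hs0b x)] at hS6
  -- bilinearity
  have hQ : S7_B N s s = S7_B N s0 s0 + 2 * S7_B N s0 l1 + S7_B N l1 l1 := by
    have i1 := S7_int2 N hs0m hs0m _ _ (fun x _ => hs0b x) (fun x _ => hs0b x)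
    have i2 := S7_int2 N hs0m hl1m _ _ (fun x _ => hs0b x) hl1b
    have i3 := S7_int2 N hl1m hs0m _ _ hl1b (fun x _ => hs0b x)
    have i4 := S7_int2 N hl1m hl1m _ _ hl1b hl1b
    have e : S7_B N s s = S7_B N s0 s0 + S7_B N s0 l1 + S7_B N l1 s0 + S7_B N l1 l1 := by
      rw [S7_B, S7_B, S7_B, S7_B, S7_B, ← S7_add4 i1 i2 i3 i4]
      refine integral_congr_ae ?_
      have g1 : ∀ᵐ z ∂(sph.prod sph), ‖z.1‖ = 1 :=
        (Measure.quasiMeasurePreserving_fst (μ := sph) (ν := sph)).ae S1b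
      have g2 : ∀ᵐ z ∂(sph.prod sph), ‖z.2‖ = 1 :=
        (Measure.quasiMeasurePreserving_snd (μ := sph) (ν := sph)).ae S1b
      filter_upwards [g1, g2] with z hz1 hz2
      have k1 : s z.1 = s0 z.1 + l1 z.1 := by
        show s z.1 = s z.1 - l z.1 + l1 z.1
        rw [hll _ hz1]; ring
      have k2 : s z.2 = s0 z.2 + l1 z.2 := by
        show s z.2 = s z.2 - l z.2 + l1 z.2
        rw [hll _ hz2]; ring
      rw [k1, k2]
      ring
    rw [e, S7_B_symm N l1 s0]
    ring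
  have hB0 : S7_B N s0 l1 = 0 := by
    show S7_B N s0 (fun x => c0 + ip x b) = 0
    rw [S7_B_lin N hs0m _ (fun x _ => hs0b x)]
    have e : ∀ u, s0 u * (c0 + (N : ℝ) / (N + 2) * ip u b) =
        c0 * s0 u + (N : ℝ) / (N + 2) * (s0 u * ip u b) := fun u => by ring
    simp_rw [e]
    have j1 : Integrable s0 sph := S7_int hs0m _ fun x _ => hs0b x
    have j2 : Integrable (fun u => s0 u * ip u b) sph :=
      S7_int (hs0m.mul (S7_ip_meas b)) ((C + (|c0| + ‖b‖)) * ‖b‖) fun x hx => by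
        rw [abs_mul]
        exact mul_le_mul (hs0b x) (S7_ip_le hx b) (abs_nonneg _) ((abs_nonneg _).trans (hs0b x))
    rw [integral_add (j1.const_mul _) (j2.const_mul _), integral_const_mul, integral_const_mul,
      h0, h1, mul_zero, mul_zero, add_zero]
  have hBl : S7_B N l1 l1 = 4 * π * c0 ^ 2 + (N : ℝ) / (N + 2) * (4 * π / 3 * ‖b‖ ^ 2) := by
    have e0 : S7_B N l1 l1 = S7_B N l1 (fun x => c0 + ip x b) := rfl
    rw [e0, S7_B_lin N hl1m _ hl1b]
    have e : ∀ u, l1 u * (c0 + (N : ℝ) / (N + 2) * ip u b) =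
        c0 * l1 u + (N : ℝ) / (N + 2) * (l1 u * ip u b) := fun u => by ring
    simp_rw [e]
    rw [integral_add (hl1i.const_mul _) ((hl1ipi b).const_mul _), integral_const_mul,
      integral_const_mul, hl1int, hl1ip, ← hbm b]
    have e5 : ip b b = ‖b‖ ^ 2 := real_inner_self_eq_norm_sq b
    rw [e5, hc0]
    field_simp
  have hl1sq : ∫ x, l1 x ^ 2 ∂sph = 4 * π * c0 ^ 2 + 4 * π / 3 * ‖b‖ ^ 2 := by
    have e : ∀ x, l1 x ^ 2 = c0 * l1 x + l1 x * ip x b := fun x => by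
      show (c0 + ip x b) ^ 2 = c0 * (c0 + ip x b) + (c0 + ip x b) * ip x b
      ring
    simp_rw [e]
    rw [integral_add (hl1i.const_mul _) (hl1ipi b), integral_const_mul, hl1int, hl1ip, ← hbm b]
    have e5 : ip b b = ‖b‖ ^ 2 := real_inner_self_eq_norm_sq b
    rw [e5, hc0]
    field_simp
  have hs2i : Integrable (fun x => s x ^ 2) sph :=
    S7_int (hs.pow_const 2) (C ^ 2) fun x _ => by
      rw [abs_pow]; exact pow_le_pow_left₀ (abs_nonneg _) (hC x) 2
  have hs02i : Integrable (fun x => s0 x ^ 2) sph :=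
    S7_int (hs0m.pow_const 2) ((C + (|c0| + ‖b‖)) ^ 2) fun x _ => by
      rw [abs_pow]; exact pow_le_pow_left₀ (abs_nonneg _) (hs0b x) 2
  have hl12i : Integrable (fun x => l1 x ^ 2) sph :=
    S7_int (hl1m.pow_const 2) ((|c0| + ‖b‖) ^ 2) fun x hx => by
      rw [abs_pow]; exact pow_le_pow_left₀ (abs_nonneg _) (hl1b x hx) 2
  have hs0l1i : Integrable (fun x => s0 x * l1 x) sph :=
    S7_int (hs0m.mul hl1m) ((C + (|c0| + ‖b‖)) * (|c0| + ‖b‖)) fun x hx => by
      rw [abs_mul]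
      exact mul_le_mul (hs0b x) (hl1b x hx) (abs_nonneg _) ((abs_nonneg _).trans (hs0b x))
  have hs0l1 : ∫ x, s0 x * l1 x ∂sph = 0 := by
    have e : ∀ x, s0 x * l1 x = c0 * s0 x + s0 x * ip x b := fun x => by
      show s0 x * (c0 + ip x b) = _
      ring
    simp_rw [e]
    have j1 : Integrable s0 sph := S7_int hs0m _ fun x _ => hs0b x
    have j2 : Integrable (fun u => s0 u * ip u b) sph :=
      S7_int (hs0m.mul (S7_ip_meas b)) ((C + (|c0| + ‖b‖)) * ‖b‖) fun x hx => by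
        rw [abs_mul]
        exact mul_le_mul (hs0b x) (S7_ip_le hx b) (abs_nonneg _) ((abs_nonneg _).trans (hs0b x))
    rw [integral_add (j1.const_mul _) j2, integral_const_mul, h0, h1, mul_zero, add_zero]
  have hsq : ∫ x, s x ^ 2 ∂sph = ∫ x, s0 x ^ 2 ∂sph + ∫ x, l1 x ^ 2 ∂sph := by
    have e : ∫ x, s x ^ 2 ∂sph = ∫ x, (s0 x ^ 2 + 2 * (s0 x * l1 x) + l1 x ^ 2) ∂sph := by
      refine integral_congr_ae ?_
      filter_upwards [S1b] with x hx
      have k1 : s x = s0 x + l1 x := by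
        show s x = s x - l x + l1 x
        rw [hll _ hx]; ring
      rw [k1]; ring
    rw [e, S7_add3 hs02i (hs0l1i.const_mul 2) hl12i, integral_const_mul, hs0l1, mul_zero,
      add_zero]
  -- the pair form
  have hpair : ∫ u, ∫ v, kN N u v * (s u - s v) ^ 2 ∂sph ∂sph =
      2 * ∫ x, s x ^ 2 ∂sph - 2 * S7_B N s s := by
    have hone : Measurable fun _ : V => (1 : ℝ) := measurable_const
    have hs2m : Measurable fun x => s x ^ 2 := hs.pow_const 2
    have hs2b : ∀ x : V, ‖x‖ = 1 → |s x ^ 2| ≤ C ^ 2 := fun x _ => by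
      rw [abs_pow]; exact pow_le_pow_left₀ (abs_nonneg _) (hC x) 2
    have honeb : ∀ x : V, ‖x‖ = 1 → |(1 : ℝ)| ≤ 1 := fun x _ => by simp
    have i1 := S7_int2 N hs2m hone _ _ hs2b honeb
    have i2 := S7_int2 N hone hs2m _ _ honeb hs2b
    have i3 := S7_int2 N hs hs _ _ (fun x _ => hC x) (fun x _ => hC x)
    have i4 : Integrable (fun z : V × V => kN N z.1 z.2 * (s z.1 - s z.2) ^ 2) (sph.prod sph) := by
      refine ((i1.add i2).sub (i3.const_mul 2)).congr (Filter.Eventually.of_forall fun z => ?_)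
      simp only [Pi.add_apply, Pi.sub_apply]
      ring
    have e1 : ∫ u, ∫ v, kN N u v * (s u - s v) ^ 2 ∂sph ∂sph =
        ∫ z : V × V, kN N z.1 z.2 * (s z.1 - s z.2) ^ 2 ∂(sph.prod sph) :=
      (integral_prod (fun z : V × V => kN N z.1 z.2 * (s z.1 - s z.2) ^ 2) i4).symm
    have e2 : ∫ z : V × V, kN N z.1 z.2 * (s z.1 - s z.2) ^ 2 ∂(sph.prod sph) =
        S7_B N (fun x => s x ^ 2) (fun _ => 1) + S7_B N (fun _ => 1) (fun x => s x ^ 2) -
          2 * S7_B N s s := by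
      have e5 : ∀ z : V × V, kN N z.1 z.2 * (s z.1 - s z.2) ^ 2 =
          kN N z.1 z.2 * (s z.1 ^ 2 * 1) - 2 * (kN N z.1 z.2 * (s z.1 * s z.2)) +
            kN N z.1 z.2 * (1 * s z.2 ^ 2) := fun z => by ring
      simp_rw [e5]
      rw [S7_sub3 i1 (i3.const_mul 2) i2, integral_const_mul, S7_B, S7_B, S7_B]
      ring
    have e3 : S7_B N (fun x => s x ^ 2) (fun _ => 1) = ∫ x, s x ^ 2 ∂sph := by
      have h4 := S7_B_lin N hs2m _ hs2b 1 0
      have e4 : (fun x : V => (1 : ℝ) + ip x 0) = fun _ => 1 := by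
        funext x
        show (1 : ℝ) + inner ℝ x 0 = 1
        rw [inner_zero_right, add_zero]
      rw [e4] at h4
      rw [h4]
      refine integral_congr_ae (Filter.Eventually.of_forall fun u => ?_)
      show s u ^ 2 * (1 + (N : ℝ) / (N + 2) * inner ℝ u 0) = s u ^ 2
      rw [inner_zero_right]
      ring
    rw [e1, e2, S7_B_symm N (fun _ => 1), e3]
    ring
  have hbn : ‖b‖ ^ 2 = 9 / (16 * π ^ 2) * ‖m‖ ^ 2 := by
    rw [hb, norm_smul, Real.norm_eq_abs, abs_of_pos (by positivity)]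
    field_simp
    ring
  have hs0sq : ∫ x, s0 x ^ 2 ∂sph =
      ∫ x, s x ^ 2 ∂sph - I0 ^ 2 / (4 * π) - 3 / (4 * π) * ‖m‖ ^ 2 := by
    have : ∫ x, s0 x ^ 2 ∂sph = ∫ x, s x ^ 2 ∂sph - ∫ x, l1 x ^ 2 ∂sph := by linarith
    rw [this, hl1sq, hbn, hc0]
    field_simp
    ring
  rw [hpair, ← hs0sq, hQ, hB0, hBl, hsq, hl1sq]
  set X : ℝ := ∫ x, s0 x ^ 2 ∂sph with hX
  have hX0 : 0 ≤ X := integral_nonneg fun x => sq_nonneg _
  have hN : (0 : ℝ) ≤ N := Nat.cast_nonneg N
  have f1 : 12 * ((N : ℝ) + 1) / ((N + 2) * (N + 3)) * X =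
      2 * X - 2 * ((N : ℝ) * (N - 1) / ((N + 2) * (N + 3)) * X) := by
    field_simp
    ring
  have f2 : (N : ℝ) / (N + 2) * (4 * π / 3 * ‖b‖ ^ 2) ≤ 4 * π / 3 * ‖b‖ ^ 2 := by
    refine mul_le_of_le_one_left (by positivity) ?_
    rw [div_le_one (by positivity)]
    linarith
  rw [f1]
  linarith

end Iso
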