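import Pool.Agent.Lib_helper3.Iso.E2
import Pool.Agent.Lib_helper3.Iso.S7
noncomputable section
namespace Iso
open MeasureTheory Real Set

theorem E3_meas_cone (t : Tr) : MeasurableSet (Cone t) := by
  have h : Cone t = {x | 0 < det3 t.1 t.2.1 x} ∩ ({x | 0 < det3 t.2.1 t.2.2 x} ∩
      {x | 0 < det3 t.2.2 t.1 x}) := by
    ext x
    simp only [Cone, mem_ofPred_eq, mem_inter_iff]
  rw [h]
  have hc : ∀ a b : V, MeasurableSet {x : V | 0 < det3 a b x} := by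
    intro a b
    unfold det3 ip
    exact measurableSet_lt measurable_const (Continuous.measurable (by fun_prop))
  exact (hc _ _).inter ((hc _ _).inter (hc _ _))

theorem E3_bdd (X : Finset V) (s : Tr → ℝ) (x : V) : |sf X s x| ≤ (∑ t ∈ T X, |s t|) / 3 := by
  classical
  unfold sf
  rw [abs_div, abs_of_pos (by norm_num : (0:ℝ) < 3)]
  refine div_le_div_of_nonneg_right ?_ (by norm_num)
  refine (Finset.abs_sum_le_sum_abs _ _).trans (Finset.sum_le_sum fun t _ => ?_)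
  split_ifs
  · exact le_rfl
  · simp

theorem E3_w {X : Finset V} {δ : ℝ} (h0 : 0 ≤ δ) (h1 : δ ≤ 1 / 16) (hX : NB X δ) {t : Tr}
    (ht : t ∈ T X) : 0 < Fa t ∧ (1 - 4 * δ) * Fa t ≤ (sph (Cone t)).toReal ∧
      (sph (Cone t)).toReal ≤ (1 + 16 * δ) * Fa t := by
  obtain ⟨c1, c2⟩ := C3 h0 (by linarith) hX ht
  obtain ⟨d1, d2, d3⟩ := C5 h0 (by linarith) hX ht
  have e1 : Dt t / 2 = Fa t * hh t := by rw [G7h ht]; ring
  rw [e1] at c1 c2
  have hσ : 0 ≤ (sph (Cone t)).toReal := ENNReal.toReal_nonneg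
  set σ := (sph (Cone t)).toReal
  have f1 : Fa t * (1 - δ) ≤ Fa t * hh t := mul_le_mul_of_nonneg_left d1 d3.le
  have f2 : Fa t * hh t ≤ Fa t * (1 + δ) := mul_le_mul_of_nonneg_left d2 d3.le
  refine ⟨d3, ?_, ?_⟩
  · have g1 : (1 - 4 * δ) * (1 + δ) ^ 3 ≤ 1 - δ := by
      have : 0 ≤ 9 * δ ^ 2 + 11 * δ ^ 3 + 4 * δ ^ 4 := by positivity
      nlinarith
    have g2 : (1 - 4 * δ) * Fa t * (1 + δ) ^ 3 ≤ σ * (1 + δ) ^ 3 := by
      calc (1 - 4 * δ) * Fa t * (1 + δ) ^ 3 = Fa t * ((1 - 4 * δ) * (1 + δ) ^ 3) := by ring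
        _ ≤ Fa t * (1 - δ) := mul_le_mul_of_nonneg_left g1 d3.le
        _ ≤ σ * (1 + δ) ^ 3 := by linarith
    exact le_of_mul_le_mul_right g2 (by positivity)
  · have g0 : 1 - 3 * δ ≤ (1 - δ) ^ 3 := by
      have : 0 ≤ 3 * δ ^ 2 - δ ^ 3 := by nlinarith [sq_nonneg δ]
      nlinarith
    have g1 : 1 + δ ≤ (1 + 16 * δ) * (1 - 3 * δ) := by nlinarith
    have g2 : σ * (1 - 3 * δ) ≤ (1 + 16 * δ) * Fa t * (1 - 3 * δ) := by
      calc σ * (1 - 3 * δ) ≤ σ * (1 - δ) ^ 3 := mul_le_mul_of_nonneg_left g0 hσ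
        _ ≤ Fa t * (1 + δ) := by linarith
        _ ≤ Fa t * ((1 + 16 * δ) * (1 - 3 * δ)) := mul_le_mul_of_nonneg_left g1 d3.le
        _ = (1 + 16 * δ) * Fa t * (1 - 3 * δ) := by ring
    exact le_of_mul_le_mul_right g2 (by linarith)

/-- Cauchy-Schwarz with weights -/
theorem E3_cs (S : Finset Tr) (w s : Tr → ℝ) (hw : ∀ t ∈ S, 0 ≤ w t) :
    (∑ t ∈ S, |s t| * w t) ^ 2 ≤ (∑ t ∈ S, w t) * ∑ t ∈ S, w t * s t ^ 2 := by
  have h := Finset.sum_mul_sq_le_sq_mul_sq S (fun t => √(w t)) (fun t => √(w t) * |s t|)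
  have e1 : ∑ t ∈ S, √(w t) * (√(w t) * |s t|) = ∑ t ∈ S, |s t| * w t := by
    refine Finset.sum_congr rfl fun t ht => ?_
    rw [← mul_assoc, Real.mul_self_sqrt (hw t ht), mul_comm]
  have e2 : ∑ t ∈ S, √(w t) ^ 2 = ∑ t ∈ S, w t :=
    Finset.sum_congr rfl fun t ht => Real.sq_sqrt (hw t ht)
  have e3 : ∑ t ∈ S, (√(w t) * |s t|) ^ 2 = ∑ t ∈ S, w t * s t ^ 2 := by
    refine Finset.sum_congr rfl fun t ht => ?_
    rw [mul_pow, Real.sq_sqrt (hw t ht), sq_abs]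
  rwa [e1, e2, e3] at h

/-- the sum of `|s| F` -/
theorem E3_l1 {X : Finset V} {δ : ℝ} (h0 : 0 ≤ δ) (h1 : δ ≤ 1 / 16) (hX : NB X δ) (s : Tr → ℝ) :
    (∑ t ∈ T X, |s t| * Fa t) ^ 2 ≤ 16 * π * ∑ t ∈ T X, Fa t * s t ^ 2 := by
  have hF : ∀ t ∈ T X, 0 ≤ Fa t := fun t ht => (E3_w h0 h1 hX ht).1.le
  refine (E3_cs (T X) Fa s hF).trans ?_
  refine mul_le_mul_of_nonneg_right ?_ (Finset.sum_nonneg fun t ht => mul_nonneg (hF t ht) (sq_nonneg _))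
  have h2 : ∑ t ∈ T X, 3 / 4 * Fa t ≤ ∑ t ∈ T X, (sph (Cone t)).toReal := by
    refine Finset.sum_le_sum fun t ht => ?_
    obtain ⟨a1, a2, -⟩ := E3_w h0 h1 hX ht
    nlinarith
  rw [C2 hX.gp, ← Finset.mul_sum] at h2
  linarith

/-- integrals over the cones -/
theorem E3_int {X : Finset V} (hX : GP X) (s : Tr → ℝ) (hs : ∀ t ∈ T X, s (rot t) = s t)
    (g : ℝ → ℝ) (f : V → ℝ) {t : Tr} (ht : t ∈ T X) :
    ∫ x in Cone t, g (sf X s x) * f x ∂sph = g (s t) * ∫ x in Cone t, f x ∂sph := by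
  rw [← integral_const_mul]
  refine setIntegral_congr_fun (E3_meas_cone t) fun x hx => ?_
  show g (sf X s x) * f x = g (s t) * f x
  rw [G5d hX s hs ht hx]

theorem E3_int1 {X : Finset V} (hX : GP X) (s : Tr → ℝ) (hs : ∀ t ∈ T X, s (rot t) = s t)
    (g : ℝ → ℝ) {t : Tr} (ht : t ∈ T X) :
    ∫ x in Cone t, g (sf X s x) ∂sph = g (s t) * (sph (Cone t)).toReal := by
  have h := E3_int hX s hs g (fun _ => 1) ht
  simp only [mul_one, integral_const, smul_eq_mul] at h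
  rw [h]
  simp [Measure.real]

theorem E3_first {X : Finset V} {δ : ℝ} (h0 : 0 ≤ δ) (h1 : δ ≤ 1 / 16) (hX : NB X δ) (s : Tr → ℝ)
    (hs : ∀ t ∈ T X, s (rot t) = s t) :
    (1 - 4 * δ) * ((∑ t ∈ T X, Fa t * s t ^ 2) / 3) ≤ ∫ x, sf X s x ^ 2 ∂sph := by
  have hm := sf_meas X s
  have h2 := C2b hX.gp (fun x => sf X s x ^ 2) (hm.pow_const 2) (((∑ t ∈ T X, |s t|) / 3) ^ 2)
    (fun x => by
      rw [abs_pow]
      exact pow_le_pow_left₀ (abs_nonneg _) (E3_bdd X s x) 2)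
  have h3 : ∑ t ∈ T X, ∫ x in Cone t, sf X s x ^ 2 ∂sph =
      ∑ t ∈ T X, s t ^ 2 * (sph (Cone t)).toReal :=
    Finset.sum_congr rfl fun t ht => E3_int1 hX.gp s hs (fun r => r ^ 2) ht
  rw [h3] at h2
  have h4 : (1 - 4 * δ) * ∑ t ∈ T X, Fa t * s t ^ 2 ≤ ∑ t ∈ T X, s t ^ 2 * (sph (Cone t)).toReal := by
    rw [Finset.mul_sum]
    refine Finset.sum_le_sum fun t ht => ?_
    obtain ⟨-, a2, -⟩ := E3_w h0 h1 hX ht
    nlinarith [sq_nonneg (s t)]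
  linarith

theorem E3_second {X : Finset V} {δ : ℝ} (h0 : 0 ≤ δ) (h1 : δ ≤ 1 / 16) (hX : NB X δ) (s : Tr → ℝ)
    (hs : ∀ t ∈ T X, s (rot t) = s t) (hz : ∑ t ∈ T X, Fa t * s t = 0) :
    |3 * ∫ x, sf X s x ∂sph| ≤ 16 * δ * ∑ t ∈ T X, |s t| * Fa t := by
  have hm := sf_meas X s
  have h2 := C2b hX.gp (fun x => sf X s x) hm _ (E3_bdd X s)
  have h3 : ∑ t ∈ T X, ∫ x in Cone t, sf X s x ∂sph =
      ∑ t ∈ T X, s t * (sph (Cone t)).toReal :=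
    Finset.sum_congr rfl fun t ht => E3_int1 hX.gp s hs (fun r => r) ht
  rw [h3] at h2
  rw [← h2]
  have h4 : ∑ t ∈ T X, s t * (sph (Cone t)).toReal =
      ∑ t ∈ T X, s t * ((sph (Cone t)).toReal - Fa t) := by
    have : ∑ t ∈ T X, s t * ((sph (Cone t)).toReal - Fa t) =
        ∑ t ∈ T X, s t * (sph (Cone t)).toReal - ∑ t ∈ T X, Fa t * s t := by
      rw [← Finset.sum_sub_distrib]
      exact Finset.sum_congr rfl fun t _ => by ring
    rw [this, hz, sub_zero]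
  rw [h4, Finset.mul_sum]
  refine (Finset.abs_sum_le_sum_abs _ _).trans (Finset.sum_le_sum fun t ht => ?_)
  obtain ⟨a1, a2, a3⟩ := E3_w h0 h1 hX ht
  rw [abs_mul]
  have h5 : |(sph (Cone t)).toReal - Fa t| ≤ 16 * δ * Fa t := by
    rw [abs_le]
    constructor <;> nlinarith
  calc |s t| * |(sph (Cone t)).toReal - Fa t| ≤ |s t| * (16 * δ * Fa t) :=
        mul_le_mul_of_nonneg_left h5 (abs_nonneg _)
    _ = 16 * δ * (|s t| * Fa t) := by ring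

theorem E3_unit (x a : V) : |ip (‖x‖⁻¹ • x) a| ≤ ‖a‖ := by
  have h1 : ‖(‖x‖⁻¹ • x : V)‖ ≤ 1 := by
    rw [norm_smul, norm_inv, norm_norm]
    exact inv_mul_le_one
  calc |ip (‖x‖⁻¹ • x) a| ≤ ‖(‖x‖⁻¹ • x : V)‖ * ‖a‖ := abs_real_inner_le_norm _ _
    _ ≤ 1 * ‖a‖ := mul_le_mul_of_nonneg_right h1 (norm_nonneg _)
    _ = ‖a‖ := one_mul _

theorem E3_third {X : Finset V} {δ : ℝ} (h0 : 0 ≤ δ) (h1 : δ ≤ 1 / 16) (hX : NB X δ) (s : Tr → ℝ)
    (hs : ∀ t ∈ T X, s (rot t) = s t) (hz : ∑ t ∈ T X, (Fa t * s t) • nn t = 0) :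
    3 * ‖∫ x, sf X s x • x ∂sph‖ ≤ 8 * √δ * ∑ t ∈ T X, |s t| * Fa t := by
  have hm := sf_meas X s
  set w : V := ∫ x, sf X s x • x ∂sph with hw
  set C : ℝ := (∑ t ∈ T X, |s t|) / 3 with hC
  have hC0 : 0 ≤ C := by
    rw [hC]
    exact div_nonneg (Finset.sum_nonneg fun t _ => abs_nonneg _) (by norm_num)
  -- the function
  have hum : Measurable (fun x : V => ip (‖x‖⁻¹ • x) w) := by
    unfold ip
    refine Measurable.inner ?_ measurable_const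
    exact (measurable_norm.inv).smul measurable_id
  have h2 := C2b hX.gp (fun x => sf X s x * ip (‖x‖⁻¹ • x) w) (hm.mul hum) (C * ‖w‖)
    (fun x => by
      rw [abs_mul]
      exact mul_le_mul (E3_bdd X s x) (E3_unit x w) (abs_nonneg _) hC0)
  have hint : Integrable (fun x => sf X s x • x) sph := by
    refine Integrable.of_bound (hm.smul measurable_id).aestronglyMeasurable C ?_
    filter_upwards [S1b] with x hx
    rw [norm_smul, hx, mul_one, Real.norm_eq_abs]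
    exact E3_bdd X s x
  have h3 : ∫ x, sf X s x * ip (‖x‖⁻¹ • x) w ∂sph = ‖w‖ ^ 2 := by
    have h4 : ∫ x, sf X s x * ip (‖x‖⁻¹ • x) w ∂sph = ∫ x, inner ℝ w (sf X s x • x) ∂sph := by
      refine integral_congr_ae ?_
      filter_upwards [S1b] with x hx
      rw [hx, inv_one, one_smul, inner_smul_right, real_inner_comm]
    rw [h4, integral_inner hint w, ← hw, real_inner_self_eq_norm_sq]
  rw [h3] at h2
  -- every cone
  have h5 : ∀ t ∈ T X, |∫ x in Cone t, sf X s x * ip (‖x‖⁻¹ • x) w ∂sph -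
      Fa t * s t * ip (nn t) w| ≤ 8 * √δ * ‖w‖ * (|s t| * Fa t) := by
    intro t ht
    obtain ⟨a1, a2, a3⟩ := E3_w h0 h1 hX ht
    have hsq : √δ ≤ 1 / 4 := by
      rw [show (1 / 4 : ℝ) = √(1 / 16) by
        rw [show (1 / 16 : ℝ) = (1 / 4) ^ 2 by norm_num, Real.sqrt_sq (by norm_num)]]
      exact Real.sqrt_le_sqrt h1
    have hsq2 : √δ * √δ = δ := Real.mul_self_sqrt h0
    rw [E3_int hX.gp s hs (fun r => r) (fun x => ip (‖x‖⁻¹ • x) w) ht]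
    set σ := (sph (Cone t)).toReal with hσ
    have hnn : ‖nn t‖ = 1 := by
      unfold nn
      rw [norm_smul, norm_inv, norm_norm, inv_mul_cancel₀ (norm_ne_zero_iff.mpr (P_ne_zero ht))]
    have hipnn : |ip (nn t) w| ≤ ‖w‖ := by
      calc |ip (nn t) w| ≤ ‖nn t‖ * ‖w‖ := abs_real_inner_le_norm _ _
        _ = ‖w‖ := by rw [hnn, one_mul]
    have h6 : |∫ x in Cone t, ip (‖x‖⁻¹ • x) w ∂sph - σ * ip (nn t) w| ≤ 2 * √δ * ‖w‖ * σ := by
      have h7 : ∫ x in Cone t, ip (‖x‖⁻¹ • x) w ∂sph - σ * ip (nn t) w =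
          ∫ x in Cone t, (ip (‖x‖⁻¹ • x) w - ip (nn t) w) ∂sph := by
        rw [integral_sub]
        · rw [integral_const]
          simp [Measure.real, hσ]
        · refine Integrable.of_bound hum.aestronglyMeasurable ‖w‖ ?_
          exact Filter.Eventually.of_forall fun x => by
            rw [Real.norm_eq_abs]
            exact E3_unit x w
        · exact integrable_const _
      rw [h7, ← Real.norm_eq_abs]
      have h8 : ∀ᵐ x ∂(sph.restrict (Cone t)), ‖ip (‖x‖⁻¹ • x) w - ip (nn t) w‖ ≤ 2 * √δ * ‖w‖ := by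
        rw [ae_restrict_iff' (E3_meas_cone t)]
        filter_upwards [S1b] with x hx hxc
        rw [hx, inv_one, one_smul, ← ip_sub_left, Real.norm_eq_abs]
        calc |ip (x - nn t) w| ≤ ‖x - nn t‖ * ‖w‖ := abs_real_inner_le_norm _ _
          _ ≤ 2 * √δ * ‖w‖ := mul_le_mul_of_nonneg_right
              (C4 h0 (by linarith) hX ht hxc hx).1 (norm_nonneg _)
      have h9 := norm_setIntegral_le_of_norm_le_const_ae (μ := sph) (s := Cone t)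
        (f := fun x => ip (‖x‖⁻¹ • x) w - ip (nn t) w) (C := 2 * √δ * ‖w‖)
        (measure_lt_top _ _) h8
      exact h9
    have h10 : (fun r : ℝ => r) (s t) * ∫ x in Cone t, ip (‖x‖⁻¹ • x) w ∂sph -
        Fa t * s t * ip (nn t) w = s t * ((∫ x in Cone t, ip (‖x‖⁻¹ • x) w ∂sph - σ * ip (nn t) w) +
          (σ - Fa t) * ip (nn t) w) := by ring
    rw [h10, abs_mul]
    have h11 : |(∫ x in Cone t, ip (‖x‖⁻¹ • x) w ∂sph - σ * ip (nn t) w) +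
          (σ - Fa t) * ip (nn t) w| ≤ 2 * √δ * ‖w‖ * σ + 16 * δ * Fa t * ‖w‖ := by
      refine (abs_add_le _ _).trans (add_le_add h6 ?_)
      rw [abs_mul]
      refine mul_le_mul ?_ hipnn (abs_nonneg _) (by positivity)
      rw [abs_le]
      constructor <;> nlinarith
    have hw0 : 0 ≤ ‖w‖ := norm_nonneg _
    have hsd : 0 ≤ √δ := Real.sqrt_nonneg _
    have h12 : 2 * √δ * ‖w‖ * σ + 16 * δ * Fa t * ‖w‖ ≤ 8 * √δ * ‖w‖ * Fa t := by
      have k1 : σ ≤ 2 * Fa t := by nlinarith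
      have k2 : 2 * √δ * ‖w‖ * σ ≤ 2 * √δ * ‖w‖ * (2 * Fa t) :=
        mul_le_mul_of_nonneg_left k1 (by positivity)
      have k3 : δ ≤ √δ * (1 / 4) := by
        calc δ = √δ * √δ := hsq2.symm
          _ ≤ √δ * (1 / 4) := mul_le_mul_of_nonneg_left hsq hsd
      have k4 : 16 * δ * Fa t * ‖w‖ ≤ 16 * (√δ * (1 / 4)) * Fa t * ‖w‖ := by
        have : 0 ≤ 16 * Fa t * ‖w‖ := by positivity
        nlinarith
      nlinarith
    calc |s t| * |(∫ x in Cone t, ip (‖x‖⁻¹ • x) w ∂sph - σ * ip (nn t) w) +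
          (σ - Fa t) * ip (nn t) w| ≤ |s t| * (8 * √δ * ‖w‖ * Fa t) :=
          mul_le_mul_of_nonneg_left (h11.trans h12) (abs_nonneg _)
      _ = 8 * √δ * ‖w‖ * (|s t| * Fa t) := by ring
  have h6 : ∑ t ∈ T X, Fa t * s t * ip (nn t) w = 0 := by
    have : ip (∑ t ∈ T X, (Fa t * s t) • nn t) w = ∑ t ∈ T X, Fa t * s t * ip (nn t) w := by
      unfold ip
      rw [sum_inner]
      exact Finset.sum_congr rfl fun t _ => by rw [inner_smul_left]; rfl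
    rw [← this, hz]
    simp [ip]
  have h7 : 3 * ‖w‖ ^ 2 ≤ 8 * √δ * ‖w‖ * ∑ t ∈ T X, |s t| * Fa t := by
    rw [← h2]
    calc ∑ t ∈ T X, ∫ x in Cone t, sf X s x * ip (‖x‖⁻¹ • x) w ∂sph
        = ∑ t ∈ T X, (∫ x in Cone t, sf X s x * ip (‖x‖⁻¹ • x) w ∂sph -
            Fa t * s t * ip (nn t) w) := by rw [Finset.sum_sub_distrib, h6, sub_zero]
      _ ≤ ∑ t ∈ T X, 8 * √δ * ‖w‖ * (|s t| * Fa t) :=
          Finset.sum_le_sum fun t ht => (le_abs_self _).trans (h5 t ht)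
      _ = 8 * √δ * ‖w‖ * ∑ t ∈ T X, |s t| * Fa t := by rw [Finset.mul_sum]
  rcases eq_or_lt_of_le (norm_nonneg w) with h8 | h8
  · rw [← h8, mul_zero]
    have : 0 ≤ ∑ t ∈ T X, |s t| * Fa t :=
      Finset.sum_nonneg fun t ht => mul_nonneg (abs_nonneg _) (E3_w h0 h1 hX ht).1.le
    positivity
  · have h9 : 3 * ‖w‖ * ‖w‖ ≤ (8 * √δ * ∑ t ∈ T X, |s t| * Fa t) * ‖w‖ := by nlinarith
    exact le_of_mul_le_mul_right h9 h8

/-- BLOCK E3a: comparison of `∫ (sf s)²`, `∫ sf s`, `∫ sf s • x` with the sums over the faces (C2b, C3, C4, C5, G7h):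
`sph (Cone t)` against `Fa t`, `x` against `nn t`. -/
theorem E3a (η : ℝ) (hη : 0 < η) : ∃ δ > 0, δ ≤ 1 / 4 ∧ ∀ X : Finset V, NB X δ → ∀ s : Tr → ℝ,
    (∀ t ∈ T X, s (rot t) = s t) → ∑ t ∈ T X, Fa t * s t = 0 → ∑ t ∈ T X, (Fa t * s t) • nn t = 0 →
    (1 - η) * ((∑ t ∈ T X, Fa t * s t ^ 2) / 3) ≤ ∫ x, sf X s x ^ 2 ∂sph ∧
    (∫ x, sf X s x ∂sph) ^ 2 ≤ η * ((∑ t ∈ T X, Fa t * s t ^ 2) / 3) ∧
    ‖∫ x, sf X s x • x ∂sph‖ ^ 2 ≤ η * ((∑ t ∈ T X, Fa t * s t ^ 2) / 3) := by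
  refine ⟨min (1 / 16) (η / 2000), lt_min (by norm_num) (by positivity),
    (min_le_left _ _).trans (by norm_num), ?_⟩
  intro X hX s hs hz1 hz2
  set δ := min (1 / 16) (η / 2000) with hδ
  have h0 : 0 ≤ δ := le_min (by norm_num) (by positivity)
  have h1 : δ ≤ 1 / 16 := min_le_left _ _
  have h2 : δ ≤ η / 2000 := min_le_right _ _
  have hF : ∀ t ∈ T X, 0 ≤ Fa t := fun t ht => (E3_w h0 h1 hX ht).1.le
  set A := ∑ t ∈ T X, Fa t * s t ^ 2 with hA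
  have hA0 : 0 ≤ A := Finset.sum_nonneg fun t ht => mul_nonneg (hF t ht) (sq_nonneg _)
  have hl1 := E3_l1 h0 h1 hX s
  rw [← hA] at hl1
  set B := ∑ t ∈ T X, |s t| * Fa t with hB
  have hB0 : 0 ≤ B := Finset.sum_nonneg fun t ht => mul_nonneg (abs_nonneg _) (hF t ht)
  have hpi : π ≤ 4 := Real.pi_le_four
  have hpi0 := Real.pi_pos
  have hB2 : B ^ 2 ≤ 64 * A := by nlinarith
  refine ⟨?_, ?_, ?_⟩
  · refine le_trans ?_ (E3_first h0 h1 hX s hs)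
    refine mul_le_mul_of_nonneg_right ?_ (by positivity)
    linarith
  · have h3 := E3_second h0 h1 hX s hs hz1
    rw [← hB] at h3
    have h4 : (3 * ∫ x, sf X s x ∂sph) ^ 2 ≤ (16 * δ * B) ^ 2 := by
      rw [← sq_abs]
      exact pow_le_pow_left₀ (abs_nonneg _) h3 2
    have h5 : (16 * δ * B) ^ 2 ≤ 256 * δ ^ 2 * (64 * A) := by
      calc (16 * δ * B) ^ 2 = 256 * δ ^ 2 * B ^ 2 := by ring
        _ ≤ 256 * δ ^ 2 * (64 * A) := mul_le_mul_of_nonneg_left hB2 (by positivity)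
    have h6 : δ ^ 2 ≤ η / 2000 * (1 / 16) := by
      calc δ ^ 2 = δ * δ := sq δ
        _ ≤ η / 2000 * (1 / 16) := mul_le_mul h2 h1 h0 (by positivity)
    have h7 : 256 * δ ^ 2 * (64 * A) ≤ 256 * (η / 2000 * (1 / 16)) * (64 * A) := by
      have : 0 ≤ 64 * A := by positivity
      nlinarith
    nlinarith
  · have h3 := E3_third h0 h1 hX s hs hz2
    rw [← hB] at h3
    have h4 : (3 * ‖∫ x, sf X s x • x ∂sph‖) ^ 2 ≤ (8 * √δ * B) ^ 2 :=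
      pow_le_pow_left₀ (by positivity) h3 2
    have h5 : (8 * √δ * B) ^ 2 ≤ 64 * δ * (64 * A) := by
      calc (8 * √δ * B) ^ 2 = 64 * (√δ) ^ 2 * B ^ 2 := by ring
        _ = 64 * δ * B ^ 2 := by rw [Real.sq_sqrt h0]
        _ ≤ 64 * δ * (64 * A) := mul_le_mul_of_nonneg_left hB2 (by positivity)
    have h7 : 64 * δ * (64 * A) ≤ 64 * (η / 2000) * (64 * A) := by
      have : 0 ≤ 64 * A := by positivity
      nlinarith
    nlinarith

theorem E3_mono {X : Finset V} {δ δ' : ℝ} (h : δ ≤ δ') (hX : NB X δ) : NB X δ' := by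
  refine ⟨hX.gp, fun x hx => (hX.up x hx).trans (by linarith), fun t ht => ?_⟩
  have h1 := hX.lo t ht
  have h2 : 0 ≤ ‖P t‖ := norm_nonneg _
  nlinarith

theorem E3_g4 {η n : ℝ} (hη : 0 < η) (hN0 : 0 ≤ n) (hNη : 8 ≤ n * η) :
    ((n + 2) * (n + 3) / (12 * (n + 1))) * (4 * (n + 1) / ((n + 1 / 2) * (n + 3 / 2))) ≤
      1 / 3 + η / 4 := by
  have e1 : ((n + 2) * (n + 3) / (12 * (n + 1))) * (4 * (n + 1) / ((n + 1 / 2) * (n + 3 / 2))) =
      1 / 3 + (n + 7 / 4) / ((n + 1 / 2) * (n + 3 / 2)) := by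
    field_simp
    ring
  rw [e1]
  have e2 : (n + 7 / 4) / ((n + 1 / 2) * (n + 3 / 2)) ≤ η / 4 := by
    rw [div_le_div_iff₀ (by positivity) (by norm_num)]
    have h1 : 8 * (n + 3 / 2) ≤ n * η * (n + 3 / 2) :=
      mul_le_mul_of_nonneg_right hNη (by positivity)
    have h2 : 0 ≤ η * (n + 3 / 2) := by positivity
    linarith [show η * ((n + 1 / 2) * (n + 3 / 2)) = n * η * (n + 3 / 2) + 1 / 2 * (η * (n + 3 / 2))
      by ring]
  linarith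

theorem E3_g5 {η M δ : ℝ} (hη : 0 < η) (hM0 : 0 < M) (hd2 : δ ≤ (η / (128 * M)) ^ 2) :
    M * (32 * √δ) ≤ η / 4 := by
  have e1 : √δ ≤ η / (128 * M) := by
    rw [← Real.sqrt_sq (show 0 ≤ η / (128 * M) by positivity)]
    exact Real.sqrt_le_sqrt hd2
  have e2 : M * (32 * √δ) ≤ M * (32 * (η / (128 * M))) :=
    mul_le_mul_of_nonneg_left (mul_le_mul_of_nonneg_left e1 (by norm_num)) hM0.le
  have e3 : M * (32 * (η / (128 * M))) = η / 4 := by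
    field_simp
    norm_num
  linarith

theorem E3_g1 {e A I1 I2 I3 : ℝ} (he0 : 0 < e) (hA0 : 0 ≤ A)
    (f1 : (1 - e) * A ≤ I1) (f2 : I2 ^ 2 ≤ e * A) (f3 : I3 ^ 2 ≤ e * A) :
    (1 - 2 * e) * A ≤ I1 - I2 ^ 2 / (4 * π) - 3 / (4 * π) * I3 ^ 2 := by
  have hpi := Real.pi_gt_three
  have hp : 0 ≤ e * A := mul_nonneg he0.le hA0
  have h4 : 4 ≤ 4 * π := by linarith
  have k1 : I2 ^ 2 / (4 * π) ≤ e * A / 4 :=
    (div_le_div_of_nonneg_right f2 (by positivity)).trans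
      (div_le_div_of_nonneg_left hp (by norm_num) h4)
  have k2 : 3 / (4 * π) * I3 ^ 2 ≤ 3 / 4 * (e * A) :=
    mul_le_mul (div_le_div_of_nonneg_left (by norm_num) (by norm_num) h4) f3 (sq_nonneg _)
      (by norm_num)
  linarith

theorem E3_fin {c e η A B M I J u v : ℝ} (hc : c = 1 / 3 + η) (he1 : e ≤ 1 / 4)
    (he2 : e * (4 * c) ≤ η) (hM0 : 0 < M) (hB0 : 0 ≤ B)
    (g1 : (1 - 2 * e) * A ≤ I) (hS7 : M⁻¹ * I ≤ J) (hE2 : J ≤ (u + v) * B)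
    (g4 : M * u ≤ 1 / 3 + η / 4) (g5 : M * v ≤ η / 4) : A ≤ c * B := by
  have g2 : M⁻¹ * ((1 - 2 * e) * A) ≤ (u + v) * B :=
    (mul_le_mul_of_nonneg_left g1 (by positivity)).trans (hS7.trans hE2)
  have g3 : (1 - 2 * e) * A ≤ M * ((u + v) * B) := by
    rwa [inv_mul_le_iff₀ hM0] at g2
  have g6 : (1 - 2 * e) * A ≤ (1 / 3 + η / 2) * B := by
    refine g3.trans ?_
    have : M * ((u + v) * B) = (M * u + M * v) * B := by ring
    rw [this]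
    exact mul_le_mul_of_nonneg_right (by linarith) hB0
  have g7 : 1 / 3 + η / 2 ≤ c * (1 - 2 * e) := by
    have : c * (1 - 2 * e) = c - (e * (4 * c)) / 2 := by ring
    rw [this, hc]
    rw [hc] at he2
    linarith
  have g8 : (1 - 2 * e) * A ≤ (1 - 2 * e) * (c * B) := by
    calc (1 - 2 * e) * A ≤ (1 / 3 + η / 2) * B := g6
      _ ≤ c * (1 - 2 * e) * B := mul_le_mul_of_nonneg_right g7 hB0
      _ = (1 - 2 * e) * (c * B) := by ring
  exact le_of_mul_le_mul_left g8 (by linarith)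

/-- BLOCK E3: the spectral inequality for functions on the faces of a nearly spherical polytope
(S7 against E2 with `N` large, then `δ` small). -/
theorem E3 (η : ℝ) (hη : 0 < η) : ∃ δ > 0, ∀ X : Finset V, NB X δ → ∀ s : Tr → ℝ,
    (∀ t ∈ T X, s (rot t) = s t) → ∑ t ∈ T X, Fa t * s t = 0 → ∑ t ∈ T X, (Fa t * s t) • nn t = 0 →
    (∑ t ∈ T X, Fa t * s t ^ 2) / 3 ≤
      (1 / 3 + η) * ((∑ t ∈ T X, La t / ka X t * (s t - s (twin X t)) ^ 2) / 2) := by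
  have hc0 : (0 : ℝ) < 1 / 3 + η := by positivity
  obtain ⟨e, he0, he1, he2⟩ : ∃ e : ℝ, 0 < e ∧ e ≤ 1 / 4 ∧ e * (4 * (1 / 3 + η)) ≤ η := by
    refine ⟨min (1 / 4) (η / (4 * (1 / 3 + η))), lt_min (by norm_num) (by positivity),
      min_le_left _ _, ?_⟩
    rw [← le_div_iff₀ (by positivity)]
    exact min_le_right _ _
  obtain ⟨δ1, hδ1, hδ14, hE3a⟩ := E3a e he0
  obtain ⟨N, hN⟩ := exists_nat_ge (8 / η)
  have hN0 : (0 : ℝ) ≤ N := Nat.cast_nonneg N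
  have hNη : 8 ≤ N * η := by
    rwa [div_le_iff₀ hη] at hN
  have g4 := E3_g4 hη hN0 hNη
  obtain ⟨M, hM⟩ : ∃ M : ℝ, M = ((N : ℝ) + 2) * (N + 3) / (12 * (N + 1)) := ⟨_, rfl⟩
  have hM0 : 0 < M := by rw [hM]; positivity
  rw [← hM] at g4
  obtain ⟨δ2, hδ20, hδ2⟩ : ∃ δ2 : ℝ, 0 < δ2 ∧ δ2 ≤ (η / (128 * M)) ^ 2 :=
    ⟨_, by positivity, le_rfl⟩
  refine ⟨min δ1 δ2, lt_min hδ1 hδ20, ?_⟩
  intro X hX s hs hz1 hz2
  obtain ⟨δ, hδ⟩ : ∃ δ : ℝ, δ = min δ1 δ2 := ⟨_, rfl⟩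
  rw [← hδ] at hX
  have hd0 : 0 ≤ δ := hδ ▸ le_min hδ1.le hδ20.le
  have hd1 : δ ≤ δ1 := hδ ▸ min_le_left _ _
  have hd2 : δ ≤ (η / (128 * M)) ^ 2 := (hδ ▸ min_le_right _ _ : δ ≤ δ2).trans hδ2
  obtain ⟨f1, f2, f3⟩ := hE3a X (E3_mono hd1 hX) s hs hz1 hz2
  have hE2 := E2 hd0 (hd1.trans hδ14) hX s hs N
  have hS7 := S7 N (sf X s) (sf_meas X s) _ (E3_bdd X s)
  have hA0 : 0 ≤ (∑ t ∈ T X, Fa t * s t ^ 2) / 3 := by
    refine div_nonneg (Finset.sum_nonneg fun t ht => mul_nonneg ?_ (sq_nonneg _)) (by norm_num)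
    exact (C5 hd0 (by linarith) hX ht).2.2.le
  have hB0 : 0 ≤ (∑ t ∈ T X, La t / ka X t * (s t - s (twin X t)) ^ 2) / 2 := by
    refine div_nonneg (Finset.sum_nonneg fun t ht => mul_nonneg ?_ (sq_nonneg _)) (by norm_num)
    exact div_nonneg (InnerProductGeometry.angle_nonneg _ _) (norm_nonneg _)
  have hκ : 12 * ((N : ℝ) + 1) / ((N + 2) * (N + 3)) = M⁻¹ := by
    rw [hM, inv_div]
  rw [hκ] at hS7
  exact E3_fin rfl he1 he2 hM0 hB0 (E3_g1 he0 hA0 f1 f2 f3) hS7 hE2 g4 (E3_g5 hη hM0 hd2)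

end Iso
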