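import Pool.Agent.Lib_helper3.Iso.KDefs
noncomputable section
namespace Iso
open Real

theorem K2_eq {w θ : ℝ} (hc : cos θ ≠ 0) (hw : w = tan θ) (hne : √3 - w ≠ 0) :
    2 * √3 * (3 / 4 / cos (π / 6 + θ) ^ 2 - 1) = 4 * √3 * w * (w + √3) / (√3 - w) ^ 2 := by
  have hs2 : √3 ^ 2 = 3 := Real.sq_sqrt (by norm_num)
  have h1 : cos (π / 6 + θ) = cos θ * ((√3 - w) / 2) := by
    rw [cos_add, cos_pi_div_six, sin_pi_div_six, hw, tan_eq_sin_div_cos]
    field_simp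
  have h2 : cos θ ^ 2 * (1 + w ^ 2) = 1 := by
    rw [hw, tan_eq_sin_div_cos]
    field_simp
    exact cos_sq_add_sin_sq θ
  have h3 : 3 / 4 / cos (π / 6 + θ) ^ 2 = 3 * (1 + w ^ 2) / (√3 - w) ^ 2 := by
    rw [h1, div_eq_div_iff (by positivity) (by positivity)]
    have : (cos θ * ((√3 - w) / 2)) ^ 2 = cos θ ^ 2 * ((√3 - w) ^ 2 / 4) := by ring
    rw [this]
    linear_combination (-(3 / 4) * (√3 - w) ^ 2) * h2
  rw [h3]
  have h4 : 3 * (1 + w ^ 2) / (√3 - w) ^ 2 - 1 = 2 * w * (w + √3) / (√3 - w) ^ 2 := by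
    rw [eq_div_iff (by positivity), sub_mul, div_mul_cancel₀ _ (by positivity)]
    linear_combination (-1) * hs2
  rw [h4]
  ring

/-- `Greg s = 4 w (1 + w/√3)/(1 - w/√3)^2` with `w = tan (s/4)`; for `s = 8 arctan (W/2)`:
`w = tan (2 arctan (W/2)) = W/(1 - W^2/4)`.  BLOCK K2 (numerically `(lhs-rhs+12W^4)/W^4 >= 2` at W <= 1/10). -/
theorem K2 {W : ℝ} (h0 : 0 ≤ W) (h1 : W ≤ 1 / 10) :
    Greg (8 * arctan (W / 2)) ≤ 4 * W * (1 + √3 * W + 23 / 12 * W ^ 2) + 12 * W ^ 4 := by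
  have hs2 : √3 ^ 2 = 3 := Real.sq_sqrt (by norm_num)
  have hs0 : 0 < √3 := Real.sqrt_pos.2 (by norm_num)
  have hsl : 1.732 < √3 := Real.lt_sqrt_of_sq_lt (by norm_num)
  have hsu : √3 < 1.7321 := (Real.sqrt_lt' (by norm_num)).2 (by norm_num)
  have hW2 : W ^ 2 ≤ 1 / 100 := by nlinarith
  have h4 : 0 < 4 - W ^ 2 := by linarith
  set θ := 2 * arctan (W / 2) with hθ
  have hcos : 0 < cos θ := by
    rw [hθ, cos_two_mul]
    have h5 : cos (arctan (W / 2)) ^ 2 = 1 / (1 + (W / 2) ^ 2) := by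
      rw [cos_arctan, div_pow, one_pow, Real.sq_sqrt (by positivity)]
    rw [h5]
    have h6 : 1 / (1 + (W / 2) ^ 2) ≥ 1 / (1 + 1 / 400) := by
      apply one_div_le_one_div_of_le (by positivity)
      nlinarith
    have : (1 : ℝ) / (1 + 1 / 400) = 400 / 401 := by norm_num
    rw [this] at h6
    linarith
  have htan : W / (1 - W ^ 2 / 4) = tan θ := by
    rw [hθ, tan_two_mul, tan_arctan]
    congr 1
    · ring
    · ring
  have hw : W / (1 - W ^ 2 / 4) = 4 * W / (4 - W ^ 2) := by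
    rw [div_eq_div_iff (by nlinarith) h4.ne']
    ring
  set w := 4 * W / (4 - W ^ 2) with hwdef
  have hw1 : w ≤ 1 / 5 := by
    rw [hwdef, div_le_iff₀ h4]
    nlinarith
  have hwne : √3 - w ≠ 0 := by
    have : 0 < √3 - w := by linarith
    exact this.ne'
  have hG : Greg (8 * arctan (W / 2)) = 4 * √3 * w * (w + √3) / (√3 - w) ^ 2 := by
    have := K2_eq hcos.ne' (w := w) (by rw [← hw]; exact htan) hwne
    rw [← this]
    unfold Greg
    congr 5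
    rw [hθ]
    ring
  rw [hG]
  have hpos : 0 < (√3 - w) ^ 2 := by positivity
  rw [div_le_iff₀ hpos]
  have e1 : 4 * √3 * w * (w + √3) = 4 * W * (48 + 16 * √3 * W - 12 * W ^ 2) / (4 - W ^ 2) ^ 2 := by
    rw [hwdef]
    field_simp
    linear_combination (4 * W * (4 - W ^ 2)) * hs2
  have e2 : (√3 - w) ^ 2 = (48 - 32 * √3 * W - 8 * W ^ 2 + 8 * √3 * W ^ 3 + 3 * W ^ 4) / (4 - W ^ 2) ^ 2 := by
    rw [hwdef]
    field_simp
    linear_combination (4 - W ^ 2) ^ 2 * hs2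
  rw [e1, e2, ← mul_div_assoc]
  refine div_le_div_of_nonneg_right ?_ (by positivity)
  have e3 : (4 * W * (1 + √3 * W + 23 / 12 * W ^ 2) + 12 * W ^ 4) *
      (48 - 32 * √3 * W - 8 * W ^ 2 + 8 * √3 * W ^ 3 + 3 * W ^ 4)
      - 4 * W * (48 + 16 * √3 * W - 12 * W ^ 2)
      = 4 * W ^ 4 * ((144 - 184 / 3 * √3) + (3 + 24 - 46 / 3 - 96 * √3) * W
          + (3 * √3 + 46 / 3 * √3 - 24) * W ^ 2 + (23 / 4 + 24 * √3) * W ^ 3 + 9 * W ^ 4) := by
    linear_combination (4 * W ^ 3 * (8 * W ^ 2 - 32)) * hs2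
  have h5 : 0 ≤ (144 - 184 / 3 * √3) + (3 + 24 - 46 / 3 - 96 * √3) * W
          + (3 * √3 + 46 / 3 * √3 - 24) * W ^ 2 + (23 / 4 + 24 * √3) * W ^ 3 + 9 * W ^ 4 := by
    have h6 : 37 ≤ 144 - 184 / 3 * √3 := by linarith
    have h7 : -16 ≤ (3 + 24 - 46 / 3 - 96 * √3) * W := by nlinarith
    have h8 : 0 ≤ (3 * √3 + 46 / 3 * √3 - 24) * W ^ 2 := mul_nonneg (by linarith) (by positivity)
    have h9 : 0 ≤ (23 / 4 + 24 * √3) * W ^ 3 := by positivity
    have h10 : 0 ≤ 9 * W ^ 4 := by positivity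
    linarith
  have h6 : 0 ≤ 4 * W ^ 4 * ((144 - 184 / 3 * √3) + (3 + 24 - 46 / 3 - 96 * √3) * W
          + (3 * √3 + 46 / 3 * √3 - 24) * W ^ 2 + (23 / 4 + 24 * √3) * W ^ 3 + 9 * W ^ 4) :=
    mul_nonneg (by positivity) h5
  linarith

/-- monotonicity -/
theorem Greg_mono {s s' : ℝ} (h0 : 0 ≤ s) (h : s ≤ s') (h1 : s' ≤ 1) : Greg s ≤ Greg s' := by
  unfold Greg
  have hpi : 3 < π := pi_gt_three
  have hpi4 : π < 3.15 := by
    have := pi_lt_d2
    exact this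
  have hc : cos (π / 6 + s' / 4) ≤ cos (π / 6 + s / 4) := by
    apply cos_le_cos_of_nonneg_of_le_pi
    · positivity
    · linarith
    · linarith
  have hc0 : 0 < cos (π / 6 + s' / 4) := by
    apply cos_pos_of_mem_Ioo
    constructor
    · linarith
    · linarith
  have h2 : cos (π / 6 + s' / 4) ^ 2 ≤ cos (π / 6 + s / 4) ^ 2 := pow_le_pow_left₀ hc0.le hc 2
  have h3 : 3 / 4 / cos (π / 6 + s / 4) ^ 2 ≤ 3 / 4 / cos (π / 6 + s' / 4) ^ 2 :=
    div_le_div_of_nonneg_left (by norm_num) (by positivity) h2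
  have : 0 ≤ 2 * √3 := by positivity
  nlinarith

theorem Greg_zero : Greg 0 = 0 := by
  unfold Greg
  have hs2 : √3 ^ 2 = 3 := Real.sq_sqrt (by norm_num)
  have h : cos (π / 6 + 0 / 4) ^ 2 = 3 / 4 := by
    rw [zero_div, add_zero, cos_pi_div_six, div_pow, hs2]
    norm_num
  rw [h]
  norm_num

end Iso
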