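import Pool.Agent.Lib_helper3.Iso.KDefs
noncomputable section
namespace Iso
open Real

theorem K3_odd {F : ℝ → ℝ} (hodd : ∀ x, F (-x) = -F x)
    (hm : ∀ a b, 0 ≤ a → a ≤ b → b ≤ 1 / 10 → F a ≤ F b) {x y : ℝ} (hx : |x| ≤ 1 / 10)
    (hy : |y| ≤ 1 / 10) (h : 0 ≤ x + y) : 0 ≤ F x + F y := by
  have hx' := abs_le.1 hx
  have hy' := abs_le.1 hy
  have h0 : F 0 = 0 := by
    have := hodd 0
    rw [neg_zero] at this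
    linarith
  rcases le_total 0 x with h1 | h1
  · rcases le_total 0 y with h2 | h2
    · have h3 := hm 0 x le_rfl h1 hx'.2
      have h4 := hm 0 y le_rfl h2 hy'.2
      rw [h0] at h3 h4
      exact add_nonneg h3 h4
    · have h3 := hm (-y) x (by linarith) (by linarith) hx'.2
      rw [hodd] at h3
      linarith
  · have h3 := hm (-x) y (by linarith) (by linarith) hy'.2
    rw [hodd] at h3
    linarith

theorem K3_r_mono (a b : ℝ) (ha : 0 ≤ a) (hab : a ≤ b) (hb : b ≤ 1 / 10) :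
    a ^ 7 * (7 - 5 * a ^ 2) / (1 - a ^ 2) ^ 2 ≤ b ^ 7 * (7 - 5 * b ^ 2) / (1 - b ^ 2) ^ 2 := by
  have hb0 : 0 ≤ b := ha.trans hab
  have hbb : b ^ 2 ≤ 1 / 100 := by nlinarith
  have haa : a ^ 2 ≤ b ^ 2 := pow_le_pow_left₀ ha hab 2
  have h1 : a ^ 6 ≤ b ^ 6 := pow_le_pow_left₀ ha hab 6
  have h2 : a * (7 - 5 * a ^ 2) ≤ b * (7 - 5 * b ^ 2) := by
    have h3 : b * (7 - 5 * b ^ 2) - a * (7 - 5 * a ^ 2)
        = (b - a) * (7 - 5 * (b ^ 2 + a * b + a ^ 2)) := by ring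
    have h4 : a * b ≤ b ^ 2 := by nlinarith
    have h5 : 0 ≤ (b - a) * (7 - 5 * (b ^ 2 + a * b + a ^ 2)) :=
      mul_nonneg (by linarith) (by linarith)
    linarith
  have h3 : 0 ≤ a * (7 - 5 * a ^ 2) := mul_nonneg ha (by linarith)
  have h4 : a ^ 7 * (7 - 5 * a ^ 2) ≤ b ^ 7 * (7 - 5 * b ^ 2) := by
    have := mul_le_mul h1 h2 h3 (by positivity)
    calc a ^ 7 * (7 - 5 * a ^ 2) = a ^ 6 * (a * (7 - 5 * a ^ 2)) := by ring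
      _ ≤ b ^ 6 * (b * (7 - 5 * b ^ 2)) := this
      _ = _ := by ring
  have h5 : (0 : ℝ) < (1 - b ^ 2) ^ 2 := by
    have : 0 < 1 - b ^ 2 := by linarith
    positivity
  have h6 : (1 - b ^ 2) ^ 2 ≤ (1 - a ^ 2) ^ 2 := pow_le_pow_left₀ (by linarith) (by linarith) 2
  have h9 : 0 ≤ a ^ 7 * (7 - 5 * a ^ 2) := mul_nonneg (by positivity) (by linarith)
  exact div_le_div₀ (h9.trans h4) h4 h5 h6

theorem K3_s_mono (a b : ℝ) (ha : 0 ≤ a) (hab : a ≤ b) (hb : b ≤ 1 / 10) :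
    2 * a ^ 7 / (1 - a ^ 2) ≤ 2 * b ^ 7 / (1 - b ^ 2) := by
  have hb0 : 0 ≤ b := ha.trans hab
  have hbb : b ^ 2 ≤ 1 / 100 := by nlinarith
  have haa : a ^ 2 ≤ b ^ 2 := pow_le_pow_left₀ ha hab 2
  have h1 : a ^ 7 ≤ b ^ 7 := pow_le_pow_left₀ ha hab 7
  exact div_le_div₀ (by positivity) (by linarith) (by linarith) (by linarith)

theorem K3_f_eq {t : ℝ} (h : |t| ≤ 1 / 10) : t * (1 + t ^ 2) / (1 - t ^ 2) ^ 2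
    = t + 3 * t ^ 3 + 5 * t ^ 5 + t ^ 7 * (7 - 5 * t ^ 2) / (1 - t ^ 2) ^ 2 := by
  have h' := abs_le.1 h
  have h1 : (1 - t ^ 2) ≠ 0 := by
    have : 0 < 1 - t ^ 2 := by nlinarith
    exact this.ne'
  field_simp
  ring

theorem K3_g_eq {t : ℝ} (h : |t| ≤ 1 / 10) : 2 * t / (1 - t ^ 2)
    = 2 * (t + t ^ 3 + t ^ 5) + 2 * t ^ 7 / (1 - t ^ 2) := by
  have h' := abs_le.1 h
  have h1 : (1 - t ^ 2) ≠ 0 := by
    have : 0 < 1 - t ^ 2 := by nlinarith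
    exact this.ne'
  field_simp
  ring

theorem K3_fsum {t1 t2 T p : ℝ} (ht1 : |t1| ≤ 1 / 10) (ht2 : |t2| ≤ 1 / 10) (hT : 0 ≤ T)
    (eT : T = t1 + t2) (ep : p = (t2 - t1) / 2) :
    T * (1 + 3 / 4 * T ^ 2 + 9 * p ^ 2 + 5 / 16 * T ^ 4)
      ≤ t1 * (1 + t1 ^ 2) / (1 - t1 ^ 2) ^ 2 + t2 * (1 + t2 ^ 2) / (1 - t2 ^ 2) ^ 2 := by
  rw [K3_f_eq ht1, K3_f_eq ht2]
  have h2 := K3_odd (F := fun t => t ^ 7 * (7 - 5 * t ^ 2) / (1 - t ^ 2) ^ 2) (fun x => by ring)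
    K3_r_mono ht1 ht2 (by rw [← eT]; exact hT)
  have h3 : t1 + 3 * t1 ^ 3 + 5 * t1 ^ 5 + (t2 + 3 * t2 ^ 3 + 5 * t2 ^ 5)
      = T * (1 + 3 / 4 * T ^ 2 + 9 * p ^ 2 + 5 / 16 * T ^ 4)
        + T * (25 / 2 * T ^ 2 * p ^ 2 + 25 * p ^ 4) := by
    rw [eT, ep]
    ring
  have h4 : 0 ≤ T * (25 / 2 * T ^ 2 * p ^ 2 + 25 * p ^ 4) := by positivity
  linarith

theorem K3_gsum {v1 v2 U q : ℝ} (hv1 : |v1| ≤ 1 / 10) (hv2 : |v2| ≤ 1 / 10) (hU : 0 ≤ U)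
    (eU : U = v1 + v2) (eq : q = (v2 - v1) / 2) :
    2 * U * (1 + U ^ 2 / 4 + 3 * q ^ 2 + U ^ 4 / 16)
      ≤ 2 * v1 / (1 - v1 ^ 2) + 2 * v2 / (1 - v2 ^ 2) := by
  rw [K3_g_eq hv1, K3_g_eq hv2]
  have h2 := K3_odd (F := fun t => 2 * t ^ 7 / (1 - t ^ 2)) (fun x => by ring)
    K3_s_mono hv1 hv2 (by rw [← eU]; exact hU)
  have h3 : 2 * (v1 + v1 ^ 3 + v1 ^ 5) + 2 * (v2 + v2 ^ 3 + v2 ^ 5)
      = 2 * U * (1 + U ^ 2 / 4 + 3 * q ^ 2 + U ^ 4 / 16) + U * (5 * U ^ 2 * q ^ 2 + 10 * q ^ 4) := by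
    rw [eU, eq]
    ring
  have h4 : 0 ≤ U * (5 * U ^ 2 * q ^ 2 + 10 * q ^ 4) := by positivity
  linarith

/-- BLOCK K3. `f t = t(1+t^2)/(1-t^2)^2 = t + 3t^3 + 5t^5 + ...`: `f t - (t+3t^3+5t^5)` is odd and
increasing, so its sum over `t1, t2` is `>= 0` if `t1 + t2 >= 0`; same for
`2v/(1-v^2) = 2(v+v^3+v^5+...)`. Sums: `t1^3+t2^3 = T^3/4+3Tp^2`,
`t1^5+t2^5 = T^5/16 + 5/2 T^3 p^2 + 5 T p^4`. -/
theorem K3 {t1 t2 v1 v2 T U p q : ℝ} (ht1 : |t1| ≤ 1 / 10) (ht2 : |t2| ≤ 1 / 10) (hv1 : |v1| ≤ 1 / 10)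
    (hv2 : |v2| ≤ 1 / 10) (hT : 0 ≤ T) (hU : 0 ≤ U) (eT : T = t1 + t2) (eU : U = v1 + v2)
    (ep : p = (t2 - t1) / 2) (eq : q = (v2 - v1) / 2) :
    2 * (T * U) * ((1 + 3 / 4 * T ^ 2 + 9 * p ^ 2 + 5 / 16 * T ^ 4) *
      (1 + U ^ 2 / 4 + 3 * q ^ 2 + U ^ 4 / 16)) ≤ kiteG t1 t2 v1 v2 := by
  unfold kiteG
  have h1 := K3_fsum ht1 ht2 hT eT ep
  have h2 := K3_gsum hv1 hv2 hU eU eq
  have h3 : 0 ≤ 2 * U * (1 + U ^ 2 / 4 + 3 * q ^ 2 + U ^ 4 / 16) := by positivity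
  have h4 : 0 ≤ T * (1 + 3 / 4 * T ^ 2 + 9 * p ^ 2 + 5 / 16 * T ^ 4) := by positivity
  calc 2 * (T * U) * ((1 + 3 / 4 * T ^ 2 + 9 * p ^ 2 + 5 / 16 * T ^ 4) *
      (1 + U ^ 2 / 4 + 3 * q ^ 2 + U ^ 4 / 16))
      = (T * (1 + 3 / 4 * T ^ 2 + 9 * p ^ 2 + 5 / 16 * T ^ 4)) *
        (2 * U * (1 + U ^ 2 / 4 + 3 * q ^ 2 + U ^ 4 / 16)) := by ring
    _ ≤ _ := mul_le_mul h1 h2 h3 (h4.trans h1)

theorem K3b_f (a b : ℝ) (ha : 0 ≤ a) (hab : a ≤ b) (hb : b ≤ 1 / 10) :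
    11 / 10 * a - a * (1 + a ^ 2) / (1 - a ^ 2) ^ 2
      ≤ 11 / 10 * b - b * (1 + b ^ 2) / (1 - b ^ 2) ^ 2 := by
  have hb0 : 0 ≤ b := ha.trans hab
  have hbb : b ^ 2 ≤ 1 / 100 := by nlinarith
  have haa : a ^ 2 ≤ b ^ 2 := pow_le_pow_left₀ ha hab 2
  have hA : 0 < 1 - a ^ 2 := by linarith
  have hB : 0 < 1 - b ^ 2 := by linarith
  have hab2 : a * b ≤ b ^ 2 := by nlinarith
  have hab0 : 0 ≤ a * b := mul_nonneg ha hb0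
  have h1 : b * (1 + b ^ 2) / (1 - b ^ 2) ^ 2 - a * (1 + a ^ 2) / (1 - a ^ 2) ^ 2
      = (b - a) * (1 + a ^ 2 + b ^ 2 + 3 * (a * b) - 2 * (a * b) ^ 2
          - a * b * (a ^ 2 + a * b + b ^ 2) - (a * b) ^ 3) / ((1 - b ^ 2) ^ 2 * (1 - a ^ 2) ^ 2) := by
    field_simp
    ring
  have h2 : 1 + a ^ 2 + b ^ 2 + 3 * (a * b) - 2 * (a * b) ^ 2
          - a * b * (a ^ 2 + a * b + b ^ 2) - (a * b) ^ 3
      ≤ 11 / 10 * ((1 - b ^ 2) ^ 2 * (1 - a ^ 2) ^ 2) := by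
    have h3 : 0 ≤ 2 * (a * b) ^ 2 + a * b * (a ^ 2 + a * b + b ^ 2) + (a * b) ^ 3 := by positivity
    have h4 : 1 - 2 * a ^ 2 - 2 * b ^ 2 ≤ (1 - b ^ 2) ^ 2 * (1 - a ^ 2) ^ 2 := by
      have h5 : 1 - 2 * b ^ 2 ≤ (1 - b ^ 2) ^ 2 := by nlinarith [sq_nonneg (b ^ 2)]
      have h6 : 1 - 2 * a ^ 2 ≤ (1 - a ^ 2) ^ 2 := by nlinarith [sq_nonneg (a ^ 2)]
      have h7 : (1 - 2 * b ^ 2) * (1 - 2 * a ^ 2) ≤ (1 - b ^ 2) ^ 2 * (1 - a ^ 2) ^ 2 :=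
        mul_le_mul h5 h6 (by linarith) (by positivity)
      nlinarith [mul_nonneg (sq_nonneg a) (sq_nonneg b)]
    linarith
  have h3 : 0 < (1 - b ^ 2) ^ 2 * (1 - a ^ 2) ^ 2 := by positivity
  have h4 : (b - a) * (1 + a ^ 2 + b ^ 2 + 3 * (a * b) - 2 * (a * b) ^ 2
          - a * b * (a ^ 2 + a * b + b ^ 2) - (a * b) ^ 3) / ((1 - b ^ 2) ^ 2 * (1 - a ^ 2) ^ 2)
      ≤ 11 / 10 * (b - a) := by
    rw [div_le_iff₀ h3]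
    calc _ ≤ (b - a) * (11 / 10 * ((1 - b ^ 2) ^ 2 * (1 - a ^ 2) ^ 2)) :=
          mul_le_mul_of_nonneg_left h2 (by linarith)
      _ = _ := by ring
  linarith

theorem K3b_g (a b : ℝ) (ha : 0 ≤ a) (hab : a ≤ b) (hb : b ≤ 1 / 10) :
    53 / 25 * a - 2 * a / (1 - a ^ 2) ≤ 53 / 25 * b - 2 * b / (1 - b ^ 2) := by
  have hb0 : 0 ≤ b := ha.trans hab
  have hbb : b ^ 2 ≤ 1 / 100 := by nlinarith
  have haa : a ^ 2 ≤ b ^ 2 := pow_le_pow_left₀ ha hab 2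
  have hA : 0 < 1 - a ^ 2 := by linarith
  have hB : 0 < 1 - b ^ 2 := by linarith
  have hab2 : a * b ≤ b ^ 2 := by nlinarith
  have h1 : 2 * b / (1 - b ^ 2) - 2 * a / (1 - a ^ 2)
      = (b - a) * (2 * (1 + a * b)) / ((1 - b ^ 2) * (1 - a ^ 2)) := by
    field_simp
    ring
  have h3 : 0 < (1 - b ^ 2) * (1 - a ^ 2) := by positivity
  have h2 : 2 * (1 + a * b) ≤ 53 / 25 * ((1 - b ^ 2) * (1 - a ^ 2)) := by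
    nlinarith [mul_nonneg (sq_nonneg a) (sq_nonneg b)]
  have h4 : (b - a) * (2 * (1 + a * b)) / ((1 - b ^ 2) * (1 - a ^ 2)) ≤ 53 / 25 * (b - a) := by
    rw [div_le_iff₀ h3]
    calc _ ≤ (b - a) * (53 / 25 * ((1 - b ^ 2) * (1 - a ^ 2))) :=
          mul_le_mul_of_nonneg_left h2 (by linarith)
      _ = _ := by ring
  linarith

/-- upper bound (small angles); the constant `11/10` of the first version was too small (the limit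
of the quotient at `t1 = v1 = -1/10`, `t2 = v2 = 1/10` is `1.1258`) -/
theorem K3b {t1 t2 v1 v2 : ℝ} (ht1 : |t1| ≤ 1 / 10) (ht2 : |t2| ≤ 1 / 10) (hv1 : |v1| ≤ 1 / 10)
    (hv2 : |v2| ≤ 1 / 10) (hT : 0 ≤ t1 + t2) (hU : 0 ≤ v1 + v2) :
    kiteG t1 t2 v1 v2 ≤ 6 / 5 * (2 * ((t1 + t2) * (v1 + v2))) := by
  unfold kiteG
  have h1 := K3_odd (F := fun t => 11 / 10 * t - t * (1 + t ^ 2) / (1 - t ^ 2) ^ 2)
    (fun x => by ring) K3b_f ht1 ht2 hT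
  have h2 := K3_odd (F := fun t => 53 / 25 * t - 2 * t / (1 - t ^ 2))
    (fun x => by ring) K3b_g hv1 hv2 hU
  have h3 : 0 ≤ 2 * v1 / (1 - v1 ^ 2) + 2 * v2 / (1 - v2 ^ 2) := by
    have := K3_gsum hv1 hv2 hU rfl rfl
    refine le_trans ?_ this
    positivity
  have h4 : t1 * (1 + t1 ^ 2) / (1 - t1 ^ 2) ^ 2 + t2 * (1 + t2 ^ 2) / (1 - t2 ^ 2) ^ 2
      ≤ 11 / 10 * (t1 + t2) := by linarith
  have h5 : 2 * v1 / (1 - v1 ^ 2) + 2 * v2 / (1 - v2 ^ 2) ≤ 53 / 25 * (v1 + v2) := by linarith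
  calc _ ≤ (11 / 10 * (t1 + t2)) * (53 / 25 * (v1 + v2)) := mul_le_mul h4 h5 h3 (by positivity)
    _ ≤ _ := by nlinarith [mul_nonneg hT hU]

end Iso
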