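import Pool.Agent.Lib_helper3.Iso.KDefs
noncomputable section
namespace Iso
open Real

/-- BLOCK K4: polynomial inequality. Dropping nonnegative cross terms it is
`(U-√3T)^2/200 + (9p^2+3q^2)/50 + (3T^2-U^2)(5T^2-3U^2)/48 + 16 W^3 >= 0`; the quartic is negative only for
`5T^2 < 3U^2 < 9T^2`, there it is `>= -(√3/6) x T^3` with `x = √3T-U > 0`, and
`x^2/200 + 16 (TU)^3/8 >= x^2/200 + 4.3 T^6 >= (√3/6) x T^3`. -/
theorem K4 {T U p q W : ℝ} (hT : 0 ≤ T) (hU : 0 ≤ U) (hW : W = T * U / 2) :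
    1 + √3 * W + 23 / 12 * W ^ 2 + 49 / 50 * (9 * p ^ 2 + 3 * q ^ 2 + (U - √3 * T) ^ 2 / 4) - 16 * W ^ 3
      ≤ (1 + 3 / 4 * T ^ 2 + 9 * p ^ 2 + 5 / 16 * T ^ 4) * (1 + U ^ 2 / 4 + 3 * q ^ 2 + U ^ 4 / 16) := by
  have hs2 : √3 ^ 2 = 3 := Real.sq_sqrt (by norm_num)
  have hs0 : 0 < √3 := Real.sqrt_pos.2 (by norm_num)
  generalize √3 = s at hs2 hs0 ⊢
  subst hW
  have core : 0 ≤ (U - s * T) ^ 2 / 200 + (3 * T ^ 2 - U ^ 2) * (5 * T ^ 2 - 3 * U ^ 2) / 48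
      + 2 * (T * U) ^ 3 := by
    by_cases hc : 0 ≤ (3 * T ^ 2 - U ^ 2) * (5 * T ^ 2 - 3 * U ^ 2)
    · positivity
    · push Not at hc
      have h1 : 0 < 3 * T ^ 2 - U ^ 2 := by
        by_contra h
        push Not at h
        have h2 : 5 * T ^ 2 - 3 * U ^ 2 ≤ 0 := by nlinarith [sq_nonneg T]
        have := mul_nonneg_of_nonpos_of_nonpos h h2
        linarith
      have h2 : 0 < 3 * U ^ 2 - 5 * T ^ 2 := by
        by_contra h
        push Not at h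
        have := mul_nonneg h1.le (by linarith : 0 ≤ 5 * T ^ 2 - 3 * U ^ 2)
        linarith
      -- `x = s T - U > 0`
      have hx : 0 < s * T - U := by
        by_contra h
        push Not at h
        have h3 : (s * T) ^ 2 ≤ U ^ 2 := pow_le_pow_left₀ (by positivity) (by linarith) 2
        rw [mul_pow, hs2] at h3
        linarith
      have hfac : 3 * T ^ 2 - U ^ 2 = (s * T - U) * (s * T + U) := by
        have : (s * T - U) * (s * T + U) = s ^ 2 * T ^ 2 - U ^ 2 := by ring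
        rw [this, hs2]
      have h3 : (3 * T ^ 2 - U ^ 2) * (3 * U ^ 2 - 5 * T ^ 2) ≤ (s * T - U) * (2 * s * T) * (4 * T ^ 2) := by
        rw [hfac]
        refine mul_le_mul ?_ (by linarith) h2.le (by positivity)
        exact mul_le_mul_of_nonneg_left (by linarith) hx.le
      -- lower bound of `U`
      have h4 : 129 / 100 * T ≤ U := by
        by_contra h
        push Not at h
        have h5 : U ^ 2 ≤ (129 / 100 * T) ^ 2 := pow_le_pow_left₀ hU h.le 2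
        nlinarith [sq_nonneg T]
      have h5 : (129 / 100 * T ^ 2) ^ 3 ≤ (T * U) ^ 3 := by
        refine pow_le_pow_left₀ (by positivity) ?_ 3
        nlinarith
      have h6 : 0 ≤ (s * T - U - 100 / 6 * s * T ^ 3) ^ 2 / 200 := by positivity
      have h7 : (s * T - U - 100 / 6 * s * T ^ 3) ^ 2 / 200
          = (U - s * T) ^ 2 / 200 - (s * T - U) * (2 * s * T) * (4 * T ^ 2) / 48
            + 25 / 18 * s ^ 2 * T ^ 6 := by ring
      rw [h7, hs2] at h6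
      have h8 : 0 ≤ T ^ 6 := by positivity
      nlinarith
  have e : (1 + 3 / 4 * T ^ 2 + 9 * p ^ 2 + 5 / 16 * T ^ 4) * (1 + U ^ 2 / 4 + 3 * q ^ 2 + U ^ 4 / 16)
      - (1 + s * (T * U / 2) + 23 / 12 * (T * U / 2) ^ 2
          + 49 / 50 * (9 * p ^ 2 + 3 * q ^ 2 + (U - s * T) ^ 2 / 4) - 16 * (T * U / 2) ^ 3)
      = ((U - s * T) ^ 2 / 200 + (3 * T ^ 2 - U ^ 2) * (5 * T ^ 2 - 3 * U ^ 2) / 48
      + 2 * (T * U) ^ 3) + (3 - s ^ 2) * T ^ 2 / 4 + (9 * p ^ 2 + 3 * q ^ 2) / 50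
      + (3 / 4 * T ^ 2 * (3 * q ^ 2 + U ^ 4 / 16) + 9 * p ^ 2 * (U ^ 2 / 4 + 3 * q ^ 2 + U ^ 4 / 16)
        + 5 / 16 * T ^ 4 * (U ^ 2 / 4 + 3 * q ^ 2 + U ^ 4 / 16)) := by ring
  have h9 : 0 ≤ (3 / 4 * T ^ 2 * (3 * q ^ 2 + U ^ 4 / 16) + 9 * p ^ 2 * (U ^ 2 / 4 + 3 * q ^ 2 + U ^ 4 / 16)
        + 5 / 16 * T ^ 4 * (U ^ 2 / 4 + 3 * q ^ 2 + U ^ 4 / 16)) := by positivity
  have h10 : 0 ≤ (9 * p ^ 2 + 3 * q ^ 2) / 50 := by positivity
  have h11 : (3 - s ^ 2) * T ^ 2 / 4 = 0 := by rw [hs2]; ring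
  linarith

end Iso
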