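import Pool.Agent.Lib_helper3.Iso.K1
import Pool.Agent.Lib_helper3.Iso.K2
import Pool.Agent.Lib_helper3.Iso.K3
import Pool.Agent.Lib_helper3.Iso.K4
noncomputable section
namespace Iso
open Real

theorem K5_neg {s : ℝ} (h0 : s ≤ 0) (h1 : -1 ≤ s) : Greg s ≤ 0 := by
  have hpi := Real.pi_gt_three
  have hpi4 := Real.pi_le_four
  have hc : cos (π / 6) ≤ cos (π / 6 + s / 4) := by
    rcases le_total 0 (π / 6 + s / 4) with h | h
    · exact cos_le_cos_of_nonneg_of_le_pi h (by linarith) (by linarith)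
    · rw [← cos_neg (π / 6 + s / 4)]
      exact cos_le_cos_of_nonneg_of_le_pi (by linarith) (by linarith) (by linarith)
  rw [cos_pi_div_six] at hc
  have h3 : (0 : ℝ) < √3 := by positivity
  have h4 : (√3 / 2) ^ 2 ≤ cos (π / 6 + s / 4) ^ 2 := pow_le_pow_left₀ (by positivity) hc 2
  have h5 : (√3 / 2) ^ 2 = 3 / 4 := by
    rw [div_pow, Real.sq_sqrt (by norm_num)]
    norm_num
  rw [h5] at h4
  rw [Greg]
  have h6 : 3 / 4 / cos (π / 6 + s / 4) ^ 2 ≤ 1 := by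
    rw [div_le_one (by linarith)]
    exact h4
  nlinarith

theorem K5_le {x : ℝ} (h : 0 ≤ x) : arctan x ≤ x := by
  have := Real.le_tan (Real.arctan_nonneg.2 h) (Real.arctan_lt_pi_div_two x)
  rwa [Real.tan_arctan] at this

theorem K5_arctan {x : ℝ} (h : |x| ≤ 1 / 10) : |arctan x| ≤ 1 / 10 := by
  rw [abs_le] at h ⊢
  constructor
  · rcases le_total 0 x with hx | hx
    · linarith [Real.arctan_nonneg.2 hx]
    · have := K5_le (x := -x) (by linarith)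
      rw [Real.arctan_neg] at this
      linarith
  · rcases le_total 0 x with hx | hx
    · linarith [K5_le hx]
    · linarith [Real.arctan_le_zero.2 hx]

theorem K5_prod {x y : ℝ} (hx : |x| ≤ 1 / 10) (hy : |y| ≤ 1 / 10) : |x * y| ≤ 1 / 10 := by
  rw [abs_mul]
  nlinarith [abs_nonneg x, abs_nonneg y]

/-- BLOCK K5: the kite inequality. -/
theorem K5 {t1 t2 v1 v2 : ℝ} (ht1 : |t1| ≤ 1 / 10) (ht2 : |t2| ≤ 1 / 10) (hv1 : |v1| ≤ 1 / 10)
    (hv2 : |v2| ≤ 1 / 10) (hT : 0 ≤ t1 + t2) (hU : 0 ≤ v1 + v2) :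
    Greg (kiteS t1 t2 v1 v2) + 49 / 50 * (2 * ((t1 + t2) * (v1 + v2))) *
        (9 * ((t2 - t1) / 2) ^ 2 + 3 * ((v2 - v1) / 2) ^ 2 + ((v1 + v2) - √3 * (t1 + t2)) ^ 2 / 4)
      - 5 * ((t1 + t2) * (v1 + v2)) ^ 4 ≤ kiteG t1 t2 v1 v2 := by
  have hk1 := K1 ht1 ht2 hv1 hv2 hT hU
  have hk3 := K3 ht1 ht2 hv1 hv2 hT hU rfl rfl rfl rfl
  have hk4 := K4 (p := (t2 - t1) / 2) (q := (v2 - v1) / 2) hT hU rfl
  have b1 := abs_le.1 ht1
  have b2 := abs_le.1 ht2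
  have b3 := abs_le.1 hv1
  have b4 := abs_le.1 hv2
  have c1 := abs_le.1 (K5_arctan (K5_prod ht1 hv1))
  have c2 := abs_le.1 (K5_arctan (K5_prod ht1 hv2))
  have c3 := abs_le.1 (K5_arctan (K5_prod ht2 hv1))
  have c4 := abs_le.1 (K5_arctan (K5_prod ht2 hv2))
  have hlow : -1 ≤ kiteS t1 t2 v1 v2 := by
    rw [kiteS]
    linarith
  have hT5 : t1 + t2 ≤ 1 / 5 := by linarith
  have hU5 : v1 + v2 ≤ 1 / 5 := by linarith
  generalize hTd : t1 + t2 = T at *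
  generalize hUd : v1 + v2 = U at *
  generalize (t2 - t1) / 2 = p at *
  generalize (v2 - v1) / 2 = q at *
  have hTU : T * U ≤ 1 / 25 := by nlinarith
  have hTU0 : 0 ≤ T * U := mul_nonneg hT hU
  generalize hWd : T * U / 2 = W at *
  have hTW : T * U = 2 * W := by linarith
  have hW0 : 0 ≤ W := by linarith
  have hW1 : W ≤ 1 / 10 := by linarith
  have hk2 := K2 hW0 hW1
  have e : T * U / 4 = W / 2 := by linarith
  rw [e] at hk1
  have hat : 8 * arctan (W / 2) ≤ 1 := by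
    have := K5_le (x := W / 2) (by linarith)
    linarith
  have hat0 : 0 ≤ 8 * arctan (W / 2) := by
    have := Real.arctan_nonneg.2 (show (0 : ℝ) ≤ W / 2 by linarith)
    linarith
  have hG : Greg (kiteS t1 t2 v1 v2) ≤ Greg (8 * arctan (W / 2)) := by
    rcases le_total 0 (kiteS t1 t2 v1 v2) with h | h
    · exact Greg_mono h hk1 hat
    · have h1 := K5_neg h hlow
      have h2 := Greg_mono le_rfl hat0 hat
      rw [Greg_zero] at h2
      linarith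
  rw [hTW] at hk3 ⊢
  have h7 := mul_le_mul_of_nonneg_left hk4 (show (0 : ℝ) ≤ 4 * W by linarith)
  have h8 : 0 ≤ W ^ 4 := by positivity
  generalize 9 * p ^ 2 + 3 * q ^ 2 + (U - √3 * T) ^ 2 / 4 = R at *
  generalize (1 + 3 / 4 * T ^ 2 + 9 * p ^ 2 + 5 / 16 * T ^ 4) *
    (1 + U ^ 2 / 4 + 3 * q ^ 2 + U ^ 4 / 16) = A at *
  have e1 : 4 * W * (1 + √3 * W + 23 / 12 * W ^ 2 + 49 / 50 * R - 16 * W ^ 3) =
      4 * W * (1 + √3 * W + 23 / 12 * W ^ 2) + 49 / 50 * (2 * (2 * W)) * R - 64 * W ^ 4 := by ring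
  have e2 : 5 * (2 * W) ^ 4 = 80 * W ^ 4 := by ring
  have e3 : 2 * (2 * W) * A = 4 * W * A := by ring
  linarith

end Iso
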