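import Pool.Agent.Lib_helper3.Iso.KDefs
noncomputable section
namespace Iso
open Real

theorem K7_arg (s : ℝ) : HasDerivAt (fun s : ℝ => π / 6 + s / 4) (1 / 4) s := by
  simpa using ((hasDerivAt_id s).div_const 4).const_add (π / 6)

theorem K7_cos (s : ℝ) : HasDerivAt (fun s : ℝ => cos (π / 6 + s / 4))
    (-sin (π / 6 + s / 4) * (1 / 4)) s :=
  (hasDerivAt_cos _).comp s (K7_arg s)

theorem K7_sin (s : ℝ) : HasDerivAt (fun s : ℝ => sin (π / 6 + s / 4))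
    (cos (π / 6 + s / 4) * (1 / 4)) s :=
  (hasDerivAt_sin _).comp s (K7_arg s)

theorem K7_pos {s : ℝ} (h0 : 0 ≤ s) (h1 : s ≤ 1) : 0 < cos (π / 6 + s / 4) := by
  apply cos_pos_of_mem_Ioo
  have := pi_gt_three
  constructor <;> linarith

theorem K7_le {s : ℝ} (h0 : 0 ≤ s) (h1 : s ≤ 1) : cos (π / 6 + s / 4) ^ 2 ≤ 3 / 4 := by
  have h2 : cos (π / 6 + s / 4) ≤ cos (π / 6) := by
    have := pi_gt_three
    apply cos_le_cos_of_nonneg_of_le_pi <;> linarith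
  rw [cos_pi_div_six] at h2
  have h3 := K7_pos h0 h1
  have h4 : (√3 / 2) ^ 2 = 3 / 4 := by
    rw [div_pow, sq_sqrt (by norm_num)]
    norm_num
  rw [← h4]
  exact pow_le_pow_left₀ h3.le h2 2

theorem K7_d1 {s : ℝ} (h0 : 0 ≤ s) (h1 : s ≤ 1) :
    HasDerivAt (fun s => Greg s - √3 / 4 * s ^ 2)
      (3 * √3 / 4 * (sin (π / 6 + s / 4) / cos (π / 6 + s / 4) ^ 3) - √3 / 2 * s) s := by
  have hc := K7_pos h0 h1
  have h2 : HasDerivAt (fun s : ℝ => 3 / 4 / cos (π / 6 + s / 4) ^ 2)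
      ((0 * cos (π / 6 + s / 4) ^ 2 - 3 / 4 * (((2 : ℕ) : ℝ) * cos (π / 6 + s / 4) ^ (2 - 1) *
        (-sin (π / 6 + s / 4) * (1 / 4)))) / (cos (π / 6 + s / 4) ^ 2) ^ 2) s :=
    (hasDerivAt_const s (3 / 4 : ℝ)).div ((K7_cos s).pow 2) (by positivity)
  have h3 := ((h2.sub_const 1).const_mul (2 * √3)).sub
    (((hasDerivAt_id s).pow 2).const_mul (√3 / 4))
  unfold Greg
  refine h3.congr_deriv ?_
  simp only [id]
  have hc' := hc.ne'
  generalize cos (π / 6 + s / 4) = c at hc' ⊢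
  generalize sin (π / 6 + s / 4) = z
  have h4 : c ^ (2 - 1) = c := by norm_num
  rw [h4]
  push_cast
  field_simp
  ring

theorem K7_d2 {s : ℝ} (h0 : 0 ≤ s) (h1 : s ≤ 1) :
    HasDerivAt (fun s => 3 * √3 / 4 * (sin (π / 6 + s / 4) / cos (π / 6 + s / 4) ^ 3) - √3 / 2 * s)
      (3 * √3 / 16 * (3 * (1 / cos (π / 6 + s / 4) ^ 2) ^ 2 - 2 * (1 / cos (π / 6 + s / 4) ^ 2))
        - √3 / 2) s := by
  have hc := K7_pos h0 h1
  have h1 : HasDerivAt (fun s : ℝ => sin (π / 6 + s / 4) / cos (π / 6 + s / 4) ^ 3)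
      ((cos (π / 6 + s / 4) * (1 / 4) * cos (π / 6 + s / 4) ^ 3 - sin (π / 6 + s / 4) *
        (((3 : ℕ) : ℝ) * cos (π / 6 + s / 4) ^ (3 - 1) * (-sin (π / 6 + s / 4) * (1 / 4)))) /
        (cos (π / 6 + s / 4) ^ 3) ^ 2) s :=
    (K7_sin s).div ((K7_cos s).pow 3) (pow_pos hc 3).ne'
  have h2 := (h1.const_mul (3 * √3 / 4)).sub ((hasDerivAt_id s).const_mul (√3 / 2))
  refine h2.congr_deriv ?_
  have h3 : sin (π / 6 + s / 4) ^ 2 = 1 - cos (π / 6 + s / 4) ^ 2 := by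
    have := sin_sq_add_cos_sq (π / 6 + s / 4)
    linarith
  have hc' := hc.ne'
  generalize cos (π / 6 + s / 4) = c at hc' h3 ⊢
  generalize sin (π / 6 + s / 4) = z at h3 ⊢
  have h4 : c ^ (3 - 1) = c ^ 2 := by norm_num
  rw [h4]
  have h5 : c * (1 / 4) * c ^ 3 - z * (((3 : ℕ) : ℝ) * c ^ 2 * (-z * (1 / 4))) =
      c ^ 4 / 4 + 3 * c ^ 2 * (1 - c ^ 2) / 4 := by
    rw [← h3]
    push_cast
    ring
  rw [h5]
  field_simp
  ring

theorem K7_convex : ConvexOn ℝ (Set.Icc (0 : ℝ) 1) (fun s => Greg s - √3 / 4 * s ^ 2) := by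
  have hi : ∀ x ∈ interior (Set.Icc (0 : ℝ) 1), 0 ≤ x ∧ x ≤ 1 := by
    intro x hx
    rw [interior_Icc] at hx
    exact ⟨hx.1.le, hx.2.le⟩
  refine convexOn_of_hasDerivWithinAt2_nonneg (convex_Icc 0 1)
    (fun x hx => (K7_d1 hx.1 hx.2).continuousAt.continuousWithinAt)
    (fun x hx => (K7_d1 (hi x hx).1 (hi x hx).2).hasDerivWithinAt)
    (fun x hx => (K7_d2 (hi x hx).1 (hi x hx).2).hasDerivWithinAt) ?_
  intro x hx
  have hc := K7_pos (hi x hx).1 (hi x hx).2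
  have hl := K7_le (hi x hx).1 (hi x hx).2
  have hy : 4 / 3 ≤ 1 / cos (π / 6 + x / 4) ^ 2 := by
    rw [le_div_iff₀ (by positivity)]
    linarith
  have h3 : (0 : ℝ) ≤ √3 := sqrt_nonneg 3
  set y : ℝ := 1 / cos (π / 6 + x / 4) ^ 2 with hyd
  have h4 : 8 / 3 ≤ 3 * y ^ 2 - 2 * y := by nlinarith
  nlinarith

/-- BLOCK K7: `Greg'' >= √3/2` on `[0,1]`, so the sharp quadratic Jensen inequality. -/
theorem K7 {ι : Type*} (S : Finset ι) (s : ι → ℝ) (m : ℝ) (h0 : ∀ i ∈ S, 0 ≤ s i) (h1 : ∀ i ∈ S, s i ≤ 1)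
    (hm : ∑ i ∈ S, s i = S.card * m) (hm0 : 0 ≤ m) (hm1 : m ≤ 1) :
    S.card * Greg m + √3 / 4 * ∑ i ∈ S, (s i - m) ^ 2 ≤ ∑ i ∈ S, Greg (s i) := by
  rcases S.eq_empty_or_nonempty with rfl | hS
  · simp
  have hn : (0 : ℝ) < S.card := by exact_mod_cast hS.card_pos
  have hj := K7_convex.map_sum_le (t := S) (w := fun _ => (S.card : ℝ)⁻¹) (p := s)
    (fun i _ => by positivity) (by simp [hn.ne']) (fun i hi => ⟨h0 i hi, h1 i hi⟩)
  have hsm : ∑ i ∈ S, (S.card : ℝ)⁻¹ • s i = m := by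
    simp only [smul_eq_mul]
    rw [← Finset.mul_sum, hm]
    field_simp
  rw [hsm] at hj
  have hsq : ∑ i ∈ S, (s i - m) ^ 2 = ∑ i ∈ S, s i ^ 2 - S.card * m ^ 2 := by
    have : ∀ i ∈ S, (s i - m) ^ 2 = s i ^ 2 - 2 * m * s i + m ^ 2 := fun i _ => by ring
    rw [Finset.sum_congr rfl this, Finset.sum_add_distrib, Finset.sum_sub_distrib,
      ← Finset.mul_sum, hm, Finset.sum_const, nsmul_eq_mul]
    ring
  simp only [smul_eq_mul] at hj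
  rw [← Finset.mul_sum, Finset.sum_sub_distrib, ← Finset.mul_sum] at hj
  have hj2 := mul_le_mul_of_nonneg_left hj hn.le
  rw [← mul_assoc, mul_inv_cancel₀ hn.ne', one_mul] at hj2
  rw [hsq]
  nlinarith

end Iso
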