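import Pool.Agent.Lib_helper3.Iso.KDefs
noncomputable section
namespace Iso
open Real

theorem K8_zero : Greg 0 = 0 := by
  have h1 : cos (π / 6 + 0 / 4) ^ 2 = 3 / 4 := by
    rw [zero_div, add_zero, cos_pi_div_six, div_pow, sq_sqrt (by norm_num : (0 : ℝ) ≤ 3)]
    norm_num
  rw [Greg, h1]
  norm_num

theorem K8_cos {s : ℝ} (h0 : 0 ≤ s) (h1 : s ≤ 1) : 0 < cos (π / 6 + s / 4) := by
  have hp := pi_gt_three
  apply cos_pos_of_mem_Ioo
  constructor <;> linarith

theorem K8_deriv {s : ℝ} (h : cos (π / 6 + s / 4) ≠ 0) : HasDerivAt Greg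
    (3 * √3 / 4 * (sin (π / 6 + s / 4) / cos (π / 6 + s / 4) ^ 3)) s := by
  have h1 : HasDerivAt (fun x : ℝ => π / 6 + x / 4) (1 / 4) s := by
    have := (hasDerivAt_id s).div_const 4
    exact this.const_add (π / 6)
  have h2 : HasDerivAt (fun x : ℝ => cos (π / 6 + x / 4)) (-sin (π / 6 + s / 4) * (1 / 4)) s :=
    h1.cos
  have h3 : HasDerivAt (fun x : ℝ => cos (π / 6 + x / 4) ^ 2)
      (2 * cos (π / 6 + s / 4) * (-sin (π / 6 + s / 4) * (1 / 4))) s := by
    have := h2.fun_pow 2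
    simpa using this
  have h4 : HasDerivAt (fun x : ℝ => 3 / 4 / cos (π / 6 + x / 4) ^ 2)
      ((0 * cos (π / 6 + s / 4) ^ 2 - 3 / 4 * (2 * cos (π / 6 + s / 4) *
        (-sin (π / 6 + s / 4) * (1 / 4)))) / (cos (π / 6 + s / 4) ^ 2) ^ 2) s :=
    (hasDerivAt_const s (3 / 4 : ℝ)).fun_div h3 (pow_ne_zero 2 h)
  have h5 := (h4.sub_const 1).const_mul (2 * √3)
  have h6 : HasDerivAt Greg (2 * √3 * ((0 * cos (π / 6 + s / 4) ^ 2 - 3 / 4 * (2 * cos (π / 6 + s / 4) *
        (-sin (π / 6 + s / 4) * (1 / 4)))) / (cos (π / 6 + s / 4) ^ 2) ^ 2)) s := h5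
  convert h6 using 1
  field_simp
  ring

theorem K8_cont : ContinuousOn Greg (Set.Icc 0 1) := fun s hs =>
  (K8_deriv (K8_cos hs.1 hs.2).ne').continuousAt.continuousWithinAt

theorem K8_convex : ConvexOn ℝ (Set.Icc 0 1) Greg := by
  apply MonotoneOn.convexOn_of_deriv (convex_Icc 0 1) K8_cont
  · rw [interior_Icc]
    intro s hs
    exact (K8_deriv (K8_cos hs.1.le hs.2.le).ne').differentiableAt.differentiableWithinAt
  · rw [interior_Icc]
    intro s hs t ht hst
    rw [(K8_deriv (K8_cos hs.1.le hs.2.le).ne').deriv, (K8_deriv (K8_cos ht.1.le ht.2.le).ne').deriv]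
    have hp := pi_gt_three
    have k1 : sin (π / 6 + s / 4) ≤ sin (π / 6 + t / 4) := by
      apply sin_le_sin_of_le_of_le_pi_div_two <;> linarith [hs.1, ht.2]
    have k2 : cos (π / 6 + t / 4) ≤ cos (π / 6 + s / 4) := by
      apply cos_le_cos_of_nonneg_of_le_pi <;> linarith [hs.1, ht.2]
    have k3 := K8_cos ht.1.le ht.2.le
    have k4 : 0 ≤ sin (π / 6 + t / 4) := by
      apply sin_nonneg_of_nonneg_of_le_pi <;> linarith [ht.1, ht.2]
    have k5 : cos (π / 6 + t / 4) ^ 3 ≤ cos (π / 6 + s / 4) ^ 3 := pow_le_pow_left₀ k3.le k2 3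
    have k6 : sin (π / 6 + s / 4) / cos (π / 6 + s / 4) ^ 3 ≤
        sin (π / 6 + t / 4) / cos (π / 6 + t / 4) ^ 3 :=
      div_le_div₀ k4 k1 (by positivity) k5
    exact mul_le_mul_of_nonneg_left k6 (by positivity)

/-- BLOCK K8a: `x Greg (4π/x)` is decreasing (`Greg 0 = 0`, `Greg` convex on `[0,1]`). -/
theorem K8a {x y : ℝ} (hx : 4 * π ≤ x) (hxy : x ≤ y) : y * Greg (4 * π / y) ≤ x * Greg (4 * π / x) := by
  have hp := pi_pos
  have hx0 : 0 < x := by linarith
  have hy0 : 0 < y := by linarith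
  have h1 : 4 * π / x ∈ Set.Icc (0 : ℝ) 1 := ⟨by positivity, (div_le_one hx0).2 hx⟩
  have h2 : (0 : ℝ) ∈ Set.Icc (0 : ℝ) 1 := ⟨le_rfl, zero_le_one⟩
  have h3 : x / y ≤ 1 := (div_le_one hy0).2 hxy
  have h4 := K8_convex.2 h1 h2 (div_nonneg hx0.le hy0.le) (sub_nonneg.2 h3)
    (by ring : x / y + (1 - x / y) = 1)
  simp only [K8_zero, smul_eq_mul, mul_zero, add_zero] at h4
  have h5 : x / y * (4 * π / x) = 4 * π / y := by
    field_simp
  rw [h5] at h4
  have h6 := mul_le_mul_of_nonneg_left h4 hy0.le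
  have h7 : y * (x / y * Greg (4 * π / x)) = x * Greg (4 * π / x) := by
    field_simp
  rw [h7] at h6
  exact h6

/-- K8b -/
theorem K8b {v : ℕ} (hv : 4 ≤ v) : (3 * (v : ℝ) - 6) * Greg (4 * π / (3 * v - 6)) = Cv v := by
  have hv' : (4 : ℝ) ≤ v := by exact_mod_cast hv
  have h2 : (0 : ℝ) < (v : ℝ) - 2 := by linarith
  have e1 : π / 6 + 4 * π / (3 * (v : ℝ) - 6) / 4 = π * (v : ℝ) / (6 * ((v : ℝ) - 2)) := by
    have : (3 * (v : ℝ) - 6) = 3 * (v - 2) := by ring
    rw [this]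
    field_simp
    ring
  have h3 : π * (v : ℝ) / (6 * ((v : ℝ) - 2)) ≤ π / 3 := by
    rw [div_le_div_iff₀ (by positivity) (by norm_num)]
    nlinarith [pi_pos]
  have h4 : 0 ≤ π * (v : ℝ) / (6 * ((v : ℝ) - 2)) := by positivity
  have h5 : 0 < cos (π * (v : ℝ) / (6 * ((v : ℝ) - 2))) := by
    apply cos_pos_of_mem_Ioo
    have := pi_pos
    constructor <;> linarith
  rw [Greg, Cv, e1, tan_eq_sin_div_cos, div_pow, sin_sq]
  generalize cos (π * (v : ℝ) / (6 * ((v : ℝ) - 2))) = c at h5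
  have h6 := h5.ne'
  field_simp
  ring

/-- K8c -/
theorem K8c : Filter.Tendsto (fun v : ℕ => Cv v) Filter.atTop (nhds (4 * π)) := by
  have hd : HasDerivAt Greg 1 0 := by
    have h0 : cos (π / 6 + 0 / 4) ≠ 0 := (K8_cos le_rfl zero_le_one).ne'
    have h1 := K8_deriv h0
    convert h1 using 1
    rw [zero_div, add_zero, cos_pi_div_six, sin_pi_div_six]
    have h3 : √3 ^ 2 = 3 := sq_sqrt (by norm_num)
    have h4 : √3 ≠ 0 := by positivity
    have h5 : (√3 / 2) ^ 3 = 3 * √3 / 8 := by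
      calc (√3 / 2) ^ 3 = √3 ^ 2 * √3 / 8 := by ring
        _ = _ := by rw [h3]
    rw [h5]
    field_simp
    norm_num
  have hs : Filter.Tendsto (fun v : ℕ => 4 * π / (3 * (v : ℝ) - 6)) Filter.atTop
      (nhdsWithin 0 {0}ᶜ) := by
    rw [tendsto_nhdsWithin_iff]
    constructor
    · apply Filter.Tendsto.div_atTop tendsto_const_nhds
      have h1 : Filter.Tendsto (fun v : ℕ => (3 : ℝ) * v) Filter.atTop Filter.atTop :=
        tendsto_natCast_atTop_atTop.const_mul_atTop (by norm_num)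
      exact Filter.tendsto_atTop_add_const_right _ (-6) h1
    · filter_upwards [Filter.eventually_ge_atTop 4] with v hv
      have hv' : (4 : ℝ) ≤ v := by exact_mod_cast hv
      have hp := pi_pos
      have : (0 : ℝ) < 3 * v - 6 := by linarith
      have h2 : 4 * π / (3 * (v : ℝ) - 6) ≠ 0 := by positivity
      exact h2
  have h1 := hasDerivAt_iff_tendsto_slope.1 hd
  have h2 := (h1.comp hs).const_mul (4 * π)
  rw [mul_one] at h2
  refine h2.congr' ?_
  filter_upwards [Filter.eventually_ge_atTop 4] with v hv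
  have hv' : (4 : ℝ) ≤ v := by exact_mod_cast hv
  have hp := pi_pos
  have h3 : (0 : ℝ) < 3 * v - 6 := by linarith
  rw [← K8b hv]
  simp only [Function.comp, slope, K8_zero, vsub_eq_sub, sub_zero, smul_eq_mul]
  field_simp

end Iso
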