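import Pool.Agent.Lib_helper3.Iso.E3
import Pool.Agent.Lib_helper3.Iso.D2
import Pool.Agent.Lib_helper3.Iso.K5
import Pool.Agent.Lib_helper3.Iso.K7
import Pool.Agent.Lib_helper3.Iso.K8
noncomputable section
namespace Iso
open MeasureTheory Real Set

/-- normalised position -/
structure Nrm (X : Finset V) : Prop where
  e0 : ∑ t ∈ T X, Fa t * (hh t - 1) = 0
  e1 : ∑ t ∈ T X, (Fa t * (hh t - 1)) • nn t = 0

theorem F1_NB_mono {X : Finset V} {δ δ' : ℝ} (h : δ ≤ δ') (hX : NB X δ) : NB X δ' where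
  gp := hX.gp
  up := fun x hx => (hX.up x hx).trans (by linarith)
  lo := fun t ht => (mul_le_mul_of_nonneg_right (by linarith) (norm_nonneg _)).trans (hX.lo t ht)

/-- the half angle parameters of a dart -/
theorem F1_par {X : Finset V} {δ : ℝ} (h0 : 0 ≤ δ) (h1 : δ ≤ 1 / 100) (hX : NB X δ) {t : Tr} (ht : t ∈ T X) :
    |ta t| ≤ √δ ∧ |u1 t| ≤ √δ ∧ |u2 t| ≤ √δ ∧ √δ ≤ 1 / 10 := by
  have hd1 : δ < 1 := by linarith
  obtain ⟨hu1, hu2⟩ := G7b h0 hd1 hX ht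
  refine ⟨abs_le_sqrt (G7a h0 hd1 hX ht), abs_le_sqrt hu1, abs_le_sqrt hu2, ?_⟩
  rw [show (1 / 10 : ℝ) = √(1 / 100) by
    rw [show (1 / 100 : ℝ) = (1 / 10) ^ 2 by norm_num, sqrt_sq (by norm_num)]]
  exact sqrt_le_sqrt h1

theorem F1_arctan_le {x : ℝ} (h : 0 ≤ x) : arctan x ≤ x := by
  have := le_tan (arctan_nonneg.2 h) (arctan_lt_pi_div_two x)
  rwa [tan_arctan] at this

/-- bounds for the kite parameters -/
theorem F1_kite {X : Finset V} {δ : ℝ} (h0 : 0 ≤ δ) (h1 : δ ≤ 1 / 100) (hX : NB X δ) {t : Tr} (ht : t ∈ T X) :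
    0 < kT X t ∧ 0 < kU t ∧ 99 / 50 * (kT X t * kU t) ≤ ks X t ∧ ks X t ≤ 8 * δ := by
  obtain ⟨a1, a2, a3, a4⟩ := F1_par h0 h1 hX ht
  obtain ⟨b1, -, -, -⟩ := F1_par h0 h1 hX (twin_mem hX.gp ht)
  have hT : 0 < kT X t := (G7e hX.gp ht (by linarith) (by linarith)).1
  have hU : 0 < kU t := (G7d hX.gp ht (by linarith) (by linarith)).1
  have hT' : 0 ≤ ta t + ta (twin X t) := hT.le
  have hU' : 0 ≤ u1 t + u2 t := hU.le
  refine ⟨hT, hU, ?_, ?_⟩
  · have := K1b (t1 := ta t) (t2 := ta (twin X t)) (v1 := u1 t) (v2 := u2 t) (by linarith) (by linarith)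
      (by linarith) (by linarith) hT' hU'
    rw [ks_eq hX.gp ht]
    simp only [kT, kU]
    linarith
  · have := K1 (t1 := ta t) (t2 := ta (twin X t)) (v1 := u1 t) (v2 := u2 t) (by linarith) (by linarith)
      (by linarith) (by linarith) hT' hU'
    rw [ks_eq hX.gp ht]
    have h3 : ta t + ta (twin X t) ≤ 2 * √δ := by
      have := le_abs_self (ta t); have := le_abs_self (ta (twin X t)); linarith
    have h4 : u1 t + u2 t ≤ 2 * √δ := by
      have := le_abs_self (u1 t); have := le_abs_self (u2 t); linarith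
    have h5 : (ta t + ta (twin X t)) * (u1 t + u2 t) ≤ (2 * √δ) * (2 * √δ) :=
      mul_le_mul h3 h4 hU' (by positivity)
    have h6 : (2 * √δ) * (2 * √δ) = 4 * δ := by
      rw [show (2 * √δ) * (2 * √δ) = 4 * (√δ * √δ) by ring, mul_self_sqrt h0]
    have h7 : arctan ((ta t + ta (twin X t)) * (u1 t + u2 t) / 4) ≤
        (ta t + ta (twin X t)) * (u1 t + u2 t) / 4 := F1_arctan_le (by positivity)
    linarith

/-- the number of darts is large -/
theorem F1_card {X : Finset V} {δ : ℝ} (h0 : 0 < δ) (h1 : δ ≤ 1 / 100) (hX : NB X δ) :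
    π ≤ (T X).card * δ := by
  have h := N2' h0.le h1 hX
  have h2 : ∑ t ∈ T X, ks X t ≤ ∑ t ∈ T X, 8 * δ :=
    Finset.sum_le_sum fun t ht => (F1_kite h0.le h1 hX ht).2.2.2
  rw [Finset.sum_const, nsmul_eq_mul] at h2
  linarith

/-- BLOCK F1a: gain. Sum of the kite inequalities K5 over the darts (`/2`), Jensen K7 with mean `8π/n`
(`n = (T X).card`), K8a, K8b, G3 (`n/2 ≤ 3|X|-6`), and `5 (TU)⁴ ≤ 5 ks⁴ ≤ 40 (m⁴ + (ks-m)⁴)`. -/
theorem F1a : ∃ δ > 0, ∃ K > 0, δ ≤ 1 / 100 ∧ ∀ X : Finset V, NB X δ →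
    Cv X.card + 49 / 50 * (∑ t ∈ T X, kT X t * kU t * (9 * kp X t ^ 2 + 3 * kq t ^ 2 + (kU t - √3 * kT X t) ^ 2 / 4))
      + 1 / 5 * ∑ t ∈ T X, (ks X t - 8 * π / (T X).card) ^ 2 - K / ((T X).card : ℝ) ^ 3 ≤
      (∑ t ∈ T X, Fa t / hh t ^ 2) / 3 := by
  refine ⟨1 / 100, by norm_num, 2 * (8 * π) ^ 4, by positivity, le_refl _, fun X hX => ?_⟩
  have hd0 : (0 : ℝ) ≤ 1 / 100 := by norm_num
  have hd1 : (1 / 100 : ℝ) ≤ 1 / 100 := le_refl _
  set n : ℝ := ((T X).card : ℝ) with hn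
  set m : ℝ := 8 * π / n with hm
  have hpi := pi_gt_three
  have hcard : 100 * π ≤ n := by
    have := F1_card (by norm_num) hd1 hX
    linarith
  have hn0 : 0 < n := by linarith
  have hm0 : 0 ≤ m := by positivity
  have hm1 : m ≤ 2 / 25 := by
    rw [hm, div_le_iff₀ hn0]; linarith
  have hsum := N2' hd0 hd1 hX
  -- kites
  have key : ∀ t ∈ T X, Greg (ks X t) + 49 / 50 * (2 * (kT X t * kU t)) *
      (9 * kp X t ^ 2 + 3 * kq t ^ 2 + (kU t - √3 * kT X t) ^ 2 / 4) - 5 * (kT X t * kU t) ^ 4 ≤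
      gg t + gg (twin X t) := by
    intro t ht
    obtain ⟨a1, a2, a3, a4⟩ := F1_par hd0 hd1 hX ht
    obtain ⟨b1, -, -, -⟩ := F1_par hd0 hd1 hX (twin_mem hX.gp ht)
    obtain ⟨hT, hU, -, -⟩ := F1_kite hd0 hd1 hX ht
    have := K5 (t1 := ta t) (t2 := ta (twin X t)) (v1 := u1 t) (v2 := u2 t) (by linarith) (by linarith)
      (by linarith) (by linarith) hT.le hU.le
    rw [ks_eq hX.gp ht, gg_eq hX.gp ht]
    exact this
  have hJ := K7 (T X) (ks X) m (fun t ht => by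
      obtain ⟨hT, hU, h3, -⟩ := F1_kite hd0 hd1 hX ht
      have := mul_pos hT hU; linarith)
    (fun t ht => by
      obtain ⟨-, -, -, h4⟩ := F1_kite hd0 hd1 hX ht
      linarith) (by rw [hsum, ← hn, hm]; field_simp) hm0 (by linarith)
  rw [← hn] at hJ
  -- Jensen, monotonicity
  have hG3 := G3 hX.gp
  have hG3' : n + 12 ≤ 6 * (X.card : ℝ) := by
    rw [hn]; exact_mod_cast hG3
  have hv : 4 ≤ X.card := by
    have : (4 : ℝ) ≤ X.card := by linarith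
    exact_mod_cast this
  have hCv : Cv X.card ≤ n * Greg m / 2 := by
    rw [← K8b hv]
    have := K8a (x := n / 2) (y := 3 * (X.card : ℝ) - 6) (by linarith) (by linarith)
    refine this.trans (le_of_eq ?_)
    rw [hm, show 4 * π / (n / 2) = 8 * π / n by field_simp; norm_num]; ring
  -- quartic terms
  have hq : ∀ t ∈ T X, 5 / 2 * (kT X t * kU t) ^ 4 ≤ 2 * m ^ 4 + (√3 / 8 - 1 / 5) * (ks X t - m) ^ 2 := by
    intro t ht
    obtain ⟨hT, hU, h3, h4⟩ := F1_kite hd0 hd1 hX ht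
    set w := kT X t * kU t with hw
    have hw0 : 0 < w := mul_pos hT hU
    set z := ks X t with hz
    have hz0 : 0 ≤ z := by linarith
    have hwz : w ≤ 50 / 99 * z := by linarith
    have e1 : w ^ 4 ≤ (50 / 99 * z) ^ 4 := pow_le_pow_left₀ hw0.le hwz 4
    have e2 : z ^ 4 ≤ 8 * (m ^ 4 + (z - m) ^ 4) := by
      nlinarith [sq_nonneg (m ^ 2 - (z - m) ^ 2), sq_nonneg (m - (z - m)), sq_nonneg (m * m - (z - m) * (z - m)),
        sq_nonneg ((m - (z - m)) * (m - (z - m))), sq_nonneg ((m + (z - m)) * (m - (z - m)))]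
    have e3 : (z - m) ^ 2 ≤ (2 / 25) ^ 2 := by
      have : |z - m| ≤ 2 / 25 := by
        rw [abs_le]; constructor <;> linarith
      calc (z - m) ^ 2 = |z - m| ^ 2 := (sq_abs _).symm
        _ ≤ _ := pow_le_pow_left₀ (abs_nonneg _) this 2
    have e4 : (z - m) ^ 4 ≤ (2 / 25) ^ 2 * (z - m) ^ 2 := by
      have := mul_le_mul_of_nonneg_right e3 (sq_nonneg (z - m))
      calc (z - m) ^ 4 = (z - m) ^ 2 * (z - m) ^ 2 := by ring
        _ ≤ _ := this
    have h3' : (173 / 100 : ℝ) ≤ √3 := by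
      rw [show (173 / 100 : ℝ) = √((173 / 100) ^ 2) by rw [sqrt_sq (by norm_num)]]
      exact sqrt_le_sqrt (by norm_num)
    have e5 : 0 ≤ (z - m) ^ 2 := sq_nonneg _
    have e6 : 0 ≤ m ^ 4 := by positivity
    have e7 : (50 / 99 * z) ^ 4 = (50 / 99) ^ 4 * z ^ 4 := by ring
    rw [e7] at e1
    nlinarith [mul_nonneg (sub_nonneg.2 h3') e5]
  -- assembly
  have hgg : ∑ t ∈ T X, gg t = (∑ t ∈ T X, Fa t / hh t ^ 2) / 3 := (N2a hd0 hd1 hX).1
  have htw : ∑ t ∈ T X, (gg t + gg (twin X t)) = 2 * ∑ t ∈ T X, gg t := by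
    rw [Finset.sum_add_distrib, sum_twin hX.gp gg]; ring
  have hS := Finset.sum_le_sum key
  rw [htw, Finset.sum_sub_distrib, Finset.sum_add_distrib, hgg] at hS
  have hQ := Finset.sum_le_sum hq
  rw [Finset.sum_add_distrib, Finset.sum_const, nsmul_eq_mul, ← hn, ← Finset.mul_sum, ← Finset.mul_sum] at hQ
  have e8 : n * (2 * m ^ 4) = 2 * (8 * π) ^ 4 / n ^ 3 := by
    rw [hm]; field_simp
  have e9 : ∑ t ∈ T X, 49 / 50 * (2 * (kT X t * kU t)) *
      (9 * kp X t ^ 2 + 3 * kq t ^ 2 + (kU t - √3 * kT X t) ^ 2 / 4) =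
      2 * (49 / 50 * ∑ t ∈ T X, kT X t * kU t *
        (9 * kp X t ^ 2 + 3 * kq t ^ 2 + (kU t - √3 * kT X t) ^ 2 / 4)) := by
    rw [Finset.mul_sum, Finset.mul_sum]; exact Finset.sum_congr rfl fun t _ => by ring
  have e10 : ∑ t ∈ T X, 5 * (kT X t * kU t) ^ 4 = 5 * ∑ t ∈ T X, (kT X t * kU t) ^ 4 := by
    rw [Finset.mul_sum]
  rw [e9, e10] at hS
  rw [e8] at hQ
  linarith

/-- BLOCK F1b: loss. `3 SA - 6 VO = Σ_faces (F/h²)(3h² - 2h³)`, `1 - 3h² + 2h³ = 3s² + 2s³`, `s = h - 1`; E3 for `s`, and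
`(La/ka)(hh - hh')² ≤ 16 r³ kT kU kp²` (G7d, G7e, G7f, G7g). -/
theorem F1b (η : ℝ) (hη : 0 < η) : ∃ δ > 0, δ ≤ 1 / 100 ∧ ∀ X : Finset V, NB X δ → Nrm X →
    (∑ t ∈ T X, Fa t / hh t ^ 2) / 3 - (8 + η) * ∑ t ∈ T X, kT X t * kU t * kp X t ^ 2 ≤ 3 * SA X - 6 * VO X := by
  obtain ⟨δ1, hδ1, hE⟩ := E3 (min (η / 48) (1 / 3)) (by positivity)
  set η' : ℝ := min (η / 48) (1 / 3) with hη'
  have hη'0 : 0 < η' := by positivity
  have hη'1 : η' ≤ η / 48 := min_le_left _ _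
  have hη'2 : η' ≤ 1 / 3 := min_le_right _ _
  -- the constant
  refine ⟨min δ1 (min (η / 480) (1 / 100)), by positivity, (min_le_right _ _).trans (min_le_right _ _),
    fun X hX hN => ?_⟩
  set δ : ℝ := min δ1 (min (η / 480) (1 / 100)) with hδ
  have hδ0 : 0 < δ := by positivity
  have hδ2 : δ ≤ 1 / 100 := (min_le_right _ _).trans (min_le_right _ _)
  have hδ3 : δ ≤ η / 480 := (min_le_right _ _).trans (min_le_left _ _)
  have hδ1' : δ ≤ δ1 := min_le_left _ _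
  have hE' := hE X (F1_NB_mono hδ1' hX) (fun t => hh t - 1) (fun t _ => by simp) hN.e0 hN.e1
  set S2 := ∑ t ∈ T X, Fa t * (hh t - 1) ^ 2 with hS2
  set Sp := ∑ t ∈ T X, kT X t * kU t * kp X t ^ 2 with hSp
  have hdart : ∀ t ∈ T X, La t / ka X t * (hh t - 1 - (hh (twin X t) - 1)) ^ 2 ≤
      16 * (1 + δ) ^ 3 * (kT X t * kU t * kp X t ^ 2) := by
    intro t ht
    obtain ⟨a1, a2, a3, a4⟩ := F1_par hδ0.le hδ2 hX ht
    obtain ⟨b1, -, -, -⟩ := F1_par hδ0.le hδ2 hX (twin_mem hX.gp ht)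
    obtain ⟨hT, hU, -, -⟩ := F1_kite hδ0.le hδ2 hX ht
    have d1 := (G7d hX.gp ht (by linarith) (by linarith)).2.2
    have d2 := (G7e hX.gp ht (by linarith) (by linarith)).2
    have d3 := G7f hX.gp ht
    obtain ⟨r0, r1, -⟩ := G7g ht
    have hr : rr t.1 t.2.1 ≤ 1 + δ := r1.trans (hX.up _ (mem_T.1 ht).1.1)
    set r := rr t.1 t.2.1
    have hk : 0 < ka X t := (G2 hX.gp ht).2
    have e1 : (hh t - 1 - (hh (twin X t) - 1)) ^ 2 ≤ (4 * r * |kp X t| * |kT X t|) ^ 2 := by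
      rw [show hh t - 1 - (hh (twin X t) - 1) = hh t - hh (twin X t) by ring, ← sq_abs]
      exact pow_le_pow_left₀ (abs_nonneg _) d3 2
    have e2 : (4 * r * |kp X t| * |kT X t|) ^ 2 = 16 * r ^ 2 * kp X t ^ 2 * kT X t ^ 2 := by
      rw [mul_pow, mul_pow, mul_pow, sq_abs, sq_abs]; ring
    have e3 : La t / ka X t ≤ r * kU t / kT X t := by
      rw [div_le_div_iff₀ hk hT]
      have := mul_le_mul_of_nonneg_right d1 hT.le
      have h2 := mul_le_mul_of_nonneg_left d2 hU.le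
      linarith
    have e4 : 0 ≤ r * kU t / kT X t := by positivity
    calc La t / ka X t * (hh t - 1 - (hh (twin X t) - 1)) ^ 2
        ≤ r * kU t / kT X t * (16 * r ^ 2 * kp X t ^ 2 * kT X t ^ 2) := by
          rw [e2] at e1
          exact mul_le_mul e3 e1 (sq_nonneg _) e4
      _ = 16 * r ^ 3 * (kT X t * kU t * kp X t ^ 2) := by field_simp
      _ ≤ 16 * (1 + δ) ^ 3 * (kT X t * kU t * kp X t ^ 2) := by
          gcongr
  have hsum := Finset.sum_le_sum hdart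
  rw [← Finset.mul_sum] at hsum
  have hSp0 : 0 ≤ Sp := Finset.sum_nonneg fun t ht => by
    obtain ⟨hT, hU, -, -⟩ := F1_kite hδ0.le hδ2 hX ht
    positivity
  have hS20 : 0 ≤ S2 := Finset.sum_nonneg fun t ht => by
    have := (C5 hδ0.le (by linarith) hX ht).2.2
    positivity
  -- E3
  have h1 : S2 / 3 ≤ (1 / 3 + η') * (8 * (1 + δ) ^ 3 * Sp) := by
    refine hE'.trans ?_
    refine mul_le_mul_of_nonneg_left ?_ (by positivity)
    linarith
  -- faces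
  have hface : ∀ t ∈ T X, Fa t / hh t ^ 2 ≤ Fa t * (3 - 2 * hh t) + (3 + 12 * δ) * (Fa t * (hh t - 1) ^ 2) := by
    intro t ht
    obtain ⟨c1, c2, c3⟩ := C5 hδ0.le (by linarith) hX ht
    set h := hh t
    have hp : 0 < h := by linarith
    have e : Fa t / h ^ 2 = Fa t * (3 - 2 * h) + Fa t * (h - 1) ^ 2 * ((1 + 2 * h) / h ^ 2) := by
      field_simp; ring
    have e2 : (1 + 2 * h) / h ^ 2 ≤ 3 + 12 * δ := by
      rw [div_le_iff₀ (by positivity)]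
      have k1 : (1 - δ) ^ 2 ≤ h ^ 2 := pow_le_pow_left₀ (by linarith) c1 2
      have k2 : (3 + 12 * δ) * (1 - δ) ^ 2 ≤ (3 + 12 * δ) * h ^ 2 := mul_le_mul_of_nonneg_left k1 (by positivity)
      nlinarith [mul_pos hδ0 hδ0, mul_pos (mul_pos hδ0 hδ0) hδ0]
    rw [e]
    have := mul_le_mul_of_nonneg_left e2 (mul_nonneg c3.le (sq_nonneg (h - 1)))
    linarith
  have hF := Finset.sum_le_sum hface
  rw [Finset.sum_add_distrib, ← Finset.mul_sum] at hF
  have hSV : 3 * SA X - 6 * VO X = (∑ t ∈ T X, Fa t * (3 - 2 * hh t)) / 3 := by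
    have e1 : ∑ t ∈ T X, Dt t = 2 * ∑ t ∈ T X, Fa t * hh t := by
      rw [Finset.mul_sum]; exact Finset.sum_congr rfl fun t ht => by rw [G7h ht]; ring
    have e2 : ∑ t ∈ T X, Fa t * (3 - 2 * hh t) = 3 * (∑ t ∈ T X, Fa t) - 2 * ∑ t ∈ T X, Fa t * hh t := by
      rw [Finset.mul_sum, Finset.mul_sum, ← Finset.sum_sub_distrib]
      exact Finset.sum_congr rfl fun t ht => by ring
    rw [SA, VO, e1, e2]; ring
  rw [hSV]
  -- constants
  have k1 : (1 + δ) ^ 3 ≤ 1 + 4 * δ := by nlinarith [mul_pos hδ0 hδ0, mul_pos (mul_pos hδ0 hδ0) hδ0]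
  have k2 : (3 + 12 * δ) * ((1 / 3 + η') * (8 * (1 + δ) ^ 3)) ≤ 8 + η := by
    have g1 : (1 / 3 + η') * (8 * (1 + δ) ^ 3) ≤ (1 / 3 + η') * (8 * (1 + 4 * δ)) := by gcongr
    have g2 : (3 + 12 * δ) * ((1 / 3 + η') * (8 * (1 + δ) ^ 3)) ≤
      (3 + 12 * δ) * ((1 / 3 + η') * (8 * (1 + 4 * δ))) := mul_le_mul_of_nonneg_left g1 (by positivity)
    refine g2.trans ?_
    have g3 : (3 + 12 * δ) * ((1 / 3 + η') * (8 * (1 + 4 * δ))) = 8 * (1 + 3 * η') * (1 + 4 * δ) ^ 2 := by ring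
    rw [g3]
    have g4 : (1 + 4 * δ) ^ 2 ≤ 1 + 10 * δ := by nlinarith
    have g5 : 8 * (1 + 3 * η') * (1 + 4 * δ) ^ 2 ≤ 8 * (1 + 3 * η') * (1 + 10 * δ) := by gcongr
    refine g5.trans ?_
    nlinarith [mul_pos hδ0 hη'0]
  have h2 : (3 + 12 * δ) * (S2 / 3) ≤ (8 + η) * Sp := by
    calc (3 + 12 * δ) * (S2 / 3) ≤ (3 + 12 * δ) * ((1 / 3 + η') * (8 * (1 + δ) ^ 3 * Sp)) :=
          mul_le_mul_of_nonneg_left h1 (by positivity)
      _ = ((3 + 12 * δ) * ((1 / 3 + η') * (8 * (1 + δ) ^ 3))) * Sp := by ring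
      _ ≤ _ := mul_le_mul_of_nonneg_right k2 hSp0
  linarith

/-- BLOCK F1: F1a, F1b (η = 1/2: 9·49/50 > 8.5), D2. -/
theorem F1 : ∃ δ > 0, ∃ c > 0, ∀ X : Finset V, NB X δ → Nrm X →
    Cv X.card + c / (X.card : ℝ) ^ 2 ≤ 3 * SA X - 6 * VO X := by
  obtain ⟨δ1, hδ1, K, hK, hδ1', ha⟩ := F1a
  obtain ⟨δ2, hδ2, hδ2', hb⟩ := F1b (1 / 2) (by norm_num)
  obtain ⟨δ3, hδ3, c, hc, hδ3', hD⟩ := D2
  have hpi := pi_gt_three
  refine ⟨min (min δ1 δ2) (min δ3 (c / (10 * K))), by positivity, c / 360, by positivity, fun X hX hN => ?_⟩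
  set δ : ℝ := min (min δ1 δ2) (min δ3 (c / (10 * K))) with hδ
  have hδ0 : 0 < δ := by positivity
  have g1 : δ ≤ δ1 := (min_le_left _ _).trans (min_le_left _ _)
  have g2 : δ ≤ δ2 := (min_le_left _ _).trans (min_le_right _ _)
  have g3 : δ ≤ δ3 := (min_le_right _ _).trans (min_le_left _ _)
  have g4 : δ ≤ c / (10 * K) := (min_le_right _ _).trans (min_le_right _ _)
  have hA := ha X (F1_NB_mono g1 hX)
  have hB := hb X (F1_NB_mono g2 hX) hN
  have hD' := hD X (F1_NB_mono g3 hX)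
  have hcard := F1_card hδ0 (g1.trans hδ1') hX
  set n : ℝ := ((T X).card : ℝ) with hn
  have hn0 : 0 < n := by
    by_contra hcon
    push Not at hcon
    have := mul_nonpos_of_nonpos_of_nonneg hcon hδ0.le
    linarith
  -- comparison of the sums
  have hcomp : 1 / 5 * (∑ t ∈ T X, (kT X t * kU t *
      (kp X t ^ 2 + kq t ^ 2 + (kU t - √3 * kT X t) ^ 2) + (ks X t - 8 * π / n) ^ 2)) +
      (8 + 1 / 2) * ∑ t ∈ T X, kT X t * kU t * kp X t ^ 2 ≤
      49 / 50 * (∑ t ∈ T X, kT X t * kU t * (9 * kp X t ^ 2 + 3 * kq t ^ 2 + (kU t - √3 * kT X t) ^ 2 / 4))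
      + 1 / 5 * ∑ t ∈ T X, (ks X t - 8 * π / n) ^ 2 := by
    rw [Finset.mul_sum, Finset.mul_sum, Finset.mul_sum, Finset.mul_sum, ← Finset.sum_add_distrib,
      ← Finset.sum_add_distrib]
    refine Finset.sum_le_sum fun t ht => ?_
    obtain ⟨hT, hU, -, -⟩ := F1_kite hδ0.le (g1.trans hδ1') hX ht
    have w := mul_pos hT hU
    nlinarith [mul_nonneg w.le (sq_nonneg (kp X t)), mul_nonneg w.le (sq_nonneg (kq t)),
      mul_nonneg w.le (sq_nonneg (kU t - √3 * kT X t))]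
  -- n is large
  have hnc : 10 * K ≤ n * c := by
    have e1 : n * δ ≤ n * (c / (10 * K)) := mul_le_mul_of_nonneg_left g4 hn0.le
    have e2 : 1 ≤ n * (c / (10 * K)) := by linarith
    rw [mul_div_assoc', le_div_iff₀ (by positivity)] at e2
    linarith
  have hfin : c / 360 / (X.card : ℝ) ^ 2 ≤ 1 / 5 * (c / n ^ 2) - K / n ^ 3 := by
    have hG3 := G3 hX.gp
    have hG3' : n + 12 ≤ 6 * (X.card : ℝ) := by
      rw [hn]; exact_mod_cast hG3
    have hx0 : 0 < (X.card : ℝ) := by linarith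
    have e1 : c / 360 / (X.card : ℝ) ^ 2 = c / 10 / (6 * (X.card : ℝ)) ^ 2 := by
      field_simp; norm_num
    have e2 : c / 10 / (6 * (X.card : ℝ)) ^ 2 ≤ c / 10 / n ^ 2 := by
      apply div_le_div_of_nonneg_left (by positivity) (by positivity)
      exact pow_le_pow_left₀ hn0.le (by linarith) 2
    have e3 : K / n ^ 3 ≤ c / 10 / n ^ 2 := by
      rw [div_le_div_iff₀ (by positivity) (by positivity)]
      have : K ≤ c / 10 * n := by linarith
      calc K * n ^ 2 ≤ (c / 10 * n) * n ^ 2 := mul_le_mul_of_nonneg_right this (by positivity)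
        _ = c / 10 * n ^ 3 := by ring
    rw [e1]
    have e4 : 1 / 5 * (c / n ^ 2) = c / 10 / n ^ 2 + c / 10 / n ^ 2 := by field_simp; norm_num
    rw [e4]; linarith
  have hD'' := mul_le_mul_of_nonneg_left hD' (by norm_num : (0 : ℝ) ≤ 1 / 5)
  linarith

end Iso
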