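import Pool.Agent.Lib_helper3.Iso.F1
import Pool.Agent.Lib_helper3.Iso.A2
import Pool.Agent.Lib_helper3.Iso.G4
noncomputable section
namespace Iso
open MeasureTheory Real Set

open Classical in
/-- the set moved to the new origin `q` and scaled by `r⁻¹` -/
def mv (X : Finset V) (q : V) (r : ℝ) : Finset V := X.image (fun x => r⁻¹ • (x - q))

/-- the triple moved -/
def mt (q : V) (r : ℝ) (t : Tr) : Tr := (r⁻¹ • (t.1 - q), r⁻¹ • (t.2.1 - q), r⁻¹ • (t.2.2 - q))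

theorem F2a_det (a b c q : V) : det3 (a - q) (b - q) (c - q) =
    det3 a b c - ip (cr a b + cr b c + cr c a) q := by
  simp only [det3_def, ip_def, PiLp.sub_apply, PiLp.add_apply, cr_zero, cr_one, cr_two]; ring

theorem F2a_cr (a b c q : V) : cr (a - q) (b - q) + cr (b - q) (c - q) + cr (c - q) (a - q) =
    cr a b + cr b c + cr c a := by
  ext i
  fin_cases i <;> simp [cr] <;> ring

theorem F2a_cr_smul (r : ℝ) (a b : V) : cr (r • a) (r • b) = r ^ 2 • cr a b := by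
  ext i
  fin_cases i <;> simp [cr] <;> ring

theorem F2a_det_smul (r : ℝ) (a b c : V) : det3 (r • a) (r • b) (r • c) = r ^ 3 * det3 a b c := by
  simp only [det3_def, PiLp.smul_apply, smul_eq_mul]; ring

/-- the normal of the plane of three points -/
def F2a_n (t : Tr) : V := cr t.1 t.2.1 + cr t.2.1 t.2.2 + cr t.2.2 t.1

theorem F2a_P (t : Tr) : P t = (Dt t)⁻¹ • F2a_n t := rfl

theorem F2a_n_mt (q : V) (r : ℝ) (t : Tr) : F2a_n (mt q r t) = (r⁻¹) ^ 2 • F2a_n t := by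
  simp only [F2a_n, mt, F2a_cr_smul, ← smul_add, F2a_cr]

theorem F2a_Dt_mt (q : V) (r : ℝ) (t : Tr) :
    Dt (mt q r t) = (r⁻¹) ^ 3 * (Dt t - ip (F2a_n t) q) := by
  simp only [Dt, mt, F2a_det_smul, F2a_det, F2a_n]

/-- formulas for the moved triple -/
theorem F2a_formulas {X : Finset V} {q : V} {r : ℝ} (hr : 0 < r) {t : Tr} (ht : t ∈ T X)
    (hq : ip (P t) q < 1) : P (mt q r t) = (r / (1 - ip (P t) q)) • P t ∧
      Fa (mt q r t) = Fa t / r ^ 2 ∧ Dt (mt q r t) = Dt t * (1 - ip (P t) q) / r ^ 3 := by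
  have hD : 0 < Dt t := T_pos ht
  have hn : F2a_n t = Dt t • P t := by rw [F2a_P, smul_smul, mul_inv_cancel₀ hD.ne', one_smul]
  have hDt : Dt (mt q r t) = Dt t * (1 - ip (P t) q) / r ^ 3 := by
    rw [F2a_Dt_mt, hn, ip_smul_left]
    field_simp
  have h1 : 0 < 1 - ip (P t) q := by linarith
  refine ⟨?_, ?_, hDt⟩
  · rw [F2a_P (mt q r t), hDt, F2a_n_mt, hn, smul_smul, smul_smul]
    congr 1
    field_simp
  · have e : ∀ x y : V, r⁻¹ • (x - q) - r⁻¹ • (y - q) = r⁻¹ • (x - y) := by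
      intro x y
      rw [← smul_sub]
      congr 1
      abel
    simp only [Fa, mt, e, F2a_cr_smul, norm_smul]
    rw [Real.norm_of_nonneg (by positivity)]
    field_simp

theorem F2a_mem_mv {X : Finset V} {q : V} {r : ℝ} {x : V} :
    x ∈ mv X q r ↔ ∃ y ∈ X, r⁻¹ • (y - q) = x := by
  simp [mv]

theorem F2a_inj {q : V} {r : ℝ} (hr : 0 < r) : Function.Injective (fun x : V => r⁻¹ • (x - q)) := by
  intro x y h
  have h1 : x - q = y - q := by
    have := congrArg (fun z => r • z) h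
    simpa [smul_smul, mul_inv_cancel₀ hr.ne'] using this
  exact sub_left_injective h1

/-- BLOCK F2a: change of the origin. `det3 (a-q) (b-q) (c-q) = det3 a b c (1 - ip (P t) q)`,
`P' = P/(1 - ip P q)`; so if `ip (P t) q < 1` for all faces, `T (mv X q r)` is the image of `T X`. -/
theorem F2a {X : Finset V} (hX : GP X) {q : V} {r : ℝ} (hr : 0 < r) (hq : ∀ t ∈ T X, ip (P t) q < 1) :
    GP (mv X q r) ∧ (mv X q r).card = X.card ∧
    (∀ t, t ∈ T X → mt q r t ∈ T (mv X q r)) ∧ (∀ t' ∈ T (mv X q r), ∃ t ∈ T X, t' = mt q r t) ∧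
    (∀ t ∈ T X, P (mt q r t) = (r / (1 - ip (P t) q)) • P t ∧ Fa (mt q r t) = Fa t / r ^ 2 ∧
      Dt (mt q r t) = Dt t * (1 - ip (P t) q) / r ^ 3) := by
  classical
  have hr' : 0 < r⁻¹ := inv_pos.2 hr
  refine ⟨⟨?_, ?_, ?_⟩, ?_, ?_, ?_, fun t ht => F2a_formulas hr ht (hq t ht)⟩
  · -- `q` is an interior point
    intro u hu
    obtain ⟨e, he, heq⟩ : ∃ e : ℝ, 0 < e ∧ ∀ t ∈ T X, ip (P t) (q + e • u) ≤ 1 := by
      have : ∀ t ∈ T X, ∀ᶠ e : ℝ in nhdsWithin 0 (Ioi 0), ip (P t) (q + e • u) ≤ 1 := by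
        intro t ht
        have hc : Filter.Tendsto (fun e : ℝ => ip (P t) (q + e • u)) (nhds 0) (nhds (ip (P t) q)) := by
          have : Continuous fun e : ℝ => ip (P t) (q + e • u) := by fun_prop
          simpa using this.tendsto 0
        exact ((hc.eventually (gt_mem_nhds (hq t ht))).filter_mono nhdsWithin_le_nhds).mono
          fun e he => le_of_lt he
      have h2 := (Filter.eventually_all_finset (T X)).2 this
      obtain ⟨e, h3, h4⟩ := (h2.and self_mem_nhdsWithin).exists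
      exact ⟨e, h4, h3⟩
    have hmem : q + e • u ∈ convexHull ℝ (X : Set V) := by
      rw [A2b hX]
      exact heq
    have huu : 0 < ip u u := by
      rw [ip_self]
      exact pow_pos (norm_pos_iff.2 hu) 2
    by_contra! hcon
    have hle : ∀ x ∈ X, ip u x ≤ ip u q := by
      intro x hx
      have := hcon _ (F2a_mem_mv.2 ⟨x, hx, rfl⟩)
      rw [ip_smul_right, ip_sub_right] at this
      nlinarith [this]
    have hsub : convexHull ℝ (X : Set V) ⊆ {x | ip u x ≤ ip u q} := by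
      refine convexHull_min (fun x hx => hle x hx) ?_
      exact convex_halfSpace_le (IsLinearMap.mk (ip_add_right u) (fun c x => ip_smul_right c u x)) _
    have := hsub hmem
    simp only [mem_ofPred_eq, ip_add_right, ip_smul_right] at this
    nlinarith [mul_pos he huu]
  · rintro x' hx'
    obtain ⟨x, hx, rfl⟩ := F2a_mem_mv.1 hx'
    obtain ⟨f, hf⟩ := hX.ext x hx
    refine ⟨f, ?_⟩
    intro y' hy' hne
    obtain ⟨y, hy, rfl⟩ := F2a_mem_mv.1 hy'
    have hyx : y ≠ x := fun h => hne (by rw [h])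
    have := hf y hy hyx
    rw [ip_smul_right, ip_smul_right, ip_sub_right, ip_sub_right]
    exact mul_lt_mul_of_pos_left (by linarith) hr'
  · intro p hp c
    have hsub : {x ∈ ((mv X q r : Finset V) : Set V) | ip p x = c} ⊆
        (fun x : V => r⁻¹ • (x - q)) '' {x ∈ (X : Set V) | ip p x = r * c + ip p q} := by
      rintro x' ⟨hx', hc⟩
      obtain ⟨x, hx, rfl⟩ := F2a_mem_mv.1 (Finset.mem_coe.1 hx')
      refine ⟨x, ⟨hx, ?_⟩, rfl⟩
      rw [ip_smul_right, ip_sub_right] at hc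
      field_simp at hc
      linarith
    have hfin : {x ∈ (X : Set V) | ip p x = r * c + ip p q}.Finite :=
      X.finite_toSet.subset fun x hx => hx.1
    calc _ ≤ ((fun x : V => r⁻¹ • (x - q)) '' {x ∈ (X : Set V) | ip p x = r * c + ip p q}).ncard :=
          Set.ncard_le_ncard hsub (hfin.image _)
      _ ≤ _ := Set.ncard_image_le hfin
      _ ≤ 3 := hX.gen p hp _
  · rw [mv, Finset.card_image_of_injective _ (F2a_inj hr)]
  · intro t ht
    obtain ⟨hP, -, hD⟩ := F2a_formulas hr ht (hq t ht)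
    have h1 : 0 < 1 - ip (P t) q := by linarith [hq t ht]
    obtain ⟨⟨m1, m2, m3⟩, hd, hx⟩ := mem_T.1 ht
    refine mem_T.2 ⟨⟨F2a_mem_mv.2 ⟨_, m1, rfl⟩, F2a_mem_mv.2 ⟨_, m2, rfl⟩, F2a_mem_mv.2 ⟨_, m3, rfl⟩⟩, ?_, ?_⟩
    · rw [hD]; positivity
    · intro x' hx'
      obtain ⟨x, hxX, rfl⟩ := F2a_mem_mv.1 hx'
      rw [hP, ip_smul_left, ip_smul_right, ip_sub_right]
      have h2 := hx x hxX
      have e : r / (1 - ip (P t) q) * (r⁻¹ * (ip (P t) x - ip (P t) q)) =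
          (ip (P t) x - ip (P t) q) / (1 - ip (P t) q) := by
        field_simp
      rw [e, div_le_one h1]
      linarith
  · rintro ⟨a', b', c'⟩ ht'
    obtain ⟨⟨m1, m2, m3⟩, hd, hx⟩ := mem_T.1 ht'
    obtain ⟨a, ha, rfl⟩ := F2a_mem_mv.1 m1
    obtain ⟨b, hb, rfl⟩ := F2a_mem_mv.1 m2
    obtain ⟨c, hc, rfl⟩ := F2a_mem_mv.1 m3
    have he : ((r⁻¹ • (a - q), r⁻¹ • (b - q), r⁻¹ • (c - q)) : Tr) = mt q r (a, b, c) := rfl
    rw [he] at hd hx
    refine ⟨(a, b, c), ?_, he⟩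
    rw [F2a_Dt_mt] at hd
    have hd' : 0 < Dt (a, b, c) - ip (F2a_n (a, b, c)) q :=
      pos_of_mul_pos_right hd (by positivity)
    have hn : ∀ x ∈ X, ip (F2a_n (a, b, c)) x ≤ Dt (a, b, c) := by
      intro x hxX
      have h1 := hx _ (F2a_mem_mv.2 ⟨x, hxX, rfl⟩)
      rw [F2a_P, F2a_Dt_mt, F2a_n_mt, ip_smul_left, ip_smul_left, ip_smul_right, ip_sub_right] at h1
      have e : (r⁻¹ ^ 3 * (Dt (a, b, c) - ip (F2a_n (a, b, c)) q))⁻¹ *
          (r⁻¹ ^ 2 * (r⁻¹ * (ip (F2a_n (a, b, c)) x - ip (F2a_n (a, b, c)) q))) =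
          (ip (F2a_n (a, b, c)) x - ip (F2a_n (a, b, c)) q) /
            (Dt (a, b, c) - ip (F2a_n (a, b, c)) q) := by
        field_simp
      rw [e, div_le_one hd'] at h1
      linarith
    have hne : F2a_n (a, b, c) ≠ 0 := by
      intro h0
      have e0 : Dt (a, b, c) = ip (F2a_n (a, b, c)) a := by
        simp only [Dt, F2a_n, det3_def, ip_def, PiLp.add_apply, cr_zero, cr_one, cr_two]; ring
      rw [e0, h0] at hd'
      simp [ip] at hd'
    obtain ⟨y, hy, hy'⟩ := hX.pos _ hne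
    have hD : 0 < Dt (a, b, c) := lt_of_lt_of_le hy' (hn y hy)
    refine mem_T.2 ⟨⟨ha, hb, hc⟩, hD, fun x hxX => ?_⟩
    rw [F2a_P, ip_smul_left, inv_mul_le_one₀ hD]
    exact hn x hxX

theorem F2b_low {X : Finset V} {δ : ℝ} (h0 : 0 ≤ δ) (h1 : δ ≤ 1 / 100) (hX : NB X δ) (q : V) (ρ : ℝ) :
    π / 2 * (‖q‖ ^ 2 + ρ ^ 2) ≤ ∑ t ∈ T X, Fa t * (ip (nn t) q + ρ) ^ 2 := by
  classical
  have hπ := Real.pi_pos
  set f : V → ℝ := fun x => if ‖x‖ ≤ 1 then (ip x q + ρ) ^ 2 else 0 with hf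
  have hcont : Continuous (fun x : V => (ip x q + ρ) ^ 2) := by
    unfold ip; fun_prop
  have hfm : Measurable f := by
    refine Measurable.ite ?_ hcont.measurable measurable_const
    exact measurableSet_le measurable_norm measurable_const
  have hfb : ∀ x, |f x| ≤ (‖q‖ + |ρ|) ^ 2 := by
    intro x
    simp only [hf]
    split_ifs with h
    · rw [abs_of_nonneg (sq_nonneg _), ← sq_abs]
      have : |ip x q + ρ| ≤ ‖q‖ + |ρ| := by
        refine (abs_add_le _ _).trans ?_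
        have h2 : |ip x q| ≤ ‖x‖ * ‖q‖ := abs_real_inner_le_norm x q
        have h3 : ‖x‖ * ‖q‖ ≤ 1 * ‖q‖ := by gcongr
        linarith
      gcongr
    · simp; positivity
  have hC2b := C2b hX.gp f hfm _ hfb
  have hint : ∫ x, f x ∂sph = 4 * π * (‖q‖ ^ 2 / 3 + ρ ^ 2) := by
    have e1 : ∫ x, f x ∂sph = ∫ x, (ip x q ^ 2 + (2 * ρ * ip x q + ρ ^ 2)) ∂sph := by
      refine integral_congr_ae ?_
      filter_upwards [S1b] with x hx
      simp only [hf, hx, le_refl, if_true]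
      ring
    have i1 : Integrable (fun x : V => ip x q ^ 2) sph := by
      refine Integrable.of_bound (C := ‖q‖ ^ 2) ?_ ?_
      · exact (by unfold ip; fun_prop : Continuous (fun x : V => ip x q ^ 2)).aestronglyMeasurable
      · filter_upwards [S1b] with x hx
        rw [Real.norm_eq_abs, abs_of_nonneg (sq_nonneg _), ← sq_abs]
        have h2 : |ip x q| ≤ ‖x‖ * ‖q‖ := abs_real_inner_le_norm x q
        rw [hx, one_mul] at h2
        gcongr
    have i2 : Integrable (fun x : V => 2 * ρ * ip x q) sph := by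
      refine Integrable.of_bound (C := 2 * |ρ| * ‖q‖) ?_ ?_
      · exact (by unfold ip; fun_prop : Continuous (fun x : V => 2 * ρ * ip x q)).aestronglyMeasurable
      · filter_upwards [S1b] with x hx
        have h2 : |ip x q| ≤ ‖x‖ * ‖q‖ := abs_real_inner_le_norm x q
        rw [hx, one_mul] at h2
        rw [Real.norm_eq_abs, abs_mul, abs_mul]
        have : |(2:ℝ)| = 2 := by norm_num
        rw [this]
        gcongr
    have i3 : Integrable (fun _ : V => ρ ^ 2) sph := integrable_const _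
    have h23 : ∫ x, (2 * ρ * ip x q + ρ ^ 2) ∂sph = 4 * π * ρ ^ 2 := by
      rw [integral_add i2 i3, integral_const_mul, S3d, integral_const, measureReal_def, S1c,
        ENNReal.toReal_ofReal (by positivity)]
      simp
    have i23 : Integrable (fun x : V => 2 * ρ * ip x q + ρ ^ 2) sph := i2.add i3
    rw [e1, integral_add i1 i23, S3c, h23]
    ring
  -- cone by cone
  have hcone : ∀ t ∈ T X, ∫ x in Cone t, f x ∂sph ≤
      4 * (Fa t * (ip (nn t) q + ρ) ^ 2) + 8 * δ * ‖q‖ ^ 2 * (sph (Cone t)).toReal := by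
    intro t ht
    have hCm : MeasurableSet (Cone t) := by
      have : Cone t = {x | 0 < det3 t.1 t.2.1 x} ∩ ({x | 0 < det3 t.2.1 t.2.2 x} ∩
          {x | 0 < det3 t.2.2 t.1 x}) := rfl
      rw [this]
      have hc : ∀ a b : V, MeasurableSet {x : V | 0 < det3 a b x} := fun a b =>
        measurableSet_lt measurable_const
          (by unfold det3 ip; fun_prop : Continuous (fun x : V => det3 a b x)).measurable
      exact (hc _ _).inter ((hc _ _).inter (hc _ _))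
    have hs : ∫ x in Cone t, f x ∂sph ≤
        ∫ _x in Cone t, (2 * (ip (nn t) q + ρ) ^ 2 + 8 * δ * ‖q‖ ^ 2) ∂sph := by
      refine setIntegral_mono_ae_restrict ?_ (integrable_const _) ?_
      · exact (Integrable.of_bound (C := (‖q‖ + |ρ|) ^ 2) hfm.aestronglyMeasurable
          (Filter.Eventually.of_forall fun x => by rw [Real.norm_eq_abs]; exact hfb x)).integrableOn
      · have hae : ∀ᵐ x ∂(sph.restrict (Cone t)), ‖x‖ = 1 := ae_restrict_of_ae S1b
        filter_upwards [hae, ae_restrict_mem hCm] with x hx hxc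
        obtain ⟨h4, -⟩ := C4 h0 (by linarith) hX ht hxc hx
        have hfx : f x = (ip x q + ρ) ^ 2 := by simp [hf, hx]
        have hd : ip x q = ip (nn t) q + ip (x - nn t) q := by rw [ip_sub_left]; ring
        have hb : |ip (x - nn t) q| ≤ 2 * √δ * ‖q‖ :=
          (abs_real_inner_le_norm _ _).trans (by gcongr)
        have hb2 : ip (x - nn t) q ^ 2 ≤ 4 * δ * ‖q‖ ^ 2 := by
          rw [← sq_abs]
          calc |ip (x - nn t) q| ^ 2 ≤ (2 * √δ * ‖q‖) ^ 2 := by gcongr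
            _ = 4 * (√δ) ^ 2 * ‖q‖ ^ 2 := by ring
            _ = _ := by rw [Real.sq_sqrt h0]
        rw [hfx, hd]
        nlinarith [sq_nonneg (ip (nn t) q + ρ - ip (x - nn t) q)]
    rw [setIntegral_const, measureReal_def, smul_eq_mul] at hs
    obtain ⟨c1, -⟩ := C3 h0 (by linarith) hX ht
    obtain ⟨g1, g2, g3⟩ := C5 h0 (by linarith) hX ht
    have hD := G7h ht
    have hsph : (sph (Cone t)).toReal ≤ 2 * Fa t := by
      have hs0 : 0 ≤ (sph (Cone t)).toReal := ENNReal.toReal_nonneg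
      have e1 : (1 - δ) ^ 3 * (sph (Cone t)).toReal ≤ Fa t * (1 + δ) := by
        have : Dt t / 2 ≤ Fa t * (1 + δ) := by
          rw [hD]; nlinarith
        linarith
      have e2 : (97 / 100 : ℝ) ≤ (1 - δ) ^ 3 := by
        have : (99 / 100 : ℝ) ≤ 1 - δ := by linarith
        calc (97 / 100 : ℝ) ≤ (99 / 100) ^ 3 := by norm_num
          _ ≤ (1 - δ) ^ 3 := by gcongr
      nlinarith
    have hA : 0 ≤ (ip (nn t) q + ρ) ^ 2 := sq_nonneg _
    calc ∫ x in Cone t, f x ∂sph ≤ (sph (Cone t)).toReal *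
          (2 * (ip (nn t) q + ρ) ^ 2 + 8 * δ * ‖q‖ ^ 2) := hs
      _ = 2 * ((sph (Cone t)).toReal * (ip (nn t) q + ρ) ^ 2) +
          8 * δ * ‖q‖ ^ 2 * (sph (Cone t)).toReal := by ring
      _ ≤ 2 * ((2 * Fa t) * (ip (nn t) q + ρ) ^ 2) +
          8 * δ * ‖q‖ ^ 2 * (sph (Cone t)).toReal := by gcongr
      _ = _ := by ring
  have hsum := Finset.sum_le_sum hcone
  rw [hC2b, hint, Finset.sum_add_distrib, ← Finset.mul_sum, ← Finset.mul_sum, C2 hX.gp] at hsum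
  have hq2 : 0 ≤ ‖q‖ ^ 2 := sq_nonneg _
  have hδq : δ * ‖q‖ ^ 2 ≤ 1 / 100 * ‖q‖ ^ 2 := by gcongr
  have hπδ : π * (δ * ‖q‖ ^ 2) ≤ π * (1 / 100 * ‖q‖ ^ 2) := by gcongr
  nlinarith [mul_nonneg hπ.le (sq_nonneg ρ), mul_nonneg hπ.le hq2]

theorem F2b_sumFa {X : Finset V} {δ : ℝ} (h0 : 0 ≤ δ) (h1 : δ ≤ 1 / 100) (hX : NB X δ) :
    ∑ t ∈ T X, Fa t ≤ 24 * π := by
  have h : ∀ t ∈ T X, Fa t ≤ 2 * (sph (Cone t)).toReal := by
    intro t ht
    obtain ⟨-, c1⟩ := C3 h0 (by linarith) hX ht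
    obtain ⟨g1, g2, g3⟩ := C5 h0 (by linarith) hX ht
    have hD := G7h ht
    have hs0 : 0 ≤ (sph (Cone t)).toReal := ENNReal.toReal_nonneg
    have e1 : Fa t * (1 - δ) ≤ (1 + δ) ^ 3 * (sph (Cone t)).toReal := by
      have : Fa t * (1 - δ) ≤ Dt t / 2 := by rw [hD]; nlinarith
      linarith
    have e2 : (1 + δ) ^ 3 ≤ 11 / 10 := by
      calc (1 + δ) ^ 3 ≤ (1 + 1 / 100) ^ 3 := by gcongr
        _ ≤ 11 / 10 := by norm_num
    nlinarith
  calc ∑ t ∈ T X, Fa t ≤ ∑ t ∈ T X, 2 * (sph (Cone t)).toReal := Finset.sum_le_sum h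
    _ = 24 * π := by rw [← Finset.mul_sum, C2 hX.gp]; ring

/-- the normal equations have a solution -/
theorem F2b_solve {X : Finset V} {δ : ℝ} (h0 : 0 ≤ δ) (h1 : δ ≤ 1 / 100) (hX : NB X δ) :
    ∃ (q : V) (ρ : ℝ), ∑ t ∈ T X, Fa t * (hh t - ip (nn t) q - ρ) = 0 ∧
      ∑ t ∈ T X, (Fa t * (hh t - ip (nn t) q - ρ)) • nn t = 0 := by
  have hπ := Real.pi_pos
  let M : (V × ℝ) →ₗ[ℝ] (V × ℝ) :=
    { toFun := fun z => (∑ t ∈ T X, (Fa t * (ip (nn t) z.1 + z.2)) • nn t,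
        ∑ t ∈ T X, Fa t * (ip (nn t) z.1 + z.2))
      map_add' := by
        intro z w
        ext1
        · simp only [Prod.fst_add, Prod.snd_add, ip_add_right]
          rw [← Finset.sum_add_distrib]
          refine Finset.sum_congr rfl fun t _ => ?_
          rw [← add_smul]; congr 1; ring
        · simp only [Prod.fst_add, Prod.snd_add, ip_add_right]
          rw [← Finset.sum_add_distrib]
          refine Finset.sum_congr rfl fun t _ => ?_
          ring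
      map_smul' := by
        intro c z
        ext1
        · simp only [Prod.smul_fst, Prod.smul_snd, ip_smul_right, RingHom.id_apply, smul_eq_mul]
          rw [Finset.smul_sum]
          refine Finset.sum_congr rfl fun t _ => ?_
          rw [smul_smul]; congr 1; ring
        · simp only [Prod.smul_fst, Prod.smul_snd, ip_smul_right, RingHom.id_apply, smul_eq_mul]
          rw [Finset.mul_sum]
          refine Finset.sum_congr rfl fun t _ => ?_
          ring }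
  have hinj : Function.Injective M := by
    rw [injective_iff_map_eq_zero]
    rintro ⟨q, ρ⟩ hz
    have e1 : ∑ t ∈ T X, (Fa t * (ip (nn t) q + ρ)) • nn t = 0 := congrArg Prod.fst hz
    have e2 : ∑ t ∈ T X, Fa t * (ip (nn t) q + ρ) = 0 := congrArg Prod.snd hz
    have e3 : ∑ t ∈ T X, Fa t * (ip (nn t) q + ρ) ^ 2 = 0 := by
      have : ∑ t ∈ T X, Fa t * (ip (nn t) q + ρ) ^ 2 =
          ip (∑ t ∈ T X, (Fa t * (ip (nn t) q + ρ)) • nn t) q +
            ρ * ∑ t ∈ T X, Fa t * (ip (nn t) q + ρ) := by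
        have h5 : ip (∑ t ∈ T X, (Fa t * (ip (nn t) q + ρ)) • nn t) q =
            ∑ t ∈ T X, (Fa t * (ip (nn t) q + ρ)) * ip (nn t) q := by
          unfold ip
          rw [sum_inner]
          refine Finset.sum_congr rfl fun t _ => ?_
          rw [real_inner_smul_left]
        rw [h5, Finset.mul_sum, ← Finset.sum_add_distrib]
        refine Finset.sum_congr rfl fun t _ => ?_
        ring
      rw [this, e1, e2]; simp [ip]
    have hlow := F2b_low h0 h1 hX q ρ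
    rw [e3] at hlow
    have h6 : ‖q‖ ^ 2 + ρ ^ 2 ≤ 0 := by
      by_contra hc
      push Not at hc
      have : 0 < π / 2 * (‖q‖ ^ 2 + ρ ^ 2) := by positivity
      linarith
    have hq : ‖q‖ = 0 := by nlinarith [sq_nonneg ‖q‖, sq_nonneg ρ]
    have hρ : ρ = 0 := by nlinarith [sq_nonneg ‖q‖, sq_nonneg ρ]
    simp [norm_eq_zero.1 hq, hρ]
  obtain ⟨⟨q, ρ⟩, hz⟩ := (LinearMap.injective_iff_surjective.1 hinj)
    (∑ t ∈ T X, (Fa t * hh t) • nn t, ∑ t ∈ T X, Fa t * hh t)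
  have e1 : ∑ t ∈ T X, (Fa t * (ip (nn t) q + ρ)) • nn t = ∑ t ∈ T X, (Fa t * hh t) • nn t :=
    congrArg Prod.fst hz
  have e2 : ∑ t ∈ T X, Fa t * (ip (nn t) q + ρ) = ∑ t ∈ T X, Fa t * hh t := congrArg Prod.snd hz
  refine ⟨q, ρ, ?_, ?_⟩
  · have : ∑ t ∈ T X, Fa t * (hh t - ip (nn t) q - ρ) =
        ∑ t ∈ T X, Fa t * hh t - ∑ t ∈ T X, Fa t * (ip (nn t) q + ρ) := by
      rw [← Finset.sum_sub_distrib]
      refine Finset.sum_congr rfl fun t _ => ?_
      ring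
    rw [this, e2, sub_self]
  · have : ∑ t ∈ T X, (Fa t * (hh t - ip (nn t) q - ρ)) • nn t =
        ∑ t ∈ T X, (Fa t * hh t) • nn t - ∑ t ∈ T X, (Fa t * (ip (nn t) q + ρ)) • nn t := by
      rw [← Finset.sum_sub_distrib]
      refine Finset.sum_congr rfl fun t _ => ?_
      rw [← sub_smul]; congr 1; ring
    rw [this, e1, sub_self]

/-- moving a triple is injective -/
theorem F2b_mt_inj {q : V} {r : ℝ} (hr : 0 < r) : Function.Injective (mt q r) := by
  rintro ⟨a, b, c⟩ ⟨a', b', c'⟩ h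
  have hr' : r⁻¹ ≠ 0 := (inv_pos.2 hr).ne'
  simp only [mt, Prod.mk.injEq] at h
  obtain ⟨h1, h2, h3⟩ := h
  have e : ∀ x y : V, r⁻¹ • (x - q) = r⁻¹ • (y - q) → x = y := by
    intro x y h
    have := smul_right_injective V hr' h
    exact sub_left_injective this
  rw [e _ _ h1, e _ _ h2, e _ _ h3]

theorem F2b_sum {X : Finset V} (hX : GP X) {q : V} {r : ℝ} (hr : 0 < r)
    (hq : ∀ t ∈ T X, ip (P t) q < 1) {W : Type*} [AddCommMonoid W] (g : Tr → W) :
    ∑ t' ∈ T (mv X q r), g t' = ∑ t ∈ T X, g (mt q r t) := by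
  obtain ⟨-, -, h3, h4, -⟩ := F2a hX hr hq
  symm
  refine Finset.sum_bij (fun t _ => mt q r t) (fun t ht => h3 t ht)
    (fun t _ t' _ h => F2b_mt_inj hr h) (fun t' ht' => ?_) (fun _ _ => rfl)
  obtain ⟨t, ht, e⟩ := h4 t' ht'
  exact ⟨t, ht, e.symm⟩

/-- height and normal after the motion -/
theorem F2b_hh {X : Finset V} (hX : GP X) {q : V} {r : ℝ} (hr : 0 < r)
    (hq : ∀ t ∈ T X, ip (P t) q < 1) {t : Tr} (ht : t ∈ T X) :
    hh (mt q r t) = (hh t - ip (nn t) q) / r ∧ nn (mt q r t) = nn t ∧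
      Fa (mt q r t) = Fa t / r ^ 2 := by
  obtain ⟨-, -, -, -, h5⟩ := F2a hX hr hq
  obtain ⟨hP, hF, -⟩ := h5 t ht
  have hpos : 0 < 1 - ip (P t) q := by linarith [hq t ht]
  have hPn : ‖P t‖ ≠ 0 := norm_ne_zero_iff.2 (P_ne_zero ht)
  have hn : ‖P (mt q r t)‖ = r / (1 - ip (P t) q) * ‖P t‖ := by
    rw [hP, norm_smul, Real.norm_eq_abs, abs_of_pos (by positivity)]
  refine ⟨?_, ?_, hF⟩
  · rw [hh, hn, hh, nn, ip_smul_left]
    field_simp
  · rw [nn, hn, hP, nn, smul_smul]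
    congr 1
    field_simp

/-- BLOCK F2b: least squares. Let `(q, ρ)` minimise `Σ Fa (hh - ip nn q - ρ)²` over `V × ℝ` (orthogonal projection). The
quadratic form `Σ Fa (ip nn q + ρ)²/3` is `≥ c(‖q‖²+ρ²)` (compare with `∫ (ip x q + ρ)² = 4π(‖q‖²/3+ρ²)`: C2b, C3, C4),
and the minimum is `≤ Σ Fa (hh-1)² ≤ 13·4π δ²`, so `‖q‖, |ρ-1| ≤ C δ`. `mv X q ρ` is normalised:
`hh' - 1 = (hh - ip nn q - ρ)/ρ`, and `NB` with `C δ`. -/
theorem F2b : ∃ C > 0, ∃ δ0 > 0, ∀ X : Finset V, ∀ δ : ℝ, 0 ≤ δ → δ ≤ δ0 → NB X δ →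
    ∃ q : V, ∃ r : ℝ, 0 < r ∧ (∀ t ∈ T X, ip (P t) q < 1) ∧ NB (mv X q r) (C * δ) ∧ Nrm (mv X q r) := by
  refine ⟨20, by norm_num, 1 / 100, by norm_num, fun X δ h0 h1 hX => ?_⟩
  have hπ := Real.pi_pos
  obtain ⟨q, ρ, e1, e2⟩ := F2b_solve h0 h1 hX
  have hC5 := fun t (ht : t ∈ T X) => C5 h0 (by linarith : δ < 1) hX ht
  -- size of q and ρ - 1
  have hsize : ‖q‖ ^ 2 + (ρ - 1) ^ 2 ≤ 48 * δ ^ 2 := by
    set A := ∑ t ∈ T X, Fa t * (ip (nn t) q + (ρ - 1)) ^ 2 with hA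
    set B := ∑ t ∈ T X, Fa t * (hh t - 1) ^ 2 with hB
    have hlow := F2b_low h0 h1 hX q (ρ - 1)
    have hcross : ∑ t ∈ T X, Fa t * (hh t - ip (nn t) q - ρ) * (ip (nn t) q + (ρ - 1)) = 0 := by
      have h5 : ∑ t ∈ T X, Fa t * (hh t - ip (nn t) q - ρ) * (ip (nn t) q + (ρ - 1)) =
          ip (∑ t ∈ T X, (Fa t * (hh t - ip (nn t) q - ρ)) • nn t) q +
            (ρ - 1) * ∑ t ∈ T X, Fa t * (hh t - ip (nn t) q - ρ) := by
        have h6 : ip (∑ t ∈ T X, (Fa t * (hh t - ip (nn t) q - ρ)) • nn t) q =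
            ∑ t ∈ T X, (Fa t * (hh t - ip (nn t) q - ρ)) * ip (nn t) q := by
          unfold ip
          rw [sum_inner]
          refine Finset.sum_congr rfl fun t _ => ?_
          rw [real_inner_smul_left]
        rw [h6, Finset.mul_sum, ← Finset.sum_add_distrib]
        refine Finset.sum_congr rfl fun t _ => ?_
        ring
      rw [h5, e1, e2]; simp [ip]
    have hAB : A ≤ B := by
      have h7 : B = A + 2 * ∑ t ∈ T X, Fa t * (hh t - ip (nn t) q - ρ) * (ip (nn t) q + (ρ - 1)) +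
          ∑ t ∈ T X, Fa t * (hh t - ip (nn t) q - ρ) ^ 2 := by
        rw [hA, hB, Finset.mul_sum, ← Finset.sum_add_distrib, ← Finset.sum_add_distrib]
        refine Finset.sum_congr rfl fun t _ => ?_
        ring
      have h8 : 0 ≤ ∑ t ∈ T X, Fa t * (hh t - ip (nn t) q - ρ) ^ 2 :=
        Finset.sum_nonneg fun t ht => mul_nonneg (hC5 t ht).2.2.le (sq_nonneg _)
      rw [h7, hcross]; linarith
    have hBb : B ≤ 24 * π * δ ^ 2 := by
      have h9 : B ≤ ∑ t ∈ T X, Fa t * δ ^ 2 := by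
        refine Finset.sum_le_sum fun t ht => ?_
        obtain ⟨g1, g2, g3⟩ := hC5 t ht
        have : (hh t - 1) ^ 2 ≤ δ ^ 2 := by
          rw [sq_le_sq, abs_of_nonneg h0]
          exact abs_le.2 ⟨by linarith, by linarith⟩
        gcongr
      rw [← Finset.sum_mul] at h9
      have := F2b_sumFa h0 h1 hX
      calc B ≤ (∑ t ∈ T X, Fa t) * δ ^ 2 := h9
        _ ≤ _ := by gcongr
    have : π / 2 * (‖q‖ ^ 2 + (ρ - 1) ^ 2) ≤ π / 2 * (48 * δ ^ 2) := by
      calc _ ≤ A := hlow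
        _ ≤ B := hAB
        _ ≤ 24 * π * δ ^ 2 := hBb
        _ = _ := by ring
    exact le_of_mul_le_mul_left this (by positivity)
  have hq7 : ‖q‖ ≤ 7 * δ := by
    have : ‖q‖ ^ 2 ≤ (7 * δ) ^ 2 := by nlinarith [sq_nonneg (ρ - 1), sq_nonneg δ]
    exact (pow_le_pow_iff_left₀ (norm_nonneg _) (by positivity) (by norm_num)).1 this
  have hρ7 : |ρ - 1| ≤ 7 * δ := by
    have : (ρ - 1) ^ 2 ≤ (7 * δ) ^ 2 := by nlinarith [sq_nonneg ‖q‖, sq_nonneg δ]
    exact abs_le_of_sq_le_sq this (by positivity)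
  obtain ⟨hρ1, hρ2⟩ := abs_le.1 hρ7
  have hρpos : 0 < ρ := by linarith
  have hPnorm : ∀ t ∈ T X, 0 < ‖P t‖ := fun t ht => norm_pos_iff.2 (P_ne_zero ht)
  have hipnn : ∀ t ∈ T X, |ip (nn t) q| ≤ 7 * δ := by
    intro t ht
    have hn : ‖nn t‖ = 1 := by
      rw [nn, norm_smul, norm_inv, norm_norm, inv_mul_cancel₀ (hPnorm t ht).ne']
    calc |ip (nn t) q| ≤ ‖nn t‖ * ‖q‖ := abs_real_inner_le_norm _ _
      _ ≤ 7 * δ := by rw [hn, one_mul]; exact hq7
  have hqt : ∀ t ∈ T X, ip (P t) q < 1 := by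
    intro t ht
    have hh1 := (hC5 t ht).1
    have e : ip (nn t) q = hh t * ip (P t) q := by rw [nn, ip_smul_left, hh]
    have h2 := abs_le.1 (hipnn t ht)
    have hhpos : 0 < hh t := by linarith
    by_contra hc
    push Not at hc
    have : hh t * 1 ≤ hh t * ip (P t) q := by gcongr
    rw [← e] at this
    linarith [h2.2]
  refine ⟨q, ρ, hρpos, hqt, ?_, ?_⟩
  · obtain ⟨k1, k2, k3, k4, k5⟩ := F2a hX.gp hρpos hqt
    refine ⟨k1, ?_, ?_⟩
    · intro x hx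
      simp only [mv, Finset.mem_image] at hx
      obtain ⟨y, hy, rfl⟩ := hx
      rw [norm_smul, norm_inv, Real.norm_eq_abs, abs_of_pos hρpos, inv_mul_le_iff₀ hρpos]
      have h2 : ‖y - q‖ ≤ ‖y‖ + ‖q‖ := norm_sub_le _ _
      have h3 := hX.up y hy
      nlinarith
    · intro t' ht'
      obtain ⟨t, ht, rfl⟩ := k4 t' ht'
      obtain ⟨m1, -, -⟩ := F2b_hh hX.gp hρpos hqt ht
      have hP' : 0 < ‖P (mt q ρ t)‖ := norm_pos_iff.2 (P_ne_zero ht')
      have h4 : 1 - 20 * δ ≤ hh (mt q ρ t) := by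
        rw [m1, le_div_iff₀ hρpos]
        have h2 := abs_le.1 (hipnn t ht)
        have hh1 := (hC5 t ht).1
        nlinarith
      rw [hh] at h4
      calc (1 - 20 * δ) * ‖P (mt q ρ t)‖ ≤ ‖P (mt q ρ t)‖⁻¹ * ‖P (mt q ρ t)‖ := by gcongr
        _ = 1 := inv_mul_cancel₀ hP'.ne'
  · refine ⟨?_, ?_⟩
    · rw [F2b_sum hX.gp hρpos hqt]
      have : ∀ t ∈ T X, Fa (mt q ρ t) * (hh (mt q ρ t) - 1) =
          (ρ ^ 3)⁻¹ * (Fa t * (hh t - ip (nn t) q - ρ)) := by
        intro t ht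
        obtain ⟨m1, m2, m3⟩ := F2b_hh hX.gp hρpos hqt ht
        rw [m1, m3]; field_simp
      rw [Finset.sum_congr rfl this, ← Finset.mul_sum, e1, mul_zero]
    · rw [F2b_sum hX.gp hρpos hqt]
      have : ∀ t ∈ T X, (Fa (mt q ρ t) * (hh (mt q ρ t) - 1)) • nn (mt q ρ t) =
          (ρ ^ 3)⁻¹ • ((Fa t * (hh t - ip (nn t) q - ρ)) • nn t) := by
        intro t ht
        obtain ⟨m1, m2, m3⟩ := F2b_hh hX.gp hρpos hqt ht
        rw [m1, m3, m2, smul_smul]; congr 1; field_simp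
      rw [Finset.sum_congr rfl this, ← Finset.smul_sum, e2, smul_zero]


theorem F2c_sum {X : Finset V} (hX : GP X) {q : V} {r : ℝ} (hr : 0 < r) (hq : ∀ t ∈ T X, ip (P t) q < 1)
    (f : Tr → ℝ) : ∑ t ∈ T (mv X q r), f t = ∑ t ∈ T X, f (mt q r t) := by
  obtain ⟨-, -, h1, h2, -⟩ := F2a hX hr hq
  symm
  refine Finset.sum_nbij (mt q r) h1 ?_ ?_ (fun _ _ => rfl)
  · rintro ⟨a, b, c⟩ _ ⟨a', b', c'⟩ _ h
    simp only [mt, Prod.mk.injEq] at h
    obtain ⟨e1, e2, e3⟩ := h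
    rw [F2a_inj hr e1, F2a_inj hr e2, F2a_inj hr e3]
  · intro t' ht'
    obtain ⟨t, ht, rfl⟩ := h2 t' ht'
    exact ⟨t, ht, rfl⟩

open Pointwise in
theorem F2c_hull (X : Finset V) (q : V) (r : ℝ) :
    convexHull ℝ ((mv X q r : Finset V) : Set V) = r⁻¹ • ((-q) +ᵥ convexHull ℝ (X : Set V)) := by
  rw [← convexHull_vadd, ← convexHull_smul]
  congr 1
  ext x
  rw [Finset.mem_coe, F2a_mem_mv, Set.mem_smul_set]
  constructor
  · rintro ⟨y, hy, rfl⟩
    exact ⟨y - q, ⟨y, hy, by simp [sub_eq_neg_add]⟩, rfl⟩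
  · rintro ⟨z, ⟨y, hy, rfl⟩, rfl⟩
    exact ⟨y, hy, by simp [sub_eq_neg_add]⟩

/-- BLOCK F2c: `SA³/VO²` is invariant (volume by A2: translation invariance and scaling of Lebesgue measure). -/
theorem F2c {X : Finset V} (hX : GP X) {q : V} {r : ℝ} (hr : 0 < r) (hq : ∀ t ∈ T X, ip (P t) q < 1) :
    SA (mv X q r) = SA X / r ^ 2 ∧ VO (mv X q r) = VO X / r ^ 3 := by
  obtain ⟨h0, -, -, -, h3⟩ := F2a hX hr hq
  constructor
  · rw [SA, SA, F2c_sum hX hr hq, Finset.sum_congr rfl fun t ht => (h3 t ht).2.1, ← Finset.sum_div]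
    ring
  · rw [← A2 h0, ← A2 hX, F2c_hull, Measure.addHaar_smul, measure_vadd, ENNReal.toReal_mul,
      ENNReal.toReal_ofReal (abs_nonneg _)]
    have : Module.finrank ℝ V = 3 := by simp
    rw [this, abs_of_pos (by positivity)]
    field_simp

/-- BLOCK F2: local theorem for simplicial polytopes. `A³ ≥ 27V²(A-2V)` because `(x-3)²(x+6) ≥ 0`, `x = A/V`. -/
theorem F2 : ∃ δ > 0, ∃ c > 0, ∀ X : Finset V, NB X δ →
    9 * Cv X.card + c / (X.card : ℝ) ^ 2 ≤ SA X ^ 3 / VO X ^ 2 := by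
  obtain ⟨δ1, hδ1, c, hc, h1⟩ := F1
  obtain ⟨C, hC, δ0, hδ0, h2⟩ := F2b
  refine ⟨min δ0 (δ1 / C), lt_min hδ0 (div_pos hδ1 hC), 9 * c, by positivity, fun X hX => ?_⟩
  have hpos : 0 < min δ0 (δ1 / C) := lt_min hδ0 (div_pos hδ1 hC)
  obtain ⟨q, r, hr, hq, hN, hNrm⟩ := h2 X _ hpos.le (min_le_left _ _) hX
  have hle : C * min δ0 (δ1 / C) ≤ δ1 := by
    calc C * min δ0 (δ1 / C) ≤ C * (δ1 / C) := mul_le_mul_of_nonneg_left (min_le_right _ _) hC.le
      _ = δ1 := by field_simp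
  have hN' : NB (mv X q r) δ1 := by
    refine ⟨hN.gp, fun x hx => (hN.up x hx).trans (by linarith), fun t ht => ?_⟩
    have := hN.lo t ht
    have h3 : 0 ≤ ‖P t‖ := norm_nonneg _
    nlinarith
  have key := h1 _ hN' hNrm
  obtain ⟨hg, hcard, -⟩ := F2a hX.gp hr hq
  obtain ⟨hS, hV⟩ := F2c hX.gp hr hq
  rw [hcard] at key
  -- volumes are positive
  have hVO : ∀ Y : Finset V, GP Y → 0 < VO Y := by
    intro Y hY
    obtain ⟨x, hx, -⟩ := hY.pos (EuclideanSpace.single 0 1) (by simp)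
    obtain ⟨t, ht, -⟩ := G4 hY hx
    have : 0 < ∑ t ∈ T Y, Dt t := Finset.sum_pos (fun t ht => T_pos ht) ⟨t, ht⟩
    rw [VO]; positivity
  have hv := hVO _ hg
  have hv0 := hVO _ hX.gp
  set A := SA (mv X q r)
  set W := VO (mv X q r)
  have hA : 0 ≤ A := by
    refine div_nonneg (Finset.sum_nonneg fun t _ => ?_) (by norm_num)
    exact div_nonneg (norm_nonneg _) (by norm_num)
  have e : SA X ^ 3 / VO X ^ 2 = A ^ 3 / W ^ 2 := by
    have e1 : SA X = A * r ^ 2 := by rw [hS]; field_simp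
    have e2 : VO X = W * r ^ 3 := by rw [hV]; field_simp
    rw [e1, e2]
    field_simp
  rw [e]
  have h5 : 27 * W ^ 2 * (A - 2 * W) ≤ A ^ 3 := by
    nlinarith [mul_nonneg (sq_nonneg (A - 3 * W)) (by positivity : 0 ≤ A + 6 * W)]
  have h6 : 27 * (A - 2 * W) ≤ A ^ 3 / W ^ 2 := by
    rw [le_div_iff₀ (by positivity)]
    nlinarith
  have h7 : 9 * c / (X.card : ℝ) ^ 2 = 9 * (c / (X.card : ℝ) ^ 2) := by ring
  rw [h7]
  linarith

end Iso
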