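import Pool.Agent.Lib_helper3.Iso.F2
import Pool.Agent.Lib_helper3.Iso.A1
import Pool.Agent.Lib_helper3.Iso.A3
noncomputable section
namespace Iso
open MeasureTheory Real Set Topology Pointwise

theorem F3_card_pos {X : Finset V} (hX : GP X) : 0 < X.card := by
  have hne : (!₂[(1 : ℝ), 0, 0] : V) ≠ 0 := by
    intro h
    have := congrArg (fun x : V => x 0) h
    simp at this
  obtain ⟨x, hx, -⟩ := hX.pos _ hne
  exact Finset.card_pos.2 ⟨x, hx⟩

theorem F3_step {δ c : ℝ} (hδ0 : 0 < δ) (hδ1 : δ ≤ 1 / 2)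
    (hF : ∀ X : Finset V, NB X δ → 9 * Cv X.card + c / (X.card : ℝ) ^ 2 ≤ SA X ^ 3 / VO X ^ 2)
    (S : Finset V) (hin : Metric.closedBall 0 1 ⊆ convexHull ℝ (S : Set V))
    (hout : convexHull ℝ (S : Set V) ⊆ Metric.closedBall 0 (1 + δ)) (A : ℝ)
    (hA : Filter.Tendsto (fun ε : ℝ => ((volume (Metric.cthickening ε (convexHull ℝ (S : Set V)))).toReal -
      (volume (convexHull ℝ (S : Set V))).toReal) / ε) (𝓝[>] 0) (𝓝 A)) {ε : ℝ} (h0 : 0 < ε) (h1 : ε < δ) :
    0 < (Set.extremePoints ℝ (convexHull ℝ (S : Set V))).ncard ∧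
    (1 - ε) ^ 6 * (9 * Cv (Set.extremePoints ℝ (convexHull ℝ (S : Set V))).ncard +
      c / ((Set.extremePoints ℝ (convexHull ℝ (S : Set V))).ncard : ℝ) ^ 2) ≤
      A ^ 3 / (volume (convexHull ℝ (S : Set V))).toReal ^ 2 := by
  obtain ⟨X, hcard, hX, hXS, hsc⟩ := A3 S one_pos hin h0 (by linarith)
  set Q := convexHull ℝ (S : Set V) with hQ
  have hQc : IsCompact Q := (Set.Finite.isCompact_convexHull (𝕜 := ℝ) S.finite_toSet)
  have hQv : Convex ℝ Q := convex_convexHull ℝ _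
  have he : (0 : ℝ) < 1 - ε := by linarith
  have hXQ : convexHull ℝ (X : Set V) ⊆ Q := convexHull_min hXS hQv
  have hNB : NB X δ := by
    refine A2c hX hδ0.le (by linarith) ?_ (hXQ.trans hout)
    intro y hy
    rw [Metric.mem_closedBall, dist_zero_right] at hy
    have h2 : (1 - ε)⁻¹ • y ∈ Q := by
      apply hin
      rw [Metric.mem_closedBall, dist_zero_right, norm_smul, norm_inv, Real.norm_of_nonneg he.le,
        inv_mul_le_iff₀ he]
      linarith
    have h3 := hsc _ h2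
    rwa [smul_smul, mul_inv_cancel₀ he.ne', one_smul] at h3
  have hF' := hF X hNB
  have hSA := A1 hX hQc hQv hXS hA
  have hvolQ : volume Q ≠ ⊤ := hQc.measure_lt_top.ne
  have hVO : (1 - ε) ^ 3 * (volume Q).toReal ≤ VO X := by
    rw [← A2 hX]
    have hs : (1 - ε) • Q ⊆ convexHull ℝ (X : Set V) := by
      rintro _ ⟨x, hx, rfl⟩
      exact hsc x hx
    have hm := measure_mono (μ := volume) hs
    rw [Measure.addHaar_smul] at hm
    have hfin : volume (convexHull ℝ (X : Set V)) ≠ ⊤ :=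
      (Set.Finite.isCompact_convexHull (𝕜 := ℝ) X.finite_toSet).measure_lt_top.ne
    have := ENNReal.toReal_mono hfin hm
    rw [ENNReal.toReal_mul, ENNReal.toReal_ofReal (abs_nonneg _)] at this
    simpa [abs_of_pos he] using this
  have hQpos : 0 < (volume Q).toReal := by
    rw [ENNReal.toReal_pos_iff]
    refine ⟨?_, hQc.measure_lt_top⟩
    exact lt_of_lt_of_le (Metric.measure_closedBall_pos volume (0 : V) one_pos) (measure_mono hin)
  have hVOpos : 0 < VO X := lt_of_lt_of_le (by positivity) hVO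
  have hSA0 : 0 ≤ SA X := by
    unfold SA
    refine div_nonneg (Finset.sum_nonneg fun t _ => ?_) (by norm_num)
    unfold Fa; positivity
  have hcp := F3_card_pos hX
  rw [hcard] at hF' hcp
  refine ⟨hcp, ?_⟩
  have e1 : (1 - ε) ^ 6 * (SA X ^ 3 / VO X ^ 2) ≤ A ^ 3 / (volume Q).toReal ^ 2 := by
    have a1 : SA X ^ 3 ≤ A ^ 3 := pow_le_pow_left₀ hSA0 hSA 3
    have a2 : ((1 - ε) ^ 3 * (volume Q).toReal) ^ 2 ≤ VO X ^ 2 := pow_le_pow_left₀ (by positivity) hVO 2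
    rw [← mul_div_assoc, div_le_div_iff₀ (by positivity) (by positivity)]
    calc (1 - ε) ^ 6 * SA X ^ 3 * (volume Q).toReal ^ 2
        = SA X ^ 3 * ((1 - ε) ^ 3 * (volume Q).toReal) ^ 2 := by ring
      _ ≤ A ^ 3 * VO X ^ 2 := mul_le_mul a1 a2 (by positivity) (le_trans (by positivity) a1)
  exact le_trans (mul_le_mul_of_nonneg_left hF' (by positivity)) e1

/-- BLOCK F3 (T1): the inequality for all polyhedra near the unit ball. For small `ε` take `X` from A3, it satisfies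
`NB X (2δ)` (A2c), `A ≥ SA X` (A1), `VO X ≤ V` and `VO X ≥ (1-ε)³ V` (A2), so
`A³/V² ≥ (1-ε)^6 SA³/VO² ≥ (1-ε)^6 (9Cv + c/n²)`; `ε → 0`. -/
theorem F3 : ∃ δ > 0, ∀ S : Finset V, Metric.closedBall 0 1 ⊆ convexHull ℝ (S : Set V) →
    convexHull ℝ (S : Set V) ⊆ Metric.closedBall 0 (1 + δ) →
    ∀ A : ℝ, Filter.Tendsto (fun ε : ℝ => ((volume (Metric.cthickening ε (convexHull ℝ (S : Set V)))).toReal -
      (volume (convexHull ℝ (S : Set V))).toReal) / ε) (𝓝[>] 0) (𝓝 A) →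
    9 * Cv (Set.extremePoints ℝ (convexHull ℝ (S : Set V))).ncard <
      A ^ 3 / (volume (convexHull ℝ (S : Set V))).toReal ^ 2 := by
  obtain ⟨δ0, hδ0, c, hc, hF⟩ := F2
  refine ⟨min δ0 (1 / 2), lt_min hδ0 (by norm_num), ?_⟩
  intro S hin hout A hA
  set δ := min δ0 (1 / 2) with hδ
  have hδp : 0 < δ := lt_min hδ0 (by norm_num)
  have hF2 : ∀ X : Finset V, NB X δ → 9 * Cv X.card + c / (X.card : ℝ) ^ 2 ≤ SA X ^ 3 / VO X ^ 2 :=
    fun X hX => hF X (F1_NB_mono (min_le_left _ _) hX)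
  have hs : ∀ ε : ℝ, 0 < ε → ε < δ → _ := fun ε h0 h1 =>
    F3_step hδp (min_le_right _ _) hF2 S hin hout A hA (ε := ε) h0 h1
  set n := (Set.extremePoints ℝ (convexHull ℝ (S : Set V))).ncard with hn
  have hn0 : 0 < n := (hs (δ / 2) (by linarith) (by linarith)).1
  have hlim : 9 * Cv n + c / (n : ℝ) ^ 2 ≤ A ^ 3 / (volume (convexHull ℝ (S : Set V))).toReal ^ 2 := by
    have ht : Filter.Tendsto (fun ε : ℝ => (1 - ε) ^ 6 * (9 * Cv n + c / (n : ℝ) ^ 2)) (𝓝[>] 0)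
        (𝓝 ((1 - 0) ^ 6 * (9 * Cv n + c / (n : ℝ) ^ 2))) := by
      refine Filter.Tendsto.mono_left ?_ nhdsWithin_le_nhds
      exact Continuous.tendsto (by fun_prop) 0
    have h2 : ∀ᶠ ε : ℝ in 𝓝[>] 0, (1 - ε) ^ 6 * (9 * Cv n + c / (n : ℝ) ^ 2) ≤
        A ^ 3 / (volume (convexHull ℝ (S : Set V))).toReal ^ 2 := by
      filter_upwards [Ioo_mem_nhdsGT hδp] with ε hε
      exact (hs ε hε.1 hε.2).2
    have := le_of_tendsto ht h2
    simpa using this
  have hpos : 0 < c / (n : ℝ) ^ 2 := by positivity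
  linarith

end Iso
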