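import Pool.Agent.Lib_helper3.Iso.F3
import Pool.Agent.Lib_helper3.Iso.B6
noncomputable section
namespace Iso
open MeasureTheory Real Set Topology

open scoped Pointwise in
theorem F4a_vol (K : Set V) (q : V) {r : ℝ} (hr : 0 < r) :
    (volume ((fun x => r⁻¹ • (x - q)) '' K)).toReal = (volume K).toReal / r ^ 3 := by
  have h : (fun x => r⁻¹ • (x - q)) '' K = r⁻¹ • ((fun x => x + (-q)) '' K) := by
    ext z
    simp only [Set.mem_image, Set.mem_smul_set]
    constructor
    · rintro ⟨x, hx, rfl⟩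
      exact ⟨x + -q, ⟨x, hx, rfl⟩, by rw [sub_eq_add_neg]⟩
    · rintro ⟨_, ⟨x, hx, rfl⟩, rfl⟩
      exact ⟨x, hx, by rw [sub_eq_add_neg]⟩
  rw [h, Measure.addHaar_smul, Set.image_add_right, measure_preimage_add_right,
    finrank_euclideanSpace, Fintype.card_fin, abs_of_pos (pow_pos (inv_pos.mpr hr) 3),
    ENNReal.toReal_mul, ENNReal.toReal_ofReal (pow_pos (inv_pos.mpr hr) 3).le, inv_pow]
  field_simp

theorem F4a_inj (q : V) {r : ℝ} (hr : 0 < r) :
    Function.Injective (fun x : V => r⁻¹ • (x - q)) := by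
  intro x y h
  have h1 : x - q = y - q := smul_right_injective _ (inv_pos.mpr hr).ne' h
  exact sub_left_injective h1

theorem F4a_surj (q : V) {r : ℝ} (hr : 0 < r) (z : V) : ∃ x : V, r⁻¹ • (x - q) = z :=
  ⟨q + r • z, by rw [add_sub_cancel_left, smul_smul, inv_mul_cancel₀ hr.ne', one_smul]⟩

theorem F4a_infEDist (K : Set V) (q : V) {r : ℝ} (hr : 0 < r) (x : V) :
    Metric.infEDist (r⁻¹ • (x - q)) ((fun x => r⁻¹ • (x - q)) '' K)
      = ENNReal.ofReal r⁻¹ * Metric.infEDist x K := by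
  have hr' : 0 < r⁻¹ := inv_pos.mpr hr
  have h0 : ENNReal.ofReal r⁻¹ ≠ 0 := by simpa using hr
  have h1 : ENNReal.ofReal r⁻¹ ≠ ⊤ := ENNReal.ofReal_ne_top
  have hd : ∀ x y : V, edist (r⁻¹ • (x - q)) (r⁻¹ • (y - q)) = ENNReal.ofReal r⁻¹ * edist x y := by
    intro x y
    rw [edist_smul₀, ENNReal.smul_def, smul_eq_mul]
    congr 1
    · rw [← ENNReal.ofReal_coe_nnreal]
      congr 1
      simp [abs_of_pos hr]
    · rw [edist_sub_right]
  unfold Metric.infEDist
  rw [iInf_image]
  simp_rw [hd]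
  rw [ENNReal.mul_iInf_of_ne h0 h1]
  congr 1
  ext y
  rw [ENNReal.mul_iInf_of_ne h0 h1]

theorem F4a_cthick (K : Set V) (q : V) {r : ℝ} (hr : 0 < r) (ε : ℝ) :
    Metric.cthickening ε ((fun x => r⁻¹ • (x - q)) '' K)
      = (fun x => r⁻¹ • (x - q)) '' (Metric.cthickening (r * ε) K) := by
  have hr' : 0 < r⁻¹ := inv_pos.mpr hr
  have h0 : ENNReal.ofReal r⁻¹ ≠ 0 := by simpa using hr
  have h1 : ENNReal.ofReal r⁻¹ ≠ ⊤ := ENNReal.ofReal_ne_top
  ext z
  obtain ⟨x, rfl⟩ := F4a_surj q hr z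
  have e : ε = r⁻¹ * (r * ε) := by field_simp
  rw [(F4a_inj q hr).mem_set_image, Metric.mem_cthickening_iff, Metric.mem_cthickening_iff,
    F4a_infEDist K q hr x]
  conv_lhs => rw [e, ENNReal.ofReal_mul hr'.le]
  rw [ENNReal.mul_le_mul_iff_right h0 h1]

/-- BLOCK F4a: similarity. `Q = convexHull S`, `Q' = r⁻¹ (Q - q) = convexHull S'`. -/
theorem F4a (S : Finset V) (q : V) {r : ℝ} (hr : 0 < r) {A : ℝ}
    (hA : Filter.Tendsto (fun ε : ℝ => ((volume (Metric.cthickening ε (convexHull ℝ (S : Set V)))).toReal -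
      (volume (convexHull ℝ (S : Set V))).toReal) / ε) (𝓝[>] 0) (𝓝 A)) : ∃ S' : Finset V,
    convexHull ℝ (S' : Set V) = (fun x => r⁻¹ • (x - q)) '' convexHull ℝ (S : Set V) ∧
    (Set.extremePoints ℝ (convexHull ℝ (S' : Set V))).ncard =
      (Set.extremePoints ℝ (convexHull ℝ (S : Set V))).ncard ∧
    (volume (convexHull ℝ (S' : Set V))).toReal = (volume (convexHull ℝ (S : Set V))).toReal / r ^ 3 ∧
    Filter.Tendsto (fun ε : ℝ => ((volume (Metric.cthickening ε (convexHull ℝ (S' : Set V)))).toReal -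
      (volume (convexHull ℝ (S' : Set V))).toReal) / ε) (𝓝[>] 0) (𝓝 (A / r ^ 2)) := by
  classical
  have hr' : 0 < r⁻¹ := inv_pos.mpr hr
  have hne : r⁻¹ ≠ 0 := hr'.ne'
  -- the affine equivalence
  let f : V ≃ᵃ[ℝ] V := (AffineEquiv.constVAdd ℝ V (-q)).trans
    (LinearEquiv.smulOfNeZero ℝ V r⁻¹ hne).toAffineEquiv
  have hf : ∀ x, f x = r⁻¹ • (x - q) := by
    intro x
    simp only [f, AffineEquiv.trans_apply, AffineEquiv.constVAdd_apply, vadd_eq_add,
      LinearEquiv.coe_toAffineEquiv, LinearEquiv.smulOfNeZero_apply]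
    congr 1
    abel
  have hf' : (f : V → V) = fun x => r⁻¹ • (x - q) := funext hf
  have hS' : convexHull ℝ ((S.image (fun x => r⁻¹ • (x - q)) : Finset V) : Set V) =
      (fun x => r⁻¹ • (x - q)) '' convexHull ℝ (S : Set V) := by
    rw [Finset.coe_image, ← hf']
    exact (f.toAffineMap.image_convexHull (S : Set V)).symm
  refine ⟨S.image (fun x => r⁻¹ • (x - q)), hS', ?_, ?_, ?_⟩
  · rw [hS', ← hf']
    have : Set.extremePoints ℝ (f '' convexHull ℝ (S : Set V)) =
        f '' (Set.extremePoints ℝ (convexHull ℝ (S : Set V))) := by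
      ext b
      obtain ⟨a, rfl⟩ := f.surjective b
      have h3 : ∀ x y, f '' openSegment ℝ x y = openSegment ℝ (f x) (f y) :=
        image_openSegment _ f.toAffineMap
      rw [f.injective.mem_set_image, mem_extremePoints_iff_left, mem_extremePoints_iff_left,
        f.injective.mem_set_image]
      refine and_congr_right fun _ => ?_
      constructor
      · intro h x1 hx1 x2 hx2 hx
        apply f.injective
        refine h _ (mem_image_of_mem f hx1) _ (mem_image_of_mem f hx2) ?_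
        rw [← h3]
        exact mem_image_of_mem f hx
      · rintro h _ ⟨x1, hx1, rfl⟩ _ ⟨x2, hx2, rfl⟩ hx
        rw [← h3, f.injective.mem_set_image] at hx
        rw [h x1 hx1 x2 hx2 hx]
    rw [this, Set.ncard_image_of_injective _ f.injective]
  · rw [hS', F4a_vol _ q hr]
  · rw [hS']
    have key : ∀ ε : ℝ, 0 < ε → ((volume (Metric.cthickening ε
        ((fun x => r⁻¹ • (x - q)) '' convexHull ℝ (S : Set V)))).toReal -
        (volume ((fun x => r⁻¹ • (x - q)) '' convexHull ℝ (S : Set V))).toReal) / ε =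
        (((volume (Metric.cthickening (r * ε) (convexHull ℝ (S : Set V)))).toReal -
          (volume (convexHull ℝ (S : Set V))).toReal) / (r * ε)) / r ^ 2 := by
      intro ε hε
      rw [F4a_cthick _ q hr, F4a_vol _ q hr, F4a_vol _ q hr]
      field_simp
    have ht : Filter.Tendsto (fun ε : ℝ => r * ε) (𝓝[>] (0:ℝ)) (𝓝[>] (0:ℝ)) := by
      apply tendsto_nhdsWithin_of_tendsto_nhds_of_eventually_within
      · have h : Filter.Tendsto (fun ε : ℝ => r * ε) (𝓝 0) (𝓝 (r * 0)) :=
          (continuous_const.mul continuous_id).tendsto 0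
        rw [mul_zero] at h
        exact h.mono_left nhdsWithin_le_nhds
      · filter_upwards [self_mem_nhdsWithin] with ε hε
        have hε : 0 < ε := hε
        exact mul_pos hr hε
    have h2 := (hA.comp ht).div_const (r ^ 2)
    refine h2.congr' ?_
    filter_upwards [self_mem_nhdsWithin] with ε hε
    exact (key ε hε).symm

end Iso
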