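import Pool.Agent.Lib_helper3.Iso.F4
import Pool.Agent.Lib_helper3.Iso.B6
noncomputable section
namespace Iso
open MeasureTheory Real Set Topology

theorem Final_cube {A1 C η : ℝ} (hη : 0 < η) (hC : C ≤ 4 * π + η)
    (hA : A1 ^ 3 ≤ 9 * C * (4 * π / 3) ^ 2) : A1 ≤ 4 * π + η := by
  have hπ := Real.pi_pos
  by_contra hlt
  push Not at hlt
  have h1 : (4 * π + η) ^ 3 < A1 ^ 3 := by gcongr
  have h2 : A1 ^ 3 ≤ 9 * (4 * π + η) * (4 * π / 3) ^ 2 := hA.trans (by gcongr)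
  have h3 : 9 * (4 * π + η) * (4 * π / 3) ^ 2 ≤ (4 * π + η) ^ 3 := by
    have h4 : (4 * π) ^ 2 ≤ (4 * π + η) ^ 2 := by
      gcongr; linarith
    nlinarith
  linarith

/-- BLOCK Final: F3, F4a, B6, K8c. -/
theorem final : ∃ N : ℕ, ∀ P : Set (EuclideanSpace ℝ (Fin 3)),
    (∃ S : Finset (EuclideanSpace ℝ (Fin 3)), P = convexHull ℝ (S : Set (EuclideanSpace ℝ (Fin 3)))) →
    (interior P).Nonempty →
    ∀ n : ℕ, n = (Set.extremePoints ℝ P).ncard → N ≤ n →
    ∀ V : ℝ, V = (volume P).toReal →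
    ∀ A : ℝ,
      Filter.Tendsto (fun ε : ℝ => ((volume (Metric.cthickening ε P)).toReal - V) / ε) (𝓝[>] (0 : ℝ)) (𝓝 A) →
      (27 * Real.sqrt 3 / 2) * ((n : ℝ) - 2) *
          (3 * Real.tan (π * (n : ℝ) / (6 * ((n : ℝ) - 2))) ^ 2 - 1) < A ^ 3 / V ^ 2 := by
  have hπ := Real.pi_pos
  obtain ⟨δ, hδ, h3⟩ := F3
  set x := δ / (2 + δ) with hx
  have hx0 : 0 < x := by positivity
  have hx1 : x < 1 := by rw [hx, div_lt_one (by positivity)]; linarith
  obtain ⟨η, hη, h6⟩ := B6 x hx0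
  set η' := min η 1 with hη'
  have hη'0 : 0 < η' := by positivity
  have hev : ∀ᶠ v : ℕ in Filter.atTop, Cv v < 4 * π + η' :=
    K8c.eventually (eventually_lt_nhds (by linarith))
  obtain ⟨N, hN⟩ := Filter.eventually_atTop.1 hev
  refine ⟨N, fun P hP hint n hn hnN V hV A hA => ?_⟩
  subst hV
  obtain ⟨S, rfl⟩ := hP
  have hCv : (27 * Real.sqrt 3 / 2) * ((n : ℝ) - 2) *
      (3 * Real.tan (π * (n : ℝ) / (6 * ((n : ℝ) - 2))) ^ 2 - 1) = 9 * Cv n := by
    rw [Cv]; ring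
  rw [hCv]
  by_contra hcon
  push Not at hcon
  have hScomp : IsCompact (convexHull ℝ (S : Set (EuclideanSpace ℝ (Fin 3)))) :=
    S.finite_toSet.isCompact_convexHull (𝕜 := ℝ)
  set W := (volume (convexHull ℝ (S : Set (EuclideanSpace ℝ (Fin 3))))).toReal with hW
  have hWpos : 0 < W := by
    refine ENNReal.toReal_pos ?_ hScomp.measure_lt_top.ne
    exact (Measure.measure_pos_of_nonempty_interior volume hint).ne'
  -- scaling to volume 4 pi / 3
  set r := (W / (4 * π / 3)) ^ ((1 : ℝ) / 3) with hr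
  have hrpos : 0 < r := by positivity
  have hr3 : r ^ 3 = W / (4 * π / 3) := by
    rw [hr, ← Real.rpow_natCast, ← Real.rpow_mul (by positivity)]
    norm_num
  obtain ⟨S1, hS1, hn1, hv1, ht1⟩ := F4a S 0 hrpos hA
  have hv1' : (volume (convexHull ℝ (S1 : Set (EuclideanSpace ℝ (Fin 3))))).toReal = 4 * π / 3 := by
    rw [hv1, hr3, ← hW]
    field_simp
  have hS1c : IsCompact (convexHull ℝ (S1 : Set (EuclideanSpace ℝ (Fin 3)))) :=
    S1.finite_toSet.isCompact_convexHull (𝕜 := ℝ)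
  have hint1 : (interior (convexHull ℝ (S1 : Set (EuclideanSpace ℝ (Fin 3))))).Nonempty := by
    rw [(convex_convexHull ℝ _).interior_nonempty_iff_affineSpan_eq_top]
    by_contra hne
    have h0 : volume (convexHull ℝ (S1 : Set (EuclideanSpace ℝ (Fin 3)))) = 0 :=
      measure_mono_null (subset_affineSpan ℝ _) (Measure.addHaar_affineSubspace volume _ hne)
    rw [h0] at hv1'
    simp at hv1'
    linarith
  have hA1 : (A / r ^ 2) ^ 3 ≤ 9 * Cv n * (4 * π / 3) ^ 2 := by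
    have h1 : A ^ 3 ≤ 9 * Cv n * W ^ 2 := by rwa [div_le_iff₀ (by positivity)] at hcon
    have h2 : (A / r ^ 2) ^ 3 = A ^ 3 / (r ^ 3) ^ 2 := by
      rw [div_pow]; congr 1; ring
    rw [h2, hr3, div_le_iff₀ (by positivity)]
    calc A ^ 3 ≤ 9 * Cv n * W ^ 2 := h1
      _ = 9 * Cv n * (4 * π / 3) ^ 2 * (W / (4 * π / 3)) ^ 2 := by field_simp
  have hA1' : A / r ^ 2 ≤ 4 * π + η := by
    have := Final_cube hη'0 (hN n hnN).le hA1
    exact this.trans (by gcongr; exact min_le_left _ _)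
  obtain ⟨x0, hb1, hb2⟩ := h6 _ hS1c (convex_convexHull ℝ _) hint1 hv1' _ ht1 hA1'
  -- second similarity
  have h1x : 0 < 1 - x := by linarith
  obtain ⟨S2, hS2, hn2, hv2, ht2⟩ := F4a S1 x0 h1x ht1
  have hlast := h3 S2 ?_ ?_ _ ht2
  · rw [hn2, hn1, ← hn, hv2, hv1'] at hlast
    have e : (A / r ^ 2 / (1 - x) ^ 2) ^ 3 / (4 * π / 3 / (1 - x) ^ 3) ^ 2 = A ^ 3 / W ^ 2 := by
      have hWr : W = r ^ 3 * (4 * π / 3) := by rw [hr3]; field_simp
      rw [hWr]
      field_simp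
    rw [e] at hlast
    linarith
  · rw [hS2]
    intro y hy
    rw [Metric.mem_closedBall, dist_zero_right] at hy
    refine ⟨x0 + (1 - x) • y, hb1 ?_, ?_⟩
    · rw [Metric.mem_closedBall, dist_eq_norm, add_sub_cancel_left, norm_smul, Real.norm_eq_abs,
        abs_of_pos h1x]
      nlinarith [norm_nonneg y]
    · simp only [add_sub_cancel_left, smul_smul]
      rw [inv_mul_cancel₀ h1x.ne', one_smul]
  · rw [hS2]
    rintro _ ⟨z, hz, rfl⟩
    have := hb2 hz
    rw [Metric.mem_closedBall, dist_eq_norm] at this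
    simp only [Metric.mem_closedBall, dist_zero_right, norm_smul, norm_inv, Real.norm_eq_abs]
    rw [abs_of_pos h1x, inv_mul_le_iff₀ h1x]
    have e : (1 - x) * (1 + δ) = 1 + x := by
      rw [hx]; field_simp; ring
    linarith

end Iso
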