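import Pool.Agent.Lib_helper3.Iso.Basic
noncomputable section
namespace Iso
open MeasureTheory Real Set

theorem G1_det_aa (a c : V) : det3 a a c = 0 := by
  rw [det3_def]; ring

theorem G1_det_ca (a c : V) : det3 a c a = 0 := by
  rw [det3_def]; ring

theorem G1_det_cc (a c : V) : det3 a c c = 0 := by
  rw [det3_def]; ring

theorem G1_ne12 {a b c : V} (h : det3 a b c ≠ 0) : a ≠ b := by
  rintro rfl; exact h (G1_det_aa _ _)

theorem G1_ne13 {a b c : V} (h : det3 a b c ≠ 0) : a ≠ c := by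
  rintro rfl; exact h (G1_det_ca _ _)

theorem G1_ne23 {a b c : V} (h : det3 a b c ≠ 0) : b ≠ c := by
  rintro rfl; exact h (G1_det_cc _ _)

theorem G1_ext {p q : V} (h : ∀ x, ip p x = ip q x) : p = q :=
  ext_inner_right ℝ h

theorem G1_expand_ip {a b c : V} (h : det3 a b c ≠ 0) (p x : V) :
    ip p x = det3 b c x / det3 a b c * ip p a + det3 c a x / det3 a b c * ip p b +
      det3 a b x / det3 a b c * ip p c := by
  conv_lhs => rw [expand h x]
  simp only [ip_add_right, ip_smul_right]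

/-- uniqueness of the functional without membership -/
theorem G1_pf_unique {a b c p : V} (h : det3 a b c ≠ 0) (h1 : ip p a = 1) (h2 : ip p b = 1)
    (h3 : ip p c = 1) : p = pf a b c := by
  refine G1_ext fun x => ?_
  rw [expand h x]
  simp only [ip_add_right, ip_smul_right, h1, h2, h3, ip_pf_fst h, ip_pf_snd h, ip_pf_trd h]

/-- pushing a functional in the direction `n` until it touches a new point -/
theorem G1_push {X : Finset V} (hX : GP X) {q n : V} (hn : n ≠ 0) (hq : ∀ x ∈ X, ip q x ≤ 1) :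
    ∃ c ∈ X, 0 < ip n c ∧ ∃ s : ℝ, 0 ≤ s ∧ ip (q + s • n) c = 1 ∧ ∀ x ∈ X, ip (q + s • n) x ≤ 1 := by
  classical
  obtain ⟨x₀, hx₀, hx₀'⟩ := hX.pos n hn
  obtain ⟨c, hc, hmin⟩ := Finset.exists_min_image (X.filter (fun x => 0 < ip n x))
    (fun x => (1 - ip q x) / ip n x) ⟨x₀, Finset.mem_filter.2 ⟨hx₀, hx₀'⟩⟩
  obtain ⟨hcX, hcn⟩ := Finset.mem_filter.1 hc
  refine ⟨c, hcX, hcn, (1 - ip q c) / ip n c, div_nonneg (by linarith [hq c hcX]) hcn.le, ?_, ?_⟩
  · rw [ip_add_left, ip_smul_left, div_mul_cancel₀ _ hcn.ne']; ring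
  · intro x hx
    rw [ip_add_left, ip_smul_left]
    rcases lt_or_ge 0 (ip n x) with h | h
    · have h1 := hmin x (Finset.mem_filter.2 ⟨hx, h⟩)
      have h2 : (1 - ip q c) / ip n c * ip n x ≤ (1 - ip q x) / ip n x * ip n x :=
        mul_le_mul_of_nonneg_right h1 h.le
      rw [div_mul_cancel₀ _ h.ne'] at h2
      linarith
    · have h1 : 0 ≤ (1 - ip q c) / ip n c := div_nonneg (by linarith [hq c hcX]) hcn.le
      have h2 := mul_nonpos_of_nonneg_of_nonpos h1 h
      linarith [hq x hx]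

theorem G1_ip_cr_fst (a b : V) : ip (cr a b) a = 0 := by
  rw [ip_def]; simp; ring

theorem G1_ip_cr_snd (a b : V) : ip (cr a b) b = 0 := by
  rw [ip_def]; simp; ring

/-- a functional with value one at `a`, `b`, at most one on `X`, pushed to a face -/
theorem G1_face {X : Finset V} (hX : GP X) {q a b : V} (ha : a ∈ X) (hb : b ∈ X)
    (hq : ∀ x ∈ X, ip q x ≤ 1) (h1 : ip q a = 1) (h2 : ip q b = 1) (hn : cr a b ≠ 0) :
    ∃ c, ((a, b, c) : Tr) ∈ T X := by
  obtain ⟨c, hc, hnc, s, -, hs1, hs2⟩ := G1_push hX hn hq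
  have e1 : ip (q + s • cr a b) a = 1 := by
    rw [ip_add_left, ip_smul_left, G1_ip_cr_fst, h1]; ring
  have e2 : ip (q + s • cr a b) b = 1 := by
    rw [ip_add_left, ip_smul_left, G1_ip_cr_snd, h2]; ring
  have hd : 0 < det3 a b c := hnc
  refine ⟨c, mem_T.2 ⟨⟨ha, hb, hc⟩, hd, ?_⟩⟩
  have e : P (a, b, c) = q + s • cr a b := (G1_pf_unique hd.ne' e1 e2 hs1).symm
  rw [e]
  exact hs2

/-- BLOCK G1a (from `gen`: `t.1, t.2.1, t.2.2` are distinct because `Dt t ≠ 0`). -/
theorem strict {X : Finset V} (hX : GP X) {t : Tr} (ht : t ∈ T X) {x : V} (hx : x ∈ X)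
    (h1 : x ≠ t.1) (h2 : x ≠ t.2.1) (h3 : x ≠ t.2.2) : ip (P t) x < 1 := by
  classical
  refine lt_of_le_of_ne (ip_P_le ht hx) fun h => ?_
  have hd : det3 t.1 t.2.1 t.2.2 ≠ 0 := (T_pos ht).ne'
  have n12 := G1_ne12 hd
  have n13 := G1_ne13 hd
  have n23 := G1_ne23 hd
  have hm := (mem_T.1 ht).1
  have hsub : (({x, t.1, t.2.1, t.2.2} : Finset V) : Set V) ⊆ {y ∈ (X : Set V) | ip (P t) y = 1} := by
    intro y hy
    simp only [Finset.coe_insert, Finset.coe_singleton, Set.mem_insert_iff, Set.mem_singleton_iff] at hy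
    rcases hy with rfl | rfl | rfl | rfl
    · exact ⟨hx, h⟩
    · exact ⟨hm.1, ip_P_1 ht⟩
    · exact ⟨hm.2.1, ip_P_2 ht⟩
    · exact ⟨hm.2.2, ip_P_3 ht⟩
  have hfin : {y ∈ (X : Set V) | ip (P t) y = 1}.Finite := X.finite_toSet.subset fun y hy => hy.1
  have hcard := Set.ncard_le_ncard hsub hfin
  rw [Set.ncard_coe_finset] at hcard
  have h4 : ({x, t.1, t.2.1, t.2.2} : Finset V).card = 4 := by
    rw [Finset.card_insert_of_notMem, Finset.card_insert_of_notMem, Finset.card_insert_of_notMem,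
      Finset.card_singleton]
    · simpa using n23
    · simp [n12, n13]
    · simp [h1, h2, h3]
  have := hX.gen (P t) (P_ne_zero ht) 1
  omega

/-- BLOCK G1b: rotate the face plane about the edge `ab`, `t = (a,b,c)`. `n = cr a b`, `ip n c > 0`;
`p(s) = P t + s • n`: for `s < 0` the value at `c` decreases; by `pos` (`u = -n`) some `x ∈ X` has `ip n x < 0`;
the largest `|s|` with `p(s) x ≤ 1` on `X` gives `p` with a third contact point `d`, `ip n d < 0`, and
`(b, a, d)` is positively oriented, `P (b,a,d) = p` by uniqueness. -/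
theorem twin_exists {X : Finset V} (hX : GP X) {t : Tr} (ht : t ∈ T X) : ∃ d, ((t.2.1, t.1, d) : Tr) ∈ T X := by
  have hm := (mem_T.1 ht).1
  have hd : det3 t.1 t.2.1 t.2.2 ≠ 0 := (T_pos ht).ne'
  refine G1_face hX hm.2.1 hm.1 (fun x hx => ip_P_le ht hx) (ip_P_2 ht) (ip_P_1 ht) fun h => hd ?_
  have h1 : det3 t.2.1 t.1 t.2.2 = 0 := by rw [det3, h]; simp [ip]
  rw [det3_swap] at h1
  linarith

/-- BLOCK G1c: both functionals are `q + s • cr a b`; the one with the larger contact on the same side excludes the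
other (`ip p' d ≤ 1`, `ip p d' ≤ 1`), then `strict`. -/
theorem third_unique {X : Finset V} (hX : GP X) {a b c c' : V} (h : ((a, b, c) : Tr) ∈ T X)
    (h' : ((a, b, c') : Tr) ∈ T X) : c = c' := by
  by_contra hne
  have hd : 0 < det3 a b c := T_pos h
  have hd' : 0 < det3 a b c' := T_pos h'
  have s1 : ip (P (a, b, c)) c' < 1 := strict hX h (mem_T.1 h').1.2.2 (G1_ne13 hd'.ne').symm
    (G1_ne23 hd'.ne').symm (fun e => hne e.symm)
  have s2 : ip (P (a, b, c')) c < 1 := strict hX h' (mem_T.1 h).1.2.2 (G1_ne13 hd.ne').symm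
    (G1_ne23 hd.ne').symm hne
  have f1 := G1_expand_ip hd.ne' (P (a, b, c)) c'
  have f2 := G1_expand_ip hd.ne' (P (a, b, c')) c'
  have g1 := ip_P_1 h; have g2 := ip_P_2 h; have g3 := ip_P_3 h
  have g1' := ip_P_1 h'; have g2' := ip_P_2 h'; have g3' := ip_P_3 h'
  simp only at g1 g2 g3 g1' g2' g3'
  rw [g1, g2, g3] at f1
  rw [g1', g2', g3'] at f2
  have hg : 0 < det3 a b c' / det3 a b c := div_pos hd' hd
  nlinarith

theorem twin_mem {X : Finset V} (hX : GP X) {t : Tr} (ht : t ∈ T X) : twin X t ∈ T X := by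
  have h := twin_exists hX ht
  rw [twin, dif_pos h]; exact h.choose_spec

theorem twin_1 {X : Finset V} (hX : GP X) {t : Tr} (ht : t ∈ T X) : (twin X t).1 = t.2.1 := by
  rw [twin, dif_pos (twin_exists hX ht)]

theorem twin_2 {X : Finset V} (hX : GP X) {t : Tr} (ht : t ∈ T X) : (twin X t).2.1 = t.1 := by
  rw [twin, dif_pos (twin_exists hX ht)]

theorem twin_twin {X : Finset V} (hX : GP X) {t : Tr} (ht : t ∈ T X) : twin X (twin X t) = t := by
  have h1 := twin_mem hX (twin_mem hX ht)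
  have e1 : (twin X (twin X t)).1 = t.1 := by rw [twin_1 hX (twin_mem hX ht), twin_2 hX ht]
  have e2 : (twin X (twin X t)).2.1 = t.2.1 := by rw [twin_2 hX (twin_mem hX ht), twin_1 hX ht]
  have h2 : ((t.1, t.2.1, (twin X (twin X t)).2.2) : Tr) ∈ T X := by
    have : (t.1, t.2.1, (twin X (twin X t)).2.2) = twin X (twin X t) := by
      rw [← e1, ← e2]
    rw [this]; exact h1
  have h3 := third_unique hX h2 (c' := t.2.2) (by simpa using ht)
  ext1
  · exact e1
  · ext1
    · exact e2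
    · exact h3

/-- sums over darts are invariant under `twin` -/
theorem sum_twin {X : Finset V} (hX : GP X) (f : Tr → ℝ) : ∑ t ∈ T X, f (twin X t) = ∑ t ∈ T X, f t :=
  Finset.sum_bij' (fun t _ => twin X t) (fun t _ => twin X t) (fun _ h => twin_mem hX h)
    (fun _ h => twin_mem hX h) (fun _ h => twin_twin hX h) (fun _ h => twin_twin hX h) (fun _ _ => rfl)

/-- sums over darts are invariant under `rot` -/
theorem sum_rot (X : Finset V) (f : Tr → ℝ) : ∑ t ∈ T X, f (rot t) = ∑ t ∈ T X, f t :=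
  Finset.sum_bij' (fun t _ => rot t) (fun t _ => rot (rot t)) (fun _ h => rot_mem h)
    (fun _ h => rot_mem (rot_mem h)) (fun _ _ => rfl) (fun _ _ => rfl) (fun _ _ => rfl)

end Iso
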