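import Pool.Agent.Lib_helper3.Iso.G2
noncomputable section
namespace Iso
open MeasureTheory Real Set

/-! auxiliary lemmas of block G7 -/

theorem G7_lag (p a b : V) : ‖p‖ ^ 2 * ‖cr a b‖ ^ 2 =
    ip p (cr a b) ^ 2 + ‖(ip p b) • a - (ip p a) • b‖ ^ 2 := by
  rw [norm_sq_eq, norm_sq_eq, norm_sq_eq, ip_def, ip_def, ip_def]
  simp only [cr_zero, cr_one, cr_two, PiLp.sub_apply, PiLp.smul_apply, smul_eq_mul]
  ring

theorem G7_cr_sub (a b : V) : ‖cr a b‖ ^ 2 = ‖b‖ ^ 2 * ‖b - a‖ ^ 2 - ip b (b - a) ^ 2 := by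
  rw [norm_sq_eq, norm_sq_eq, norm_sq_eq, ip_def]
  simp only [cr_zero, cr_one, cr_two, PiLp.sub_apply]
  ring

theorem G7_cr_swap (a b : V) : cr b a = - cr a b := by
  ext i; fin_cases i <;> simp <;> ring

theorem G7_nrm_cr_swap (a b : V) : ‖cr b a‖ = ‖cr a b‖ := by rw [G7_cr_swap, norm_neg]

theorem G7_rr_swap (a b : V) : rr b a = rr a b := by
  rw [rr, rr, G7_nrm_cr_swap, norm_sub_rev]

theorem G7_nu_swap (a b : V) : nu b a = - nu a b := by
  rw [nu, nu, G7_nrm_cr_swap a b, G7_cr_swap a b, smul_neg]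

/-- the cross product of the edge vectors is not zero -/
theorem G7_cr_ne {X : Finset V} {t : Tr} (ht : t ∈ T X) : cr t.1 t.2.1 ≠ 0 := by
  intro h
  have h1 := T_pos ht
  rw [Dt, det3, h] at h1
  simp [ip] at h1

theorem G7_cr_pos {X : Finset V} {t : Tr} (ht : t ∈ T X) : 0 < ‖cr t.1 t.2.1‖ :=
  norm_pos_iff.2 (G7_cr_ne ht)

theorem G7_sub_ne {a b : V} (h : cr a b ≠ 0) : b - a ≠ 0 := by
  intro h1
  apply h
  have : b = a := sub_eq_zero.1 h1
  subst this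
  ext i; fin_cases i <;> simp <;> ring

theorem G7_sub_pos {a b : V} (h : cr a b ≠ 0) : 0 < ‖b - a‖ := norm_pos_iff.2 (G7_sub_ne h)

theorem G7_rr_pos {a b : V} (h : cr a b ≠ 0) : 0 < rr a b :=
  div_pos (norm_pos_iff.2 h) (G7_sub_pos h)

/-- `‖b‖² = r² + (b.d)²` -/
theorem G7_norm_b {a b : V} (h : cr a b ≠ 0) :
    ‖b‖ ^ 2 = rr a b ^ 2 + (ip b (b - a) / ‖b - a‖) ^ 2 := by
  have hp := G7_sub_pos h
  rw [rr, div_pow, div_pow, G7_cr_sub]
  field_simp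
  ring

theorem G7_b_pos {a b : V} (h : cr a b ≠ 0) : 0 < ‖b‖ := by
  rw [norm_pos_iff]; intro h1; apply h; subst h1
  ext i; fin_cases i <;> simp

theorem G7_uu {a b : V} (h : cr a b ≠ 0) :
    uu a b = (ip b (b - a) / ‖b - a‖) / (rr a b + ‖b‖) := by
  rw [uu, div_div]

theorem G7_uu_sq {a b : V} (h : cr a b ≠ 0) :
    uu a b ^ 2 * (rr a b + ‖b‖) = ‖b‖ - rr a b := by
  have h1 := G7_rr_pos h
  have h2 := G7_b_pos h
  have h3 := G7_norm_b h
  rw [G7_uu h, div_pow]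
  rw [div_mul_eq_mul_div, div_eq_iff (by positivity)]
  nlinarith [h3]

theorem G7_rr_le {a b : V} (h : cr a b ≠ 0) : rr a b ≤ ‖b‖ := by
  have h2 := G7_b_pos h
  have h3 := G7_norm_b h
  have h1 := G7_rr_pos h
  nlinarith [sq_nonneg (ip b (b - a) / ‖b - a‖)]

/-- `tan β` -/
theorem G7_tanb {a b : V} (h : cr a b ≠ 0) (h1 : |uu a b| < 1) :
    2 * uu a b / (1 - uu a b ^ 2) = (ip b (b - a) / ‖b - a‖) / rr a b := by
  have hr := G7_rr_pos h
  have hb := G7_b_pos h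
  have hu := G7_uu_sq h
  have hd : uu a b * (rr a b + ‖b‖) = ip b (b - a) / ‖b - a‖ := by
    rw [G7_uu h]; field_simp
  have hlt : uu a b ^ 2 < 1 := by
    rw [← sq_abs]; nlinarith [abs_nonneg (uu a b)]
  have hne : 1 - uu a b ^ 2 ≠ 0 := by linarith
  rw [← hd, div_eq_div_iff hne hr.ne']
  have : (1 - uu a b ^ 2) * (rr a b + ‖b‖) = 2 * rr a b := by linarith
  have e : uu a b * (rr a b + ‖b‖) * (1 - uu a b ^ 2) = uu a b * ((1 - uu a b ^ 2) * (rr a b + ‖b‖)) := by ring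
  rw [e, this]; ring

theorem G7_cosb {a b : V} (h : cr a b ≠ 0) :
    (1 - uu a b ^ 2) / (1 + uu a b ^ 2) = rr a b / ‖b‖ := by
  have hr := G7_rr_pos h
  have hb := G7_b_pos h
  have hu := G7_uu_sq h
  rw [div_eq_div_iff (by positivity) hb.ne']
  have hs : 0 < rr a b + ‖b‖ := by positivity
  have : (1 - uu a b ^ 2) * (rr a b + ‖b‖) = 2 * rr a b := by linarith
  have h2 : (1 + uu a b ^ 2) * (rr a b + ‖b‖) = 2 * ‖b‖ := by linarith
  have : ((1 - uu a b ^ 2) * ‖b‖) * (rr a b + ‖b‖) = (rr a b * (1 + uu a b ^ 2)) * (rr a b + ‖b‖) := by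
    linear_combination ‖b‖ * this - rr a b * h2
  exact mul_right_cancel₀ hs.ne' this

/-- `(r ‖p‖)² = 1 + (r p.ν)²` -/
theorem G7_sec {X : Finset V} {t : Tr} (ht : t ∈ T X) :
    (rr t.1 t.2.1 * ‖P t‖) ^ 2 = 1 + (rr t.1 t.2.1 * ip (P t) (nu t.1 t.2.1)) ^ 2 := by
  have hc := G7_cr_pos ht
  have hs := G7_sub_pos (G7_cr_ne ht)
  have hl := G7_lag (P t) t.1 t.2.1
  rw [ip_P_1 ht, ip_P_2 ht, one_smul, one_smul, norm_sub_rev] at hl
  rw [nu, ip_smul_right, rr]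
  have e1 : (‖cr t.1 t.2.1‖ / ‖t.2.1 - t.1‖ * ‖P t‖) ^ 2 =
      (‖P t‖ ^ 2 * ‖cr t.1 t.2.1‖ ^ 2) / ‖t.2.1 - t.1‖ ^ 2 := by ring
  have e2 : (‖cr t.1 t.2.1‖ / ‖t.2.1 - t.1‖ * (‖cr t.1 t.2.1‖⁻¹ * ip (P t) (cr t.1 t.2.1))) ^ 2 =
      (ip (P t) (cr t.1 t.2.1)) ^ 2 / ‖t.2.1 - t.1‖ ^ 2 := by
    field_simp
  rw [e1, e2, hl]
  field_simp
  ring

theorem G7_P_pos {X : Finset V} {t : Tr} (ht : t ∈ T X) : 0 < ‖P t‖ := norm_pos_iff.2 (P_ne_zero ht)

theorem G7_sec_ge {X : Finset V} {t : Tr} (ht : t ∈ T X) : 1 ≤ rr t.1 t.2.1 * ‖P t‖ := by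
  have h1 := G7_sec ht
  have h2 : 0 < rr t.1 t.2.1 * ‖P t‖ := mul_pos (G7_rr_pos (G7_cr_ne ht)) (G7_P_pos ht)
  nlinarith [sq_nonneg (rr t.1 t.2.1 * ip (P t) (nu t.1 t.2.1))]

theorem G7_ta_mul {X : Finset V} {t : Tr} (ht : t ∈ T X) :
    ta t * (1 + rr t.1 t.2.1 * ‖P t‖) = rr t.1 t.2.1 * ip (P t) (nu t.1 t.2.1) := by
  have h2 : 0 < rr t.1 t.2.1 * ‖P t‖ := mul_pos (G7_rr_pos (G7_cr_ne ht)) (G7_P_pos ht)
  rw [ta]; field_simp

theorem G7_ta_sq {X : Finset V} {t : Tr} (ht : t ∈ T X) :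
    ta t ^ 2 * (1 + rr t.1 t.2.1 * ‖P t‖) = rr t.1 t.2.1 * ‖P t‖ - 1 := by
  have h2 : 0 < rr t.1 t.2.1 * ‖P t‖ := mul_pos (G7_rr_pos (G7_cr_ne ht)) (G7_P_pos ht)
  have h1 := G7_sec ht
  have h3 := G7_ta_mul ht
  set s := rr t.1 t.2.1 * ‖P t‖
  have hs : 0 < 1 + s := by linarith
  rw [← h3] at h1
  have : (ta t ^ 2 * (1 + s)) * (1 + s) = (s - 1) * (1 + s) := by nlinarith [h1]
  exact mul_right_cancel₀ hs.ne' this

theorem G7_ta_lt {X : Finset V} {t : Tr} (ht : t ∈ T X) : ta t ^ 2 < 1 := by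
  have h := G7_ta_sq ht
  have h2 := G7_sec_ge ht
  by_contra hc
  push Not at hc
  nlinarith

theorem G7_sec_eq {X : Finset V} {t : Tr} (ht : t ∈ T X) :
    (1 + ta t ^ 2) / (1 - ta t ^ 2) = rr t.1 t.2.1 * ‖P t‖ := by
  have h := G7_ta_sq ht
  have h2 := G7_ta_lt ht
  rw [div_eq_iff (by linarith)]
  linarith

theorem G7_tana {X : Finset V} {t : Tr} (ht : t ∈ T X) :
    2 * ta t / (1 - ta t ^ 2) = rr t.1 t.2.1 * ip (P t) (nu t.1 t.2.1) := by
  have h := G7_ta_sq ht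
  have h2 := G7_ta_lt ht
  have h3 := G7_ta_mul ht
  have h4 := G7_sec_ge ht
  rw [div_eq_iff (by linarith), ← h3]
  set s := rr t.1 t.2.1 * ‖P t‖
  have : (1 - ta t ^ 2) * (1 + s) = 2 := by linarith
  linear_combination (- ta t) * this

theorem G7_hh {X : Finset V} {t : Tr} (ht : t ∈ T X) :
    hh t = rr t.1 t.2.1 * (1 - ta t ^ 2) / (1 + ta t ^ 2) := by
  have h := G7_ta_sq ht
  have h1 := G7_P_pos ht
  rw [hh, inv_eq_one_div, div_eq_div_iff h1.ne' (by positivity)]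
  linear_combination h

/-- BLOCK G7g: `r ≤ ‖a‖` and `hh ≤ r` -/
theorem G7g {X : Finset V} {t : Tr} (ht : t ∈ T X) :
    0 < rr t.1 t.2.1 ∧ rr t.1 t.2.1 ≤ ‖t.1‖ ∧ hh t ≤ rr t.1 t.2.1 := by
  have hc := G7_cr_ne ht
  refine ⟨G7_rr_pos hc, ?_, ?_⟩
  · rw [← G7_rr_swap]
    apply G7_rr_le
    rw [G7_cr_swap]; simpa using hc
  · have := G7_sec_ge ht
    have h1 := G7_P_pos ht
    rw [hh, inv_eq_one_div, div_le_iff₀ h1]
    exact this

/-- BLOCK G7a. `ê` = foot of the perpendicular from `0` to the line `ab` divided by `r = rr a b`, `d = (b-a)/|b-a|`,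
`ν = nu a b`: orthonormal; `P t = (1/r)(ê + tanα ν)`, `tanα = r ip (P t) ν`, `r‖P t‖ = 1/cosα`, `ta = tan (α/2)`,
`ta² = (1-cosα)/(1+cosα)`, `cosα = hh/r ≥ (1-δ)/(1+δ)` because `r ≤ ‖a‖`. -/
theorem G7a {X : Finset V} {δ : ℝ} (h0 : 0 ≤ δ) (h1 : δ < 1) (hX : NB X δ) {t : Tr} (ht : t ∈ T X) :
    ta t ^ 2 ≤ δ := by
  have h := G7_ta_sq ht
  have h2 := G7_ta_lt ht
  have h3 := G7g ht
  have h4 := hX.lo t ht
  have h5 := hX.up t.1 (mem_T.1 ht).1.1
  have h6 := G7_P_pos ht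
  have h7 := G7_sec_ge ht
  set r := rr t.1 t.2.1
  -- (1-δ) r‖p‖ ≤ 1+δ
  have h8 : (1 - δ) * (r * ‖P t‖) ≤ 1 + δ := by
    have : (1 - δ) * (r * ‖P t‖) = r * ((1 - δ) * ‖P t‖) := by ring
    rw [this]
    have h9 : r * ((1 - δ) * ‖P t‖) ≤ r * 1 := mul_le_mul_of_nonneg_left h4 h3.1.le
    linarith [h3.2.1]
  set s := r * ‖P t‖
  by_contra hc
  push Not at hc
  nlinarith

/-- BLOCK G7b. `b = r(ê + tanβ d)`, `cosβ = r/‖b‖ ≥ hh/‖b‖`. -/
theorem G7b {X : Finset V} {δ : ℝ} (h0 : 0 ≤ δ) (h1 : δ < 1) (hX : NB X δ) {t : Tr} (ht : t ∈ T X) :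
    u1 t ^ 2 ≤ δ ∧ u2 t ^ 2 ≤ δ := by
  have hc := G7_cr_ne ht
  have h3 := G7g ht
  have h4 := hX.lo t ht
  have h7 := G7_sec_ge ht
  have h6 := G7_P_pos ht
  have hr : 1 - δ ≤ rr t.1 t.2.1 := by
    have : (1 - δ) * ‖P t‖ ≤ rr t.1 t.2.1 * ‖P t‖ := by linarith
    exact le_of_mul_le_mul_right this h6
  have key : ∀ a b : V, cr a b ≠ 0 → 1 - δ ≤ rr a b → ‖b‖ ≤ 1 + δ → uu a b ^ 2 ≤ δ := by
    intro a b hab hrab hb
    have e1 := G7_uu_sq hab
    have e2 := G7_rr_pos hab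
    have e3 := G7_b_pos hab
    by_contra hcon
    push Not at hcon
    have : δ * (rr a b + ‖b‖) < ‖b‖ - rr a b := by
      rw [← e1]; exact mul_lt_mul_of_pos_right hcon (by linarith)
    nlinarith
  constructor
  · rw [u1]
    apply key
    · rw [G7_cr_swap]; simpa using hc
    · rw [G7_rr_swap]; exact hr
    · exact hX.up _ (mem_T.1 ht).1.1
  · rw [u2]
    exact key _ _ hc hr (hX.up _ (mem_T.1 ht).1.2.1)

/-- BLOCK G7c -/
theorem G7c {X : Finset V} (hX : GP X) {t : Tr} (ht : t ∈ T X) :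
    u1 (twin X t) = u2 t ∧ u2 (twin X t) = u1 t ∧ rr (twin X t).1 (twin X t).2.1 = rr t.1 t.2.1 ∧
      nu (twin X t).1 (twin X t).2.1 = - nu t.1 t.2.1 := by
  have e1 := twin_1 hX ht
  have e2 := twin_2 hX ht
  refine ⟨?_, ?_, ?_, ?_⟩
  · rw [u1, u2, e1, e2]
  · rw [u1, u2, e1, e2]
  · rw [e1, e2, G7_rr_swap]
  · rw [e1, e2, G7_nu_swap]

theorem G7_arctan_le {x y : ℝ} (h : -y ≤ x) : arctan x + arctan y ≤ x + y := by
  have hm : Monotone (fun z : ℝ => z - arctan z) := by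
    apply monotone_of_deriv_nonneg
    · exact differentiable_id.sub Real.differentiable_arctan
    · intro z
      have : deriv (fun z : ℝ => z - arctan z) z = 1 - 1 / (1 + z ^ 2) := by
        have h1 := (hasDerivAt_id z).sub (Real.hasDerivAt_arctan z)
        exact h1.deriv
      rw [this]
      have : 1 / (1 + z ^ 2) ≤ 1 := by
        rw [div_le_one (by positivity)]; nlinarith [sq_nonneg z]
      linarith
  have := hm h
  simp only [Real.arctan_neg] at this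
  linarith

/-- BLOCK G7d: lengths. `tanβ1 + tanβ2 = |b-a|/r > 0`, `La = β1+β2`, `β = 2 arctan u`. -/
theorem G7d {X : Finset V} (hX : GP X) {t : Tr} (ht : t ∈ T X) (h1 : |u1 t| < 1) (h2 : |u2 t| < 1) :
    0 < kU t ∧ La t = 2 * (arctan (u1 t) + arctan (u2 t)) ∧ La t ≤ 2 * kU t := by
  have hc := G7_cr_ne ht
  have hc' : cr t.2.1 t.1 ≠ 0 := by rw [G7_cr_swap]; simpa using hc
  obtain ⟨a, b, c⟩ := t
  simp only [u1, u2, kU, La] at *
  have hr := G7_rr_pos hc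
  have hs := G7_sub_pos hc
  have ha := G7_b_pos hc'
  have hb := G7_b_pos hc
  have t1 := G7_tanb hc' h1
  have t2 := G7_tanb hc h2
  have c1 := G7_cosb hc'
  have c2 := G7_cosb hc
  rw [G7_rr_swap] at t1 c1
  rw [norm_sub_rev] at t1
  set u := uu b a with hu
  set v := uu a b with hv
  set r := rr a b with hrr
  set l := ‖b - a‖ with hl
  -- |u|,|v| < 1
  have hu1 : u ^ 2 < 1 := by rw [← sq_abs]; nlinarith [abs_nonneg u]
  have hv1 : v ^ 2 < 1 := by rw [← sq_abs]; nlinarith [abs_nonneg v]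
  -- sum of tangents
  have hsum : 2 * u / (1 - u ^ 2) + 2 * v / (1 - v ^ 2) = l / r := by
    rw [t1, t2, ← add_div, ← add_div]
    have : ip a (a - b) + ip b (b - a) = l ^ 2 := by
      rw [hl, ← ip_self]; simp only [ip_sub_left, ip_sub_right]; ring
    rw [this]; congr 1; field_simp
  have hpos : 0 < 2 * u / (1 - u ^ 2) + 2 * v / (1 - v ^ 2) := by rw [hsum]; positivity
  have huv : 0 < u + v := by
    have e : 2 * u / (1 - u ^ 2) + 2 * v / (1 - v ^ 2) =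
        2 * (u + v) * (1 - u * v) / ((1 - u ^ 2) * (1 - v ^ 2)) := by
      have : 1 - u ^ 2 ≠ 0 := by linarith
      have : 1 - v ^ 2 ≠ 0 := by linarith
      field_simp; ring
    rw [e] at hpos
    have hd : 0 < (1 - u ^ 2) * (1 - v ^ 2) := mul_pos (by linarith) (by linarith)
    have hn : 0 < 2 * (u + v) * (1 - u * v) := by
      by_contra hcon
      push Not at hcon
      exact absurd hpos (not_lt.2 (div_nonpos_of_nonpos_of_nonneg hcon hd.le))
    have huv1 : 0 < 1 - u * v := by nlinarith [sq_nonneg (u - v), sq_nonneg (u + v)]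
    by_contra hcon
    push Not at hcon
    nlinarith
  -- the angle
  have hab1 : ip a (a - b) / l = 2 * u / (1 - u ^ 2) * r := by rw [t1]; field_simp
  have hab2 : ip b (b - a) / l = 2 * v / (1 - v ^ 2) * r := by rw [t2]; field_simp
  set β1 := 2 * arctan u with hβ1
  set β2 := 2 * arctan v with hβ2
  have cosβ1 : cos β1 = r / ‖a‖ := by
    rw [← c1, hβ1, cos_two_mul, Real.cos_sq_arctan]; field_simp; ring
  have cosβ2 : cos β2 = r / ‖b‖ := by
    rw [← c2, hβ2, cos_two_mul, Real.cos_sq_arctan]; field_simp; ring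
  have tanh : ∀ w : ℝ, sin (2 * arctan w) * (1 - w ^ 2) = 2 * w * cos (2 * arctan w) := by
    intro w
    rw [sin_two_mul, cos_two_mul, Real.cos_sq_arctan]
    have hsc : sin (arctan w) = w * cos (arctan w) := by
      have := Real.tan_arctan w
      rw [Real.tan_eq_sin_div_cos, div_eq_iff (Real.cos_arctan_pos w).ne'] at this
      exact this
    have : cos (arctan w) ^ 2 = 1 / (1 + w ^ 2) := Real.cos_sq_arctan w
    rw [hsc]
    have e : 2 * (w * cos (arctan w)) * cos (arctan w) = 2 * w * cos (arctan w) ^ 2 := by ring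
    rw [e, this]
    field_simp; ring
  have sinβ1 : sin β1 = (ip a (a - b) / l) / ‖a‖ := by
    have h := tanh u
    rw [← hβ1, cosβ1] at h
    rw [hab1]
    have : 1 - u ^ 2 ≠ 0 := by linarith
    field_simp at h ⊢
    linarith
  have sinβ2 : sin β2 = (ip b (b - a) / l) / ‖b‖ := by
    have h := tanh v
    rw [← hβ2, cosβ2] at h
    rw [hab2]
    have : 1 - v ^ 2 ≠ 0 := by linarith
    field_simp at h ⊢
    linarith
  have hcos : cos (β1 + β2) = ip a b / (‖a‖ * ‖b‖) := by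
    rw [cos_add, cosβ1, cosβ2, sinβ1, sinβ2]
    have hr2 : r ^ 2 * l ^ 2 = ‖cr a b‖ ^ 2 := by
      rw [hrr, rr, ← hl, div_pow]; field_simp
    rw [norm_cr_sq] at hr2
    have hl2 : l ^ 2 = ‖a‖ ^ 2 + ‖b‖ ^ 2 - 2 * ip a b := by
      rw [hl, ← ip_self, ip_sub_left, ip_sub_right, ip_sub_right, ip_self, ip_self, ip_comm b a]; ring
    have e1 : ip a (a - b) = ‖a‖ ^ 2 - ip a b := by rw [ip_sub_right, ip_self]
    have e2 : ip b (b - a) = ‖b‖ ^ 2 - ip a b := by rw [ip_sub_right, ip_self, ip_comm b a]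
    rw [e1, e2]
    have hl0 : l ≠ 0 := hs.ne'
    have : (r ^ 2 * l ^ 2 - (‖a‖ ^ 2 - ip a b) * (‖b‖ ^ 2 - ip a b)) = ip a b * l ^ 2 := by
      rw [hr2, hl2]; ring
    field_simp
    linear_combination this
  have hβ1b : |β1| < π / 2 := by
    rw [hβ1, abs_mul, abs_two]
    have := Real.arctan_strictMono (show |u| < 1 from h1)
    rw [Real.arctan_one] at this
    have h3 : |arctan u| = arctan |u| := by
      rcases le_or_gt 0 u with h | h
      · rw [abs_of_nonneg h, abs_of_nonneg (by simpa using h)]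
      · rw [abs_of_neg h, Real.arctan_neg, abs_of_neg (by simpa using h)]
    rw [h3]; linarith
  have hβ2b : |β2| < π / 2 := by
    rw [hβ2, abs_mul, abs_two]
    have := Real.arctan_strictMono (show |v| < 1 from h2)
    rw [Real.arctan_one] at this
    have h3 : |arctan v| = arctan |v| := by
      rcases le_or_gt 0 v with h | h
      · rw [abs_of_nonneg h, abs_of_nonneg (by simpa using h)]
      · rw [abs_of_neg h, Real.arctan_neg, abs_of_neg (by simpa using h)]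
    rw [h3]; linarith
  have hβpos : 0 < β1 + β2 := by
    have : arctan (-v) < arctan u := Real.arctan_strictMono (by linarith)
    rw [Real.arctan_neg] at this
    rw [hβ1, hβ2]; linarith
  have hβlt : β1 + β2 < π := by
    have := (abs_lt.1 hβ1b).2; have := (abs_lt.1 hβ2b).2; linarith
  have hang : InnerProductGeometry.angle a b = β1 + β2 := by
    rw [InnerProductGeometry.angle, ← Real.arccos_cos hβpos.le hβlt.le, hcos]
  refine ⟨huv, ?_, ?_⟩
  · rw [hang, hβ1, hβ2]; ring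
  · rw [hang, hβ1, hβ2]
    have := G7_arctan_le (x := u) (y := v) (by linarith)
    linarith

theorem G7_nu_unit {X : Finset V} {t : Tr} (ht : t ∈ T X) : ‖nu t.1 t.2.1‖ = 1 := by
  have := G7_cr_pos ht
  rw [nu, norm_smul, norm_inv, norm_norm]; field_simp

/-- sum of the two tangents -/
theorem G7_tsum {X : Finset V} (hX : GP X) {t : Tr} (ht : t ∈ T X) :
    2 * ta t / (1 - ta t ^ 2) + 2 * ta (twin X t) / (1 - ta (twin X t) ^ 2) =
      rr t.1 t.2.1 * ka X t := by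
  have ht' := twin_mem hX ht
  obtain ⟨-, -, h3, h4⟩ := G7c hX ht
  rw [G7_tana ht, G7_tana ht', h3, h4]
  obtain ⟨h5, -⟩ := G2 hX ht
  have h6 : ip (P t - P (twin X t)) (nu t.1 t.2.1) = ka X t := by
    rw [h5, ip_smul_left, ip_self, G7_nu_unit ht]; ring
  rw [ip_sub_left] at h6
  have h7 : ip (P (twin X t)) (-nu t.1 t.2.1) = - ip (P (twin X t)) (nu t.1 t.2.1) := by
    simp [ip, inner_neg_right]
  rw [h7, ← h6]; ring

/-- BLOCK G7e: `ka = (tanα+tanα')/r`, `tanα = 2ta/(1-ta²)`. -/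
theorem G7e {X : Finset V} (hX : GP X) {t : Tr} (ht : t ∈ T X) (h1 : |ta t| < 1) (h2 : |ta (twin X t)| < 1) :
    0 < kT X t ∧ 2 * kT X t ≤ rr t.1 t.2.1 * ka X t := by
  have hs := G7_tsum hX ht
  have hx := G7_ta_lt ht
  have hy := G7_ta_lt (twin_mem hX ht)
  have hka := (G2 hX ht).2
  have hr := (G7g ht).1
  rw [kT]
  set x := ta t
  set y := ta (twin X t)
  have hx0 : 1 - x ^ 2 ≠ 0 := by linarith
  have hy0 : 1 - y ^ 2 ≠ 0 := by linarith
  have hd : 0 < (1 - x ^ 2) * (1 - y ^ 2) := mul_pos (by linarith) (by linarith)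
  have hxy1 : 0 < 1 - x * y := by nlinarith [sq_nonneg (x - y), sq_nonneg (x + y)]
  have e : 2 * x / (1 - x ^ 2) + 2 * y / (1 - y ^ 2) =
      2 * (x + y) * (1 - x * y) / ((1 - x ^ 2) * (1 - y ^ 2)) := by
    field_simp; ring
  have hpos : 0 < 2 * x / (1 - x ^ 2) + 2 * y / (1 - y ^ 2) := by rw [hs]; positivity
  have hxy : 0 < x + y := by
    rw [e] at hpos
    have hn : 0 < 2 * (x + y) * (1 - x * y) := by
      by_contra hcon
      push Not at hcon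
      exact absurd hpos (not_lt.2 (div_nonpos_of_nonpos_of_nonneg hcon hd.le))
    by_contra hcon
    push Not at hcon
    nlinarith
  refine ⟨hxy, ?_⟩
  rw [← hs, e, le_div_iff₀ hd]
  -- 2 (x+y) (1-x²)(1-y²) ≤ 2 (x+y)(1-xy)
  have : (1 - x ^ 2) * (1 - y ^ 2) ≤ 1 - x * y := by
    nlinarith [sq_nonneg (x + y), sq_nonneg (x * y), mul_pos hxy1 hxy1, sq_nonneg (x - y), hxy1]
  nlinarith

/-- BLOCK G7f: `hh = r cosα = r(1-ta²)/(1+ta²)`. -/
theorem G7f {X : Finset V} (hX : GP X) {t : Tr} (ht : t ∈ T X) :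
    |hh t - hh (twin X t)| ≤ 4 * rr t.1 t.2.1 * |kp X t| * |kT X t| := by
  obtain ⟨-, -, h3, -⟩ := G7c hX ht
  have hr := (G7g ht).1
  rw [G7_hh ht, G7_hh (twin_mem hX ht), h3, kp, kT]
  set r := rr t.1 t.2.1
  set x := ta t
  set y := ta (twin X t)
  have e : r * (1 - x ^ 2) / (1 + x ^ 2) - r * (1 - y ^ 2) / (1 + y ^ 2) =
      (4 * r * ((y - x) / 2) * (x + y)) / ((1 + x ^ 2) * (1 + y ^ 2)) := by
    field_simp; ring
  rw [e, abs_div]
  have hd : 1 ≤ |(1 + x ^ 2) * (1 + y ^ 2)| := by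
    rw [abs_of_pos (by positivity)]; nlinarith [sq_nonneg x, sq_nonneg y, mul_nonneg (sq_nonneg x) (sq_nonneg y)]
  refine (div_le_self (abs_nonneg _) hd).trans ?_
  rw [abs_mul, abs_mul, abs_mul, abs_of_pos hr]
  norm_num

/-- BLOCK G7h -/
theorem G7h {X : Finset V} {t : Tr} (ht : t ∈ T X) : Dt t = 2 * Fa t * hh t := by
  obtain ⟨a, b, c⟩ := t
  have hd := T_pos ht
  have hP := G7_P_pos ht
  have e : cr (b - a) (c - a) = det3 a b c • P (a, b, c) := by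
    rw [P, pf, smul_smul]
    simp only [Dt] at hd
    rw [mul_inv_cancel₀ hd.ne', one_smul]
    ext i; fin_cases i <;> simp <;> ring
  rw [hh, Fa]
  simp only [Dt] at hd ⊢
  rw [e, norm_smul, Real.norm_of_nonneg hd.le]
  field_simp

end Iso
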