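import Pool.Agent.Lib_helper3.Iso.G7
noncomputable section
namespace Iso
open MeasureTheory Real Set

theorem G8_one {X : Finset V} {t : Tr} (ht : t ∈ T X) (h1 : |u1 t| < 1) (h2 : |u2 t| < 1) :
    gg t = ‖P t‖ * ip (P t) (cr t.1 t.2.1) / 2 := by
  have hc := G7_cr_ne ht
  have hc' : cr t.2.1 t.1 ≠ 0 := by rw [G7_cr_swap]; simpa using hc
  have hr := G7_rr_pos hc
  have hs := G7_sub_pos hc
  have hcp := G7_cr_pos ht
  have t1 := G7_tanb hc' h1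
  have t2 := G7_tanb hc h2
  have hta := G7_tana ht
  have hse := G7_sec_eq ht
  have hlt := G7_ta_lt ht
  rw [G7_rr_swap, norm_sub_rev] at t1
  have hsum : 2 * u1 t / (1 - u1 t ^ 2) + 2 * u2 t / (1 - u2 t ^ 2) = ‖t.2.1 - t.1‖ / rr t.1 t.2.1 := by
    rw [u1, u2, t1, t2, ← add_div, ← add_div]
    have : ip t.1 (t.1 - t.2.1) + ip t.2.1 (t.2.1 - t.1) = ‖t.2.1 - t.1‖ ^ 2 := by
      rw [← ip_self]; simp only [ip_sub_left, ip_sub_right]; ring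
    rw [this]; congr 1; field_simp
  rw [gg, hsum]
  have e : ta t * (1 + ta t ^ 2) / (1 - ta t ^ 2) ^ 2 =
      (2 * ta t / (1 - ta t ^ 2)) * ((1 + ta t ^ 2) / (1 - ta t ^ 2)) / 2 := by
    have : 1 - ta t ^ 2 ≠ 0 := by linarith
    field_simp
  rw [e, hta, hse, nu, ip_smul_right]
  have hrr : rr t.1 t.2.1 * ‖t.2.1 - t.1‖ = ‖cr t.1 t.2.1‖ := by rw [rr]; field_simp
  have hrn := hr.ne'
  have e2 : rr t.1 t.2.1 * (‖cr t.1 t.2.1‖⁻¹ * ip (P t) (cr t.1 t.2.1)) * (rr t.1 t.2.1 * ‖P t‖) / 2 *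
      (‖t.2.1 - t.1‖ / rr t.1 t.2.1) =
      (rr t.1 t.2.1 * ‖t.2.1 - t.1‖) * ‖cr t.1 t.2.1‖⁻¹ * (‖P t‖ * ip (P t) (cr t.1 t.2.1) / 2) := by
    field_simp
  rw [e2, hrr, mul_inv_cancel₀ hcp.ne', one_mul]

/-- BLOCK G8: decomposition of a face from the foot `f = P/‖P‖²` of the perpendicular:
`F = ½ Σ_edges (r sinα) (r (tanβ1+tanβ2))`, `hh = r cosα`, `sinα/cos²α = 2 ta(1+ta²)/(1-ta²)²`,
`tanβ = 2u/(1-u²)`.  (Algebraically: `2F = n.(a×b + b×c + c×a)` relative to `f`.) -/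
theorem G8 {X : Finset V} {t : Tr} (ht : t ∈ T X)
    (h : ∀ s ∈ ({t, rot t, rot (rot t)} : Set Tr), |ta s| < 1 ∧ |u1 s| < 1 ∧ |u2 s| < 1) :
    Fa t / hh t ^ 2 = gg t + gg (rot t) + gg (rot (rot t)) := by
  have h1 := (h t (by simp)).2
  have h2 := (h (rot t) (by simp)).2
  have h3 := (h (rot (rot t)) (by simp)).2
  rw [G8_one ht h1.1 h1.2, G8_one (rot_mem ht) h2.1 h2.2, G8_one (rot_mem (rot_mem ht)) h3.1 h3.2]
  simp only [P_rot]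
  have hD := G7h ht
  have hd := T_pos ht
  have hP := G7_P_pos ht
  have hsum : ip (P t) (cr t.1 t.2.1) + ip (P t) (cr (rot t).1 (rot t).2.1) +
      ip (P t) (cr (rot (rot t)).1 (rot (rot t)).2.1) = Dt t * ‖P t‖ ^ 2 := by
    rw [← ip_add_right, ← ip_add_right, ← ip_self, ← ip_smul_right]
    congr 1
    show cr t.1 t.2.1 + cr t.2.1 t.2.2 + cr t.2.2 t.1 = Dt t • pf t.1 t.2.1 t.2.2
    rw [pf, smul_smul, Dt]
    rw [Dt] at hd
    rw [mul_inv_cancel₀ hd.ne', one_smul]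
  have e : ‖P t‖ * ip (P t) (cr t.1 t.2.1) / 2 + ‖P t‖ * ip (P t) (cr (rot t).1 (rot t).2.1) / 2 +
      ‖P t‖ * ip (P t) (cr (rot (rot t)).1 (rot (rot t)).2.1) / 2 =
      ‖P t‖ / 2 * (ip (P t) (cr t.1 t.2.1) + ip (P t) (cr (rot t).1 (rot t).2.1) +
      ip (P t) (cr (rot (rot t)).1 (rot (rot t)).2.1)) := by ring
  rw [e, hsum, hD, hh]
  field_simp

end Iso
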