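import Pool.Agent.Lib_helper3.Iso.KDefs
noncomputable section
namespace Iso
open Real

theorem K1_poly {a b p q : ℝ} (ha : 0 ≤ a) (hb : 0 ≤ b) (hab : a * b ≤ 1 / 10) :
    (1 - (a - p ^ 2) * (b - q ^ 2)) * (1 - 6 * (a * b) + (a * b) ^ 2) ≤
      (1 - a * b) * (1 - (6 * (a * b) - 2 * (p ^ 2 * b + q ^ 2 * a) - 2 * (p ^ 2 * q ^ 2)) +
        ((a - p ^ 2) * (b - q ^ 2)) ^ 2) := by
  have h0 : 0 ≤ a * b := mul_nonneg ha hb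
  have hX : 0 ≤ p ^ 2 * b + q ^ 2 * a := by positivity
  have hY : 0 ≤ p ^ 2 * q ^ 2 := by positivity
  have key : (1 - a * b) * (1 - (6 * (a * b) - 2 * (p ^ 2 * b + q ^ 2 * a) - 2 * (p ^ 2 * q ^ 2)) +
        ((a - p ^ 2) * (b - q ^ 2)) ^ 2) -
      (1 - (a - p ^ 2) * (b - q ^ 2)) * (1 - 6 * (a * b) + (a * b) ^ 2) =
      (1 + a * b) ^ 2 * (p ^ 2 * b + q ^ 2 * a) +
        (3 - 6 * (a * b) - (a * b) ^ 2) * (p ^ 2 * q ^ 2) +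
        (1 - a * b) * (p ^ 2 * q ^ 2 - (p ^ 2 * b + q ^ 2 * a)) ^ 2 := by
    ring
  have h1 : 0 ≤ (1 + a * b) ^ 2 * (p ^ 2 * b + q ^ 2 * a) := by positivity
  have h2 : 0 ≤ (3 - 6 * (a * b) - (a * b) ^ 2) * (p ^ 2 * q ^ 2) := by
    refine mul_nonneg ?_ hY
    nlinarith
  have h3 : 0 ≤ (1 - a * b) * (p ^ 2 * q ^ 2 - (p ^ 2 * b + q ^ 2 * a)) ^ 2 :=
    mul_nonneg (by linarith) (sq_nonneg _)
  linarith

theorem K1_frac1 {x y c d : ℝ} (hc : c ≠ 0) (hd : d ≠ 0) :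
    1 - x / c * (y / d) = (c * d - x * y) / (c * d) := by
  field_simp

theorem K1_frac2 {x y c d : ℝ} (hc : c ≠ 0) (hd : d ≠ 0) :
    x / c + y / d = (x * d + y * c) / (c * d) := by
  field_simp

theorem K1_frac3 {x c : ℝ} (hc : c ≠ 0) :
    2 * (2 * x / c) / (1 - (2 * x / c) ^ 2) = 4 * x * c / (c ^ 2 - 4 * x ^ 2) := by
  have h1 : 1 - (2 * x / c) ^ 2 = (c ^ 2 - 4 * x ^ 2) / c ^ 2 := by
    field_simp
    ring
  have h2 : 2 * (2 * x / c) = 4 * x * c / c ^ 2 := by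
    field_simp
    ring
  rw [h1, h2, div_div_div_cancel_right₀ (pow_ne_zero 2 hc)]

/-- sum of the four arctans -/
theorem K1_left {t1 t2 v1 v2 P : ℝ} (hPdef : P = v1 * v2) (h1 : t1 ^ 2 * P < 1)
    (h2 : t2 ^ 2 * P < 1)
    (hN : 0 < (1 - t1 ^ 2 * P) * (1 - t2 ^ 2 * P) - t1 * t2 * (v1 + v2) ^ 2) :
    kiteS t1 t2 v1 v2 = 2 * arctan ((t1 + t2) * (v1 + v2) * (1 - t1 * t2 * P) /
        ((1 - t1 ^ 2 * P) * (1 - t2 ^ 2 * P) - t1 * t2 * (v1 + v2) ^ 2)) := by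
  have d1 : 0 < 1 - t1 ^ 2 * P := by linarith
  have d2 : 0 < 1 - t2 ^ 2 * P := by linarith
  have s1 : arctan (t1 * v1) + arctan (t1 * v2) =
      arctan (t1 * (v1 + v2) / (1 - t1 ^ 2 * P)) := by
    rw [Real.arctan_add (by rw [show t1 * v1 * (t1 * v2) = t1 ^ 2 * P by rw [hPdef]; ring]; exact h1)]
    congr 1
    rw [hPdef]
    ring
  have s2 : arctan (t2 * v1) + arctan (t2 * v2) =
      arctan (t2 * (v1 + v2) / (1 - t2 ^ 2 * P)) := by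
    rw [Real.arctan_add (by rw [show t2 * v1 * (t2 * v2) = t2 ^ 2 * P by rw [hPdef]; ring]; exact h2)]
    congr 1
    rw [hPdef]
    ring
  have hAB : t1 * (v1 + v2) / (1 - t1 ^ 2 * P) * (t2 * (v1 + v2) / (1 - t2 ^ 2 * P)) < 1 := by
    rw [div_mul_div_comm, div_lt_one (mul_pos d1 d2)]
    have e0 : t1 * (v1 + v2) * (t2 * (v1 + v2)) = t1 * t2 * (v1 + v2) ^ 2 := by ring
    rw [e0]
    linarith
  have s3 : arctan (t1 * (v1 + v2) / (1 - t1 ^ 2 * P)) + arctan (t2 * (v1 + v2) / (1 - t2 ^ 2 * P)) =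
      arctan ((t1 + t2) * (v1 + v2) * (1 - t1 * t2 * P) /
        ((1 - t1 ^ 2 * P) * (1 - t2 ^ 2 * P) - t1 * t2 * (v1 + v2) ^ 2)) := by
    rw [Real.arctan_add hAB]
    congr 1
    have e1 : 1 - t1 * (v1 + v2) / (1 - t1 ^ 2 * P) * (t2 * (v1 + v2) / (1 - t2 ^ 2 * P)) =
        ((1 - t1 ^ 2 * P) * (1 - t2 ^ 2 * P) - t1 * t2 * (v1 + v2) ^ 2) /
          ((1 - t1 ^ 2 * P) * (1 - t2 ^ 2 * P)) := by
      rw [K1_frac1 d1.ne' d2.ne']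
      congr 1
      ring
    have e2 : t1 * (v1 + v2) / (1 - t1 ^ 2 * P) + t2 * (v1 + v2) / (1 - t2 ^ 2 * P) =
        (t1 + t2) * (v1 + v2) * (1 - t1 * t2 * P) / ((1 - t1 ^ 2 * P) * (1 - t2 ^ 2 * P)) := by
      rw [K1_frac2 d1.ne' d2.ne']
      congr 1
      ring
    rw [e1, e2, div_div_div_cancel_right₀ (mul_pos d1 d2).ne']
  have e4 : kiteS t1 t2 v1 v2 = 2 * ((arctan (t1 * v1) + arctan (t1 * v2)) +
      (arctan (t2 * v1) + arctan (t2 * v2))) := by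
    unfold kiteS
    ring
  rw [e4, s1, s2, s3]

/-- four times the arctan -/
theorem K1_right {w : ℝ} (hw0 : 0 ≤ w) (hw1 : w ≤ 1 / 100) :
    8 * arctan w = 2 * arctan (4 * w * (1 - w ^ 2) / (1 - 6 * w ^ 2 + (w ^ 2) ^ 2)) := by
  have hw2 : w ^ 2 ≤ 1 / 10000 := by
    have := pow_le_pow_left₀ hw0 hw1 2
    linarith
  have r1 : 2 * arctan w = arctan (2 * w / (1 - w ^ 2)) :=
    Real.two_mul_arctan (by linarith) (by linarith)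
  have d3 : 0 < 1 - w ^ 2 := by linarith
  have hW : 2 * w / (1 - w ^ 2) < 1 := by
    rw [div_lt_one d3]
    linarith
  have hW0 : 0 ≤ 2 * w / (1 - w ^ 2) := div_nonneg (by linarith) d3.le
  have r2 : 2 * arctan (2 * w / (1 - w ^ 2)) =
      arctan (2 * (2 * w / (1 - w ^ 2)) / (1 - (2 * w / (1 - w ^ 2)) ^ 2)) :=
    Real.two_mul_arctan (by linarith) hW
  have r3 : 2 * (2 * w / (1 - w ^ 2)) / (1 - (2 * w / (1 - w ^ 2)) ^ 2) =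
      4 * w * (1 - w ^ 2) / (1 - 6 * w ^ 2 + (w ^ 2) ^ 2) := by
    rw [K1_frac3 d3.ne']
    congr 1
    ring
  have e5 : 8 * arctan w = 2 * (2 * (2 * arctan w)) := by ring
  rw [e5, r1, r2, r3]

/-- the bounds -/
theorem K1_bounds {t1 t2 v1 v2 P : ℝ} (hPdef : P = v1 * v2)
    (ht1 : |t1| ≤ 1 / 10) (ht2 : |t2| ≤ 1 / 10) (hv1 : |v1| ≤ 1 / 10)
    (hv2 : |v2| ≤ 1 / 10) (hU : 0 ≤ v1 + v2) :
    t1 ^ 2 * P < 1 ∧ t2 ^ 2 * P < 1 ∧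
      0 < (1 - t1 ^ 2 * P) * (1 - t2 ^ 2 * P) - t1 * t2 * (v1 + v2) ^ 2 := by
  have b1 := abs_le.1 hv1
  have b2 := abs_le.1 hv2
  have sq1 : t1 ^ 2 ≤ 1 / 100 := by
    have := pow_le_pow_left₀ (abs_nonneg _) ht1 2
    rw [sq_abs] at this
    linarith
  have sq2 : t2 ^ 2 ≤ 1 / 100 := by
    have := pow_le_pow_left₀ (abs_nonneg _) ht2 2
    rw [sq_abs] at this
    linarith
  have hP : |P| ≤ 1 / 100 := by
    rw [hPdef, abs_mul]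
    calc |v1| * |v2| ≤ 1 / 10 * (1 / 10) := mul_le_mul hv1 hv2 (abs_nonneg _) (by norm_num)
      _ = 1 / 100 := by norm_num
  have hq1 : |t1 ^ 2 * P| ≤ 1 / 10000 := by
    rw [abs_mul, abs_of_nonneg (sq_nonneg t1)]
    calc t1 ^ 2 * |P| ≤ 1 / 100 * (1 / 100) := mul_le_mul sq1 hP (abs_nonneg _) (by norm_num)
      _ = 1 / 10000 := by norm_num
  have hq2 : |t2 ^ 2 * P| ≤ 1 / 10000 := by
    rw [abs_mul, abs_of_nonneg (sq_nonneg t2)]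
    calc t2 ^ 2 * |P| ≤ 1 / 100 * (1 / 100) := mul_le_mul sq2 hP (abs_nonneg _) (by norm_num)
      _ = 1 / 10000 := by norm_num
  have hq1b := (abs_le.1 hq1).2
  have hq2b := (abs_le.1 hq2).2
  have hU2 : v1 + v2 ≤ 2 / 10 := by linarith [b1.2, b2.2]
  have htt : |t1 * t2| ≤ 1 / 100 := by
    rw [abs_mul]
    calc |t1| * |t2| ≤ 1 / 10 * (1 / 10) := mul_le_mul ht1 ht2 (abs_nonneg _) (by norm_num)
      _ = 1 / 100 := by norm_num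
  have hUU : (v1 + v2) ^ 2 ≤ 4 / 100 := by
    have := pow_le_pow_left₀ hU hU2 2
    linarith
  have hM : |t1 * t2 * (v1 + v2) ^ 2| ≤ 1 / 2500 := by
    rw [abs_mul, abs_of_nonneg (sq_nonneg (v1 + v2))]
    calc |t1 * t2| * (v1 + v2) ^ 2 ≤ 1 / 100 * (4 / 100) :=
          mul_le_mul htt hUU (sq_nonneg _) (by norm_num)
      _ = 1 / 2500 := by norm_num
  have hMb := (abs_le.1 hM).2
  refine ⟨by linarith, by linarith, ?_⟩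
  have c1 : 99 / 100 ≤ 1 - t1 ^ 2 * P := by linarith
  have c2 : 99 / 100 ≤ 1 - t2 ^ 2 * P := by linarith
  have hdd : (99 / 100 : ℝ) * (99 / 100) ≤ (1 - t1 ^ 2 * P) * (1 - t2 ^ 2 * P) :=
    mul_le_mul c1 c2 (by norm_num) (by linarith)
  linarith

/-- BLOCK K1. Numerically true up to 1/2.
Proof: with `y_ij = t_i v_j`, `prod (1 + i y_ij) = (1 - e2 + D^2) + i T U (1 - D)`, `T = t1+t2`, `U = v1+v2`,
`D = t1 t2 v1 v2`, `e2 = (t1^2+t2^2) v1 v2 + (v1^2+v2^2) t1 t2 + 2 D`, so the tangent of the sum is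
`TU(1-D)/(1-e2+D^2)`.  For `p = q = 0` (`t1 = t2 = T/2`, `v1 = v2 = U/2`) it is `tan (4 arctan (TU/4))`.
With `D = (T^2/4-p^2)(U^2/4-q^2)`, `e2 = 3T^2U^2/8 - T^2q^2/2 - U^2p^2/2 - 2p^2q^2`, `D0 = T^2U^2/16`, `e20 = 6 D0`,
the claim is `(1-D)(1-e20+D0^2) <= (1-D0)(1-e2+D^2)`, whose leading part is
`-(T^2q^2+U^2p^2)/4 - 3p^2q^2 <= 0`. (Tangent strictly increasing, all angles small.) -/
theorem K1 {t1 t2 v1 v2 : ℝ} (ht1 : |t1| ≤ 1 / 10) (ht2 : |t2| ≤ 1 / 10) (hv1 : |v1| ≤ 1 / 10)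
    (hv2 : |v2| ≤ 1 / 10) (hT : 0 ≤ t1 + t2) (hU : 0 ≤ v1 + v2) :
    kiteS t1 t2 v1 v2 ≤ 8 * arctan ((t1 + t2) * (v1 + v2) / 4) := by
  obtain ⟨P, hPdef⟩ : ∃ P, P = v1 * v2 := ⟨_, rfl⟩
  obtain ⟨w, hw⟩ : ∃ w, w = (t1 + t2) * (v1 + v2) / 4 := ⟨_, rfl⟩
  obtain ⟨h1, h2, hN⟩ := K1_bounds hPdef ht1 ht2 hv1 hv2 hU
  have hw0 : 0 ≤ w := by rw [hw]; exact div_nonneg (mul_nonneg hT hU) (by norm_num)
  have hT2 : t1 + t2 ≤ 2 / 10 := by linarith [(abs_le.1 ht1).2, (abs_le.1 ht2).2]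
  have hU2 : v1 + v2 ≤ 2 / 10 := by linarith [(abs_le.1 hv1).2, (abs_le.1 hv2).2]
  have hw1 : w ≤ 1 / 100 := by
    have := mul_le_mul hT2 hU2 hU (by norm_num)
    rw [hw]
    linarith
  have hw2 : w ^ 2 ≤ 1 / 10000 := by
    have := pow_le_pow_left₀ hw0 hw1 2
    linarith
  have hN2 : 0 < 1 - 6 * w ^ 2 + (w ^ 2) ^ 2 := by
    have := sq_nonneg (w ^ 2)
    linarith
  have f1 : ((t1 + t2) / 2) ^ 2 * ((v1 + v2) / 2) ^ 2 = w ^ 2 := by rw [hw]; ring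
  have hmain : (t1 + t2) * (v1 + v2) * (1 - t1 * t2 * P) /
        ((1 - t1 ^ 2 * P) * (1 - t2 ^ 2 * P) - t1 * t2 * (v1 + v2) ^ 2) ≤
      4 * w * (1 - w ^ 2) / (1 - 6 * w ^ 2 + (w ^ 2) ^ 2) := by
    rw [div_le_div_iff₀ hN hN2]
    have hpoly := K1_poly (a := ((t1 + t2) / 2) ^ 2) (b := ((v1 + v2) / 2) ^ 2)
      (p := (t1 - t2) / 2) (q := (v1 - v2) / 2) (sq_nonneg _) (sq_nonneg _)
      (by rw [f1]; linarith)
    have f2 : (((t1 + t2) / 2) ^ 2 - ((t1 - t2) / 2) ^ 2) *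
        (((v1 + v2) / 2) ^ 2 - ((v1 - v2) / 2) ^ 2) = t1 * t2 * P := by rw [hPdef]; ring
    have f3 : 1 - (6 * (((t1 + t2) / 2) ^ 2 * ((v1 + v2) / 2) ^ 2) -
        2 * (((t1 - t2) / 2) ^ 2 * ((v1 + v2) / 2) ^ 2 + ((v1 - v2) / 2) ^ 2 * ((t1 + t2) / 2) ^ 2) -
        2 * (((t1 - t2) / 2) ^ 2 * ((v1 - v2) / 2) ^ 2)) + (t1 * t2 * P) ^ 2 =
        (1 - t1 ^ 2 * P) * (1 - t2 ^ 2 * P) - t1 * t2 * (v1 + v2) ^ 2 := by rw [hPdef]; ring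
    rw [f2, f3, f1] at hpoly
    have f4 : (t1 + t2) * (v1 + v2) = 4 * w := by rw [hw]; ring
    rw [f4]
    have := mul_le_mul_of_nonneg_left hpoly (by linarith : (0:ℝ) ≤ 4 * w)
    calc 4 * w * (1 - t1 * t2 * P) * (1 - 6 * w ^ 2 + (w ^ 2) ^ 2)
        = 4 * w * ((1 - t1 * t2 * P) * (1 - 6 * w ^ 2 + (w ^ 2) ^ 2)) := by ring
      _ ≤ 4 * w * ((1 - w ^ 2) *
          ((1 - t1 ^ 2 * P) * (1 - t2 ^ 2 * P) - t1 * t2 * (v1 + v2) ^ 2)) := this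
      _ = 4 * w * (1 - w ^ 2) *
          ((1 - t1 ^ 2 * P) * (1 - t2 ^ 2 * P) - t1 * t2 * (v1 + v2) ^ 2) := by ring
  have hfin := Real.arctan_mono hmain
  rw [← hw, K1_left hPdef h1 h2 hN, K1_right hw0 hw1]
  linarith

end Iso
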