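import Pool.Agent.Lib_helper3.Iso.KDefs
noncomputable section
namespace Iso
open Real

lemma K1b_deriv (v1 v2 t : ℝ) :
    HasDerivAt (fun t : ℝ => arctan (t * v1) + arctan (t * v2) - 99 / 100 * ((v1 + v2) * t))
      (1 / (1 + (t * v1) ^ 2) * v1 + 1 / (1 + (t * v2) ^ 2) * v2 - 99 / 100 * (v1 + v2)) t := by
  have h1 : HasDerivAt (fun t : ℝ => arctan (t * v1)) (1 / (1 + (t * v1) ^ 2) * v1) t := by
    have := (hasDerivAt_id t).mul_const v1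
    simpa using this.arctan
  have h2 : HasDerivAt (fun t : ℝ => arctan (t * v2)) (1 / (1 + (t * v2) ^ 2) * v2) t := by
    have := (hasDerivAt_id t).mul_const v2
    simpa using this.arctan
  have h3 : HasDerivAt (fun t : ℝ => 99 / 100 * ((v1 + v2) * t)) (99 / 100 * (v1 + v2)) t := by
    have := ((hasDerivAt_id t).const_mul (v1 + v2)).const_mul (99 / 100 : ℝ)
    simpa using this
  exact (h1.add h2).sub h3

lemma K1b_nonneg {v1 v2 t : ℝ} (hv1 : |v1| ≤ 1 / 10) (hv2 : |v2| ≤ 1 / 10) (ht : |t| ≤ 1 / 10)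
    (hU : 0 ≤ v1 + v2) :
    0 ≤ 1 / (1 + (t * v1) ^ 2) * v1 + 1 / (1 + (t * v2) ^ 2) * v2 - 99 / 100 * (v1 + v2) := by
  have ha : t ^ 2 ≤ 1 / 100 := by rw [← sq_abs]; nlinarith [abs_nonneg t]
  have hb : v1 ^ 2 ≤ 1 / 100 := by rw [← sq_abs]; nlinarith [abs_nonneg v1]
  have hc : v2 ^ 2 ≤ 1 / 100 := by rw [← sq_abs]; nlinarith [abs_nonneg v2]
  have ha0 := sq_nonneg t
  have hb0 := sq_nonneg v1
  have hc0 := sq_nonneg v2
  have h1 : t ^ 2 * v1 ^ 2 ≤ 1 / 10000 := by nlinarith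
  have h2 : t ^ 2 * v2 ^ 2 ≤ 1 / 10000 := by nlinarith
  have h10 : 0 ≤ t ^ 2 * v1 ^ 2 := mul_nonneg ha0 hb0
  have h20 : 0 ≤ t ^ 2 * v2 ^ 2 := mul_nonneg ha0 hc0
  have h3 : -(1 / 10000) ≤ t ^ 2 * (v1 * v2) := by
    nlinarith [mul_nonneg ha0 (sq_nonneg (v1 + v2))]
  have e : 1 / (1 + (t * v1) ^ 2) * v1 + 1 / (1 + (t * v2) ^ 2) * v2 - 99 / 100 * (v1 + v2)
      = (v1 + v2) * ((1 + t ^ 2 * (v1 * v2)) - 99 / 100 * ((1 + t ^ 2 * v1 ^ 2)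
        * (1 + t ^ 2 * v2 ^ 2))) / ((1 + t ^ 2 * v1 ^ 2) * (1 + t ^ 2 * v2 ^ 2)) := by
    have p1 : (1 + (t * v1) ^ 2) ≠ 0 := by positivity
    have p2 : (1 + (t * v2) ^ 2) ≠ 0 := by positivity
    have p3 : (1 + t ^ 2 * v1 ^ 2) ≠ 0 := by positivity
    have p4 : (1 + t ^ 2 * v2 ^ 2) ≠ 0 := by positivity
    rw [show (t * v1) ^ 2 = t ^ 2 * v1 ^ 2 by ring, show (t * v2) ^ 2 = t ^ 2 * v2 ^ 2 by ring]
    field_simp
    ring
  rw [e]
  apply div_nonneg _ (by positivity)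
  apply mul_nonneg hU
  have h4 : (1 + t ^ 2 * v1 ^ 2) * (1 + t ^ 2 * v2 ^ 2) ≤ (1 + 1 / 10000) * (1 + 1 / 10000) :=
    mul_le_mul (by linarith) (by linarith) (by positivity) (by norm_num)
  norm_num at h4 ⊢
  linarith

/-- BLOCK K1b. Proof: `psi y = y - arctan y` is odd, increasing, `psi' = y^2/(1+y^2)`.
`sum_ij psi (t_i v_j) <= 3 mu^4 T U` by applying the mean value theorem in `t` and in `v`
(`g t = psi (t v1) + psi (t v2)` is odd, `g t1 + g t2 = g t2 - g (-t1)`, ...); `mu = 1/10`.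
The true lower constant at 1/10 is .9997. -/
theorem K1b {t1 t2 v1 v2 : ℝ} (ht1 : |t1| ≤ 1 / 10) (ht2 : |t2| ≤ 1 / 10) (hv1 : |v1| ≤ 1 / 10)
    (hv2 : |v2| ≤ 1 / 10) (hT : 0 ≤ t1 + t2) (hU : 0 ≤ v1 + v2) :
    99 / 100 * (2 * ((t1 + t2) * (v1 + v2))) ≤ kiteS t1 t2 v1 v2 := by
  have hmono : MonotoneOn
      (fun t : ℝ => arctan (t * v1) + arctan (t * v2) - 99 / 100 * ((v1 + v2) * t))
      (Set.Icc (-(1 / 10)) (1 / 10)) := by
    apply monotoneOn_of_deriv_nonneg (convex_Icc _ _)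
    · exact fun t _ => (K1b_deriv v1 v2 t).continuousAt.continuousWithinAt
    · exact fun t _ => (K1b_deriv v1 v2 t).differentiableAt.differentiableWithinAt
    · intro t ht
      rw [interior_Icc] at ht
      rw [(K1b_deriv v1 v2 t).deriv]
      exact K1b_nonneg hv1 hv2 (abs_le.mpr ⟨ht.1.le, ht.2.le⟩) hU
  have hle : -t1 ≤ t2 := by linarith
  have h1 := abs_le.mp ht1
  have h2 := abs_le.mp ht2
  have h := hmono (show -t1 ∈ Set.Icc (-(1 / 10 : ℝ)) (1 / 10) from ⟨by linarith, by linarith⟩)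
    (show t2 ∈ Set.Icc (-(1 / 10 : ℝ)) (1 / 10) from ⟨h2.1, h2.2⟩) hle
  simp only [neg_mul, arctan_neg] at h
  unfold kiteS
  linarith

end Iso
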