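import Pool.Agent.Lib_helper3.Iso.Defs
/-! kite functions in half-angle tangents -/
noncomputable section
namespace Iso
open Real

/-- solid angle of the kite -/
def kiteS (t1 t2 v1 v2 : ℝ) : ℝ :=
  2 * (arctan (t1 * v1) + arctan (t1 * v2) + arctan (t2 * v1) + arctan (t2 * v2))

/-- area function of the kite -/
def kiteG (t1 t2 v1 v2 : ℝ) : ℝ :=
  (t1 * (1 + t1 ^ 2) / (1 - t1 ^ 2) ^ 2 + t2 * (1 + t2 ^ 2) / (1 - t2 ^ 2) ^ 2) *
    (2 * v1 / (1 - v1 ^ 2) + 2 * v2 / (1 - v2 ^ 2))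

end Iso
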