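import Pool.Agent.Lib_helper3.Iso.G7
noncomputable section
namespace Iso
open MeasureTheory Real Set

/-- spinor of a unit vector -/
theorem spinor (x : V) (hx : ‖x‖ = 1) : ∃ z w : ℂ, z * (starRingEnd ℂ) z = 1 + x 2 ∧
    w * (starRingEnd ℂ) w = 1 - x 2 ∧ w * (starRingEnd ℂ) z = x 0 + x 1 * Complex.I := by
  have hn : x 0 ^ 2 + x 1 ^ 2 + x 2 ^ 2 = 1 := by rw [← norm_sq_eq, hx, one_pow]
  by_cases h : 1 + x 2 = 0
  · have h2 : x 2 = -1 := by linarith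
    have h01 : x 0 ^ 2 + x 1 ^ 2 = 0 := by rw [h2] at hn; linarith
    have h0 : x 0 = 0 := by nlinarith [sq_nonneg (x 0), sq_nonneg (x 1)]
    have h1 : x 1 = 0 := by nlinarith [sq_nonneg (x 0), sq_nonneg (x 1)]
    refine ⟨0, (√2 : ℝ), ?_, ?_, ?_⟩
    · rw [zero_mul, h2]; push_cast; ring
    · rw [Complex.conj_ofReal, ← Complex.ofReal_mul, Real.mul_self_sqrt (by norm_num), h2]
      push_cast; norm_num
    · rw [map_zero, mul_zero, h0, h1]; simp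
  · have hle : 0 ≤ 1 + x 2 := by nlinarith [sq_nonneg (x 0), sq_nonneg (x 1), sq_nonneg (x 2 - 1)]
    have hpos : 0 < 1 + x 2 := lt_of_le_of_ne hle (Ne.symm h)
    have hs : (0 : ℝ) < √(1 + x 2) := Real.sqrt_pos.2 hpos
    have hsC : ((√(1 + x 2) : ℝ) : ℂ) ≠ 0 := by exact_mod_cast hs.ne'
    refine ⟨(√(1 + x 2) : ℝ), (x 0 + x 1 * Complex.I) / (√(1 + x 2) : ℝ), ?_, ?_, ?_⟩
    · rw [Complex.conj_ofReal, ← Complex.ofReal_mul, Real.mul_self_sqrt hle]; push_cast; ring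
    · rw [map_div₀, Complex.conj_ofReal, div_mul_div_comm, ← Complex.ofReal_mul, Real.mul_self_sqrt hle]
      have e : (↑(x 0) + ↑(x 1) * Complex.I) * (starRingEnd ℂ) (↑(x 0) + ↑(x 1) * Complex.I) =
          ((x 0 ^ 2 + x 1 ^ 2 : ℝ) : ℂ) := by
        rw [map_add, map_mul, Complex.conj_ofReal, Complex.conj_ofReal, Complex.conj_I]
        push_cast
        linear_combination (- (x 1 : ℂ) ^ 2) * Complex.I_sq
      rw [e]
      have e2 : x 0 ^ 2 + x 1 ^ 2 = (1 - x 2) * (1 + x 2) := by linarith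
      rw [e2, Complex.ofReal_mul, mul_div_assoc, div_self (by exact_mod_cast hpos.ne')]
      push_cast; ring
    · rw [Complex.conj_ofReal, div_mul_cancel₀ _ hsC]

/-- bracket of two spinors -/
def N1_br (p q : ℂ × ℂ) : ℂ := (starRingEnd ℂ) p.1 * q.1 + (starRingEnd ℂ) p.2 * q.2

theorem N1_br_conj (p q : ℂ × ℂ) : (starRingEnd ℂ) (N1_br p q) = N1_br q p := by
  simp only [N1_br, map_add, map_mul, Complex.conj_conj]; ring

/-- `p` is a spinor of `x` -/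
def N1_sp (p : ℂ × ℂ) (x : V) : Prop := p.1 * (starRingEnd ℂ) p.1 = 1 + x 2 ∧
    p.2 * (starRingEnd ℂ) p.2 = 1 - x 2 ∧ p.2 * (starRingEnd ℂ) p.1 = x 0 + x 1 * Complex.I

theorem N1_sp_conj {p : ℂ × ℂ} {x : V} (h : N1_sp p x) :
    p.1 * (starRingEnd ℂ) p.2 = x 0 - x 1 * Complex.I := by
  have := congrArg (starRingEnd ℂ) h.2.2
  rw [map_mul, Complex.conj_conj, map_add, map_mul, Complex.conj_ofReal, Complex.conj_ofReal,
    Complex.conj_I] at this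
  rw [mul_comm, this]; ring

theorem N1_two {p q : ℂ × ℂ} {x y : V} (hp : N1_sp p x) (hq : N1_sp q y) :
    N1_br p q * N1_br q p = ((2 * (1 + ip x y) : ℝ) : ℂ) := by
  have e : N1_br p q * N1_br q p = (p.1 * (starRingEnd ℂ) p.1) * (q.1 * (starRingEnd ℂ) q.1) +
      (p.1 * (starRingEnd ℂ) p.2) * (q.2 * (starRingEnd ℂ) q.1) +
      (p.2 * (starRingEnd ℂ) p.1) * (q.1 * (starRingEnd ℂ) q.2) +
      (p.2 * (starRingEnd ℂ) p.2) * (q.2 * (starRingEnd ℂ) q.2) := by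
    simp only [N1_br]; ring
  rw [e, hp.1, hp.2.1, hp.2.2, hq.1, hq.2.1, hq.2.2, N1_sp_conj hp, N1_sp_conj hq, ip_def]
  push_cast
  linear_combination (-2 * (x 1 : ℂ) * y 1) * Complex.I_sq

theorem N1_three {p q s : ℂ × ℂ} {x y v : V} (hp : N1_sp p x) (hq : N1_sp q y) (hs : N1_sp s v) :
    N1_br p q * N1_br q s * N1_br s p =
      ((2 * (1 + ip x y + ip y v + ip v x) : ℝ) : ℂ) + ((2 * det3 x y v : ℝ) : ℂ) * Complex.I := by
  have e : N1_br p q * N1_br q s * N1_br s p =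
      (p.1 * (starRingEnd ℂ) p.1) * (q.1 * (starRingEnd ℂ) q.1) * (s.1 * (starRingEnd ℂ) s.1) +
      (p.2 * (starRingEnd ℂ) p.1) * (q.1 * (starRingEnd ℂ) q.1) * (s.1 * (starRingEnd ℂ) s.2) +
      (p.1 * (starRingEnd ℂ) p.1) * (q.1 * (starRingEnd ℂ) q.2) * (s.2 * (starRingEnd ℂ) s.1) +
      (p.2 * (starRingEnd ℂ) p.1) * (q.1 * (starRingEnd ℂ) q.2) * (s.2 * (starRingEnd ℂ) s.2) +
      (p.1 * (starRingEnd ℂ) p.2) * (q.2 * (starRingEnd ℂ) q.1) * (s.1 * (starRingEnd ℂ) s.1) +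
      (p.2 * (starRingEnd ℂ) p.2) * (q.2 * (starRingEnd ℂ) q.1) * (s.1 * (starRingEnd ℂ) s.2) +
      (p.1 * (starRingEnd ℂ) p.2) * (q.2 * (starRingEnd ℂ) q.2) * (s.2 * (starRingEnd ℂ) s.1) +
      (p.2 * (starRingEnd ℂ) p.2) * (q.2 * (starRingEnd ℂ) q.2) * (s.2 * (starRingEnd ℂ) s.2) := by
    simp only [N1_br]; ring
  rw [e, hp.1, hp.2.1, hp.2.2, hq.1, hq.2.1, hq.2.2, hs.1, hs.2.1, hs.2.2, N1_sp_conj hp, N1_sp_conj hq,
    N1_sp_conj hs, ip_def, ip_def, ip_def, det3_def]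
  push_cast
  ring_nf
  simp only [Complex.I_sq]
  ring

/-- direction of a complex number -/
def N1_S (z : ℂ) : ℂ := z / ((‖z‖ : ℝ) : ℂ)

theorem N1_S_mul (z w : ℂ) : N1_S (z * w) = N1_S z * N1_S w := by
  rw [N1_S, N1_S, N1_S, norm_mul, Complex.ofReal_mul, mul_div_mul_comm]

theorem N1_S_pos {r : ℝ} (hr : 0 < r) : N1_S (r : ℂ) = 1 := by
  rw [N1_S, Complex.norm_real, Real.norm_of_nonneg hr.le]
  exact div_self (by exact_mod_cast hr.ne')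

theorem N1_S_conj (z : ℂ) : N1_S ((starRingEnd ℂ) z) = (starRingEnd ℂ) (N1_S z) := by
  rw [N1_S, N1_S, map_div₀, Complex.conj_ofReal, Complex.norm_conj]

theorem N1_S_norm {z : ℂ} (hz : z ≠ 0) : ‖N1_S z‖ = 1 := by
  rw [N1_S, norm_div, Complex.norm_real, norm_norm]
  exact div_self (norm_ne_zero_iff.2 hz)

theorem N1_conj_mul {z : ℂ} (hz : ‖z‖ = 1) : z * (starRingEnd ℂ) z = 1 := by
  rw [Complex.mul_conj, Complex.normSq_eq_norm_sq, hz]; simp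

theorem N1_S_arctan (y : ℝ) : N1_S (1 + (y : ℂ) * Complex.I) = Complex.exp ((arctan y : ℝ) * Complex.I) := by
  have hn : ‖(1 + (y : ℂ) * Complex.I)‖ = √(1 + y ^ 2) := by
    have : (1 + (y : ℂ) * Complex.I) = ((1 : ℝ) : ℂ) + (y : ℂ) * Complex.I := by push_cast; rfl
    rw [this, Complex.norm_add_mul_I]; norm_num
  have hpos : 0 < √(1 + y ^ 2) := Real.sqrt_pos.2 (by positivity)
  rw [N1_S, hn, Complex.exp_mul_I, ← Complex.ofReal_cos, ← Complex.ofReal_sin, Real.cos_arctan, Real.sin_arctan]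
  push_cast
  have : ((√(1 + y ^ 2) : ℝ) : ℂ) ≠ 0 := by exact_mod_cast hpos.ne'
  field_simp

/-- unit vector in the direction of `x` -/
def N1_hat (x : V) : V := ‖x‖⁻¹ • x

theorem N1_hat_norm {x : V} (hx : x ≠ 0) : ‖N1_hat x‖ = 1 := by
  rw [N1_hat, norm_smul, norm_inv, norm_norm, inv_mul_cancel₀ (norm_ne_zero_iff.2 hx)]

/-- the direction of the foot (not normalised) -/
def N1_e (a b : V) : V := cr (b - a) (cr a b)

theorem N1_e_swap (a b : V) : N1_e b a = N1_e a b := by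
  ext i; fin_cases i <;> simp [N1_e, cr] <;> ring

theorem N1_det_smul (r s q : ℝ) (x y z : V) : det3 (r • x) (s • y) (q • z) = r * s * q * det3 x y z := by
  simp only [det3_def, PiLp.smul_apply, smul_eq_mul]; ring

theorem N1_norm_e (a b : V) : ‖N1_e a b‖ = ‖b - a‖ * ‖cr a b‖ := by
  have h : ‖N1_e a b‖ ^ 2 = (‖b - a‖ * ‖cr a b‖) ^ 2 := by
    rw [N1_e, norm_cr_sq]
    have : ip (b - a) (cr a b) = 0 := by rw [ip_def]; simp; ring
    rw [this]; ring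
  exact (pow_left_inj₀ (norm_nonneg _) (by positivity) two_ne_zero).1 h

theorem N1_ip_a_e (a b : V) : ip a (N1_e a b) = ‖cr a b‖ ^ 2 := by
  rw [norm_sq_eq, ip_def]; simp [N1_e]; ring

theorem N1_ip_b_e (a b : V) : ip b (N1_e a b) = ‖cr a b‖ ^ 2 := by
  rw [norm_sq_eq, ip_def]; simp [N1_e]; ring

theorem N1_ip_p_e {a b p : V} (ha : ip p a = 1) (hb : ip p b = 1) : ip p (N1_e a b) = ‖b - a‖ ^ 2 := by
  have e : N1_e a b = (ip (b - a) b) • a - (ip (b - a) a) • b := by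
    ext i; fin_cases i <;> simp [N1_e, ip_def] <;> ring
  rw [e, ip_sub_right, ip_smul_right, ip_smul_right, ha, hb, ← ip_self, ip_sub_right]; ring

theorem N1_det_a (a b p : V) : det3 (N1_e a b) p a = ip p (cr a b) * ip a (a - b) := by
  rw [det3_def, ip_def, ip_def]; simp [N1_e]; ring

theorem N1_det_b (a b p : V) : det3 (N1_e a b) b p = ip p (cr a b) * ip b (b - a) := by
  rw [det3_def, ip_def, ip_def]; simp [N1_e]; ring


theorem N1_ip_smul (r s : ℝ) (x y : V) : ip (r • x) (s • y) = r * s * ip x y := by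
  rw [ip_smul_left, ip_smul_right]; ring

theorem N1_ne {a b : V} (h : cr a b ≠ 0) : a ≠ 0 ∧ b ≠ 0 ∧ b - a ≠ 0 := by
  refine ⟨?_, ?_, ?_⟩
  · rintro rfl; apply h; ext i; fin_cases i <;> simp [cr]
  · rintro rfl; apply h; ext i; fin_cases i <;> simp [cr]
  · intro h0
    have : b = a := sub_eq_zero.1 h0
    subst this; apply h; ext i; fin_cases i <;> simp [cr] <;> ring

theorem N1_cr_swap (a b : V) : ‖cr b a‖ = ‖cr a b‖ := by
  have : cr b a = - cr a b := by ext i; fin_cases i <;> simp [cr] <;> ring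
  rw [this, norm_neg]

/-- the triangle `m, n, a` -/
theorem N1_T1 {a b p : V} (h : cr a b ≠ 0) (hp : p ≠ 0) (ha : ip p a = 1) (hb : ip p b = 1)
    {pm pn pa : ℂ × ℂ} (h1 : N1_sp pm (N1_hat (N1_e a b))) (h2 : N1_sp pn (N1_hat p)) (h3 : N1_sp pa (N1_hat a)) :
    ∃ r : ℝ, 0 < r ∧ N1_br pm pn * N1_br pn pa * N1_br pa pm = (r : ℂ) *
      (1 + (((rr a b * ip p (nu a b) / (1 + rr a b * ‖p‖)) * uu b a : ℝ) : ℂ) * Complex.I) := by
  obtain ⟨ha0, hb0, hd0⟩ := N1_ne h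
  have hN : 0 < ‖cr a b‖ := norm_pos_iff.2 h
  have hD : 0 < ‖b - a‖ := norm_pos_iff.2 hd0
  have hA : 0 < ‖a‖ := norm_pos_iff.2 ha0
  have hP : 0 < ‖p‖ := norm_pos_iff.2 hp
  rw [N1_three h1 h2 h3]
  have e1 : ip (N1_hat (N1_e a b)) (N1_hat p) = ‖b - a‖ / (‖cr a b‖ * ‖p‖) := by
    rw [N1_hat, N1_hat, N1_ip_smul, ip_comm, N1_ip_p_e ha hb, N1_norm_e]; field_simp
  have e2 : ip (N1_hat p) (N1_hat a) = 1 / (‖p‖ * ‖a‖) := by
    rw [N1_hat, N1_hat, N1_ip_smul, ha]; field_simp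
  have e3 : ip (N1_hat a) (N1_hat (N1_e a b)) = ‖cr a b‖ / (‖a‖ * ‖b - a‖) := by
    rw [N1_hat, N1_hat, N1_ip_smul, N1_ip_a_e, N1_norm_e]; field_simp
  have e4 : det3 (N1_hat (N1_e a b)) (N1_hat p) (N1_hat a) =
      (ip p (cr a b) * ip a (a - b)) / (‖b - a‖ * ‖cr a b‖ * ‖p‖ * ‖a‖) := by
    rw [N1_hat, N1_hat, N1_hat, N1_det_smul, N1_det_a, N1_norm_e]; field_simp
  have e5 : rr a b * ip p (nu a b) / (1 + rr a b * ‖p‖) = ip p (cr a b) / (‖b - a‖ + ‖cr a b‖ * ‖p‖) := by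
    rw [rr, nu, ip_smul_right]; field_simp
  have e6 : uu b a = ip a (a - b) / (‖cr a b‖ + ‖b - a‖ * ‖a‖) := by
    rw [uu, rr, N1_cr_swap, norm_sub_rev a b]; field_simp
  refine ⟨2 * ((1 + ‖b - a‖ / (‖cr a b‖ * ‖p‖)) * (1 + ‖cr a b‖ / (‖a‖ * ‖b - a‖))), by positivity, ?_⟩
  rw [e1, e2, e3, e4, e5, e6]
  have r1 : 2 * (1 + ‖b - a‖ / (‖cr a b‖ * ‖p‖) + 1 / (‖p‖ * ‖a‖) + ‖cr a b‖ / (‖a‖ * ‖b - a‖)) =
      2 * ((1 + ‖b - a‖ / (‖cr a b‖ * ‖p‖)) * (1 + ‖cr a b‖ / (‖a‖ * ‖b - a‖))) := by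
    field_simp; ring
  have r2 : 2 * (ip p (cr a b) * ip a (a - b) / (‖b - a‖ * ‖cr a b‖ * ‖p‖ * ‖a‖)) =
      2 * ((1 + ‖b - a‖ / (‖cr a b‖ * ‖p‖)) * (1 + ‖cr a b‖ / (‖a‖ * ‖b - a‖))) *
      (ip p (cr a b) / (‖b - a‖ + ‖cr a b‖ * ‖p‖) * (ip a (a - b) / (‖cr a b‖ + ‖b - a‖ * ‖a‖))) := by
    field_simp; ring
  rw [r1, r2, Complex.ofReal_mul (2 * ((1 + ‖b - a‖ / (‖cr a b‖ * ‖p‖)) * (1 + ‖cr a b‖ / (‖a‖ * ‖b - a‖))))]
  ring

/-- the triangle `m, b, n` -/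
theorem N1_T2 {a b p : V} (h : cr a b ≠ 0) (hp : p ≠ 0) (ha : ip p a = 1) (hb : ip p b = 1)
    {pm pn pb : ℂ × ℂ} (h1 : N1_sp pm (N1_hat (N1_e a b))) (h2 : N1_sp pn (N1_hat p)) (h3 : N1_sp pb (N1_hat b)) :
    ∃ r : ℝ, 0 < r ∧ N1_br pm pb * N1_br pb pn * N1_br pn pm = (r : ℂ) *
      (1 + (((rr a b * ip p (nu a b) / (1 + rr a b * ‖p‖)) * uu a b : ℝ) : ℂ) * Complex.I) := by
  obtain ⟨ha0, hb0, hd0⟩ := N1_ne h
  have hN : 0 < ‖cr a b‖ := norm_pos_iff.2 h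
  have hD : 0 < ‖b - a‖ := norm_pos_iff.2 hd0
  have hB : 0 < ‖b‖ := norm_pos_iff.2 hb0
  have hP : 0 < ‖p‖ := norm_pos_iff.2 hp
  rw [N1_three h1 h3 h2]
  have e1 : ip (N1_hat p) (N1_hat (N1_e a b)) = ‖b - a‖ / (‖cr a b‖ * ‖p‖) := by
    rw [N1_hat, N1_hat, N1_ip_smul, N1_ip_p_e ha hb, N1_norm_e]; field_simp
  have e2 : ip (N1_hat b) (N1_hat p) = 1 / (‖p‖ * ‖b‖) := by
    rw [N1_hat, N1_hat, N1_ip_smul, ip_comm, hb]; field_simp
  have e3 : ip (N1_hat (N1_e a b)) (N1_hat b) = ‖cr a b‖ / (‖b‖ * ‖b - a‖) := by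
    rw [N1_hat, N1_hat, N1_ip_smul, ip_comm, N1_ip_b_e, N1_norm_e]; field_simp
  have e4 : det3 (N1_hat (N1_e a b)) (N1_hat b) (N1_hat p) =
      (ip p (cr a b) * ip b (b - a)) / (‖b - a‖ * ‖cr a b‖ * ‖p‖ * ‖b‖) := by
    rw [N1_hat, N1_hat, N1_hat, N1_det_smul, N1_det_b, N1_norm_e]; field_simp
  have e5 : rr a b * ip p (nu a b) / (1 + rr a b * ‖p‖) = ip p (cr a b) / (‖b - a‖ + ‖cr a b‖ * ‖p‖) := by
    rw [rr, nu, ip_smul_right]; field_simp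
  have e6 : uu a b = ip b (b - a) / (‖cr a b‖ + ‖b - a‖ * ‖b‖) := by
    rw [uu, rr]; field_simp
  refine ⟨2 * ((1 + ‖b - a‖ / (‖cr a b‖ * ‖p‖)) * (1 + ‖cr a b‖ / (‖b‖ * ‖b - a‖))), by positivity, ?_⟩
  rw [e1, e2, e3, e4, e5, e6]
  have r1 : 2 * (1 + ‖cr a b‖ / (‖b‖ * ‖b - a‖) + 1 / (‖p‖ * ‖b‖) + ‖b - a‖ / (‖cr a b‖ * ‖p‖)) =
      2 * ((1 + ‖b - a‖ / (‖cr a b‖ * ‖p‖)) * (1 + ‖cr a b‖ / (‖b‖ * ‖b - a‖))) := by
    field_simp; ring
  have r2 : 2 * (ip p (cr a b) * ip b (b - a) / (‖b - a‖ * ‖cr a b‖ * ‖p‖ * ‖b‖)) =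
      2 * ((1 + ‖b - a‖ / (‖cr a b‖ * ‖p‖)) * (1 + ‖cr a b‖ / (‖b‖ * ‖b - a‖))) *
      (ip p (cr a b) / (‖b - a‖ + ‖cr a b‖ * ‖p‖) * (ip b (b - a) / (‖cr a b‖ + ‖b - a‖ * ‖b‖))) := by
    field_simp; ring
  rw [r1, r2, Complex.ofReal_mul (2 * ((1 + ‖b - a‖ / (‖cr a b‖ * ‖p‖)) * (1 + ‖cr a b‖ / (‖b‖ * ‖b - a‖))))]
  ring

/-- BLOCK N1. For unit vectors put `⟨x|y⟩ = conj z_x z_y + conj w_x w_y` (spinors). -/
theorem N1 {X : Finset V} (hX : GP X) : ∃ k : ℤ, ∑ t ∈ T X, sg t = 4 * π * k := by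
  classical
  have hsp : ∀ x : V, ∃ p : ℂ × ℂ, ‖x‖ = 1 → N1_sp p x := by
    intro x
    by_cases hx : ‖x‖ = 1
    · obtain ⟨z, w, h⟩ := spinor x hx
      exact ⟨(z, w), fun _ => h⟩
    · exact ⟨0, fun h => absurd h hx⟩
  choose ψ hψ using hsp
  -- the data of a dart
  have hcr : ∀ t ∈ T X, cr t.1 t.2.1 ≠ 0 := by
    intro t ht h0
    have := T_pos ht
    rw [Dt, det3, h0] at this
    simp [ip] at this
  let m : Tr → ℂ × ℂ := fun t => ψ (N1_hat (N1_e t.1 t.2.1))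
  let n : Tr → ℂ × ℂ := fun t => ψ (N1_hat (P t))
  let a : Tr → ℂ × ℂ := fun t => ψ (N1_hat t.1)
  let b : Tr → ℂ × ℂ := fun t => ψ (N1_hat t.2.1)
  have he : ∀ t ∈ T X, N1_e t.1 t.2.1 ≠ 0 := by
    intro t ht h0
    have h1 := N1_norm_e t.1 t.2.1
    rw [h0, norm_zero] at h1
    have h2 := norm_pos_iff.2 (hcr t ht)
    have h3 := norm_pos_iff.2 (N1_ne (hcr t ht)).2.2
    nlinarith [mul_pos h3 h2]
  have hm : ∀ t ∈ T X, N1_sp (m t) (N1_hat (N1_e t.1 t.2.1)) := fun t ht => hψ _ (N1_hat_norm (he t ht))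
  have hn : ∀ t ∈ T X, N1_sp (n t) (N1_hat (P t)) := fun t ht => hψ _ (N1_hat_norm (P_ne_zero ht))
  have ha : ∀ t ∈ T X, N1_sp (a t) (N1_hat t.1) := fun t ht => hψ _ (N1_hat_norm (N1_ne (hcr t ht)).1)
  have hb : ∀ t ∈ T X, N1_sp (b t) (N1_hat t.2.1) := fun t ht => hψ _ (N1_hat_norm (N1_ne (hcr t ht)).2.1)
  -- one dart
  have key : ∀ t ∈ T X, (N1_S (N1_br (n t) (a t)) * N1_S (N1_br (b t) (n t))) *
      (N1_S (N1_br (a t) (m t)) * N1_S (N1_br (m t) (b t))) =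
      Complex.exp ((arctan (ta t * u1 t) + arctan (ta t * u2 t) : ℝ) * Complex.I) ∧
      N1_br (n t) (a t) ≠ 0 ∧ N1_br (b t) (n t) ≠ 0 ∧ N1_br (a t) (m t) ≠ 0 ∧ N1_br (m t) (b t) ≠ 0 := by
    intro t ht
    obtain ⟨r1, hr1, e1⟩ := N1_T1 (hcr t ht) (P_ne_zero ht) (ip_P_1 ht) (ip_P_2 ht) (hm t ht) (hn t ht) (ha t ht)
    obtain ⟨r2, hr2, e2⟩ := N1_T2 (hcr t ht) (P_ne_zero ht) (ip_P_1 ht) (ip_P_2 ht) (hm t ht) (hn t ht) (hb t ht)
    have f1 : rr t.1 t.2.1 * ip (P t) (nu t.1 t.2.1) / (1 + rr t.1 t.2.1 * ‖P t‖) * uu t.2.1 t.1 = ta t * u1 t := rfl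
    have f2 : rr t.1 t.2.1 * ip (P t) (nu t.1 t.2.1) / (1 + rr t.1 t.2.1 * ‖P t‖) * uu t.1 t.2.1 = ta t * u2 t := rfl
    rw [f1] at e1
    rw [f2] at e2
    have hne : ∀ y : ℝ, (1 + (y : ℂ) * Complex.I) ≠ 0 := by
      intro y h0
      have := congrArg Complex.re h0
      simp at this
    have g1 : (r1 : ℂ) * (1 + ((ta t * u1 t : ℝ) : ℂ) * Complex.I) ≠ 0 :=
      mul_ne_zero (by exact_mod_cast hr1.ne') (hne _)
    have g2 : (r2 : ℂ) * (1 + ((ta t * u2 t : ℝ) : ℂ) * Complex.I) ≠ 0 :=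
      mul_ne_zero (by exact_mod_cast hr2.ne') (hne _)
    rw [← e1] at g1
    rw [← e2] at g2
    have g11 := left_ne_zero_of_mul g1
    have g21 := left_ne_zero_of_mul g2
    refine ⟨?_, right_ne_zero_of_mul g11, right_ne_zero_of_mul g21, right_ne_zero_of_mul g1,
      left_ne_zero_of_mul g21⟩
    have s1 := congrArg N1_S e1
    have s2 := congrArg N1_S e2
    rw [N1_S_mul, N1_S_mul, N1_S_mul, N1_S_pos hr1, one_mul, N1_S_arctan] at s1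
    rw [N1_S_mul, N1_S_mul, N1_S_mul, N1_S_pos hr2, one_mul, N1_S_arctan] at s2
    have s3 : N1_S (N1_br (m t) (n t)) * N1_S (N1_br (n t) (m t)) = 1 := by
      rw [← N1_br_conj (m t) (n t), N1_S_conj]
      exact N1_conj_mul (N1_S_norm (left_ne_zero_of_mul g11))
    rw [Complex.ofReal_add, add_mul, Complex.exp_add, ← s1, ← s2]
    linear_combination (-(N1_S (N1_br (n t) (a t)) * N1_S (N1_br (b t) (n t)) *
      (N1_S (N1_br (a t) (m t)) * N1_S (N1_br (m t) (b t))))) * s3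
  -- product over the darts
  have hprod1 : ∏ t ∈ T X, (N1_S (N1_br (n t) (a t)) * N1_S (N1_br (b t) (n t))) = 1 := by
    have h1 : ∀ t, N1_S (N1_br (b t) (n t)) = (starRingEnd ℂ) (N1_S (N1_br (n (rot t)) (a (rot t)))) := by
      intro t
      rw [← N1_S_conj, N1_br_conj]
      have e1 : n (rot t) = n t := by show ψ _ = ψ _; rw [P_rot]
      have e2 : a (rot t) = b t := rfl
      rw [e1, e2]
    have h2 : ∏ t ∈ T X, N1_S (N1_br (n (rot t)) (a (rot t))) = ∏ t ∈ T X, N1_S (N1_br (n t) (a t)) :=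
      Finset.prod_bij' (fun t _ => rot t) (fun t _ => rot (rot t)) (fun _ h => rot_mem h)
        (fun _ h => rot_mem (rot_mem h)) (fun _ _ => rfl) (fun _ _ => rfl) (fun _ _ => rfl)
    rw [Finset.prod_mul_distrib, Finset.prod_congr rfl (fun t _ => h1 t), ← map_prod, h2]
    apply N1_conj_mul
    rw [norm_prod]
    exact Finset.prod_eq_one fun t ht => N1_S_norm (key t ht).2.1
  have hprod2 : ∏ t ∈ T X, (N1_S (N1_br (a t) (m t)) * N1_S (N1_br (m t) (b t))) = 1 := by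
    refine Finset.prod_involution (fun t _ => twin X t) ?_ ?_ (fun t ht => twin_mem hX ht)
      (fun t ht => twin_twin hX ht)
    · intro t ht
      have e1 : m (twin X t) = m t := by
        show ψ _ = ψ _
        rw [twin_1 hX ht, twin_2 hX ht, N1_e_swap]
      have e2 : a (twin X t) = b t := by show ψ _ = ψ _; rw [twin_1 hX ht]
      have e3 : b (twin X t) = a t := by show ψ _ = ψ _; rw [twin_2 hX ht]
      rw [e1, e2, e3]
      obtain ⟨-, -, -, k3, k4⟩ := key t ht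
      have s1 : N1_S (N1_br (a t) (m t)) * N1_S (N1_br (m t) (a t)) = 1 := by
        rw [← N1_br_conj (a t) (m t), N1_S_conj]
        exact N1_conj_mul (N1_S_norm k3)
      have s2 : N1_S (N1_br (m t) (b t)) * N1_S (N1_br (b t) (m t)) = 1 := by
        rw [← N1_br_conj (m t) (b t), N1_S_conj]
        exact N1_conj_mul (N1_S_norm k4)
      calc _ = (N1_S (N1_br (a t) (m t)) * N1_S (N1_br (m t) (a t))) *
            (N1_S (N1_br (m t) (b t)) * N1_S (N1_br (b t) (m t))) := by ring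
        _ = 1 := by rw [s1, s2, one_mul]
    · intro t ht _ h
      have h1 := twin_1 hX ht
      rw [h] at h1
      exact (N1_ne (hcr t ht)).2.2 (sub_eq_zero.2 h1.symm)
  have htot : ∏ t ∈ T X, Complex.exp ((arctan (ta t * u1 t) + arctan (ta t * u2 t) : ℝ) * Complex.I) = 1 := by
    rw [← Finset.prod_congr rfl (fun t ht => (key t ht).1), Finset.prod_mul_distrib, hprod1, hprod2, one_mul]
  rw [← Complex.exp_sum, ← Finset.sum_mul, ← Complex.ofReal_sum, Complex.exp_eq_one_iff] at htot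
  obtain ⟨k, hk⟩ := htot
  refine ⟨k, ?_⟩
  have hk2 : ∑ t ∈ T X, (arctan (ta t * u1 t) + arctan (ta t * u2 t)) = k * (2 * π) := by
    have h2 : ((∑ t ∈ T X, (arctan (ta t * u1 t) + arctan (ta t * u2 t)) : ℝ) : ℂ) * Complex.I =
        ((k * (2 * π) : ℝ) : ℂ) * Complex.I := by
      rw [hk]; push_cast; ring
    have h3 := mul_right_cancel₀ Complex.I_ne_zero h2
    exact_mod_cast h3
  have hsum : ∑ t ∈ T X, sg t = 2 * ∑ t ∈ T X, (arctan (ta t * u1 t) + arctan (ta t * u2 t)) := by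
    rw [Finset.mul_sum]
    refine Finset.sum_congr rfl fun t _ => ?_
    rw [sg]; ring
  rw [hsum, hk2]; ring

end Iso
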