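import Pool.Agent.Lib_helper3.Iso.N1
import Pool.Agent.Lib_helper3.Iso.K1
import Pool.Agent.Lib_helper3.Iso.K1b
import Pool.Agent.Lib_helper3.Iso.K3
import Pool.Agent.Lib_helper3.Iso.G8
import Pool.Agent.Lib_helper3.Iso.C1
import Pool.Agent.Lib_helper3.Iso.C3
noncomputable section
namespace Iso
open MeasureTheory Real Set

/-- darts and kites -/
theorem ks_eq {X : Finset V} (hX : GP X) {t : Tr} (ht : t ∈ T X) :
    ks X t = kiteS (ta t) (ta (twin X t)) (u1 t) (u2 t) := by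
  obtain ⟨h1, h2, -, -⟩ := G7c hX ht
  simp only [ks, sg, kiteS, h1, h2]; ring

theorem gg_eq {X : Finset V} (hX : GP X) {t : Tr} (ht : t ∈ T X) :
    gg t + gg (twin X t) = kiteG (ta t) (ta (twin X t)) (u1 t) (u2 t) := by
  obtain ⟨h1, h2, -, -⟩ := G7c hX ht
  simp only [gg, kiteG, h1, h2]; ring

theorem N2_arctan {x : ℝ} (hx : 0 ≤ x) : arctan x ≤ x := by
  have h := Real.le_tan (Real.arctan_nonneg.mpr hx) (Real.arctan_lt_pi_div_two x)
  rwa [Real.tan_arctan] at h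

theorem N2_small {X : Finset V} {δ : ℝ} (h0 : 0 ≤ δ) (h1 : δ ≤ 1 / 100) (hX : NB X δ) {t : Tr}
    (ht : t ∈ T X) : |ta t| ≤ 1 / 10 ∧ |u1 t| ≤ 1 / 10 ∧ |u2 t| ≤ 1 / 10 := by
  have ha := G7a h0 (by linarith) hX ht
  obtain ⟨hb1, hb2⟩ := G7b h0 (by linarith) hX ht
  refine ⟨?_, ?_, ?_⟩ <;> exact abs_le_of_sq_le_sq (by nlinarith) (by norm_num)

/-- BLOCK N2a: `Σ gg = Σ_faces F/h²` (G8, `sum_rot`), which is close to `Σ Dt/2 ≈ 4π` (C3, C2, C5, G7h). -/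
theorem N2a {X : Finset V} {δ : ℝ} (h0 : 0 ≤ δ) (h1 : δ ≤ 1 / 100) (hX : NB X δ) :
    ∑ t ∈ T X, gg t = (∑ t ∈ T X, Fa t / hh t ^ 2) / 3 ∧
    3 * π ≤ ∑ t ∈ T X, gg t ∧ ∑ t ∈ T X, gg t ≤ 5 * π := by
  have hs : ∀ t ∈ T X, Fa t / hh t ^ 2 = gg t + gg (rot t) + gg (rot (rot t)) := by
    intro t ht
    refine G8 ht ?_
    have key : ∀ s ∈ T X, |ta s| < 1 ∧ |u1 s| < 1 ∧ |u2 s| < 1 := by
      intro s hs
      obtain ⟨a1, a2, a3⟩ := N2_small h0 h1 hX hs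
      exact ⟨by linarith, by linarith, by linarith⟩
    intro s hs
    rcases hs with rfl | rfl | rfl
    · exact key _ ht
    · exact key _ (rot_mem ht)
    · exact key _ (rot_mem (rot_mem ht))
  have hsum : ∑ t ∈ T X, gg t = (∑ t ∈ T X, Fa t / hh t ^ 2) / 3 := by
    rw [Finset.sum_congr rfl hs, Finset.sum_add_distrib, Finset.sum_add_distrib, sum_rot X gg]
    have h2 : ∑ t ∈ T X, gg (rot (rot t)) = ∑ t ∈ T X, gg t := by
      rw [sum_rot X (fun t => gg (rot t)), sum_rot X gg]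
    rw [h2]
    ring
  have hb : ∀ t ∈ T X, 3 / 4 * (sph (Cone t)).toReal ≤ Fa t / hh t ^ 2 ∧
      Fa t / hh t ^ 2 ≤ 5 / 4 * (sph (Cone t)).toReal := by
    intro t ht
    obtain ⟨c1, c2⟩ := C3 h0 (by linarith) hX ht
    obtain ⟨d1, d2, d3⟩ := C5 h0 (by linarith) hX ht
    have e1 : Dt t / 2 = Fa t * hh t := by rw [G7h ht]; ring
    rw [e1] at c1 c2
    have hσ : 0 ≤ (sph (Cone t)).toReal := ENNReal.toReal_nonneg
    set σ := (sph (Cone t)).toReal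
    have hp : 0 < hh t := by linarith
    have e2 : Fa t / hh t ^ 2 = Fa t * hh t / hh t ^ 3 := by field_simp
    rw [e2]
    have hh3 : 0 < hh t ^ 3 := by positivity
    have g1 : hh t ^ 3 ≤ (101 / 100) ^ 3 := pow_le_pow_left₀ hp.le (by linarith) 3
    have g2 : (99 / 100) ^ 3 ≤ hh t ^ 3 := pow_le_pow_left₀ (by norm_num) (by linarith) 3
    have g3 : (99 / 100) ^ 3 ≤ (1 - δ) ^ 3 := pow_le_pow_left₀ (by norm_num) (by linarith) 3
    have g4 : (1 + δ) ^ 3 ≤ (101 / 100) ^ 3 := pow_le_pow_left₀ (by linarith) (by linarith) 3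
    constructor
    · rw [le_div_iff₀ hh3]
      have k1 : (99 / 100) ^ 3 * σ ≤ (1 - δ) ^ 3 * σ := mul_le_mul_of_nonneg_right g3 hσ
      have k2 : σ * hh t ^ 3 ≤ σ * (101 / 100) ^ 3 := mul_le_mul_of_nonneg_left g1 hσ
      norm_num at k1 k2
      nlinarith
    · rw [div_le_iff₀ hh3]
      have k1 : (1 + δ) ^ 3 * σ ≤ (101 / 100) ^ 3 * σ := mul_le_mul_of_nonneg_right g4 hσ
      have k2 : σ * (99 / 100) ^ 3 ≤ σ * hh t ^ 3 := mul_le_mul_of_nonneg_left g2 hσ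
      norm_num at k1 k2
      nlinarith
  have hC2 := C2 hX.gp
  have hlo : 3 / 4 * (12 * π) ≤ ∑ t ∈ T X, Fa t / hh t ^ 2 := by
    rw [← hC2, Finset.mul_sum]
    exact Finset.sum_le_sum fun t ht => (hb t ht).1
  have hhi : ∑ t ∈ T X, Fa t / hh t ^ 2 ≤ 5 / 4 * (12 * π) := by
    rw [← hC2, Finset.mul_sum]
    exact Finset.sum_le_sum fun t ht => (hb t ht).2
  refine ⟨hsum, ?_, ?_⟩ <;> rw [hsum] <;> linarith

/-- BLOCK N2: `Σ sg` is a multiple of `4π` (N1) between `0` and `8π`: it is close to `Σ gg` (K1b, K1, K3, K3b, kites) -/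
theorem N2 {X : Finset V} {δ : ℝ} (h0 : 0 ≤ δ) (h1 : δ ≤ 1 / 100) (hX : NB X δ) : ∑ t ∈ T X, sg t = 4 * π := by
  obtain ⟨-, hg1, hg2⟩ := N2a h0 h1 hX
  have hks : ∑ t ∈ T X, ks X t = 2 * ∑ t ∈ T X, sg t := by
    have h2 := sum_twin hX.gp sg
    simp only [ks, Finset.sum_add_distrib, h2]; ring
  have hgg : ∑ t ∈ T X, (gg t + gg (twin X t)) = 2 * ∑ t ∈ T X, gg t := by
    have h2 := sum_twin hX.gp gg
    simp only [Finset.sum_add_distrib, h2]; ring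
  have hb : ∀ t ∈ T X, ks X t ≤ gg t + gg (twin X t) ∧
      4 / 5 * (gg t + gg (twin X t)) ≤ ks X t := by
    intro t ht
    obtain ⟨a1, a2, a3⟩ := N2_small h0 h1 hX ht
    obtain ⟨b1, b2, b3⟩ := N2_small h0 h1 hX (twin_mem hX.gp ht)
    obtain ⟨hU, -, -⟩ := G7d hX.gp ht (by linarith) (by linarith)
    obtain ⟨hT, -⟩ := G7e hX.gp ht (by linarith) (by linarith)
    have hT' : 0 ≤ ta t + ta (twin X t) := hT.le
    have hU' : 0 ≤ u1 t + u2 t := hU.le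
    rw [ks_eq hX.gp ht, gg_eq hX.gp ht]
    have k1 := K1 a1 b1 a2 a3 hT' hU'
    have k1b := K1b a1 b1 a2 a3 hT' hU'
    have k3 := K3 a1 b1 a2 a3 hT' hU' rfl rfl rfl rfl
    have k3b := K3b a1 b1 a2 a3 hT' hU'
    have hTU : 0 ≤ (ta t + ta (twin X t)) * (u1 t + u2 t) := mul_nonneg hT' hU'
    have har : arctan ((ta t + ta (twin X t)) * (u1 t + u2 t) / 4) ≤
        (ta t + ta (twin X t)) * (u1 t + u2 t) / 4 := N2_arctan (by positivity)
    have hfac : 1 ≤ (1 + 3 / 4 * (ta t + ta (twin X t)) ^ 2 +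
        9 * ((ta (twin X t) - ta t) / 2) ^ 2 + 5 / 16 * (ta t + ta (twin X t)) ^ 4) *
      (1 + (u1 t + u2 t) ^ 2 / 4 + 3 * ((u2 t - u1 t) / 2) ^ 2 + (u1 t + u2 t) ^ 4 / 16) := by
      apply one_le_mul_of_one_le_of_one_le
      · have : 0 ≤ 3 / 4 * (ta t + ta (twin X t)) ^ 2 +
          9 * ((ta (twin X t) - ta t) / 2) ^ 2 + 5 / 16 * (ta t + ta (twin X t)) ^ 4 := by positivity
        linarith
      · have : 0 ≤ (u1 t + u2 t) ^ 2 / 4 + 3 * ((u2 t - u1 t) / 2) ^ 2 + (u1 t + u2 t) ^ 4 / 16 := by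
          positivity
        linarith
    have hlow : 2 * ((ta t + ta (twin X t)) * (u1 t + u2 t)) ≤
        kiteG (ta t) (ta (twin X t)) (u1 t) (u2 t) :=
      le_trans (le_mul_of_one_le_right (by positivity) hfac) k3
    constructor
    · linarith
    · linarith
  have hup : ∑ t ∈ T X, ks X t ≤ ∑ t ∈ T X, (gg t + gg (twin X t)) :=
    Finset.sum_le_sum fun t ht => (hb t ht).1
  have hlo : 4 / 5 * ∑ t ∈ T X, (gg t + gg (twin X t)) ≤ ∑ t ∈ T X, ks X t := by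
    rw [Finset.mul_sum]
    exact Finset.sum_le_sum fun t ht => (hb t ht).2
  rw [hks, hgg] at hup hlo
  obtain ⟨k, hk⟩ := N1 hX.gp
  have hpi := Real.pi_pos
  rw [hk] at hup hlo ⊢
  have hk1 : (0 : ℝ) < k := by
    by_contra hcon
    have : (k : ℝ) ≤ 0 := not_lt.mp hcon
    nlinarith
  have hk2 : (k : ℝ) < 2 := by
    by_contra hcon
    have : 2 ≤ (k : ℝ) := not_lt.mp hcon
    nlinarith
  have hk3 : 0 < k := by exact_mod_cast hk1
  have hk4 : k < 2 := by exact_mod_cast hk2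
  have hk5 : k = 1 := by omega
  rw [hk5]
  norm_num

theorem N2' {X : Finset V} {δ : ℝ} (h0 : 0 ≤ δ) (h1 : δ ≤ 1 / 100) (hX : NB X δ) : ∑ t ∈ T X, ks X t = 8 * π := by
  have h := N2 h0 h1 hX
  have h2 := sum_twin hX.gp sg
  simp only [ks, Finset.sum_add_distrib, h2, h]; ring

end Iso
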