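import Pool.Agent.Lib_helper3.Iso.S1
noncomputable section
namespace Iso
open MeasureTheory Real Set

theorem S2_meas3 {α : Type*} [MeasurableSpace α] {a b c : α → ℝ} (ha : Measurable a)
    (hb : Measurable b) (hc : Measurable c) : Measurable (fun x => (!₂[a x, b x, c x] : V)) := by
  refine (PiLp.continuous_toLp 2 _).measurable.comp (measurable_pi_iff.2 fun i => ?_)
  fin_cases i
  · exact ha
  · exact hb
  · exact hc

/-- volume on `V` as an iterated integral -/
theorem S2_vol (F : V → ENNReal) (hF : Measurable F) :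
    ∫⁻ x, F x = ∫⁻ z : ℝ, ∫⁻ p : ℝ × ℝ, F !₂[p.1, p.2, z] := by
  have h1 : ∫⁻ x, F x = ∫⁻ y : Fin 3 → ℝ, F (WithLp.toLp 2 y) :=
    ((PiLp.volume_preserving_toLp (Fin 3)).lintegral_comp hF).symm
  have hm1 : Measurable (fun y : Fin 3 → ℝ => F (WithLp.toLp 2 y)) :=
    hF.comp (PiLp.volume_preserving_toLp (Fin 3)).measurable
  have hp := (volume_preserving_piFinSuccAbove (fun _ : Fin 3 => ℝ) 2).symm
  have h2 : ∫⁻ y : Fin 3 → ℝ, F (WithLp.toLp 2 y) = ∫⁻ q : ℝ × (Fin 2 → ℝ),
      F (WithLp.toLp 2 ((MeasurableEquiv.piFinSuccAbove (fun _ : Fin 3 => ℝ) 2).symm q)) :=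
    (hp.lintegral_comp hm1).symm
  have hm2 : Measurable (fun q : ℝ × (Fin 2 → ℝ) =>
      F (WithLp.toLp 2 ((MeasurableEquiv.piFinSuccAbove (fun _ : Fin 3 => ℝ) 2).symm q))) :=
    hm1.comp hp.measurable
  rw [h1, h2, Measure.volume_eq_prod, lintegral_prod _ hm2.aemeasurable]
  refine lintegral_congr fun z => ?_
  have hq := (volume_preserving_finTwoArrow ℝ).symm
  have hm3 : Measurable (fun w : Fin 2 → ℝ =>
      F (WithLp.toLp 2 ((MeasurableEquiv.piFinSuccAbove (fun _ : Fin 3 => ℝ) 2).symm (z, w)))) :=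
    hm2.comp measurable_prodMk_left
  rw [← hq.lintegral_comp hm3]
  refine lintegral_congr fun p => ?_
  congr 2
  ext i
  fin_cases i <;> rfl


/-- polar coordinates, iterated form (angle outside) -/
theorem S2_polar (h : ℝ × ℝ → ENNReal) (hh : Measurable h) :
    ∫⁻ p : ℝ × ℝ, h p = ∫⁻ t in Ioo (-π) π, ∫⁻ r : ℝ, ENNReal.ofReal r * h (r * cos t, r * sin t) := by
  rw [← lintegral_comp_polarCoord_symm]
  have htar : polarCoord.target = Ioi (0 : ℝ) ×ˢ Ioo (-π) π := rfl
  have hm : Measurable (fun p : ℝ × ℝ => ENNReal.ofReal p.1 * h (p.1 * cos p.2, p.1 * sin p.2)) := by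
    refine (ENNReal.measurable_ofReal.comp measurable_fst).mul (hh.comp ?_)
    exact (measurable_fst.mul (measurable_cos.comp measurable_snd)).prodMk
      (measurable_fst.mul (measurable_sin.comp measurable_snd))
  rw [htar, Measure.volume_eq_prod, ← Measure.prod_restrict]
  have h1 : ∀ p : ℝ × ℝ, ENNReal.ofReal p.1 • h (polarCoord.symm p)
      = ENNReal.ofReal p.1 * h (p.1 * cos p.2, p.1 * sin p.2) := fun p => by
    rw [smul_eq_mul]; rfl
  simp only [h1]
  rw [lintegral_prod_symm _ hm.aemeasurable]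
  refine lintegral_congr fun t => ?_
  refine setLIntegral_eq_of_support_subset ?_
  intro r hr
  by_contra hr0
  simp only [mem_Ioi, not_lt] at hr0
  exact hr (by simp [ENNReal.ofReal_of_nonpos hr0])

theorem S2_third : ∫⁻ r in Ioo (0 : ℝ) 1, ENNReal.ofReal (r * r) = 3⁻¹ := by
  rw [← ofReal_integral_eq_lintegral_ofReal]
  · rw [← integral_Ioc_eq_integral_Ioo, ← intervalIntegral.integral_of_le zero_le_one]
    have : ∀ r : ℝ, r * r = r ^ 2 := fun r => by ring
    simp only [this, integral_pow]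
    have e : ((1 : ℝ) ^ (2 + 1) - 0 ^ (2 + 1)) / ((2 : ℕ) + 1) = 1 / 3 := by norm_num
    rw [e, one_div, ENNReal.ofReal_inv_of_pos (by norm_num)]
    norm_num
  · refine (ContinuousOn.integrableOn_Icc ?_).mono_set Ioo_subset_Icc_self
    fun_prop
  · exact Filter.Eventually.of_forall fun r => mul_self_nonneg r

theorem S2_cyl_meas : Measurable (fun p : ℝ × ℝ => cyl p.1 p.2) := by
  unfold cyl
  refine S2_meas3 ?_ ?_ ?_
  · exact ((measurable_const.sub (measurable_fst.pow_const 2)).sqrt).mul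
      (measurable_cos.comp measurable_snd)
  · exact ((measurable_const.sub (measurable_fst.pow_const 2)).sqrt).mul
      (measurable_sin.comp measurable_snd)
  · exact measurable_fst

/-- the vector in spherical coordinates -/
theorem S2_vec {r t f : ℝ} (ht : 0 ≤ sin t) :
    (!₂[r * sin t * cos f, r * sin t * sin f, r * cos t] : V) = r • cyl (cos t) f := by
  have h : √(1 - cos t ^ 2) = sin t := by
    rw [← sin_sq, Real.sqrt_sq ht]
  unfold cyl
  rw [h]
  ext i
  fin_cases i
  · show r * sin t * cos f = r * (sin t * cos f); ring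
  · show r * sin t * sin f = r * (sin t * sin f); ring
  · show r * cos t = r * cos t; rfl

theorem S2_cyl_norm {t f : ℝ} (ht : 0 ≤ sin t) : ‖cyl (cos t) f‖ = 1 := by
  have h : √(1 - cos t ^ 2) = sin t := by
    rw [← sin_sq, Real.sqrt_sq ht]
  have : ‖cyl (cos t) f‖ ^ 2 = 1 := by
    rw [EuclideanSpace.norm_sq_eq]
    simp only [Fin.sum_univ_three, cyl, h]
    simp only [Real.norm_eq_abs, sq_abs]
    show (sin t * cos f) ^ 2 + (sin t * sin f) ^ 2 + cos t ^ 2 = 1
    have h1 := sin_sq_add_cos_sq f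
    have h2 := sin_sq_add_cos_sq t
    nlinarith [h1, h2]
  have h0 : 0 ≤ ‖cyl (cos t) f‖ := norm_nonneg _
  nlinarith

/-- the inner integral in `r` -/
theorem S2_inner (g : V → ENNReal) {t f : ℝ} (ht : 0 < sin t) :
    ∫⁻ r : ℝ, ENNReal.ofReal r * (ENNReal.ofReal (r * sin t) *
      (Metric.ball (0 : V) 1).indicator (fun x => g (‖x‖⁻¹ • x))
        !₂[r * sin t * cos f, r * sin t * sin f, r * cos t])
      = 3⁻¹ * (ENNReal.ofReal (sin t) * g (cyl (cos t) f)) := by
  have key : ∀ r : ℝ, ENNReal.ofReal r * (ENNReal.ofReal (r * sin t) *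
      (Metric.ball (0 : V) 1).indicator (fun x => g (‖x‖⁻¹ • x))
        !₂[r * sin t * cos f, r * sin t * sin f, r * cos t])
      = (Ioo (0 : ℝ) 1).indicator (fun r => ENNReal.ofReal (r * r) *
        (ENNReal.ofReal (sin t) * g (cyl (cos t) f))) r := by
    intro r
    rw [S2_vec ht.le]
    rcases le_or_gt r 0 with hr | hr
    · rw [ENNReal.ofReal_of_nonpos hr, zero_mul, indicator_of_notMem]
      intro h; exact absurd h.1 (not_lt.2 hr)
    · have hn : ‖r • cyl (cos t) f‖ = r := by
        rw [norm_smul, S2_cyl_norm ht.le, mul_one, Real.norm_of_nonneg hr.le]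
      rcases lt_or_ge r 1 with h1 | h1
      · rw [indicator_of_mem (show r ∈ Ioo (0 : ℝ) 1 from ⟨hr, h1⟩), indicator_of_mem]
        · rw [hn, smul_smul, inv_mul_cancel₀ hr.ne', one_smul, ENNReal.ofReal_mul hr.le,
            ENNReal.ofReal_mul hr.le]
          ring
        · rw [Metric.mem_ball, dist_zero_right, hn]; exact h1
      · rw [indicator_of_notMem, indicator_of_notMem]
        · simp
        · intro h; exact absurd h.2 (not_lt.2 h1)
        · rw [Metric.mem_ball, dist_zero_right, hn]; exact not_lt.2 h1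
  simp only [key]
  rw [lintegral_indicator measurableSet_Ioo, lintegral_mul_const _ (by fun_prop), S2_third]

/-- substitution `z = cos t` -/
theorem S2_cos (h : ℝ → ENNReal) :
    ∫⁻ z in Ioo (-1 : ℝ) 1, h z = ∫⁻ t in Ioo (0 : ℝ) π, ENNReal.ofReal (sin t) * h (cos t) := by
  have him : cos '' Ioo (0 : ℝ) π = Ioo (-1 : ℝ) 1 := by
    ext z
    constructor
    · rintro ⟨t, ht, rfl⟩
      constructor
      · rw [← cos_pi]
        exact strictAntiOn_cos ⟨ht.1.le, ht.2.le⟩ ⟨pi_pos.le, le_rfl⟩ ht.2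
      · rw [← cos_zero]
        exact strictAntiOn_cos ⟨le_rfl, pi_pos.le⟩ ⟨ht.1.le, ht.2.le⟩ ht.1
    · intro hz
      refine ⟨arccos z, ⟨arccos_pos.2 hz.2, ?_⟩, cos_arccos hz.1.le hz.2.le⟩
      rcases (arccos_le_pi z).lt_or_eq with h | h
      · exact h
      · exact absurd (arccos_eq_pi.1 h) (not_le.2 hz.1)
  have hinj : InjOn cos (Ioo (0 : ℝ) π) :=
    strictAntiOn_cos.injOn.mono Ioo_subset_Icc_self
  rw [← him, lintegral_image_eq_lintegral_abs_deriv_mul measurableSet_Ioo
    (fun t _ => (hasDerivAt_cos t).hasDerivWithinAt) hinj]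
  refine setLIntegral_congr_fun measurableSet_Ioo fun t ht => ?_
  have : 0 < sin t := sin_pos_of_mem_Ioo ht
  simp only [abs_neg, abs_of_pos this]

/-- Archimedes for a fixed azimuth -/
theorem S2_slice (g : V → ENNReal) (hg : Measurable g) (f : ℝ) :
    ∫⁻ z : ℝ, ∫⁻ r : ℝ, ENNReal.ofReal r *
      (Metric.ball (0 : V) 1).indicator (fun x => g (‖x‖⁻¹ • x)) !₂[r * cos f, r * sin f, z]
      = 3⁻¹ * ∫⁻ z in Ioo (-1 : ℝ) 1, g (cyl z f) := by
  have hF : Measurable ((Metric.ball (0 : V) 1).indicator (fun x => g (‖x‖⁻¹ • x))) :=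
    (hg.comp (measurable_norm.inv.smul measurable_id)).indicator measurableSet_ball
  have hm : Measurable (fun p : ℝ × ℝ => ENNReal.ofReal p.2 *
      (Metric.ball (0 : V) 1).indicator (fun x => g (‖x‖⁻¹ • x))
        !₂[p.2 * cos f, p.2 * sin f, p.1]) := by
    refine (ENNReal.measurable_ofReal.comp measurable_snd).mul (hF.comp (S2_meas3 ?_ ?_ ?_))
    · exact measurable_snd.mul measurable_const
    · exact measurable_snd.mul measurable_const
    · exact measurable_fst
  have h1 := lintegral_prod _ hm.aemeasurable (μ := (volume : Measure ℝ)) (ν := (volume : Measure ℝ))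
  rw [← h1, ← Measure.volume_eq_prod, S2_polar _ hm, S2_cos, ← lintegral_const_mul' _ _ (by simp)]
  have hsub : Ioo (0 : ℝ) π ⊆ Ioo (-π) π := Ioo_subset_Ioo (by linarith [pi_pos]) le_rfl
  have hr : (volume : Measure ℝ).restrict (Ioo (0 : ℝ) π)
      = ((volume : Measure ℝ).restrict (Ioo (-π) π)).restrict (Ioo (0 : ℝ) π) := by
    rw [Measure.restrict_restrict measurableSet_Ioo, inter_eq_self_of_subset_left hsub]
  rw [hr, ← lintegral_indicator (μ := (volume : Measure ℝ).restrict (Ioo (-π) π))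
    (s := Ioo (0 : ℝ) π) measurableSet_Ioo]
  refine setLIntegral_congr_fun (measurableSet_Ioo (a := -π) (b := π)) fun t ht => ?_
  by_cases h0 : 0 < t
  · have hs : 0 < sin t := sin_pos_of_mem_Ioo ⟨h0, ht.2⟩
    rw [indicator_of_mem (show t ∈ Ioo (0 : ℝ) π from ⟨h0, ht.2⟩)]
    exact S2_inner g hs
  · have hs : sin t ≤ 0 := by
      have := sin_nonneg_of_nonneg_of_le_pi (x := -t) (by linarith) (by linarith [ht.1])
      rw [sin_neg] at this; linarith
    rw [indicator_of_notMem (fun h => h0 h.1)]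
    refine (lintegral_congr fun r => ?_).trans lintegral_zero
    rcases le_or_gt r 0 with hr | hr
    · simp [ENNReal.ofReal_of_nonpos hr]
    · have : r * sin t ≤ 0 := mul_nonpos_of_nonneg_of_nonpos hr.le hs
      simp [ENNReal.ofReal_of_nonpos this]

/-- BLOCK S2: Archimedes. `3 ∫_B g(x/|x|) dx`: write `x = (ρ cos f, ρ sin f, z)` (polar coordinates in the first two
coordinates, `lintegral_comp_polarCoord_symm`), then for fixed `f` polar coordinates `(z, ρ) = r (cos θ, sin θ)`,
`0 < θ < π`, in the half plane, the integrand depends on `θ` only, `3 ∫_0^1 r^2 dr = 1`, and substitute `z = cos θ`. -/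
theorem S2 (g : V → ENNReal) (hg : Measurable g) :
    ∫⁻ x, g x ∂sph = ∫⁻ z in Ioo (-1 : ℝ) 1, ∫⁻ f in Ioo (-π) π, g (cyl z f) := by
  have hmap : Measurable (fun x : V => ‖x‖⁻¹ • x) := measurable_norm.inv.smul measurable_id
  have hF : Measurable ((Metric.ball (0 : V) 1).indicator (fun x => g (‖x‖⁻¹ • x))) :=
    (hg.comp hmap).indicator measurableSet_ball
  have h0 : ∫⁻ x, g x ∂sph
      = 3 * ∫⁻ x : V, (Metric.ball (0 : V) 1).indicator (fun x => g (‖x‖⁻¹ • x)) x := by
    rw [sph, lintegral_smul_measure, lintegral_map hg hmap, lintegral_indicator measurableSet_ball]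
    rfl
  have h1 : ∀ z : ℝ, ∫⁻ p : ℝ × ℝ,
      (Metric.ball (0 : V) 1).indicator (fun x => g (‖x‖⁻¹ • x)) !₂[p.1, p.2, z]
      = ∫⁻ f in Ioo (-π) π, ∫⁻ r : ℝ, ENNReal.ofReal r *
        (Metric.ball (0 : V) 1).indicator (fun x => g (‖x‖⁻¹ • x)) !₂[r * cos f, r * sin f, z] := by
    intro z
    exact S2_polar (fun p => (Metric.ball (0 : V) 1).indicator (fun x => g (‖x‖⁻¹ • x))
      !₂[p.1, p.2, z]) (hF.comp (S2_meas3 measurable_fst measurable_snd measurable_const))
  rw [h0, S2_vol _ hF]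
  simp only [h1]
  rw [lintegral_lintegral_swap (f := fun (z : ℝ) (f : ℝ) => ∫⁻ r : ℝ, ENNReal.ofReal r *
    (Metric.ball (0 : V) 1).indicator (fun x => g (‖x‖⁻¹ • x)) !₂[r * cos f, r * sin f, z])]
  · simp only [S2_slice g hg]
    rw [lintegral_const_mul' _ _ (by simp), ← mul_assoc,
      ENNReal.mul_inv_cancel (by norm_num) (by norm_num), one_mul]
    refine lintegral_lintegral_swap (f := fun f z => g (cyl z f)) ?_
    exact (hg.comp (S2_cyl_meas.comp measurable_swap)).aemeasurable
  · refine Measurable.aemeasurable ?_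
    have : Measurable (fun q : (ℝ × ℝ) × ℝ => ENNReal.ofReal q.2 *
        (Metric.ball (0 : V) 1).indicator (fun x => g (‖x‖⁻¹ • x))
          !₂[q.2 * cos q.1.2, q.2 * sin q.1.2, q.1.1]) := by
      refine (ENNReal.measurable_ofReal.comp measurable_snd).mul (hF.comp (S2_meas3 ?_ ?_ ?_))
      · exact measurable_snd.mul (measurable_cos.comp (measurable_snd.comp measurable_fst))
      · exact measurable_snd.mul (measurable_sin.comp (measurable_snd.comp measurable_fst))
      · exact measurable_fst.comp measurable_fst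
    exact this.lintegral_prod_right'

end Iso
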