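import Pool.Agent.Lib_helper3.Iso.S2
noncomputable section
namespace Iso
open MeasureTheory Real Set

/-- existence of an isometry carrying the third axis to a given unit vector -/
theorem exists_isom (a : V) (ha : ‖a‖ = 1) : ∃ f : V ≃ₗᵢ[ℝ] V, f (!₂[0, 0, 1]) = a := by
  have he : ‖(!₂[0, 0, 1] : V)‖ = 1 := by
    rw [EuclideanSpace.norm_eq]
    simp [Fin.sum_univ_three]
  exact ⟨_, Submodule.reflection_sub (he.trans ha.symm)⟩

/-- BLOCK S3: functions of one coordinate. From S1a, S2 and `exists_isom`. -/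
theorem S3 (a : V) (ha : ‖a‖ = 1) (g : ℝ → ENNReal) (hg : Measurable g) :
    ∫⁻ x, g (ip x a) ∂sph = ENNReal.ofReal (2 * π) * ∫⁻ z in Ioo (-1 : ℝ) 1, g z := by
  obtain ⟨f, hf⟩ := exists_isom a ha
  have hip : ∀ b : V, Measurable (fun x : V => g (ip x b)) := fun b =>
    hg.comp (Continuous.measurable (by fun_prop))
  rw [← (S1a f).lintegral_comp (hip a)]
  have h1 : ∀ x : V, ip (f x) a = ip x !₂[0, 0, 1] := fun x => by
    rw [← hf]; exact f.inner_map_map x _
  simp only [h1]
  rw [S2 (fun x => g (ip x !₂[0, 0, 1])) (hip _), ← lintegral_const_mul' _ _ ENNReal.ofReal_ne_top]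
  refine lintegral_congr fun z => ?_
  have h2 : ∀ f : ℝ, ip (cyl z f) !₂[0, 0, 1] = z := fun f => by
    rw [ip_def]; simp [cyl]
  simp only [h2]
  rw [setLIntegral_const, Real.volume_Ioo, mul_comm]
  congr 2
  ring

theorem S3_map (a : V) (ha : ‖a‖ = 1) : sph.map (fun x => ip x a)
    = ENNReal.ofReal (2 * π) • (volume : Measure ℝ).restrict (Ioo (-1) 1) := by
  have hm : Measurable (fun x : V => ip x a) := Continuous.measurable (by fun_prop)
  ext s hs
  rw [Measure.map_apply hm hs, Measure.smul_apply, smul_eq_mul, ← lintegral_indicator_one (hm hs),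
    ← lintegral_indicator_one (μ := (volume : Measure ℝ).restrict (Ioo (-1) 1)) hs,
    ← S3 a ha (s.indicator 1) (measurable_one.indicator hs)]
  rfl

/-- S3b: the same for continuous real functions. -/
theorem S3b (a : V) (ha : ‖a‖ = 1) (g : ℝ → ℝ) (hg : Continuous g) :
    ∫ x, g (ip x a) ∂sph = 2 * π * ∫ z in (-1 : ℝ)..1, g z := by
  have hm : Measurable (fun x : V => ip x a) := Continuous.measurable (by fun_prop)
  have h := integral_map (μ := sph) hm.aemeasurable (f := g) hg.aestronglyMeasurable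
  rw [← h, S3_map a ha, integral_smul_measure, ENNReal.toReal_ofReal (by positivity), smul_eq_mul,
    intervalIntegral.integral_of_le (by norm_num), integral_Ioc_eq_integral_Ioo]

theorem S3_gen (a : V) (g : ℝ → ℝ) (hg : Continuous g) :
    ∫ x, g (ip x a) ∂sph = 2 * π * ∫ z in (-1 : ℝ)..1, g (‖a‖ * z) := by
  rcases eq_or_ne a 0 with rfl | h0
  · have : ∀ x : V, ip x 0 = 0 := fun x => inner_zero_right _
    simp only [this, norm_zero, zero_mul]
    rw [integral_const, intervalIntegral.integral_const]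
    simp only [Measure.real, S1c, smul_eq_mul]
    rw [ENNReal.toReal_ofReal (by positivity)]
    ring
  · have hn : ‖a‖ ≠ 0 := norm_ne_zero_iff.2 h0
    have h1 : ‖‖a‖⁻¹ • a‖ = 1 := by rw [norm_smul, norm_inv, norm_norm, inv_mul_cancel₀ hn]
    have h2 := S3b (‖a‖⁻¹ • a) h1 (fun z => g (‖a‖ * z)) (hg.comp (continuous_const_mul _))
    rw [← h2]
    refine integral_congr_ae (Filter.Eventually.of_forall fun x => ?_)
    show g (ip x a) = g (‖a‖ * ip x (‖a‖⁻¹ • a))
    congr 1
    rw [ip, ip, inner_smul_right, ← mul_assoc, mul_inv_cancel₀ hn, one_mul]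

/-- S3c: second moments -/
theorem S3c (a : V) : ∫ x, ip x a ^ 2 ∂sph = 4 * π / 3 * ‖a‖ ^ 2 := by
  rw [S3_gen a (fun z => z ^ 2) (continuous_pow 2)]
  simp only [mul_pow]
  rw [intervalIntegral.integral_const_mul, integral_pow]
  norm_num
  ring

/-- S3d: first moments -/
theorem S3d (a : V) : ∫ x, ip x a ∂sph = 0 := by
  have := S3_gen a (fun z => z) continuous_id
  rw [this, intervalIntegral.integral_const_mul, integral_id]
  norm_num

theorem S3_bern0 (N : ℕ) : ∫ z in (-1 : ℝ)..1, ((1 + z) / 2) ^ N = 2 / ((N : ℝ) + 1) := by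
  have hN : (N : ℝ) + 1 ≠ 0 := by positivity
  rw [intervalIntegral.integral_eq_sub_of_hasDerivAt
    (f := fun z => 2 / ((N : ℝ) + 1) * ((1 + z) / 2) ^ (N + 1))]
  · norm_num
  · intro z _
    have h := (((hasDerivAt_id z).const_add 1).div_const 2).pow (N + 1)
    have h' := h.const_mul (2 / ((N : ℝ) + 1))
    refine h'.congr_deriv ?_
    simp only [id]
    push_cast
    field_simp
  · exact (Continuous.intervalIntegrable (by fun_prop) _ _)

theorem S3_bern1 (N : ℕ) : ∫ z in (-1 : ℝ)..1, ((1 + z) / 2) ^ N * z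
    = 2 * (N : ℝ) / (((N : ℝ) + 1) * (N + 2)) := by
  have h : ∀ z : ℝ, ((1 + z) / 2) ^ N * z = 2 * ((1 + z) / 2) ^ (N + 1) - ((1 + z) / 2) ^ N := by
    intro z; rw [pow_succ]; ring
  simp only [h]
  rw [intervalIntegral.integral_sub (Continuous.intervalIntegrable (by fun_prop) _ _)
    (Continuous.intervalIntegrable (by fun_prop) _ _), intervalIntegral.integral_const_mul,
    S3_bern0, S3_bern0]
  have hN : (N : ℝ) + 1 ≠ 0 := by positivity
  have hN2 : (N : ℝ) + 2 ≠ 0 := by positivity
  have hN3 : (N : ℝ) + 1 + 1 ≠ 0 := by positivity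
  push_cast
  field_simp
  ring

/-- S3e: the kernel is a Markov kernel -/
theorem S3e (N : ℕ) (u : V) (hu : ‖u‖ = 1) : ∫ v, kN N u v ∂sph = 1 := by
  have h := S3b u hu (fun z => ((N : ℝ) + 1) / (4 * π) * ((1 + z) / 2) ^ N) (by fun_prop)
  have h1 : ∫ v, kN N u v ∂sph
      = ∫ v, (fun z => ((N : ℝ) + 1) / (4 * π) * ((1 + z) / 2) ^ N) (ip v u) ∂sph := by
    refine integral_congr_ae (Filter.Eventually.of_forall fun v => ?_)
    show kN N u v = _
    rw [kN, ip, real_inner_comm]
  rw [h1, h, intervalIntegral.integral_const_mul, S3_bern0]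
  have hN : (N : ℝ) + 1 ≠ 0 := by positivity
  have := pi_pos.ne'
  field_simp
  norm_num

theorem S3_int {h : V → ℝ} (hh : Continuous h) : Integrable h sph := by
  obtain ⟨C, hC⟩ := (isCompact_sphere (0 : V) 1).exists_bound_of_continuousOn hh.continuousOn
  refine Integrable.of_bound hh.aestronglyMeasurable C ?_
  filter_upwards [S1b] with x hx
  exact hC x (by simpa using hx)

theorem S3_kN_cont (N : ℕ) (u : V) : Continuous (fun v => kN N u v) := by
  unfold kN; fun_prop

/-- the part orthogonal to `u` -/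
theorem S3_orth (N : ℕ) (u b : V) (h : ip u b = 0) : ∫ v, kN N u v * ip v b ∂sph = 0 := by
  let ρ : V ≃ₗᵢ[ℝ] V := Submodule.reflection (ℝ ∙ b)ᗮ
  have hb : ρ b = -b := Submodule.reflection_orthogonalComplement_singleton_eq_neg b
  have hu : ρ u = u := by
    apply Submodule.reflection_mem_subspace_eq_self
    rw [Submodule.mem_orthogonal_singleton_iff_inner_left]
    exact h
  have hm := (S1a ρ).integral_comp (MeasurableEquiv.measurableEmbedding ρ.toHomeomorph.toMeasurableEquiv)
    (fun v => kN N u v * ip v b)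
  have h1 : ∀ v : V, kN N u (ρ v) = kN N u v := by
    intro v
    unfold kN
    have : ip u (ρ v) = ip u v := by
      rw [← hu, ip, ip]
      conv_lhs => rw [hu, ← hu]
      rw [ρ.inner_map_map, hu]
    rw [this]
  have h2 : ∀ v : V, ip (ρ v) b = - ip v b := by
    intro v
    have : b = - ρ b := by rw [hb, neg_neg]
    rw [this, ip, inner_neg_right, ρ.inner_map_map, ← this]
  simp only [h1, h2, mul_neg] at hm
  rw [integral_neg] at hm
  linarith

/-- S3f: linear functions are eigenfunctions of the kernel -/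
theorem S3f (N : ℕ) (u a : V) (hu : ‖u‖ = 1) :
    ∫ v, kN N u v * ip v a ∂sph = (N : ℝ) / (N + 2) * ip u a := by
  set b : V := a - (ip u a) • u with hb
  have hub : ip u b = 0 := by
    rw [hb, ip, inner_sub_right, inner_smul_right, real_inner_self_eq_norm_sq, hu]
    ring
  have h1 : ∀ v : V, kN N u v * ip v a = ip u a * (kN N u v * ip v u) + kN N u v * ip v b := by
    intro v
    have : ip v b = ip v a - ip u a * ip v u := by
      rw [hb, ip, inner_sub_right, inner_smul_right]
    rw [this]; ring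
  have hc := S3_kN_cont N u
  simp only [h1]
  rw [integral_add (S3_int (by fun_prop)) (S3_int (by fun_prop)), integral_const_mul, S3_orth N u b hub,
    add_zero]
  have h := S3b u hu (fun z => ((N : ℝ) + 1) / (4 * π) * (((1 + z) / 2) ^ N * z)) (by fun_prop)
  have h2 : ∫ v, kN N u v * ip v u ∂sph
      = ∫ v, (fun z => ((N : ℝ) + 1) / (4 * π) * (((1 + z) / 2) ^ N * z)) (ip v u) ∂sph := by
    refine integral_congr_ae (Filter.Eventually.of_forall fun v => ?_)
    show kN N u v * ip v u = _
    rw [kN]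
    have : ip u v = ip v u := real_inner_comm _ _
    rw [this]
    ring
  rw [h2, h, intervalIntegral.integral_const_mul, S3_bern1]
  have hN : (N : ℝ) + 1 ≠ 0 := by positivity
  have hN2 : (N : ℝ) + 2 ≠ 0 := by positivity
  have := pi_pos.ne'
  field_simp
  ring

end Iso
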