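import Pool.Agent.Lib_helper3.Iso.S1
import Pool.Agent.Lib_helper3.Iso.Basic
noncomputable section
namespace Iso
open MeasureTheory Real Set

/-- the convolution of two kernels (not normalised) -/
def CC (M M' : ℕ) (a b : V) : ℝ := ∫ w, ((1 + ip a w) / 2) ^ M * ((1 + ip b w) / 2) ^ M' ∂sph

/-- infinitesimal rotation about the axis `i` -/
def S5_J (i : Fin 3) (w : V) : V :=
  WithLp.toLp 2 (fun k => if k = i then 0 else if k = i + 1 then -w (i + 2) else w (i + 1))

/-- rotation about the axis `i` -/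
def S5_R (i : Fin 3) (t : ℝ) (w : V) : V :=
  WithLp.toLp 2 (fun k => if k = i then w i else if k = i + 1 then cos t * w (i + 1) - sin t * w (i + 2)
    else sin t * w (i + 1) + cos t * w (i + 2))

theorem S5_R_norm (i : Fin 3) (t : ℝ) (w : V) : ‖S5_R i t w‖ = ‖w‖ := by
  have h : ‖S5_R i t w‖ ^ 2 = ‖w‖ ^ 2 := by
    rw [norm_sq_eq, norm_sq_eq]
    have := sin_sq_add_cos_sq t
    fin_cases i <;> simp [S5_R] <;> nlinarith
  exact (pow_left_inj₀ (norm_nonneg _) (norm_nonneg _) two_ne_zero).1 h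

/-- the rotation as a linear isometry -/
def S5_L (i : Fin 3) (t : ℝ) : V →ₗᵢ[ℝ] V where
  toFun := S5_R i t
  map_add' x y := by
    ext k
    fin_cases i <;> fin_cases k <;> simp [S5_R] <;> ring
  map_smul' c x := by
    ext k
    fin_cases i <;> fin_cases k <;> simp [S5_R] <;> ring
  norm_map' := S5_R_norm i t

theorem S5_R_mp (i : Fin 3) (t : ℝ) : MeasurePreserving (S5_R i t) sph sph :=
  S1a ((S5_L i t).toLinearIsometryEquiv rfl)

theorem S5_R_emb (i : Fin 3) (t : ℝ) : MeasurableEmbedding (S5_R i t) :=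
  ((S5_L i t).toLinearIsometryEquiv rfl).toHomeomorph.measurableEmbedding

theorem S5_R_zero (i : Fin 3) (w : V) : S5_R i 0 w = w := by
  ext k
  fin_cases i <;> fin_cases k <;> simp [S5_R]

theorem S5_deriv (i : Fin 3) (w : V) (t : ℝ) (k : Fin 3) :
    HasDerivAt (fun t => S5_R i t w k) (S5_J i (S5_R i t w) k) t := by
  have hc := hasDerivAt_cos t
  have hs := hasDerivAt_sin t
  have h0 := hasDerivAt_const t (w i)
  have h1 := (hc.mul_const (w (i + 1))).sub (hs.mul_const (w (i + 2)))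
  have h2 := (hs.mul_const (w (i + 1))).add (hc.mul_const (w (i + 2)))
  fin_cases i <;> fin_cases k <;> simp [S5_R, S5_J] at h0 h1 h2 ⊢
  all_goals first
    | exact h0
    | exact h1.congr_deriv (by ring)
    | exact h2.congr_deriv (by ring)

theorem S5_int (g : V → ℝ) (hg : Continuous g) : Integrable g sph := by
  obtain ⟨C, hC⟩ := (isCompact_closedBall (0 : V) 1).exists_bound_of_continuousOn hg.continuousOn
  refine Integrable.of_bound hg.aestronglyMeasurable C ?_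
  filter_upwards [S1b] with x hx
  exact hC x (by simp [hx])

theorem S5_R_cont (i : Fin 3) (t : ℝ) : Continuous (S5_R i t) := (S5_L i t).continuous

theorem S5_green (i : Fin 3) (h h' : V → ℝ) (hc : Continuous h) (hc' : Continuous h')
    (hd : ∀ w t, HasDerivAt (fun t => h (S5_R i t w)) (h' (S5_R i t w)) t) :
    ∫ w, h' w ∂sph = 0 := by
  obtain ⟨C, hC⟩ := (isCompact_closedBall (0 : V) 1).exists_bound_of_continuousOn hc'.continuousOn
  have key := hasDerivAt_integral_of_dominated_loc_of_deriv_le (μ := sph)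
    (F := fun t w => h (S5_R i t w)) (F' := fun t w => h' (S5_R i t w)) (x₀ := (0 : ℝ))
    (s := univ) (bound := fun _ => C) Filter.univ_mem
    (Filter.Eventually.of_forall fun t => (hc.comp (S5_R_cont i t)).aestronglyMeasurable)
    (S5_int _ (hc.comp (S5_R_cont i 0)))
    (hc'.comp (S5_R_cont i 0)).aestronglyMeasurable
    (by
      filter_upwards [S1b] with x hx t _
      exact hC _ (by simp [S5_R_norm, hx]))
    (integrable_const C)
    (Filter.Eventually.of_forall fun w t _ => hd w t)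
  have h1 : (fun t : ℝ => ∫ w, h (S5_R i t w) ∂sph) = fun _ => ∫ w, h w ∂sph := by
    funext t
    exact (S5_R_mp i t).integral_comp (S5_R_emb i t) h
  have h2 := key.2
  rw [h1] at h2
  have h3 := h2.unique (hasDerivAt_const (0 : ℝ) _)
  simpa only [S5_R_zero] using h3

theorem S5_skew (i : Fin 3) (c w : V) : ip c (S5_J i w) = - ip (S5_J i c) w := by
  rw [ip_def, ip_def]
  fin_cases i <;> simp [S5_J]

theorem S5_dip (i : Fin 3) (c w : V) (t : ℝ) :
    HasDerivAt (fun t => ip c (S5_R i t w)) (ip c (S5_J i (S5_R i t w))) t := by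
  have h := (((S5_deriv i w t 0).const_mul (c 0)).add ((S5_deriv i w t 1).const_mul (c 1))).add
    ((S5_deriv i w t 2).const_mul (c 2))
  have e : (fun t => ip c (S5_R i t w)) = fun t => c 0 * S5_R i t w 0 + c 1 * S5_R i t w 1 +
      c 2 * S5_R i t w 2 := by
    funext t; rw [ip_def]
  rw [e, ip_def]
  exact h

theorem S5_dip2 (i : Fin 3) (c w : V) (t : ℝ) :
    HasDerivAt (fun t => ip c (S5_J i (S5_R i t w))) (ip c (S5_J i (S5_J i (S5_R i t w)))) t := by
  have h := (S5_dip i (S5_J i c) w t).neg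
  have e : (fun t => ip c (S5_J i (S5_R i t w))) = fun t => - ip (S5_J i c) (S5_R i t w) := by
    funext t; exact S5_skew i c _
  rw [e, S5_skew i c (S5_J i (S5_R i t w))]
  exact h

theorem S5_dY (i : Fin 3) (c w : V) (t : ℝ) :
    HasDerivAt (fun t => (1 + ip c (S5_R i t w)) / 2) (ip c (S5_J i (S5_R i t w)) / 2) t :=
  ((S5_dip i c w t).const_add 1).div_const 2

theorem S5_J_cont (i : Fin 3) : Continuous (S5_J i) := by
  refine (PiLp.continuous_toLp 2 _).comp ?_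
  refine continuous_pi fun k => ?_
  fin_cases i <;> fin_cases k <;> simp <;> fun_prop

theorem S5_ip_cont (c : V) : Continuous (fun w => ip c w) := by
  unfold ip; fun_prop

/-- `Y_a^(M+1) L_i (Y_b^(M'+1)) / (M'+1)` -/
def S5_h (i : Fin 3) (M M' : ℕ) (a b w : V) : ℝ :=
  ((1 + ip a w) / 2) ^ (M + 1) * (((1 + ip b w) / 2) ^ M' * (ip b (S5_J i w) / 2))

def S5_h' (i : Fin 3) (M M' : ℕ) (a b w : V) : ℝ :=
  (((M + 1 : ℕ) : ℝ) * ((1 + ip a w) / 2) ^ M * (ip a (S5_J i w) / 2)) *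
    (((1 + ip b w) / 2) ^ M' * (ip b (S5_J i w) / 2)) +
  ((1 + ip a w) / 2) ^ (M + 1) *
    (((M' : ℕ) : ℝ) * ((1 + ip b w) / 2) ^ (M' - 1) * (ip b (S5_J i w) / 2) * (ip b (S5_J i w) / 2) +
      ((1 + ip b w) / 2) ^ M' * (ip b (S5_J i (S5_J i w)) / 2))

theorem S5_dh (i : Fin 3) (M M' : ℕ) (a b w : V) (t : ℝ) :
    HasDerivAt (fun t => S5_h i M M' a b (S5_R i t w)) (S5_h' i M M' a b (S5_R i t w)) t := by
  have h1 := (S5_dY i a w t).pow (M + 1)
  have h2 := (S5_dY i b w t).pow M'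
  have h3 := (S5_dip2 i b w t).div_const 2
  exact h1.mul (h2.mul h3)

theorem S5_h_cont (i : Fin 3) (M M' : ℕ) (a b : V) : Continuous (S5_h i M M' a b) := by
  have h1 := S5_ip_cont a
  have h2 := S5_ip_cont b
  have h3 := (S5_ip_cont b).comp (S5_J_cont i)
  have h4 := (h1.const_add 1).div_const 2
  have h5 := (h2.const_add 1).div_const 2
  exact (h4.pow _).mul ((h5.pow _).mul (h3.div_const 2))

theorem S5_h'_cont (i : Fin 3) (M M' : ℕ) (a b : V) : Continuous (S5_h' i M M' a b) := by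
  have h1 := S5_ip_cont a
  have h2 := S5_ip_cont b
  have h3 := ((S5_ip_cont b).comp (S5_J_cont i)).div_const 2
  have h3a := ((S5_ip_cont a).comp (S5_J_cont i)).div_const 2
  have h4 := (h1.const_add 1).div_const 2
  have h5 := (h2.const_add 1).div_const 2
  have h6 := ((S5_ip_cont b).comp ((S5_J_cont i).comp (S5_J_cont i))).div_const 2
  exact (((continuous_const.mul (h4.pow _)).mul h3a).mul ((h5.pow _).mul h3)).add
    ((h4.pow _).mul ((((continuous_const.mul (h5.pow _)).mul h3).mul h3).add ((h5.pow _).mul h6)))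

theorem S5_h_int (i : Fin 3) (M M' : ℕ) (a b : V) : ∫ w, S5_h' i M M' a b w ∂sph = 0 :=
  S5_green i (S5_h i M M' a b) (S5_h' i M M' a b) (S5_h_cont i M M' a b) (S5_h'_cont i M M' a b)
    (S5_dh i M M' a b)

theorem S5_sq (b w : V) : ip b (S5_J 0 w) ^ 2 + ip b (S5_J 1 w) ^ 2 + ip b (S5_J 2 w) ^ 2 =
    ‖w‖ ^ 2 * ‖b‖ ^ 2 - ip b w ^ 2 := by
  rw [norm_sq_eq, norm_sq_eq]
  simp only [ip_def]
  simp [S5_J]
  ring

theorem S5_tr (b w : V) : ip b (S5_J 0 (S5_J 0 w)) + ip b (S5_J 1 (S5_J 1 w)) +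
    ip b (S5_J 2 (S5_J 2 w)) = - 2 * ip b w := by
  simp only [ip_def]
  simp [S5_J]
  ring

/-- the difference of the two sums of derivatives -/
theorem S5_point (M M' : ℕ) (a b w : V) (ha : ‖a‖ = 1) (hb : ‖b‖ = 1) (hw : ‖w‖ = 1) :
    ((M' : ℝ) + 1) * (S5_h' 0 M M' a b w + S5_h' 1 M M' a b w + S5_h' 2 M M' a b w) -
    ((M : ℝ) + 1) * (S5_h' 0 M' M b a w + S5_h' 1 M' M b a w + S5_h' 2 M' M b a w) =
    ((M' : ℝ) + 1) ^ 2 * (((1 + ip a w) / 2) ^ (M + 1) * ((1 + ip b w) / 2) ^ M') -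
    ((M : ℝ) + 1) ^ 2 * (((1 + ip a w) / 2) ^ M * ((1 + ip b w) / 2) ^ (M' + 1)) +
    (((M : ℝ) + 1) * (M + 2) - ((M' : ℝ) + 1) * (M' + 2)) *
      (((1 + ip a w) / 2) ^ (M + 1) * ((1 + ip b w) / 2) ^ (M' + 1)) := by
  have sa := S5_sq a w
  have sb := S5_sq b w
  have ta := S5_tr a w
  have tb := S5_tr b w
  rw [ha, hw] at sa
  rw [hb, hw] at sb
  simp only [S5_h']
  set y : ℝ := (1 + ip a w) / 2 with hy
  set z : ℝ := (1 + ip b w) / 2 with hz
  have hya : ip a w = 2 * y - 1 := by rw [hy]; ring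
  have hzb : ip b w = 2 * z - 1 := by rw [hz]; ring
  rw [hya] at sa ta
  rw [hzb] at sb tb
  have py : ((M : ℕ) : ℝ) * y ^ (M - 1) * y = M * y ^ M := by
    cases M with
    | zero => simp
    | succ n => rw [Nat.add_sub_cancel, pow_succ]; ring
  have pz : ((M' : ℕ) : ℝ) * z ^ (M' - 1) * z = M' * z ^ M' := by
    cases M' with
    | zero => simp
    | succ n => rw [Nat.add_sub_cancel, pow_succ]; ring
  push_cast
  linear_combination (((M' : ℝ) + 1) * y ^ (M + 1) * M' * z ^ (M' - 1) / 4) * sb +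
    (((M' : ℝ) + 1) * y ^ (M + 1) * z ^ M' / 2) * tb +
    (((M' : ℝ) + 1) * y ^ (M + 1) * (1 - z)) * pz -
    (((M : ℝ) + 1) * z ^ (M' + 1) * M * y ^ (M - 1) / 4) * sa -
    (((M : ℝ) + 1) * z ^ (M' + 1) * y ^ M / 2) * ta -
    (((M : ℝ) + 1) * z ^ (M' + 1) * (1 - y)) * py

theorem S5_cint (M M' : ℕ) (a b : V) :
    Integrable (fun w => ((1 + ip a w) / 2) ^ M * ((1 + ip b w) / 2) ^ M') sph := by
  have h1 := ((S5_ip_cont a).const_add 1).div_const 2
  have h2 := ((S5_ip_cont b).const_add 1).div_const 2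
  exact S5_int _ ((h1.pow _).mul (h2.pow _))

theorem S5_lin (c c' : ℝ) (f0 f1 f2 g0 g1 g2 : V → ℝ) (h0 : Integrable f0 sph)
    (h1 : Integrable f1 sph) (h2 : Integrable f2 sph) (k0 : Integrable g0 sph)
    (k1 : Integrable g1 sph) (k2 : Integrable g2 sph) :
    ∫ w, (c * (f0 w + f1 w + f2 w) - c' * (g0 w + g1 w + g2 w)) ∂sph =
      c * (∫ w, f0 w ∂sph + ∫ w, f1 w ∂sph + ∫ w, f2 w ∂sph) -
      c' * (∫ w, g0 w ∂sph + ∫ w, g1 w ∂sph + ∫ w, g2 w ∂sph) := by
  have h01 : Integrable (fun w => f0 w + f1 w) sph := h0.add h1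
  have h012 : Integrable (fun w => f0 w + f1 w + f2 w) sph := h01.add h2
  have k01 : Integrable (fun w => g0 w + g1 w) sph := k0.add k1
  have k012 : Integrable (fun w => g0 w + g1 w + g2 w) sph := k01.add k2
  rw [integral_sub (h012.const_mul c) (k012.const_mul c'), integral_const_mul, integral_const_mul,
    integral_add h01 h2, integral_add h0 h1, integral_add k01 k2, integral_add k0 k1]

theorem S5_lin' (c0 c1 c2 : ℝ) (f0 f1 f2 : V → ℝ) (h0 : Integrable f0 sph)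
    (h1 : Integrable f1 sph) (h2 : Integrable f2 sph) :
    ∫ w, (c0 * f0 w - c1 * f1 w + c2 * f2 w) ∂sph =
      c0 * ∫ w, f0 w ∂sph - c1 * ∫ w, f1 w ∂sph + c2 * ∫ w, f2 w ∂sph := by
  have h01 : Integrable (fun w => c0 * f0 w - c1 * f1 w) sph := (h0.const_mul c0).sub (h1.const_mul c1)
  rw [integral_add h01 (h2.const_mul c2), integral_sub (h0.const_mul c0) (h1.const_mul c1),
    integral_const_mul, integral_const_mul, integral_const_mul]

/-- BLOCK S5 (Green recursion). For `j = 0,1,2` let `R_j(t)` be the rotation by `t` about the axis `e_j`.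
`∫ h(R_j(t) w) dsph(w)` does not depend on `t` (S1a); differentiating at `t = 0` gives `∫ L_j h = 0`,
`L_j h (w) = (Dh)(w)[e_j × w]`, for polynomial `h`. With `Y_a = (1+a.w)/2`, `L_j Y_a = (w × a)_j/2`,
`sum_j L_j Y_a L_j Y_b = (w×a).(w×b)/4`,  `sum_j L_j L_j (Y_a^M) = M^2 Y_a^(M-1) - M(M+1) Y_a^M` on the unit sphere
(`‖w‖ = 1` a.e., S1b). Apply `∫ L_j h = 0` to `h = Y_a^M L_j (Y_b^M')` and to `h = Y_b^M' L_j (Y_a^M)`, sum over `j`
and subtract. -/
theorem S5 (M M' : ℕ) (a b : V) (ha : ‖a‖ = 1) (hb : ‖b‖ = 1) :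
    (((M : ℝ) + 1) * (M + 2) - ((M' : ℝ) + 1) * (M' + 2)) * CC (M + 1) (M' + 1) a b =
      ((M : ℝ) + 1) ^ 2 * CC M (M' + 1) a b - ((M' : ℝ) + 1) ^ 2 * CC (M + 1) M' a b := by
  have i1 : ∀ i, Integrable (S5_h' i M M' a b) sph := fun i => S5_int _ (S5_h'_cont i M M' a b)
  have i2 : ∀ i, Integrable (S5_h' i M' M b a) sph := fun i => S5_int _ (S5_h'_cont i M' M b a)
  have e1 : ∫ w, (((M' : ℝ) + 1) * (S5_h' 0 M M' a b w + S5_h' 1 M M' a b w + S5_h' 2 M M' a b w) -
      ((M : ℝ) + 1) * (S5_h' 0 M' M b a w + S5_h' 1 M' M b a w + S5_h' 2 M' M b a w)) ∂sph = 0 := by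
    rw [S5_lin _ _ _ _ _ _ _ _ (i1 0) (i1 1) (i1 2) (i2 0) (i2 1) (i2 2)]
    simp only [S5_h_int]
    ring
  have e2 : ∫ w, (((M' : ℝ) + 1) ^ 2 * (((1 + ip a w) / 2) ^ (M + 1) * ((1 + ip b w) / 2) ^ M') -
    ((M : ℝ) + 1) ^ 2 * (((1 + ip a w) / 2) ^ M * ((1 + ip b w) / 2) ^ (M' + 1)) +
    (((M : ℝ) + 1) * (M + 2) - ((M' : ℝ) + 1) * (M' + 2)) *
      (((1 + ip a w) / 2) ^ (M + 1) * ((1 + ip b w) / 2) ^ (M' + 1))) ∂sph = 0 := by
    rw [← e1]
    apply integral_congr_ae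
    filter_upwards [S1b] with w hw
    exact (S5_point M M' a b w ha hb hw).symm
  rw [S5_lin' _ _ _ _ _ _ (S5_cint _ _ a b) (S5_cint _ _ a b) (S5_cint _ _ a b)] at e2
  simp only [CC]
  linarith

/-- symmetry (isometry exchanging `a` and `b`) -/
theorem S5b (M M' : ℕ) (a b : V) (ha : ‖a‖ = 1) (hb : ‖b‖ = 1) : CC M M' a b = CC M M' b a := by
  set f : V ≃ₗᵢ[ℝ] V := (Submodule.span ℝ {a - b})ᗮ.reflection with hf
  have h1 : f a = b := Submodule.reflection_sub (by rw [ha, hb])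
  have hinv : ∀ x, f (f x) = x := fun x => Submodule.reflection_reflection _ x
  have h2 : f b = a := by rw [← h1, hinv]
  have ea : ∀ w, ip a (f w) = ip b w := fun w => by
    have := f.inner_map_map b w
    rw [h2] at this
    exact this
  have eb : ∀ w, ip b (f w) = ip a w := fun w => by
    have := f.inner_map_map a w
    rw [h1] at this
    exact this
  have h3 := (S1a f).integral_comp f.toHomeomorph.measurableEmbedding
    (fun w => ((1 + ip a w) / 2) ^ M * ((1 + ip b w) / 2) ^ M')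
  simp only [CC]
  rw [← h3]
  simp only [ea, eb]

end Iso
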