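import Mathlib
noncomputable section
namespace Iso
open Real

/-- the norm recursion for a vector `y` with `K_M y = (1 - j(j+1)/((M+1)(M+2))) K_(M+1) y`. -/
theorem S6a_seq (a : ℕ → ℝ) (N : ℕ) (hN : 2 ≤ N) (ha : ∀ M, 0 ≤ a M)
    (hrec : ∀ M, N ≤ M → ((M : ℝ) + 1) * (M + 2) * a M ≤ ((M : ℝ) + 4) * (M - 1) * a (M + 1)) (L : ℕ) (hL : N ≤ L) :
    a N ≤ (N : ℝ) * (N - 1) / ((N + 2) * (N + 3)) * (((L : ℝ) + 2) * (L + 3) / ((L - 1) * L)) * a L := by
  have hN' : (2 : ℝ) ≤ N := by exact_mod_cast hN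
  induction L, hL using Nat.le_induction with
  | base =>
    apply le_of_eq
    have h1 : (N : ℝ) - 1 ≠ 0 := by linarith
    have h2 : (N : ℝ) ≠ 0 := by linarith
    have h3 : (N : ℝ) + 2 ≠ 0 := by linarith
    have h4 : (N : ℝ) + 3 ≠ 0 := by linarith
    field_simp
  | succ L hL ih =>
    have hL' : (2 : ℝ) ≤ L := le_trans hN' (by exact_mod_cast hL)
    have h1 : (0 : ℝ) < (L : ℝ) - 1 := by linarith
    have h2 : (0 : ℝ) < (L : ℝ) := by linarith
    have h3 : (0 : ℝ) < (L : ℝ) + 1 := by linarith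
    have h4 : (0 : ℝ) < (L : ℝ) + 2 := by linarith
    have hr := hrec L hL
    have hr' : a L ≤ ((L : ℝ) + 4) * (L - 1) / ((L + 1) * (L + 2)) * a (L + 1) := by
      rw [div_mul_eq_mul_div, le_div_iff₀ (by positivity)]
      linarith
    have hc : 0 ≤ (N : ℝ) * (N - 1) / ((N + 2) * (N + 3)) := by
      have : (0 : ℝ) ≤ (N : ℝ) - 1 := by linarith
      positivity
    have hc2 : 0 ≤ (N : ℝ) * (N - 1) / ((N + 2) * (N + 3)) * (((L : ℝ) + 2) * (L + 3) / ((L - 1) * L)) := by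
      positivity
    calc a N ≤ (N : ℝ) * (N - 1) / ((N + 2) * (N + 3)) * (((L : ℝ) + 2) * (L + 3) / ((L - 1) * L)) * a L := ih
      _ ≤ (N : ℝ) * (N - 1) / ((N + 2) * (N + 3)) * (((L : ℝ) + 2) * (L + 3) / ((L - 1) * L)) *
          (((L : ℝ) + 4) * (L - 1) / ((L + 1) * (L + 2)) * a (L + 1)) := mul_le_mul_of_nonneg_left hr' hc2
      _ = _ := by
        push_cast
        have e1 : (((L : ℝ) + 2) * (L + 3) / ((L - 1) * L)) * (((L : ℝ) + 4) * (L - 1) / ((L + 1) * (L + 2))) =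
            ((L : ℝ) + 1 + 2) * (L + 1 + 3) / ((L + 1 - 1) * (L + 1)) := by
          have : (L : ℝ) + 1 - 1 = L := by ring
          rw [this]
          field_simp
          ring
        rw [← e1]
        ring

theorem S6a_lim (c l : ℝ) (N : ℕ)
    (h : ∀ L : ℕ, N ≤ L → 2 ≤ L → l ≤ c * (((L : ℝ) + 2) * (L + 3) / ((L - 1) * L))) : l ≤ c := by
  have ht : Filter.Tendsto (fun L : ℕ => c * (((L : ℝ) + 2) * (L + 3) / ((L - 1) * L))) Filter.atTop (nhds c) := by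
    have h1 : Filter.Tendsto (fun L : ℕ => ((L : ℝ))⁻¹) Filter.atTop (nhds 0) := tendsto_inv_atTop_nhds_zero_nat
    have h2 : Filter.Tendsto (fun L : ℕ => c * ((1 + 2 * ((L : ℝ))⁻¹) * (1 + 3 * ((L : ℝ))⁻¹) /
        ((1 - ((L : ℝ))⁻¹) * 1))) Filter.atTop (nhds (c * ((1 + 2 * 0) * (1 + 3 * 0) / ((1 - 0) * 1)))) := by
      apply Filter.Tendsto.const_mul
      apply Filter.Tendsto.div
      · exact ((h1.const_mul 2).const_add 1).mul ((h1.const_mul 3).const_add 1)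
      · exact (h1.const_sub 1).mul tendsto_const_nhds
      · norm_num
    have h3 : c * ((1 + 2 * 0) * (1 + 3 * 0) / ((1 - 0) * 1)) = c := by ring
    rw [h3] at h2
    refine h2.congr' ?_
    filter_upwards [Filter.eventually_ge_atTop 2] with L hL
    have hL' : (2 : ℝ) ≤ L := by exact_mod_cast hL
    have h4 : (L : ℝ) ≠ 0 := by linarith
    have h5 : (L : ℝ) - 1 ≠ 0 := by linarith
    congr 1
    have h6 : 1 - (L : ℝ)⁻¹ ≠ 0 := by
      rw [sub_ne_zero]; intro h; apply h5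
      have : (L : ℝ) * 1 = L * (L : ℝ)⁻¹ := by rw [h]
      rw [mul_inv_cancel₀ h4] at this; linarith
    field_simp
  refine ge_of_tendsto ht ?_
  filter_upwards [Filter.eventually_ge_atTop N, Filter.eventually_ge_atTop 2] with L h1 h2
  exact h L h1 h2

/-- the eigenvalues -/
theorem S6a_eig {H : Type*} [NormedAddCommGroup H] [InnerProductSpace ℝ H]
    (K : ℕ → H →L[ℝ] H)
    (hcomm : ∀ m n x, K m (K n x) = K n (K m x))
    (hcon : ∀ n x, ‖K n x‖ ≤ ‖x‖)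
    (hrec : ∀ M M' : ℕ, ∀ x, (((M : ℝ) + 1) * (M + 2) - ((M' : ℝ) + 1) * (M' + 2)) • K (M + 1) (K (M' + 1) x) =
      (((M : ℝ) + 1) * (M + 2)) • K M (K (M' + 1) x) - (((M' : ℝ) + 1) * (M' + 2)) • K (M + 1) (K M' x))
    (N : ℕ) (l : ℝ) (g : H) (hg : g ≠ 0) (h0 : K 0 g = 0) (h1 : K 1 g = 0) (hl : K N g = l • g) :
    l ≤ (N : ℝ) * (N - 1) / ((N + 2) * (N + 3)) := by
  classical
  have hC : 0 ≤ (N : ℝ) * (N - 1) / ((N + 2) * (N + 3)) := by
    rcases Nat.eq_zero_or_pos N with h | h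
    · subst h; simp
    · have : (1 : ℝ) ≤ N := by exact_mod_cast h
      have : (0 : ℝ) ≤ (N : ℝ) - 1 := by linarith
      positivity
  rcases le_or_gt l 0 with hl0 | hl0
  · exact hl0.trans hC
  have hex : ∃ j, ∃ g, K 0 g = 0 ∧ K 1 g = 0 ∧ K N g = l • g ∧ K j g ≠ 0 :=
    ⟨N, g, h0, h1, hl, by rw [hl]; exact smul_ne_zero hl0.ne' hg⟩
  obtain ⟨f, hf0, hf1, hfl, hfj⟩ := Nat.find_spec hex
  have hmin : ∀ i, i < Nat.find hex → K i f = 0 := by
    intro i hi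
    by_contra hne
    exact Nat.find_min hex hi ⟨f, hf0, hf1, hfl, hne⟩
  have hjN : Nat.find hex ≤ N := Nat.find_min' hex ⟨g, h0, h1, hl, by rw [hl]; exact smul_ne_zero hl0.ne' hg⟩
  generalize Nat.find hex = j at hfj hmin hjN
  have hj2 : 2 ≤ j := by
    rcases j with _ | _ | j
    · exact absurd hf0 hfj
    · exact absurd hf1 hfj
    · omega
  obtain ⟨m, rfl⟩ : ∃ m, j = m + 1 := ⟨j - 1, by omega⟩
  set y := K (m + 1) f with hy
  have hyN : K N y = l • y := by rw [hy, hcomm, hfl, map_smul]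
  have hstep : ∀ M : ℕ, (((M : ℝ) + 1) * (M + 2) - ((m : ℝ) + 1) * (m + 2)) • K (M + 1) y =
      (((M : ℝ) + 1) * (M + 2)) • K M y := by
    intro M
    have := hrec M m f
    rw [hmin m (by omega), map_zero, smul_zero, sub_zero] at this
    exact this
  have hm : (1 : ℝ) ≤ m := by exact_mod_cast (by omega : 1 ≤ m)
  have hrec' : ∀ M : ℕ, N ≤ M → ((M : ℝ) + 1) * (M + 2) * ‖K M y‖ ≤ ((M : ℝ) + 4) * (M - 1) * ‖K (M + 1) y‖ := by
    intro M hM
    have hmM : (m : ℝ) + 1 ≤ M := by exact_mod_cast hjN.trans hM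
    have h := congrArg (fun z => ‖z‖) (hstep M)
    simp only [norm_smul] at h
    have hA : (0 : ℝ) ≤ ((M : ℝ) + 1) * (M + 2) := by positivity
    have hB : 0 ≤ ((M : ℝ) + 1) * (M + 2) - ((m : ℝ) + 1) * (m + 2) := by nlinarith
    rw [Real.norm_of_nonneg hA, Real.norm_of_nonneg hB] at h
    rw [← h]
    refine mul_le_mul_of_nonneg_right ?_ (norm_nonneg _)
    nlinarith
  have hN2 : 2 ≤ N := hj2.trans hjN
  have hypos : 0 < ‖y‖ := norm_pos_iff.2 hfj
  apply S6a_lim _ _ N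
  intro L hL hL2
  have h := S6a_seq (fun M => ‖K M y‖) N hN2 (fun M => norm_nonneg _) hrec' L hL
  rw [hyN, norm_smul, Real.norm_of_nonneg hl0.le] at h
  have hL' : (2 : ℝ) ≤ L := by exact_mod_cast hL2
  have h1 : (0 : ℝ) < (L : ℝ) - 1 := by linarith
  have hc2 : 0 ≤ (N : ℝ) * (N - 1) / ((N + 2) * (N + 3)) * (((L : ℝ) + 2) * (L + 3) / ((L - 1) * L)) := by
    apply mul_nonneg hC
    positivity
  have h2 : l * ‖y‖ ≤ (N : ℝ) * (N - 1) / ((N + 2) * (N + 3)) * (((L : ℝ) + 2) * (L + 3) / ((L - 1) * L)) * ‖y‖ :=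
    h.trans (mul_le_mul_of_nonneg_left (hcon L y) hc2)
  exact le_of_mul_le_mul_right h2 hypos

/-- BLOCK S6a: abstract spectral lemma (pure Hilbert space, no sphere). -/
theorem S6a {H : Type*} [NormedAddCommGroup H] [InnerProductSpace ℝ H] [CompleteSpace H]
    (K : ℕ → H →L[ℝ] H)
    (hsym : ∀ n x y, inner ℝ (K n x) y = inner ℝ x (K n y))
    (hcomm : ∀ m n x, K m (K n x) = K n (K m x))
    (hcon : ∀ n x, ‖K n x‖ ≤ ‖x‖)
    (hfin : ∀ n, FiniteDimensional ℝ (LinearMap.range (K n : H →ₗ[ℝ] H)))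
    (hrec : ∀ M M' : ℕ, ∀ x, (((M : ℝ) + 1) * (M + 2) - ((M' : ℝ) + 1) * (M' + 2)) • K (M + 1) (K (M' + 1) x) =
      (((M : ℝ) + 1) * (M + 2)) • K M (K (M' + 1) x) - (((M' : ℝ) + 1) * (M' + 2)) • K (M + 1) (K M' x))
    (x : H) (h0 : K 0 x = 0) (h1 : K 1 x = 0) (N : ℕ) :
    inner ℝ x (K N x) ≤ (N : ℝ) * (N - 1) / ((N + 2) * (N + 3)) * ‖x‖ ^ 2 := by
  classical
  set C := (N : ℝ) * (N - 1) / ((N + 2) * (N + 3)) with hCdef
  have hC : 0 ≤ C := by
    rcases Nat.eq_zero_or_pos N with h | h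
    · rw [hCdef]; subst h; simp
    · have : (1 : ℝ) ≤ N := by exact_mod_cast h
      have : (0 : ℝ) ≤ (N : ℝ) - 1 := by linarith
      positivity
  let W : Submodule ℝ H := LinearMap.range (K N : H →ₗ[ℝ] H) ⊓
    (LinearMap.ker (K 0 : H →ₗ[ℝ] H) ⊓ LinearMap.ker (K 1 : H →ₗ[ℝ] H))
  have := hfin N
  have hW : FiniteDimensional ℝ W := Submodule.finiteDimensional_inf_left _ _
  have hmem : ∀ z, K 0 z = 0 → K 1 z = 0 → K N z ∈ W := by
    intro z hz0 hz1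
    refine ⟨⟨z, rfl⟩, ?_, ?_⟩
    · show K 0 (K N z) = 0
      rw [hcomm, hz0, map_zero]
    · show K 1 (K N z) = 0
      rw [hcomm, hz1, map_zero]
  have hW0 : ∀ w ∈ W, K 0 w = 0 := fun w hw => hw.2.1
  have hW1 : ∀ w ∈ W, K 1 w = 0 := fun w hw => hw.2.2
  let T : W →ₗ[ℝ] W := (K N : H →ₗ[ℝ] H).restrict (fun w hw => hmem w (hW0 w hw) (hW1 w hw))
  have hT : ∀ w : W, ((T w : W) : H) = K N (w : H) := fun w => rfl
  have hTs : T.IsSymmetric := by
    intro u v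
    show inner ℝ ((T u : W) : H) (v : H) = inner ℝ (u : H) ((T v : W) : H)
    rw [hT, hT, hsym]
  have hquad : ∀ w : W, inner ℝ (w : H) (K N (w : H)) ≤ C * ‖(w : H)‖ ^ 2 := by
    intro w
    let b := hTs.eigenvectorBasis (rfl : Module.finrank ℝ W = Module.finrank ℝ W)
    have hb : ∀ i, T (b i) = (hTs.eigenvalues rfl i : ℝ) • b i := fun i => hTs.apply_eigenvectorBasis rfl i
    have hle : ∀ i, (hTs.eigenvalues rfl i : ℝ) ≤ C := by
      intro i
      have hne : (b i : H) ≠ 0 := by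
        intro h
        have h2 : ‖b i‖ = 1 := b.orthonormal.1 i
        have h3 : ‖(b i : H)‖ = 1 := h2
        rw [h, norm_zero] at h3
        exact zero_ne_one h3
      refine S6a_eig K hcomm hcon hrec N _ (b i : H) hne (hW0 _ (b i).2) (hW1 _ (b i).2) ?_
      rw [← hT, hb]; rfl
    have e1 : inner ℝ (w : H) (K N (w : H)) = inner ℝ w (T w) := by rw [← hT]; rfl
    have e2 : inner ℝ w (T w) = ∑ i, (hTs.eigenvalues rfl i : ℝ) * (inner ℝ (b i) w) ^ 2 := by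
      rw [← b.sum_inner_mul_inner w (T w)]
      refine Finset.sum_congr rfl fun i _ => ?_
      have : inner ℝ (b i) (T w) = (hTs.eigenvalues rfl i : ℝ) * inner ℝ (b i) w := by
        rw [← hTs, hb, inner_smul_left]; rfl
      rw [this, real_inner_comm]
      ring
    have e3 : ‖(w : H)‖ ^ 2 = ∑ i, (inner ℝ (b i) w) ^ 2 := by
      have h := b.sum_inner_mul_inner w w
      rw [real_inner_self_eq_norm_sq] at h
      have h' : ‖(w : H)‖ ^ 2 = ‖w‖ ^ 2 := rfl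
      rw [h', ← h]
      refine Finset.sum_congr rfl fun i _ => ?_
      rw [real_inner_comm w (b i)]
      ring
    rw [e1, e2, e3, Finset.mul_sum]
    exact Finset.sum_le_sum fun i _ => mul_le_mul_of_nonneg_right (hle i) (sq_nonneg _)
  obtain ⟨p, hp, q, hq, hxpq⟩ := W.exists_add_mem_mem_orthogonal x
  have hqz : ∀ w ∈ W, inner ℝ w q = 0 := fun w hw => hq w hw
  have hKx : K N x ∈ W := hmem x h0 h1
  have hKp : K N p ∈ W := hmem p (hW0 p hp) (hW1 p hp)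
  have e1 : inner ℝ x (K N x) = inner ℝ p (K N p) := by
    have a1 : inner ℝ x (K N x) = inner ℝ p (K N x) := by
      rw [hxpq, inner_add_left, real_inner_comm (K N (p + q)) q, ← hxpq, hqz _ hKx, add_zero]
    rw [a1, ← hsym, hxpq, inner_add_right, hqz _ hKp, add_zero, hsym]
  rw [e1]
  refine (hquad ⟨p, hp⟩).trans (mul_le_mul_of_nonneg_left ?_ hC)
  show ‖p‖ ^ 2 ≤ ‖x‖ ^ 2
  have e2 : ‖x‖ ^ 2 = ‖p‖ ^ 2 + ‖q‖ ^ 2 := by
    rw [hxpq]
    have := norm_add_sq_eq_norm_sq_add_norm_sq_of_inner_eq_zero p q (hqz p hp)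
    rw [sq, sq, sq]; exact this
  rw [e2]
  nlinarith [sq_nonneg ‖q‖]

end Iso
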