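import Pool.Agent.Lib_helper3.Iso.S3
import Pool.Agent.Lib_helper3.Iso.S5
import Pool.Agent.Lib_helper3.Iso.S6a
noncomputable section
namespace Iso
open MeasureTheory Real Set

/-- coordinate functions -/
def S6_e (i : Fin 4) (u : V) : ℝ := Fin.cases (motive := fun _ => ℝ) 1 (fun j : Fin 3 => u j) i

/-- monomials -/
def S6_ph {n : ℕ} (p : Fin n → Fin 4) (u : V) : ℝ := ∏ j, S6_e (p j) u

/-- normalisation -/
def S6_c (n : ℕ) : ℝ := ((n : ℝ) + 1) / (4 * π) * (1 / 2) ^ n

theorem S6_e_sum (u v : V) : ∑ i, S6_e i u * S6_e i v = 1 + ip u v := by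
  rw [Fin.sum_univ_succ, ip_def, Fin.sum_univ_three]
  simp only [S6_e, Fin.cases_zero, Fin.cases_succ]
  ring

theorem S6_pow (n : ℕ) (u v : V) :
    ((1 + ip u v) / 2) ^ n = (1 / 2) ^ n * ∑ p : Fin n → Fin 4, S6_ph p u * S6_ph p v := by
  rw [div_eq_mul_one_div, mul_pow, mul_comm, ← S6_e_sum, Fintype.sum_pow]
  congr 1
  refine Finset.sum_congr rfl fun p _ => ?_
  rw [S6_ph, S6_ph, ← Finset.prod_mul_distrib]

theorem S6_kN (n : ℕ) (u v : V) :
    kN n u v = S6_c n * ∑ p : Fin n → Fin 4, S6_ph p u * S6_ph p v := by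
  rw [kN, S6_pow, S6_c]; ring

theorem S6_e_cont (i : Fin 4) : Continuous (S6_e i) := by
  refine Fin.cases ?_ (fun j => ?_) i
  · exact continuous_const
  · show Continuous fun u : V => u j
    fun_prop

theorem S6_ph_cont {n : ℕ} (p : Fin n → Fin 4) : Continuous (S6_ph p) := by
  unfold S6_ph
  exact continuous_finsetProd _ fun j _ => S6_e_cont (p j)

theorem S6_e_le (i : Fin 4) {u : V} (hu : ‖u‖ = 1) : |S6_e i u| ≤ 1 := by
  refine Fin.cases ?_ (fun j => ?_) i
  · simp [S6_e]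
  · show |u j| ≤ 1
    rw [← hu, ← Real.norm_eq_abs]
    exact PiLp.norm_apply_le u j

theorem S6_ph_le {n : ℕ} (p : Fin n → Fin 4) {u : V} (hu : ‖u‖ = 1) : |S6_ph p u| ≤ 1 := by
  rw [S6_ph, Finset.abs_prod]
  exact Finset.prod_le_one (fun _ _ => abs_nonneg _) fun j _ => S6_e_le (p j) hu

theorem S6_ph_bdd {n : ℕ} (p : Fin n → Fin 4) : ∀ᵐ u ∂sph, ‖S6_ph p u‖ ≤ 1 := by
  filter_upwards [S1b] with u hu
  exact S6_ph_le p hu

theorem S6_mem {n : ℕ} (p : Fin n → Fin 4) : MemLp (S6_ph p) 2 sph :=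
  MemLp.of_bound (S6_ph_cont p).aestronglyMeasurable 1 (S6_ph_bdd p)

theorem S6_int {n : ℕ} (p : Fin n → Fin 4) {g : V → ℝ} (hg : Integrable g sph) :
    Integrable (fun v => S6_ph p v * g v) sph :=
  hg.bdd_mul (S6_ph_cont p).aestronglyMeasurable (S6_ph_bdd p)

theorem S6_ph_int {n : ℕ} (p : Fin n → Fin 4) : Integrable (S6_ph p) sph := by
  have := S6_int p (integrable_const (1 : ℝ) (μ := sph))
  simpa using this

/-- moments -/
def S6_mo {n : ℕ} (p : Fin n → Fin 4) (f : V → ℝ) : ℝ := ∫ u, S6_ph p u * f u ∂sph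

theorem S6_inner_int (n : ℕ) {f g : V → ℝ} (hg : Integrable g sph) (u : V) :
    Integrable (fun v => kN n u v * (f u * g v)) sph := by
  have h : (fun v => kN n u v * (f u * g v)) =
      fun v => ∑ p : Fin n → Fin 4, (S6_c n * S6_ph p u * f u) * (S6_ph p v * g v) := by
    funext v
    rw [S6_kN, Finset.mul_sum, Finset.sum_mul]
    exact Finset.sum_congr rfl fun p _ => by ring
  rw [h]
  exact integrable_finsetSum _ fun p _ => (S6_int p hg).const_mul _

theorem S6_inner_val (n : ℕ) {f g : V → ℝ} (hg : Integrable g sph) (u : V) :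
    ∫ v, kN n u v * (f u * g v) ∂sph =
      S6_c n * ∑ p : Fin n → Fin 4, S6_mo p g * (S6_ph p u * f u) := by
  have h : (fun v => kN n u v * (f u * g v)) =
      fun v => ∑ p : Fin n → Fin 4, (S6_c n * S6_ph p u * f u) * (S6_ph p v * g v) := by
    funext v
    rw [S6_kN, Finset.mul_sum, Finset.sum_mul]
    exact Finset.sum_congr rfl fun p _ => by ring
  rw [h, integral_finsetSum _ fun p _ => (S6_int p hg).const_mul _, Finset.mul_sum]
  refine Finset.sum_congr rfl fun p _ => ?_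
  rw [integral_const_mul]
  show _ * S6_mo p g = _
  ring

theorem S6_outer_int (n : ℕ) {f g : V → ℝ} (hf : Integrable f sph) (hg : Integrable g sph) :
    Integrable (fun u => ∫ v, kN n u v * (f u * g v) ∂sph) sph := by
  simp_rw [S6_inner_val n hg]
  exact (integrable_finsetSum _ fun p _ => (S6_int p hf).const_mul _).const_mul _

theorem S6_outer_val (n : ℕ) {f g : V → ℝ} (hf : Integrable f sph) (hg : Integrable g sph) :
    ∫ u, ∫ v, kN n u v * (f u * g v) ∂sph ∂sph =
      S6_c n * ∑ p : Fin n → Fin 4, S6_mo p f * S6_mo p g := by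
  simp_rw [S6_inner_val n hg]
  rw [integral_const_mul, integral_finsetSum _ fun p _ => (S6_int p hf).const_mul _]
  congr 1
  refine Finset.sum_congr rfl fun p _ => ?_
  rw [integral_const_mul]
  show _ * S6_mo p f = _
  ring

theorem S6_CC (m n : ℕ) (u v : V) : CC m n u v = (1 / 2) ^ m * (1 / 2) ^ n *
    ∑ p : Fin m → Fin 4, ∑ q : Fin n → Fin 4, S6_ph p u * S6_mo p (S6_ph q) * S6_ph q v := by
  have h : (fun w => ((1 + ip u w) / 2) ^ m * ((1 + ip v w) / 2) ^ n) =
      fun w => ∑ p : Fin m → Fin 4, ∑ q : Fin n → Fin 4,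
        ((1 / 2) ^ m * (1 / 2) ^ n * S6_ph p u * S6_ph q v) * (S6_ph p w * S6_ph q w) := by
    funext w
    rw [S6_pow, S6_pow, mul_mul_mul_comm, Finset.sum_mul_sum, Finset.mul_sum]
    refine Finset.sum_congr rfl fun p _ => ?_
    rw [Finset.mul_sum]
    exact Finset.sum_congr rfl fun q _ => by ring
  rw [CC, h, integral_finsetSum _ fun p _ => integrable_finsetSum _ fun q _ =>
    (S6_int p (S6_ph_int q)).const_mul _, Finset.mul_sum]
  refine Finset.sum_congr rfl fun p _ => ?_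
  rw [integral_finsetSum _ fun q _ => (S6_int p (S6_ph_int q)).const_mul _, Finset.mul_sum]
  refine Finset.sum_congr rfl fun q _ => ?_
  rw [integral_const_mul]
  show _ * S6_mo p (S6_ph q) = _
  ring

theorem S6_double (m n : ℕ) {f g : V → ℝ} (hf : Integrable f sph) (hg : Integrable g sph) :
    ∫ u, ∫ v, f u * (g v * CC m n u v) ∂sph ∂sph = (1 / 2) ^ m * (1 / 2) ^ n *
      ∑ p : Fin m → Fin 4, ∑ q : Fin n → Fin 4, S6_mo p f * S6_mo p (S6_ph q) * S6_mo q g := by
  have h1 : ∀ u, ∫ v, f u * (g v * CC m n u v) ∂sph = ∑ p : Fin m → Fin 4, ∑ q : Fin n → Fin 4,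
      ((1 / 2) ^ m * (1 / 2) ^ n * S6_mo p (S6_ph q) * S6_mo q g) * (S6_ph p u * f u) := by
    intro u
    have h : (fun v => f u * (g v * CC m n u v)) =
        fun v => ∑ p : Fin m → Fin 4, ∑ q : Fin n → Fin 4,
          ((1 / 2) ^ m * (1 / 2) ^ n * S6_ph p u * S6_mo p (S6_ph q) * f u) *
            (S6_ph q v * g v) := by
      funext v
      rw [S6_CC, Finset.mul_sum, Finset.mul_sum, Finset.mul_sum]
      refine Finset.sum_congr rfl fun p _ => ?_
      rw [Finset.mul_sum, Finset.mul_sum, Finset.mul_sum]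
      exact Finset.sum_congr rfl fun q _ => by ring
    rw [h, integral_finsetSum _ fun p _ => integrable_finsetSum _ fun q _ =>
      (S6_int q hg).const_mul _]
    refine Finset.sum_congr rfl fun p _ => ?_
    rw [integral_finsetSum _ fun q _ => (S6_int q hg).const_mul _]
    refine Finset.sum_congr rfl fun q _ => ?_
    rw [integral_const_mul]
    show _ * S6_mo q g = _
    ring
  simp_rw [h1]
  rw [integral_finsetSum _ fun p _ => integrable_finsetSum _ fun q _ =>
      (S6_int p hf).const_mul _, Finset.mul_sum]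
  refine Finset.sum_congr rfl fun p _ => ?_
  rw [integral_finsetSum _ fun q _ => (S6_int p hf).const_mul _, Finset.mul_sum]
  refine Finset.sum_congr rfl fun q _ => ?_
  rw [integral_const_mul]
  show _ * S6_mo p f = _
  ring

/-- the monomial as an element of `L²` -/
def S6_F {n : ℕ} (p : Fin n → Fin 4) : Lp ℝ 2 sph := (S6_mem p).toLp _

/-- the operator -/
def S6_K (n : ℕ) : Lp ℝ 2 sph →L[ℝ] Lp ℝ 2 sph :=
  S6_c n • ∑ p : Fin n → Fin 4, (innerSL ℝ (S6_F p)).smulRight (S6_F p)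

theorem S6_K_apply (n : ℕ) (x : Lp ℝ 2 sph) :
    S6_K n x = S6_c n • ∑ p : Fin n → Fin 4, (inner ℝ (S6_F p) x : ℝ) • S6_F p := by
  simp [S6_K]

theorem S6_Lp_int (x : Lp ℝ 2 sph) : Integrable (fun u => x u) sph :=
  (Lp.memLp x).integrable (by norm_num)

theorem S6_F_inner {n : ℕ} (p : Fin n → Fin 4) (x : Lp ℝ 2 sph) :
    (inner ℝ (S6_F p) x : ℝ) = S6_mo p (fun u => x u) := by
  rw [L2.inner_def, S6_mo]
  refine integral_congr_ae ?_
  filter_upwards [(S6_mem p).coeFn_toLp] with u hu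
  show inner ℝ ((S6_F p) u) (x u) = _
  rw [S6_F, hu]
  simp [mul_comm]

theorem S6_F_F {m n : ℕ} (p : Fin m → Fin 4) (q : Fin n → Fin 4) :
    (inner ℝ (S6_F p) (S6_F q) : ℝ) = S6_mo p (S6_ph q) := by
  rw [S6_F_inner, S6_mo, S6_mo]
  refine integral_congr_ae ?_
  filter_upwards [(S6_mem q).coeFn_toLp] with u hu
  show S6_ph p u * (S6_F q) u = _
  rw [S6_F, hu]

theorem S6_inner_K (n : ℕ) (y x : Lp ℝ 2 sph) : (inner ℝ y (S6_K n x) : ℝ) =
    S6_c n * ∑ p : Fin n → Fin 4, S6_mo p (fun u => y u) * S6_mo p (fun u => x u) := by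
  rw [S6_K_apply, inner_smul_right, inner_sum]
  congr 1
  refine Finset.sum_congr rfl fun p _ => ?_
  rw [inner_smul_right, real_inner_comm (S6_F p) y, S6_F_inner, S6_F_inner]
  ring

theorem S6_inner_KK (m n : ℕ) (y x : Lp ℝ 2 sph) : (inner ℝ y (S6_K m (S6_K n x)) : ℝ) =
    (S6_c m * 2 ^ m) * (S6_c n * 2 ^ n) *
      ∫ u, ∫ v, (y u) * (x v * CC m n u v) ∂sph ∂sph := by
  rw [S6_double m n (S6_Lp_int y) (S6_Lp_int x), S6_K_apply m, inner_smul_right, inner_sum]
  have h : ∀ p : Fin m → Fin 4, (inner ℝ y ((inner ℝ (S6_F p) (S6_K n x) : ℝ) • S6_F p) : ℝ) =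
      S6_c n * ∑ q : Fin n → Fin 4, S6_mo p (fun u => y u) * S6_mo p (S6_ph q) *
        S6_mo q (fun u => x u) := by
    intro p
    rw [inner_smul_right, real_inner_comm (S6_F p) y, S6_F_inner p y, S6_K_apply, inner_smul_right, inner_sum,
      mul_assoc, Finset.sum_mul]
    congr 1
    refine Finset.sum_congr rfl fun q _ => ?_
    rw [inner_smul_right, S6_F_inner, S6_F_F]
    ring
  simp_rw [h]
  rw [← Finset.mul_sum]
  have e : (2 : ℝ) ^ m * (1 / 2) ^ m = 1 := by rw [← mul_pow]; norm_num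
  have e' : (2 : ℝ) ^ n * (1 / 2) ^ n = 1 := by rw [← mul_pow]; norm_num
  generalize ∑ p : Fin m → Fin 4, ∑ q : Fin n → Fin 4, S6_mo p (fun u => y u) *
    S6_mo p (S6_ph q) * S6_mo q (fun u => x u) = S
  calc S6_c m * (S6_c n * S) = S6_c m * (S6_c n * S) * 1 * 1 := by ring
    _ = S6_c m * (S6_c n * S) * ((2 : ℝ) ^ m * (1 / 2) ^ m) * ((2 : ℝ) ^ n * (1 / 2) ^ n) := by
        rw [e, e']
    _ = _ := by ring

theorem S6_sym (n : ℕ) (x y : Lp ℝ 2 sph) :
    (inner ℝ (S6_K n x) y : ℝ) = inner ℝ x (S6_K n y) := by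
  rw [real_inner_comm, S6_inner_K, S6_inner_K]
  congr 1
  exact Finset.sum_congr rfl fun p _ => mul_comm _ _

theorem S6_congr (m n : ℕ) (x y : Lp ℝ 2 sph)
    (F : V → V → ℝ) (hF : ∀ a b : V, ‖a‖ = 1 → ‖b‖ = 1 → CC m n a b = F a b) :
    ∫ u, ∫ v, (y u) * (x v * CC m n u v) ∂sph ∂sph = ∫ u, ∫ v, (y u) * (x v * F u v) ∂sph ∂sph := by
  refine integral_congr_ae ?_
  filter_upwards [S1b] with u hu
  refine integral_congr_ae ?_
  filter_upwards [S1b] with v hv
  rw [hF u v hu hv]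

theorem S6_comm (m n : ℕ) (x : Lp ℝ 2 sph) : S6_K m (S6_K n x) = S6_K n (S6_K m x) := by
  refine ext_inner_left ℝ fun y => ?_
  rw [S6_inner_KK, S6_inner_KK, mul_comm (S6_c m * 2 ^ m)]
  congr 1
  refine S6_congr m n x y (fun a b => CC n m a b) fun a b ha hb => ?_
  rw [S5b m n a b ha hb, CC, CC]
  congr 1
  funext w
  ring

theorem S6_double_int_inner (m n : ℕ) {f g : V → ℝ} (hg : Integrable g sph) (u : V) :
    Integrable (fun v => f u * (g v * CC m n u v)) sph := by
  have h : (fun v => f u * (g v * CC m n u v)) =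
      fun v => ∑ p : Fin m → Fin 4, ∑ q : Fin n → Fin 4,
        ((1 / 2) ^ m * (1 / 2) ^ n * S6_ph p u * S6_mo p (S6_ph q) * f u) *
          (S6_ph q v * g v) := by
    funext v
    rw [S6_CC, Finset.mul_sum, Finset.mul_sum, Finset.mul_sum]
    refine Finset.sum_congr rfl fun p _ => ?_
    rw [Finset.mul_sum, Finset.mul_sum, Finset.mul_sum]
    exact Finset.sum_congr rfl fun q _ => by ring
  rw [h]
  exact integrable_finsetSum _ fun p _ => integrable_finsetSum _ fun q _ =>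
    (S6_int q hg).const_mul _

theorem S6_double_int_outer (m n : ℕ) {f g : V → ℝ} (hf : Integrable f sph)
    (hg : Integrable g sph) :
    Integrable (fun u => ∫ v, f u * (g v * CC m n u v) ∂sph) sph := by
  have h1 : ∀ u, ∫ v, f u * (g v * CC m n u v) ∂sph = ∑ p : Fin m → Fin 4, ∑ q : Fin n → Fin 4,
      ((1 / 2) ^ m * (1 / 2) ^ n * S6_mo p (S6_ph q) * S6_mo q g) * (S6_ph p u * f u) := by
    intro u
    have h : (fun v => f u * (g v * CC m n u v)) =
        fun v => ∑ p : Fin m → Fin 4, ∑ q : Fin n → Fin 4,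
          ((1 / 2) ^ m * (1 / 2) ^ n * S6_ph p u * S6_mo p (S6_ph q) * f u) *
            (S6_ph q v * g v) := by
      funext v
      rw [S6_CC, Finset.mul_sum, Finset.mul_sum, Finset.mul_sum]
      refine Finset.sum_congr rfl fun p _ => ?_
      rw [Finset.mul_sum, Finset.mul_sum, Finset.mul_sum]
      exact Finset.sum_congr rfl fun q _ => by ring
    rw [h, integral_finsetSum _ fun p _ => integrable_finsetSum _ fun q _ =>
      (S6_int q hg).const_mul _]
    refine Finset.sum_congr rfl fun p _ => ?_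
    rw [integral_finsetSum _ fun q _ => (S6_int q hg).const_mul _]
    refine Finset.sum_congr rfl fun q _ => ?_
    rw [integral_const_mul]
    show _ * S6_mo q g = _
    ring
  simp_rw [h1]
  exact integrable_finsetSum _ fun p _ => integrable_finsetSum _ fun q _ =>
    (S6_int p hf).const_mul _

theorem S6_c_pow (n : ℕ) : S6_c n * 2 ^ n = ((n : ℝ) + 1) / (4 * π) := by
  have e : (1 / 2 : ℝ) ^ n * 2 ^ n = 1 := by rw [← mul_pow]; norm_num
  rw [S6_c, mul_assoc, e, mul_one]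

theorem S6_rec (M M' : ℕ) (x : Lp ℝ 2 sph) :
    (((M : ℝ) + 1) * (M + 2) - ((M' : ℝ) + 1) * (M' + 2)) • S6_K (M + 1) (S6_K (M' + 1) x) =
      (((M : ℝ) + 1) * (M + 2)) • S6_K M (S6_K (M' + 1) x) -
        (((M' : ℝ) + 1) * (M' + 2)) • S6_K (M + 1) (S6_K M' x) := by
  refine ext_inner_left ℝ fun y => ?_
  rw [inner_sub_right, inner_smul_right, inner_smul_right, inner_smul_right, S6_inner_KK,
    S6_inner_KK, S6_inner_KK, S6_c_pow, S6_c_pow, S6_c_pow, S6_c_pow]
  have hy := S6_Lp_int y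
  have hx := S6_Lp_int x
  have key : (((M : ℝ) + 1) * (M + 2) - ((M' : ℝ) + 1) * (M' + 2)) *
      (∫ u, ∫ v, (y u) * (x v * CC (M + 1) (M' + 1) u v) ∂sph ∂sph) =
      ((M : ℝ) + 1) ^ 2 * (∫ u, ∫ v, (y u) * (x v * CC M (M' + 1) u v) ∂sph ∂sph) -
      ((M' : ℝ) + 1) ^ 2 * (∫ u, ∫ v, (y u) * (x v * CC (M + 1) M' u v) ∂sph ∂sph) := by
    rw [← integral_const_mul, ← integral_const_mul, ← integral_const_mul,
      ← integral_sub ((S6_double_int_outer M (M' + 1) hy hx).const_mul _)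
        ((S6_double_int_outer (M + 1) M' hy hx).const_mul _)]
    refine integral_congr_ae ?_
    filter_upwards [S1b] with u hu
    rw [← integral_const_mul, ← integral_const_mul, ← integral_const_mul,
      ← integral_sub ((S6_double_int_inner M (M' + 1) hx u).const_mul _)
        ((S6_double_int_inner (M + 1) M' hx u).const_mul _)]
    refine integral_congr_ae ?_
    filter_upwards [S1b] with v hv
    have := S5 M M' u v hu hv
    calc (((M : ℝ) + 1) * (M + 2) - ((M' : ℝ) + 1) * (M' + 2)) *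
          ((y u) * (x v * CC (M + 1) (M' + 1) u v))
        = (y u) * x v * ((((M : ℝ) + 1) * (M + 2) - ((M' : ℝ) + 1) * (M' + 2)) *
            CC (M + 1) (M' + 1) u v) := by ring
      _ = _ := by rw [this]; ring
  generalize (∫ u, ∫ v, (y u) * (x v * CC (M + 1) (M' + 1) u v) ∂sph ∂sph) = A at *
  generalize (∫ u, ∫ v, (y u) * (x v * CC M (M' + 1) u v) ∂sph ∂sph) = B at *
  generalize (∫ u, ∫ v, (y u) * (x v * CC (M + 1) M' u v) ∂sph ∂sph) = C at *
  push_cast
  have hp : (4 * π : ℝ) ≠ 0 := by positivity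
  field_simp
  linear_combination (((M : ℝ) + 2) * ((M' : ℝ) + 2)) * key

theorem S6_fin (n : ℕ) :
    FiniteDimensional ℝ (LinearMap.range (S6_K n : Lp ℝ 2 sph →ₗ[ℝ] Lp ℝ 2 sph)) := by
  have h : LinearMap.range (S6_K n : Lp ℝ 2 sph →ₗ[ℝ] Lp ℝ 2 sph) ≤
      Submodule.span ℝ (Set.range (fun p : Fin n → Fin 4 => S6_F p)) := by
    rintro _ ⟨x, rfl⟩
    show S6_K n x ∈ _
    rw [S6_K_apply]
    refine Submodule.smul_mem _ _ (Submodule.sum_mem _ fun p _ => Submodule.smul_mem _ _ ?_)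
    exact Submodule.subset_span ⟨p, rfl⟩
  have : FiniteDimensional ℝ (Submodule.span ℝ (Set.range (fun p : Fin n → Fin 4 => S6_F p))) :=
    FiniteDimensional.span_of_finite ℝ (Set.finite_range _)
  exact Submodule.finiteDimensional_of_le h

theorem S6_norm (x : Lp ℝ 2 sph) : ‖x‖ ^ 2 = ∫ u, (x u) ^ 2 ∂sph := by
  rw [← real_inner_self_eq_norm_sq, L2.inner_def]
  congr 1
  funext u
  simp [pow_two]

theorem S6_sq_int (x : Lp ℝ 2 sph) : Integrable (fun u => (x u) ^ 2) sph :=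
  (Lp.memLp x).integrable_sq

theorem S6_kN_nonneg (n : ℕ) {u v : V} (hu : ‖u‖ = 1) (hv : ‖v‖ = 1) : 0 ≤ kN n u v := by
  have h1 : -1 ≤ ip u v := by
    have := neg_le_of_abs_le (abs_real_inner_le_norm u v)
    rw [hu, hv] at this
    simpa using this
  unfold kN
  have : 0 ≤ (1 + ip u v) / 2 := by linarith
  positivity

theorem S6_one (n : ℕ) {f : V → ℝ} (hf : Integrable f sph) :
    S6_c n * ∑ p : Fin n → Fin 4, S6_mo p f * S6_mo p (fun _ => (1 : ℝ)) = ∫ u, f u ∂sph := by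
  rw [← S6_outer_val n hf (integrable_const 1)]
  refine integral_congr_ae ?_
  filter_upwards [S1b] with u hu
  have h : (fun v => kN n u v * (f u * 1)) = fun v => f u * kN n u v := by
    funext v; ring
  simp only [h]
  rw [integral_const_mul, S3e n u hu, mul_one]

theorem S6_three {a b c : V → ℝ} (ha : Integrable a sph) (hb : Integrable b sph)
    (hc : Integrable c sph) : ∫ u, (a u - 2 * b u + c u) ∂sph =
      (∫ u, a u ∂sph) - 2 * (∫ u, b u ∂sph) + ∫ u, c u ∂sph := by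
  have h1 : Integrable (fun u => 2 * b u) sph := hb.const_mul 2
  have h2 : Integrable (fun u => a u - 2 * b u) sph := ha.sub h1
  rw [integral_add h2 hc, integral_sub ha h1, integral_const_mul]

theorem S6_con (n : ℕ) (x : Lp ℝ 2 sph) : ‖S6_K n x‖ ≤ ‖x‖ := by
  set y := S6_K n x with hy
  have hyi := S6_Lp_int y
  have hxi := S6_Lp_int x
  have hyi2 := S6_sq_int y
  have hxi2 := S6_sq_int x
  have h1 : (∫ u, ∫ v, kN n u v * ((y u) ^ 2 * (1 : ℝ)) ∂sph ∂sph) = ∫ u, (y u) ^ 2 ∂sph := by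
    rw [S6_outer_val n (f := fun u => (y u) ^ 2) (g := fun _ => (1 : ℝ)) hyi2 (integrable_const 1),
      S6_one n hyi2]
  have h2 : (∫ u, ∫ v, kN n u v * ((1 : ℝ) * (x v) ^ 2) ∂sph ∂sph) = ∫ u, (x u) ^ 2 ∂sph := by
    rw [S6_outer_val n (f := fun _ => (1 : ℝ)) (g := fun v => (x v) ^ 2) (integrable_const 1) hxi2,
      ← S6_one n hxi2]
    congr 1
    exact Finset.sum_congr rfl fun p _ => mul_comm _ _
  have h3 : (∫ u, ∫ v, kN n u v * (y u * x v) ∂sph ∂sph) = ‖y‖ ^ 2 := by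
    rw [S6_outer_val n hyi hxi, ← S6_inner_K n y x, ← hy, real_inner_self_eq_norm_sq]
  have h4 : 0 ≤ ∫ u, ∫ v, kN n u v * (y u - x v) ^ 2 ∂sph ∂sph := by
    refine integral_nonneg_of_ae ?_
    filter_upwards [S1b] with u hu
    refine integral_nonneg_of_ae ?_
    filter_upwards [S1b] with v hv
    exact mul_nonneg (S6_kN_nonneg n hu hv) (sq_nonneg _)
  have h5 : (∫ u, ∫ v, kN n u v * (y u - x v) ^ 2 ∂sph ∂sph) =
      (∫ u, ∫ v, kN n u v * ((y u) ^ 2 * (1 : ℝ)) ∂sph ∂sph) -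
      2 * (∫ u, ∫ v, kN n u v * (y u * x v) ∂sph ∂sph) +
      (∫ u, ∫ v, kN n u v * ((1 : ℝ) * (x v) ^ 2) ∂sph ∂sph) := by
    rw [← S6_three (S6_outer_int n (f := fun u => (y u) ^ 2) (g := fun _ => (1 : ℝ)) hyi2
        (integrable_const 1)) (S6_outer_int n hyi hxi) (S6_outer_int n (f := fun _ => (1 : ℝ))
        (g := fun v => (x v) ^ 2) (integrable_const 1) hxi2)]
    congr 1
    funext u
    rw [← S6_three (S6_inner_int n (f := fun u => (y u) ^ 2) (g := fun _ => (1 : ℝ))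
        (integrable_const 1) u) (S6_inner_int n (f := fun u => y u) hxi u)
        (S6_inner_int n (f := fun _ => (1 : ℝ)) (g := fun v => (x v) ^ 2) hxi2 u)]
    congr 1
    funext v
    ring
  have h6 : ‖y‖ ^ 2 ≤ ‖x‖ ^ 2 := by
    rw [h5, h1, h2, h3, ← S6_norm, ← S6_norm] at h4
    linarith
  exact (sq_le_sq₀ (norm_nonneg _) (norm_nonneg _)).1 h6

theorem S6_zero (n : ℕ) (x : Lp ℝ 2 sph)
    (h : ∀ u : V, ∫ v, kN n u v * x v ∂sph = 0) : S6_K n x = 0 := by
  refine ext_inner_left ℝ fun y => ?_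
  rw [S6_inner_K, ← S6_outer_val n (S6_Lp_int y) (S6_Lp_int x), inner_zero_right]
  have : ∀ u : V, ∫ v, kN n u v * (y u * x v) ∂sph = 0 := by
    intro u
    have e : (fun v => kN n u v * (y u * x v)) = fun v => y u * (kN n u v * x v) := by
      funext v; ring
    rw [e, integral_const_mul, h u, mul_zero]
  simp [this]

/-- BLOCK S6: the spectral inequality. `H = Lp ℝ 2 sph`, `K n` = integral operator with kernel `kN n`
(finite rank: `((1+u.v)/2)^n` is a sum of products of monomials), symmetric, commuting by S5b, contractions by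
S3e and Cauchy-Schwarz; `K (M+1) (K (M'+1) x)` has kernel `(M+2)(M'+2)/(4π)^2 CC (M+1) (M'+1)`, so `hrec` is S5;
`K 0 x = 0`, `K 1 x = 0` from the hypotheses. -/
theorem S6 (N : ℕ) (s : V → ℝ) (hs : Measurable s) (C : ℝ) (hC : ∀ x, |s x| ≤ C)
    (h0 : ∫ x, s x ∂sph = 0) (h1 : ∀ a : V, ∫ x, s x * ip x a ∂sph = 0) :
    ∫ u, ∫ v, kN N u v * (s u * s v) ∂sph ∂sph ≤
      (N : ℝ) * (N - 1) / ((N + 2) * (N + 3)) * ∫ x, s x ^ 2 ∂sph := by
  have hm : MemLp s 2 sph := MemLp.of_bound hs.aestronglyMeasurable C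
    (Filter.Eventually.of_forall hC)
  have hsi : Integrable s sph := hm.integrable (by norm_num)
  set x : Lp ℝ 2 sph := hm.toLp s with hx
  have hxs : ∀ᵐ u ∂sph, x u = s u := hm.coeFn_toLp
  have hmo : ∀ (n : ℕ) (p : Fin n → Fin 4), S6_mo p (fun u => x u) = S6_mo p s := by
    intro n p
    refine integral_congr_ae ?_
    filter_upwards [hxs] with u hu
    rw [hu]
  have hker : ∀ (n : ℕ) (u : V), ∫ v, kN n u v * x v ∂sph = ∫ v, kN n u v * s v ∂sph := by
    intro n u
    refine integral_congr_ae ?_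
    filter_upwards [hxs] with v hv
    rw [hv]
  have hint : ∀ a : V, Integrable (fun v => s v * ip v a) sph := by
    intro a
    refine hsi.mul_bdd (c := ‖a‖) ?_ ?_
    · exact (continuous_id.inner continuous_const).aestronglyMeasurable
    · filter_upwards [S1b] with v hv
      have := norm_inner_le_norm (𝕜 := ℝ) v a
      rwa [hv, one_mul] at this
  have k0 : S6_K 0 x = 0 := by
    refine S6_zero 0 x fun u => ?_
    rw [hker]
    have e : (fun v => kN 0 u v * s v) = fun v => (1 / (4 * π)) * s v := by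
      funext v; simp [kN]
    rw [e, integral_const_mul, h0, mul_zero]
  have k1 : S6_K 1 x = 0 := by
    refine S6_zero 1 x fun u => ?_
    rw [hker]
    have e : (fun v => kN 1 u v * s v) = fun v => (1 / (4 * π)) * (s v + s v * ip v u) := by
      funext v; rw [kN, show ip u v = ip v u from real_inner_comm _ _]; push_cast; ring
    rw [e, integral_const_mul, integral_add hsi (hint u), h0, h1 u]
    simp
  have key := S6a S6_K S6_sym S6_comm S6_con S6_fin S6_rec x k0 k1 N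
  have e1 : (inner ℝ x (S6_K N x) : ℝ) = ∫ u, ∫ v, kN N u v * (s u * s v) ∂sph ∂sph := by
    rw [S6_inner_K, S6_outer_val N hsi hsi]
    simp_rw [hmo]
  have e2 : ‖x‖ ^ 2 = ∫ u, s u ^ 2 ∂sph := by
    rw [S6_norm]
    refine integral_congr_ae ?_
    filter_upwards [hxs] with u hu
    rw [hu]
  rw [e1, e2] at key
  exact key

end Iso
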